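import Pool.Agent.Helper5.NM.Defs

set_option autoImplicit false

open Finset Function

namespace Pool.Agent.Helper5.NM

open Let

/-! Module B1: letter counts of the faces of a word. -/

theorem B1_modK (a : Let) (r : Word) (x : Let) (w : Word) : ∀ k : ℕ, k < w.count a →
    (modK a r k w).count x + (if x = a then 1 else 0) = w.count x + r.count x := by
  induction w with
  | nil =>
    intro k hk
    simp at hk
  | cons b w ih =>
    intro k hk
    by_cases hb : b = a
    · subst hb
      by_cases h0 : k = 0
      · subst h0
        simp only [modK, if_true, List.count_append, List.count_cons, beq_iff_eq]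
        by_cases hx : x = b
        · subst hx
          simp
          omega
        · have : ¬ b = x := fun h => hx h.symm
          simp [hx, this]
          omega
      · have hk' : k - 1 < w.count b := by
          rw [List.count_cons_self] at hk
          omega
        have := ih (k - 1) hk'
        simp only [modK, if_true, h0, if_false, List.count_cons]
        omega
    · have hk' : k < w.count a := by
        rw [List.count_cons_of_ne hb] at hk
        exact hk
      have := ih k hk'
      simp only [modK, hb, if_false, List.count_cons]
      omega

theorem count_fO (w : Word) (k : ℕ) (hk : k < w.count O) (hb : w.count C = w.count O) :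
    (fO k w).count O + 1 = w.count O ∧ (fO k w).count C + 1 = w.count C ∧
      (fO k w).count S = w.count S + 1 := by
  have h1 := B1_modK O [S] O w k hk
  have h2 := B1_modK O [S] C w k hk
  have h3 := B1_modK O [S] S w k hk
  simp at h1 h2 h3
  have hk' : k < (modK O [S] k w).count C := by omega
  have h4 := B1_modK C [] O (modK O [S] k w) k hk'
  have h5 := B1_modK C [] C (modK O [S] k w) k hk'
  have h6 := B1_modK C [] S (modK O [S] k w) k hk'
  simp at h4 h5 h6
  unfold fO
  omega

theorem count_fC (w : Word) (k : ℕ) (hk : k < w.count O) (hb : w.count C = w.count O) :
    (fC k w).count O + 1 = w.count O ∧ (fC k w).count C + 1 = w.count C ∧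
      (fC k w).count S = w.count S + 1 := by
  have h1 := B1_modK C [S] O w k (by omega)
  have h2 := B1_modK C [S] C w k (by omega)
  have h3 := B1_modK C [S] S w k (by omega)
  simp at h1 h2 h3
  have hk' : k < (modK C [S] k w).count O := by omega
  have h4 := B1_modK O [] O (modK C [S] k w) k hk'
  have h5 := B1_modK O [] C (modK C [S] k w) k hk'
  have h6 := B1_modK O [] S (modK C [S] k w) k hk'
  simp at h4 h5 h6
  unfold fC
  omega

theorem wt_fO (w : Word) (k : ℕ) (hk : k < w.count O) (hb : w.count C = w.count O) :
    wt (fO k w) = wt w := by
  have := count_fO w k hk hb
  unfold wt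
  omega

theorem wt_fC (w : Word) (k : ℕ) (hk : k < w.count O) (hb : w.count C = w.count O) :
    wt (fC k w) = wt w := by
  have := count_fC w k hk hb
  unfold wt
  omega

end Pool.Agent.Helper5.NM
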