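import Pool.Agent.Helper5.NM.Defs
import Pool.Agent.Helper5.NM.B1

set_option autoImplicit false

open Finset Function

namespace Pool.Agent.Helper5.NM

open Let

section
variable {K : Type*} [CommRing K]

/-! Module B3: faces of balanced words are balanced, faces of words of `L` are in `L`. -/

theorem B3_modK (a : Let) (r : Word) (p q : Word) :
    modK a r (p.count a) (p ++ a :: q) = p ++ (r ++ q) := by
  induction p with
  | nil => simp [modK]
  | cons b p ih =>
    by_cases hb : b = a
    · subst hb
      rw [List.count_cons_self, List.cons_append]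
      simp only [modK, if_true, Nat.add_eq_zero_iff, one_ne_zero, and_false, if_false,
        Nat.add_sub_cancel]
      rw [ih, List.cons_append]
    · rw [List.count_cons_of_ne hb, List.cons_append]
      simp only [modK, hb, if_false]
      rw [ih, List.cons_append]

theorem B3_occ (a : Let) (w : Word) (k : ℕ) (hk : k < w.count a) :
    ∃ p q : Word, w = p ++ a :: q ∧ p.count a = k := by
  induction w generalizing k with
  | nil => simp at hk
  | cons b w ih =>
    by_cases hb : b = a
    · subst hb
      rw [List.count_cons_self] at hk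
      cases k with
      | zero => exact ⟨[], w, rfl, rfl⟩
      | succ k =>
        obtain ⟨p, q, h1, h2⟩ := ih k (by omega)
        exact ⟨b :: p, q, by rw [h1, List.cons_append], by rw [List.count_cons_self, h2]⟩
    · rw [List.count_cons_of_ne hb] at hk
      obtain ⟨p, q, h1, h2⟩ := ih k hk
      exact ⟨b :: p, q, by rw [h1, List.cons_append], by rw [List.count_cons_of_ne hb, h2]⟩

/-- the position of a pair of letters -/
theorem B3_split (w : Word) (k : ℕ) (hk : k < w.count O) (hb : Bal w) :
    ∃ p q r : Word, w = p ++ O :: (q ++ C :: r) ∧ p.count O = k ∧ p.count C + q.count C = k := by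
  obtain ⟨p, q', h1, h2⟩ := B3_occ O w k hk
  have h3 := hb.2 p.length
  have h4 : w.take p.length = p := by rw [h1]; simp
  rw [h4, h2] at h3
  have h5 : w.count C = p.count C + q'.count C := by
    rw [h1, List.count_append, List.count_cons_of_ne (by decide)]
  have h6 := hb.1
  obtain ⟨q, r, h7, h8⟩ := B3_occ C q' (k - p.count C) (by omega)
  exact ⟨p, q, r, by rw [h1, h7], h2, by omega⟩

theorem B3_fO (p q r : Word) (k : ℕ) (hp : p.count O = k) (hq : p.count C + q.count C = k) :
    fO k (p ++ O :: (q ++ C :: r)) = p ++ S :: (q ++ r) := by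
  unfold fO
  have h1 := B3_modK O [S] p (q ++ C :: r)
  rw [hp] at h1
  rw [h1]
  have h2 := B3_modK C [] (p ++ S :: q) r
  have h3 : (p ++ S :: q).count C = k := by
    rw [List.count_append, List.count_cons_of_ne (by decide)]
    exact hq
  rw [h3] at h2
  simpa using h2

theorem B3_fC (p q r : Word) (k : ℕ) (hp : p.count O = k) (hq : p.count C + q.count C = k) :
    fC k (p ++ O :: (q ++ C :: r)) = p ++ (q ++ S :: r) := by
  unfold fC
  have h1 := B3_modK C [S] (p ++ O :: q) r
  have h3 : (p ++ O :: q).count C = k := by
    rw [List.count_append, List.count_cons_of_ne (by decide)]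
    exact hq
  rw [h3] at h1
  have h4 : p ++ O :: (q ++ C :: r) = p ++ O :: q ++ C :: r := by simp
  rw [h4, h1]
  have h2 := B3_modK O [] p (q ++ ([S] ++ r))
  rw [hp] at h2
  simpa using h2

theorem B3_bal_iff (w : Word) : Bal w ↔ w.count C = w.count O ∧
    ∀ u : Word, u <+: w → u.count C ≤ u.count O := by
  unfold Bal
  constructor
  · rintro ⟨h1, h2⟩
    refine ⟨h1, fun u hu => ?_⟩
    have := h2 u.length
    rwa [← List.prefix_iff_eq_take.1 hu] at this
  · rintro ⟨h1, h2⟩
    exact ⟨h1, fun i => h2 _ (List.take_prefix i w)⟩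

theorem B3_prefix (u p q : Word) (h : u <+: p ++ q) :
    u <+: p ∨ ∃ q1, q1 <+: q ∧ u = p ++ q1 := by
  rcases List.prefix_or_prefix_of_prefix h (List.prefix_append p q) with h1 | ⟨q1, h1⟩
  · exact Or.inl h1
  · right
    refine ⟨q1, ?_, h1.symm⟩
    rw [← h1] at h
    exact (List.prefix_append_right_inj p).1 h

theorem bal_fO (w : Word) (k : ℕ) (hk : k < w.count O) (hb : Bal w) : Bal (fO k w) := by
  have hc := count_fO w k hk hb.1
  obtain ⟨p, q, r, rfl, hp, hq⟩ := B3_split w k hk hb
  rw [B3_bal_iff]
  have hcc := hb.1
  refine ⟨by omega, ?_⟩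
  rw [B3_fO p q r k hp hq]
  have hpre := ((B3_bal_iff _).1 hb).2
  intro u hu
  rcases B3_prefix u p _ hu with h | ⟨q1, h, rfl⟩
  · exact hpre u (h.trans (List.prefix_append _ _))
  · cases q1 with
    | nil =>
      rw [List.append_nil]
      exact hpre p (List.prefix_append _ _)
    | cons b q1 =>
      obtain ⟨rfl, h'⟩ := List.cons_prefix_cons.1 h
      rcases B3_prefix q1 q r h' with h2 | ⟨r1, h2, rfl⟩
      · have h3 : q1.count C ≤ q.count C := h2.sublist.count_le C
        rw [List.count_append, List.count_append, List.count_cons_of_ne (by decide),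
          List.count_cons_of_ne (by decide)]
        omega
      · have h3 := hpre (p ++ O :: (q ++ C :: r1)) (by
          rw [List.prefix_append_right_inj, List.cons_prefix_cons, List.prefix_append_right_inj,
            List.cons_prefix_cons]
          exact ⟨rfl, rfl, h2⟩)
        simp only [List.count_append, List.count_cons_self,
          List.count_cons_of_ne (show O ≠ C by decide),
          List.count_cons_of_ne (show C ≠ O by decide)] at h3
        simp only [List.count_append, List.count_cons_of_ne (show S ≠ C by decide),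
          List.count_cons_of_ne (show S ≠ O by decide)]
        omega

theorem bal_fC (w : Word) (k : ℕ) (hk : k < w.count O) (hb : Bal w) : Bal (fC k w) := by
  have hc := count_fC w k hk hb.1
  obtain ⟨p, q, r, rfl, hp, hq⟩ := B3_split w k hk hb
  rw [B3_bal_iff]
  have hcc := hb.1
  refine ⟨by omega, ?_⟩
  rw [B3_fC p q r k hp hq]
  have hpre := ((B3_bal_iff _).1 hb).2
  intro u hu
  rcases B3_prefix u p _ hu with h | ⟨q1, h, rfl⟩
  · exact hpre u (h.trans (List.prefix_append _ _))
  · rcases B3_prefix q1 q _ h with h2 | ⟨r1, h2, rfl⟩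
    · have h3 : q1.count C ≤ q.count C := h2.sublist.count_le C
      rw [List.count_append, List.count_append]
      omega
    · cases r1 with
      | nil =>
        rw [List.append_nil, List.count_append, List.count_append]
        omega
      | cons b r1 =>
        obtain ⟨rfl, h'⟩ := List.cons_prefix_cons.1 h2
        have h3 := hpre (p ++ O :: (q ++ C :: r1)) (by
          rw [List.prefix_append_right_inj, List.cons_prefix_cons, List.prefix_append_right_inj,
            List.cons_prefix_cons]
          exact ⟨rfl, rfl, h'⟩)
        simp only [List.count_append, List.count_cons_self,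
          List.count_cons_of_ne (show O ≠ C by decide),
          List.count_cons_of_ne (show C ≠ O by decide)] at h3
        simp only [List.count_append, List.count_cons_of_ne (show S ≠ C by decide),
          List.count_cons_of_ne (show S ≠ O by decide)]
        omega

theorem B3_endS_append (u r : Word) (h : EndS r) : EndS (u ++ r) := by
  obtain ⟨p, i, rfl⟩ := h
  exact ⟨u ++ p, i, by rw [List.append_assoc]⟩

theorem B3_endS_rep (r : Word) (b : ℕ) (h : EndS r) : EndS (r ++ List.replicate b C) := by
  obtain ⟨p, i, rfl⟩ := h
  refine ⟨p, i + b, ?_⟩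
  rw [List.append_assoc, List.cons_append, List.replicate_append_replicate]

theorem B3_endS_strip (u : Word) (h : EndS (u ++ [C])) : EndS u := by
  obtain ⟨p, i, h⟩ := h
  cases i with
  | zero =>
    have h1 := (List.append_inj' h rfl).2
    simp at h1
  | succ i =>
    rw [List.replicate_succ', ← List.cons_append, ← List.append_assoc] at h
    exact ⟨p, i, List.append_cancel_right h⟩

theorem B3_endS_strip' (u : Word) (b : ℕ) (h : EndS (u ++ List.replicate b C)) : EndS u := by
  induction b with
  | zero => simpa using h
  | succ b ih =>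
    apply ih
    apply B3_endS_strip
    rwa [List.append_assoc, ← List.replicate_succ']

theorem B3_suffix (u r : Word) (h : EndS (u ++ r)) : (∃ b, r = List.replicate b C) ∨ EndS r := by
  obtain ⟨p, i, h⟩ := h
  rcases List.append_eq_append_iff.1 h with ⟨a', h1, h2⟩ | ⟨c', h1, h2⟩
  · exact Or.inr ⟨a', i, h2⟩
  · cases c' with
    | nil =>
      right
      exact ⟨[], i, by simpa using h2.symm⟩
    | cons b c' =>
      left
      rw [List.cons_append] at h2
      have h3 : List.replicate i C = c' ++ r := (List.cons_eq_cons.1 h2).2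
      refine ⟨r.length, ?_⟩
      apply List.eq_replicate_of_mem
      intro x hx
      have : x ∈ List.replicate i C := by
        rw [h3]
        exact List.mem_append_right _ hx
      exact List.eq_of_mem_replicate this

theorem endS_fO (w : Word) (k : ℕ) (hk : k < w.count O) (hb : Bal w) (h : EndS w) :
    EndS (fO k w) := by
  obtain ⟨p, q, r, rfl, hp, hq⟩ := B3_split w k hk hb
  rw [B3_fO p q r k hp hq]
  have e1 : p ++ O :: (q ++ C :: r) = (p ++ O :: (q ++ [C])) ++ r := by simp
  have h1 := h
  rw [e1] at h1
  rcases B3_suffix _ _ h1 with ⟨b, rfl⟩ | h2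
  · have e2 : p ++ O :: (q ++ C :: List.replicate b C) =
        (p ++ [O]) ++ (q ++ C :: List.replicate b C) := by simp
    rw [e2] at h
    rcases B3_suffix _ _ h with ⟨c, h3⟩ | h3
    · have h4 : q = List.replicate q.length C := by
        apply List.eq_replicate_of_mem
        intro x hx
        have : x ∈ List.replicate c C := by
          rw [← h3]
          exact List.mem_append_left _ hx
        exact List.eq_of_mem_replicate this
      refine ⟨p, q.length + b, ?_⟩
      rw [← List.replicate_append_replicate, ← h4]
    · rw [← List.replicate_succ] at h3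
      have h4 := B3_endS_strip' _ _ h3
      have h5 := B3_endS_append (p ++ [S]) _ (B3_endS_rep q b h4)
      simpa using h5
  · have h5 := B3_endS_append (p ++ S :: q) _ h2
    simpa using h5

theorem endS_fC (w : Word) (k : ℕ) (hk : k < w.count O) (hb : Bal w) (h : EndS w) :
    EndS (fC k w) := by
  obtain ⟨p, q, r, rfl, hp, hq⟩ := B3_split w k hk hb
  rw [B3_fC p q r k hp hq]
  have e1 : p ++ O :: (q ++ C :: r) = (p ++ O :: (q ++ [C])) ++ r := by simp
  rw [e1] at h
  rcases B3_suffix _ _ h with ⟨b, rfl⟩ | h2
  · exact ⟨p ++ q, b, by simp⟩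
  · have h5 := B3_endS_append (p ++ (q ++ [S])) _ h2
    simpa using h5

/-- the support of the boundary consists of faces -/
theorem mem_support_dW (x : Word →₀ K) (f : Word) (hf : f ∈ (dW K x).support) :
    ∃ w ∈ x.support, ∃ k < w.count O, f = fO k w ∨ f = fC k w := by
  by_contra hcon
  push Not at hcon
  apply Finsupp.mem_support_iff.1 hf
  unfold dW
  rw [Finsupp.linearCombination_apply, Finsupp.sum, Finsupp.finsetSum_apply]
  refine Finset.sum_eq_zero fun w hw => ?_
  rw [Finsupp.smul_apply]
  unfold bdw
  rw [Finsupp.finsetSum_apply, Finset.sum_eq_zero, smul_zero]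
  intro k hk
  rw [Finset.mem_range] at hk
  have h := hcon w hw k hk
  rw [Finsupp.sub_apply, Finsupp.single_eq_of_ne h.1, Finsupp.single_eq_of_ne h.2, sub_zero]

theorem inL_dW (n s : ℕ) (x : Word →₀ K) (hx : ∀ w ∈ x.support, InL n s w) :
    ∀ w ∈ (dW K x).support, InL n (s + 1) w := by
  intro f hf
  obtain ⟨w, hw, k, hk, h⟩ := mem_support_dW x f hf
  obtain ⟨h1, h2, h3, h4⟩ := hx w hw
  rcases h with rfl | rfl
  · refine ⟨bal_fO w k hk h1, (wt_fO w k hk h1.1).trans h2, ?_, endS_fO w k hk h1 h4⟩
    rw [(count_fO w k hk h1.1).2.2, h3]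
  · refine ⟨bal_fC w k hk h1, (wt_fC w k hk h1.1).trans h2, ?_, endS_fC w k hk h1 h4⟩
    rw [(count_fC w k hk h1.1).2.2, h3]

end

end Pool.Agent.Helper5.NM
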