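import Pool.Agent.Helper5.NM.Defs
import Pool.Agent.Helper5.NM.B1

set_option autoImplicit false

open Finset Function

namespace Pool.Agent.Helper5.NM

open Let

section
variable {K : Type*} [CommRing K]

/-! Module B4: the boundary squares to zero. -/

/-- number of letters `c` before the `k`-th occurrence of `a` -/
def B4nL (c a : Let) : ℕ → Word → ℕ
  | _, [] => 0
  | k, b :: w => if b = a then (if k = 0 then 0 else (if b = c then 1 else 0) + B4nL c a (k - 1) w)
      else (if b = c then 1 else 0) + B4nL c a k w

theorem B4_nS (a : Let) (k : ℕ) (w : Word) : nS a k w = B4nL S a k w := by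
  induction w generalizing k with
  | nil => rfl
  | cons b w ih => simp only [nS, B4nL, ih]

theorem B4_modK_append (a : Let) (r w : Word) (k : ℕ) (hr : a ∉ r) :
    modK a w k r = r := by
  induction r generalizing k with
  | nil => rfl
  | cons b r ih =>
    have h1 : b ≠ a := fun h => hr (by simp [h])
    simp only [modK, if_neg h1]
    rw [ih k (fun h => hr (by simp [h]))]

theorem B4_modK_left (a : Let) (r r' w : Word) (k : ℕ) (hr : a ∉ r) :
    modK a r' k (r ++ w) = r ++ modK a r' k w := by
  induction r generalizing k with
  | nil => rfl
  | cons b r ih =>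
    have h1 : b ≠ a := fun h => hr (by simp [h])
    simp only [List.cons_append, modK, if_neg h1]
    rw [ih k (fun h => hr (by simp [h]))]

theorem B4_nL_left (c a : Let) (r w : Word) (k : ℕ) (hr : a ∉ r) :
    B4nL c a k (r ++ w) = r.count c + B4nL c a k w := by
  induction r generalizing k with
  | nil => simp
  | cons b r ih =>
    have h1 : b ≠ a := fun h => hr (by simp [h])
    simp only [List.cons_append, B4nL, if_neg h1]
    rw [ih k (fun h => hr (by simp [h])), List.count_cons]
    by_cases hbc : b = c
    · subst hbc
      simp
      omega
    · have : (b == c) = false := by simpa using hbc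
      simp [hbc, this]

theorem B4_c1 (a : Let) (r r' : Word) (hr : a ∉ r) (hr' : a ∉ r') (w : Word) (j k : ℕ)
    (hjk : j < k) : modK a r j (modK a r' k w) = modK a r' (k - 1) (modK a r j w) := by
  induction w generalizing j k with
  | nil => rfl
  | cons b w ih =>
    by_cases hb : b = a
    · subst hb
      have hk0 : k ≠ 0 := by omega
      simp only [modK, if_true, if_neg hk0]
      by_cases hj : j = 0
      · subst hj
        simp only [if_true]
        rw [B4_modK_left _ _ _ _ _ hr]
      · have hk1 : k - 1 ≠ 0 := by omega
        simp only [if_neg hj, modK, if_true, if_neg hk1]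
        rw [ih (j - 1) (k - 1) (by omega)]
    · simp only [modK, if_neg hb]
      rw [ih j k hjk]

theorem B4_c2 (a b : Let) (hab : a ≠ b) (r r' : Word) (hr : b ∉ r) (hr' : a ∉ r') (w : Word)
    (j k : ℕ) : modK a r j (modK b r' k w) = modK b r' k (modK a r j w) := by
  induction w generalizing j k with
  | nil => rfl
  | cons c w ih =>
    by_cases hca : c = a
    · subst hca
      simp only [modK, if_true, if_neg hab]
      by_cases hj : j = 0
      · subst hj
        simp only [if_true]
        rw [B4_modK_left _ _ _ _ _ hr]
      · simp only [if_neg hj, modK, if_neg hab]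
        rw [ih]
    · by_cases hcb : c = b
      · subst hcb
        simp only [modK, if_true, if_neg hca]
        by_cases hk : k = 0
        · subst hk
          simp only [if_true]
          rw [B4_modK_left _ _ _ _ _ hr']
        · simp only [if_neg hk, modK, if_neg hca]
          rw [ih]
      · simp only [modK, if_neg hca, if_neg hcb]
        rw [ih]

theorem B4_N1 (c a : Let) (r w : Word) (j k : ℕ) (hjk : j < k) :
    B4nL c a j (modK a r k w) = B4nL c a j w := by
  induction w generalizing j k with
  | nil => rfl
  | cons b w ih =>
    by_cases hb : b = a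
    · subst hb
      have hk0 : k ≠ 0 := by omega
      simp only [modK, if_true, if_neg hk0, B4nL]
      by_cases hj : j = 0
      · subst hj
        simp
      · simp only [if_neg hj]
        rw [ih (j - 1) (k - 1) (by omega)]
    · simp only [modK, if_neg hb, B4nL]
      rw [ih j k hjk]

theorem B4_N2 (c a : Let) (hca : c ≠ a) (r w : Word) (hr : a ∉ r) (j k : ℕ) (hjk : j < k)
    (hk : k < w.count a) :
    B4nL c a (k - 1) (modK a r j w) = B4nL c a k w + r.count c := by
  induction w generalizing j k with
  | nil => simp at hk
  | cons b w ih =>
    by_cases hb : b = a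
    · subst hb
      have hk0 : k ≠ 0 := by omega
      rw [List.count_cons_self] at hk
      by_cases hj : j = 0
      · subst hj
        simp only [modK, if_true, B4nL, if_neg hk0, if_neg hca.symm]
        rw [B4_nL_left _ _ _ _ _ hr]
        omega
      · have hk1 : k - 1 ≠ 0 := by omega
        simp only [modK, if_true, if_neg hj, B4nL, if_neg hk0, if_neg hk1]
        rw [ih (j - 1) (k - 1) (by omega) (by omega)]
        omega
    · rw [List.count_cons_of_ne hb] at hk
      simp only [modK, if_neg hb, B4nL]
      rw [ih j k hjk hk]
      omega

theorem B4_N3 (c a b : Let) (hab : a ≠ b) (hcb : c ≠ b) (r w : Word) (hr : a ∉ r) (j k : ℕ) :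
    B4nL c a j (modK b r k w) =
      B4nL c a j w + (if k < B4nL b a j w then r.count c else 0) := by
  induction w generalizing j k with
  | nil => simp [modK, B4nL]
  | cons d w ih =>
    by_cases hda : d = a
    · subst hda
      simp only [modK, if_neg hab, B4nL, if_true]
      by_cases hj : j = 0
      · subst hj
        simp
      · simp only [if_neg hj]
        rw [ih (j - 1) k]
        simp only [zero_add]
        omega
    · by_cases hdb : d = b
      · subst hdb
        simp only [modK, if_true, B4nL, if_neg hda, if_neg hcb.symm]
        by_cases hk : k = 0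
        · subst hk
          simp only [if_true]
          rw [B4_nL_left _ _ _ _ _ hr, if_pos (by omega)]
          omega
        · simp only [if_neg hk, B4nL, if_neg hda, if_neg hcb.symm]
          rw [ih j (k - 1)]
          have : (k - 1 < B4nL d a j w) ↔ (k < 1 + B4nL d a j w) := by omega
          simp only [this]
          omega
      · simp only [modK, if_neg hdb, B4nL, if_neg hda]
        rw [ih j k]
        simp only [zero_add]
        omega

theorem B4_xor (a b : Let) (hab : a ≠ b) (w : Word) (j k : ℕ) (hj : j < w.count a)
    (hk : k < w.count b) : (k < B4nL b a j w) ↔ ¬ (j < B4nL a b k w) := by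
  induction w generalizing j k with
  | nil => simp at hj
  | cons d w ih =>
    by_cases hda : d = a
    · subst hda
      rw [List.count_cons_self] at hj
      rw [List.count_cons_of_ne hab] at hk
      simp only [B4nL, if_true, if_neg hab]
      by_cases hj0 : j = 0
      · subst hj0
        simp
      · simp only [if_neg hj0]
        have := ih (j - 1) k (by omega) hk
        omega
    · by_cases hdb : d = b
      · subst hdb
        rw [List.count_cons_self] at hk
        rw [List.count_cons_of_ne hda] at hj
        simp only [B4nL, if_true, if_neg hda]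
        by_cases hk0 : k = 0
        · subst hk0
          simp
        · simp only [if_neg hk0]
          have := ih j (k - 1) hj (by omega)
          omega
      · rw [List.count_cons_of_ne hda] at hj
        rw [List.count_cons_of_ne hdb] at hk
        simp only [B4nL, if_neg hda, if_neg hdb]
        have := ih j k hj hk
        omega

/-- the two kinds of faces -/
def B4G (b : Bool) (k : ℕ) (w : Word) : Word :=
  modK C (if b then [] else [S]) k (modK O (if b then [S] else []) k w)

theorem B4_fO (k : ℕ) (w : Word) : fO k w = B4G true k w := rfl

theorem B4_fC (k : ℕ) (w : Word) : fC k w = B4G false k w := by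
  unfold fC B4G
  exact B4_c2 O C (by decide) [] [S] (by decide) (by decide) w k k

theorem B4_G_comm (b b' : Bool) (w : Word) (j k : ℕ) (hjk : j < k) :
    B4G b' j (B4G b k w) = B4G b (k - 1) (B4G b' j w) := by
  have hO : ∀ b : Bool, O ∉ (if b then ([] : Word) else [S]) := by decide
  have hC : ∀ b : Bool, C ∉ (if b then ([] : Word) else [S]) := by decide
  have hO' : ∀ b : Bool, O ∉ (if b then [S] else ([] : Word)) := by decide
  have hC' : ∀ b : Bool, C ∉ (if b then [S] else ([] : Word)) := by decide
  unfold B4G
  rw [B4_c2 O C (by decide) _ _ (hC' b') (hO b) _ j k,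
    B4_c1 C _ _ (hC b') (hC b) _ j k hjk, B4_c1 O _ _ (hO' b') (hO' b) _ j k hjk,
    B4_c2 C O (by decide) _ _ (hO b') (hC' b) _ j (k - 1)]

/-- sign exponents -/
def B4e (b : Bool) (k : ℕ) (w : Word) : ℕ :=
  if b then B4nL S O k w else B4nL S C k w + 1

theorem B4_parity (b b' : Bool) (w : Word) (hw : w.count C = w.count O) (j k : ℕ) (hjk : j < k)
    (hk : k < w.count O) :
    (B4e b k w + B4e b' j (B4G b k w)) % 2 =
      (B4e b' j w + B4e b (k - 1) (B4G b' j w) + 1) % 2 := by
  have hO : ∀ b : Bool, O ∉ (if b then ([] : Word) else [S]) := by decide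
  have hC : ∀ b : Bool, C ∉ (if b then ([] : Word) else [S]) := by decide
  have hO' : ∀ b : Bool, O ∉ (if b then [S] else ([] : Word)) := by decide
  have hC' : ∀ b : Bool, C ∉ (if b then [S] else ([] : Word)) := by decide
  have cO : ∀ b : Bool, (if b then [S] else ([] : Word)).count S = if b then 1 else 0 := by decide
  have cC : ∀ b : Bool, (if b then ([] : Word) else [S]).count S = if b then 0 else 1 := by decide
  have zO : ∀ b : Bool, (if b then [S] else ([] : Word)).count C = 0 := by decide
  have h1 : B4e b' j (B4G b k w) = if b' then
      B4nL S O j w + (if k < B4nL C O j w then (if b then 0 else 1) else 0) else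
      B4nL S C j w + (if k < B4nL O C j w then (if b then 1 else 0) else 0) + 1 := by
    unfold B4e B4G
    cases b'
    · simp only [Bool.false_eq_true, if_false]
      rw [B4_N1 S C _ _ j k hjk, B4_N3 S C O (by decide) (by decide) _ _ (hC' b), cO]
    · simp only [if_true]
      rw [B4_N3 S O C (by decide) (by decide) _ _ (hO b), B4_N1 S O _ _ j k hjk,
        B4_N1 C O _ _ j k hjk, cC]
  have hkC : k < (modK O (if b' then [S] else []) j w).count C := by
    have : (modK O (if b' then [S] else []) j w).count C = w.count C := by
      clear hw hjk hk h1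
      induction w generalizing j with
      | nil => rfl
      | cons d w ih =>
        by_cases hd : d = O
        · subst hd
          simp only [modK, if_true]
          by_cases hj : j = 0
          · subst hj
            cases b' <;> simp
          · simp only [if_neg hj]
            rw [List.count_cons_of_ne (by decide), List.count_cons_of_ne (by decide), ih]
        · simp only [modK, if_neg hd]
          rw [List.count_cons, List.count_cons, ih]
    rw [this]
    omega
  have h2 : B4e b (k - 1) (B4G b' j w) = if b then
      B4nL S O k w + (if b' then 1 else 0) + (if j < B4nL C O k w then (if b' then 0 else 1) else 0)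
      else B4nL S C k w + (if j < B4nL O C k w then (if b' then 1 else 0) else 0) +
        (if b' then 0 else 1) + 1 := by
    unfold B4e B4G
    cases b
    · simp only [Bool.false_eq_true, if_false]
      rw [B4_N2 S C (by decide) _ _ (hC b') j k hjk hkC,
        B4_N3 S C O (by decide) (by decide) _ _ (hC' b'), cO, cC]
    · simp only [if_true]
      rw [B4_N3 S O C (by decide) (by decide) _ _ (hO b'),
        B4_N2 S O (by decide) _ _ (hO' b') j k hjk hk,
        B4_N2 C O (by decide) _ _ (hO' b') j k hjk hk, cO, cC, zO, add_zero]
  have hx1 := B4_xor C O (by decide) w j k (by omega) hk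
  have hx2 := B4_xor O C (by decide) w j k (by omega) (by omega)
  rw [h1, h2]
  unfold B4e
  cases b <;> cases b' <;> simp only [Bool.false_eq_true, if_false, if_true] <;>
    (try split_ifs) <;> omega

theorem B4_bdw (w : Word) : bdw K w = ∑ k ∈ range (w.count O), ∑ b : Bool,
    Finsupp.single (B4G b k w) ((-1 : K) ^ B4e b k w) := by
  unfold bdw
  apply sum_congr rfl
  intro k _
  rw [Fintype.sum_bool, B4_fO, B4_fC, B4_nS, B4_nS]
  simp only [B4e, if_true, Bool.false_eq_true, if_false]
  rw [pow_succ, mul_neg_one, Finsupp.single_neg, sub_eq_add_neg]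

theorem B4_single (w : Word) (hw : w.count C = w.count O) : dW K (bdw K w) = 0 := by
  have hcount : ∀ b : Bool, ∀ k ∈ range (w.count O), (B4G b k w).count O = w.count O - 1 := by
    intro b k hk
    rw [mem_range] at hk
    cases b
    · have := (count_fC w k hk hw).1
      rw [← B4_fC]
      omega
    · have := (count_fO w k hk hw).1
      rw [← B4_fO]
      omega
  have h1 : dW K (bdw K w) = ∑ k ∈ range (w.count O), ∑ j ∈ range (w.count O - 1),
      ∑ b : Bool, ∑ b' : Bool, Finsupp.single (B4G b' j (B4G b k w))
        ((-1 : K) ^ (B4e b k w + B4e b' j (B4G b k w))) := by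
    rw [B4_bdw, map_sum]
    apply sum_congr rfl
    intro k hk
    rw [map_sum, sum_comm]
    apply sum_congr rfl
    intro b _
    unfold dW
    rw [Finsupp.linearCombination_single, B4_bdw, hcount b k hk, smul_sum]
    apply sum_congr rfl
    intro j _
    rw [smul_sum]
    apply sum_congr rfl
    intro b' _
    rw [Finsupp.smul_single, smul_eq_mul, pow_add]
  rw [h1, ← sum_product']
  have hkey : ∀ k j, j < k → k < w.count O →
      (∑ b : Bool, ∑ b' : Bool, Finsupp.single (B4G b' j (B4G b k w))
        ((-1 : K) ^ (B4e b k w + B4e b' j (B4G b k w)))) +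
      (∑ b : Bool, ∑ b' : Bool, Finsupp.single (B4G b' (k - 1) (B4G b j w))
        ((-1 : K) ^ (B4e b j w + B4e b' (k - 1) (B4G b j w)))) = 0 := by
    intro k j hjk hk
    rw [sum_comm (s := (univ : Finset Bool)) (t := (univ : Finset Bool))
      (f := fun b b' => Finsupp.single (B4G b' (k - 1) (B4G b j w))
        ((-1 : K) ^ (B4e b j w + B4e b' (k - 1) (B4G b j w)))), ← sum_add_distrib]
    apply sum_eq_zero
    intro b _
    rw [← sum_add_distrib]
    apply sum_eq_zero
    intro b' _
    rw [B4_G_comm b b' w j k hjk, ← Finsupp.single_add]
    have hp := B4_parity b b' w hw j k hjk hk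
    have h3 : (-1 : K) ^ (B4e b k w + B4e b' j (B4G b k w)) =
        -(-1 : K) ^ (B4e b' j w + B4e b (k - 1) (B4G b' j w)) := by
      rw [neg_one_pow_eq_pow_mod_two, hp, ← neg_one_pow_eq_pow_mod_two, pow_succ, mul_neg_one]
    rw [h3]
    simp
  apply sum_involution (fun p _ => if p.2 < p.1 then (p.2, p.1 - 1) else (p.2 + 1, p.1))
  · rintro ⟨k, j⟩ hp
    rw [mem_product, mem_range, mem_range] at hp
    dsimp only at hp ⊢
    split_ifs with hjk
    · exact hkey k j hjk hp.1
    · have := hkey (j + 1) k (by omega) (by omega)
      rw [add_comm]
      simpa using this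
  · rintro ⟨k, j⟩ hp _
    dsimp only
    split_ifs with hjk
    · intro h
      simp only [Prod.mk.injEq] at h
      omega
    · intro h
      simp only [Prod.mk.injEq] at h
      omega
  · rintro ⟨k, j⟩ hp
    rw [mem_product, mem_range, mem_range] at hp
    dsimp only at hp ⊢
    by_cases hjk : j < k
    · simp only [if_pos hjk]
      rw [if_neg (by omega)]
      ext <;> simp
      omega
    · simp only [if_neg hjk]
      rw [if_pos (by omega)]
      ext <;> simp
  · rintro ⟨k, j⟩ hp
    rw [mem_product, mem_range, mem_range] at hp
    dsimp only at hp ⊢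
    by_cases hjk : j < k
    · simp only [if_pos hjk]
      rw [mem_product, mem_range, mem_range]
      dsimp only
      omega
    · simp only [if_neg hjk]
      rw [mem_product, mem_range, mem_range]
      dsimp only
      omega

theorem dW_dW (x : Word →₀ K) (hx : ∀ w ∈ x.support, w.count C = w.count O) :
    dW K (dW K x) = 0 := by
  conv_lhs => rw [← Finsupp.sum_single x]
  rw [Finsupp.sum, map_sum, map_sum]
  apply sum_eq_zero
  intro w hw
  have h1 : dW K (Finsupp.single w (x w)) = x w • bdw K w := by
    unfold dW
    rw [Finsupp.linearCombination_single]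
  rw [h1, map_smul, B4_single w (hx w hw), smul_zero]

end

end Pool.Agent.Helper5.NM
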