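import Pool.Agent.Helper5.NM.Defs

set_option autoImplicit false

open Finset Function

namespace Pool.Agent.Helper5.NM

open Let

section
variable {K : Type*} [CommRing K]

/-! Module B2: the boundary is a derivation. -/

theorem b2_modK_left (a : Let) (r : Word) (w : Word) : ∀ (v : Word) (k : ℕ), k < v.count a →
    modK a r k (v ++ w) = modK a r k v ++ w := by
  intro v
  induction v with
  | nil =>
    intro k hk
    simp at hk
  | cons b v ih =>
    intro k hk
    rw [List.cons_append]
    unfold modK
    by_cases hb : b = a
    · subst hb
      rw [if_pos rfl, if_pos rfl]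
      by_cases hk0 : k = 0
      · rw [if_pos hk0, if_pos hk0, List.append_assoc]
      · rw [if_neg hk0, if_neg hk0, ih (k - 1) (by rw [List.count_cons_self] at hk; omega),
          List.cons_append]
    · rw [if_neg hb, if_neg hb, ih k (by rwa [List.count_cons_of_ne hb] at hk), List.cons_append]

theorem b2_modK_right (a : Let) (r : Word) (w : Word) : ∀ (v : Word) (k : ℕ),
    modK a r (v.count a + k) (v ++ w) = v ++ modK a r k w := by
  intro v
  induction v with
  | nil =>
    intro k
    simp
  | cons b v ih =>
    intro k
    rw [List.cons_append, List.cons_append]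
    conv_lhs => unfold modK
    by_cases hb : b = a
    · subst hb
      rw [if_pos rfl, if_neg (by rw [List.count_cons_self]; omega), List.count_cons_self,
        show v.count b + 1 + k - 1 = v.count b + k by omega, ih]
    · rw [if_neg hb, List.count_cons_of_ne hb, ih]

theorem b2_nS_left (a : Let) (w : Word) : ∀ (v : Word) (k : ℕ), k < v.count a →
    nS a k (v ++ w) = nS a k v := by
  intro v
  induction v with
  | nil =>
    intro k hk
    simp at hk
  | cons b v ih =>
    intro k hk
    rw [List.cons_append]
    unfold nS
    by_cases hb : b = a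
    · subst hb
      rw [if_pos rfl, if_pos rfl]
      by_cases hk0 : k = 0
      · rw [if_pos hk0, if_pos hk0]
      · rw [if_neg hk0, if_neg hk0, ih (k - 1) (by rw [List.count_cons_self] at hk; omega)]
    · rw [if_neg hb, if_neg hb, ih k (by rwa [List.count_cons_of_ne hb] at hk)]

theorem b2_nS_right (a : Let) (ha : a ≠ S) (w : Word) : ∀ (v : Word) (k : ℕ),
    nS a (v.count a + k) (v ++ w) = v.count S + nS a k w := by
  intro v
  induction v with
  | nil =>
    intro k
    simp
  | cons b v ih =>
    intro k
    rw [List.cons_append]
    conv_lhs => unfold nS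
    by_cases hb : b = a
    · subst hb
      rw [if_pos rfl, if_neg (by rw [List.count_cons_self]; omega), if_neg ha,
        List.count_cons_self, show v.count b + 1 + k - 1 = v.count b + k by omega, ih,
        List.count_cons_of_ne ha, zero_add]
    · rw [if_neg hb, List.count_cons_of_ne hb, ih, List.count_cons]
      by_cases hS : b = S
      · subst hS
        simp
        ring
      · rw [if_neg hS]
        have : (b == S) = false := by simpa using hS
        rw [this]
        simp

theorem b2_count (a b : Let) (r : Word) (hba : b ≠ a) (hr : r.count b = 0) : ∀ (v : Word) (k : ℕ),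
    (modK a r k v).count b = v.count b := by
  intro v
  induction v with
  | nil =>
    intro k
    rfl
  | cons c v ih =>
    intro k
    unfold modK
    by_cases hc : c = a
    · subst hc
      rw [if_pos rfl]
      by_cases hk0 : k = 0
      · rw [if_pos hk0, List.count_append, hr, zero_add, List.count_cons_of_ne hba.symm]
      · rw [if_neg hk0, List.count_cons_of_ne hba.symm, List.count_cons_of_ne hba.symm, ih]
    · rw [if_neg hc, List.count_cons, List.count_cons, ih]

theorem fO_append_left (v w : Word) (k : ℕ) (hk : k < v.count O) (hb : v.count C = v.count O) :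
    fO k (v ++ w) = fO k v ++ w ∧ fC k (v ++ w) = fC k v ++ w ∧
      nS O k (v ++ w) = nS O k v ∧ nS C k (v ++ w) = nS C k v := by
  refine ⟨?_, ?_, b2_nS_left O w v k hk, b2_nS_left C w v k (by rw [hb]; exact hk)⟩
  · unfold fO
    rw [b2_modK_left O [S] w v k hk, b2_modK_left C [] w _ k]
    rw [b2_count O C [S] (by decide) (by decide), hb]
    exact hk
  · unfold fC
    rw [b2_modK_left C [S] w v k (by rw [hb]; exact hk), b2_modK_left O [] w _ k]
    rw [b2_count C O [S] (by decide) (by decide)]
    exact hk

theorem fO_append_right (v w : Word) (k : ℕ) (hb : v.count C = v.count O) :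
    fO (v.count O + k) (v ++ w) = v ++ fO k w ∧ fC (v.count O + k) (v ++ w) = v ++ fC k w ∧
      nS O (v.count O + k) (v ++ w) = v.count S + nS O k w ∧
      nS C (v.count O + k) (v ++ w) = v.count S + nS C k w := by
  refine ⟨?_, ?_, b2_nS_right O (by decide) w v k, ?_⟩
  · unfold fO
    rw [b2_modK_right O [S] w v k, ← hb, b2_modK_right C [] _ v k]
  · unfold fC
    rw [← hb, b2_modK_right C [S] w v k, hb, b2_modK_right O [] _ v k]
  · rw [← hb]
    exact b2_nS_right C (by decide) w v k

theorem bdw_append (v w : Word) (hv : v.count C = v.count O) :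
    bdw K (v ++ w) = rm w (bdw K v) + (-1 : K) ^ v.count S • lm v (bdw K w) := by
  unfold bdw
  rw [List.count_append, Finset.sum_range_add, map_sum, map_sum, Finset.smul_sum]
  congr 1
  · refine Finset.sum_congr rfl fun k hk => ?_
    obtain ⟨h1, h2, h3, h4⟩ := fO_append_left v w k (Finset.mem_range.1 hk) hv
    rw [h1, h2, h3, h4, map_sub, rm, Finsupp.lmapDomain_apply, Finsupp.lmapDomain_apply,
      Finsupp.mapDomain_single, Finsupp.mapDomain_single]
  · refine Finset.sum_congr rfl fun k _ => ?_
    obtain ⟨h1, h2, h3, h4⟩ := fO_append_right v w k hv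
    rw [h1, h2, h3, h4, map_sub, lm, Finsupp.lmapDomain_apply, Finsupp.lmapDomain_apply,
      Finsupp.mapDomain_single, Finsupp.mapDomain_single, smul_sub, Finsupp.smul_single,
      Finsupp.smul_single, smul_eq_mul, smul_eq_mul, ← pow_add, ← pow_add]

theorem lm_apply (v : Word) (x : Word →₀ K) (w : Word) : lm v x (v ++ w) = x w := by
  rw [lm, Finsupp.lmapDomain_apply]
  exact Finsupp.mapDomain_apply (List.append_right_injective v) x w

theorem rm_apply (w : Word) (x : Word →₀ K) (v : Word) : rm w x (v ++ w) = x v := by
  rw [rm, Finsupp.lmapDomain_apply]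
  exact Finsupp.mapDomain_apply (List.append_left_injective w) x v

theorem dW_single (w : Word) (c : K) : dW K (Finsupp.single w c) = c • bdw K w := by
  rw [dW, Finsupp.linearCombination_single]

/-- right multiplication by a word with boundary zero -/
theorem dW_rm (w : Word) (hw : bdw K w = 0) (x : Word →₀ K)
    (hx : ∀ v ∈ x.support, v.count C = v.count O) : dW K (rm w x) = rm w (dW K x) := by
  have key : ∀ (s : Finset Word) (c : Word → K), (∀ v ∈ s, v.count C = v.count O) →
      dW K (rm w (∑ v ∈ s, Finsupp.single v (c v))) =
        rm w (dW K (∑ v ∈ s, Finsupp.single v (c v))) := by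
    intro s c hs
    rw [map_sum, map_sum, map_sum, map_sum]
    refine Finset.sum_congr rfl fun v hv => ?_
    rw [rm, Finsupp.lmapDomain_apply, Finsupp.mapDomain_single, dW_single, dW_single,
      bdw_append v w (hs v hv), hw, map_zero, smul_zero, add_zero, map_smul]
    rfl
  have h1 : x = ∑ v ∈ x.support, Finsupp.single v (x v) := (Finsupp.sum_single x).symm
  have h2 := key x.support x hx
  rwa [← h1] at h2

theorem dW_lm (v : Word) (hv : v.count C = v.count O) (x : Word →₀ K) :
    dW K (lm v x) = x.sum (fun w c => c • rm w (bdw K v)) +
      (-1 : K) ^ v.count S • lm v (dW K x) := by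
  induction x using Finsupp.induction_linear with
  | zero => simp
  | add f g hf hg =>
    rw [map_add, map_add, hf, hg, Finsupp.sum_add_index' (fun w => by rw [zero_smul])
      (fun w a b => by rw [add_smul]), map_add, map_add, smul_add]
    abel
  | single w c =>
    rw [lm, Finsupp.lmapDomain_apply, Finsupp.mapDomain_single, dW_single, dW_single,
      bdw_append v w hv, Finsupp.sum_single_index (by rw [zero_smul]), smul_add, map_smul,
      smul_comm c]
    rfl

/-- `a^k S` has boundary zero -/
theorem bdw_aS (k : ℕ) : bdw K (aS k) = 0 := by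
  induction k with
  | zero =>
    unfold bdw
    have h : (aS 0).count O = 0 := by decide
    rw [h, Finset.sum_range_zero]
  | succ k ih =>
    have h1 : aS (k + 1) = [O, C] ++ aS k := by
      unfold aS
      rw [List.replicate_succ, List.flatten_cons, List.append_assoc]
    rw [h1, bdw_append _ _ (by decide), ih, map_zero, smul_zero, add_zero]
    have h2 : bdw K [O, C] = 0 := by
      unfold bdw
      have h3 : ([O, C] : Word).count O = 1 := by decide
      rw [h3, Finset.sum_range_one]
      have h4 : fO 0 [O, C] = [S] := by decide
      have h5 : fC 0 [O, C] = [S] := by decide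
      have h6 : nS O 0 [O, C] = 0 := by decide
      have h7 : nS C 0 [O, C] = 0 := by decide
      rw [h4, h5, h6, h7, sub_self]
    rw [h2, map_zero]

end

end Pool.Agent.Helper5.NM
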