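import Pool.Agent.Helper5.NM.Defs
import Pool.Agent.Helper5.NM.B1
import Pool.Agent.Helper5.NM.B2
import Pool.Agent.Helper5.NM.B3

set_option autoImplicit false

open Finset Function

namespace Pool.Agent.Helper5.NM

open Let

section
variable {K : Type*} [CommRing K]

/-! Module B6: prime words. -/

theorem bal_append (v w : Word) (hv : Bal v) (hw : Bal w) : Bal (v ++ w) := by
  refine ⟨by rw [List.count_append, List.count_append, hv.1, hw.1], fun i => ?_⟩
  rw [List.take_append, List.count_append, List.count_append]
  have h1 := hv.2 i
  have h2 := hw.2 (i - v.length)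
  omega

theorem bal_of_append (v w : Word) (hv : Bal v) (h : Bal (v ++ w)) : Bal w := by
  have h1 := h.1
  rw [List.count_append, List.count_append, hv.1] at h1
  refine ⟨by omega, fun i => ?_⟩
  have h2 := h.2 (v.length + i)
  rw [List.take_length_add_append, List.count_append, List.count_append, hv.1] at h2
  omega

theorem prm_decomp (w : Word) (hb : Bal w) (hw : w ≠ []) :
    ∃ v w', w = v ++ w' ∧ Prm v ∧ Bal w' := by
  classical
  have hex : ∃ i, 0 < i ∧ i ≤ w.length ∧ Bal (w.take i) :=
    ⟨w.length, List.length_pos_iff.2 hw, le_rfl, by rw [List.take_length]; exact hb⟩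
  have hs := Nat.find_spec hex
  have hmin := fun j => Nat.find_min hex (m := j)
  generalize Nat.find hex = i at hs hmin
  have hl : (w.take i).length = i := by rw [List.length_take]; omega
  refine ⟨w.take i, w.drop i, (List.take_append_drop i w).symm, ⟨hs.2.2, ?_, ?_⟩, ?_⟩
  · intro h
    rw [h] at hl
    simp at hl
    omega
  · intro j hj hjl hbal
    rw [hl] at hjl
    apply hmin j hjl
    refine ⟨hj, by omega, ?_⟩
    rw [List.take_take, min_eq_left hjl.le] at hbal
    exact hbal
  · apply bal_of_append (w.take i) (w.drop i) hs.2.2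
    rw [List.take_append_drop]
    exact hb

theorem B6_len (v v' w w' : Word) (hv : Prm v) (hv' : Prm v') (h : v ++ w = v' ++ w') :
    ¬ v.length < v'.length := by
  intro hlt
  apply hv'.2.2 v.length (List.length_pos_iff.2 hv.2.1) hlt
  have h1 : (v ++ w).take v.length = (v' ++ w').take v.length := by rw [h]
  rw [List.take_left, List.take_append_of_le_length hlt.le] at h1
  rw [← h1]
  exact hv.1

theorem prm_unique (v v' w w' : Word) (hv : Prm v) (hv' : Prm v') (h : v ++ w = v' ++ w') :
    v = v' ∧ w = w' := by
  have h1 := B6_len v v' w w' hv hv' h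
  have h2 := B6_len v' v w' w hv' hv h.symm
  exact List.append_inj h (by omega)

theorem not_prm_append (v w : Word) (hv : Bal v) (hw : Bal w) (hv0 : v ≠ []) (hw0 : w ≠ []) :
    ¬ Prm (v ++ w) := by
  intro h
  apply h.2.2 v.length (List.length_pos_iff.2 hv0)
  · rw [List.length_append]
    have := List.length_pos_iff.2 hw0
    omega
  · rw [List.take_left]
    exact hv

theorem wt_append (v w : Word) : wt (v ++ w) = wt v + wt w := by
  unfold wt
  rw [List.count_append, List.count_append]
  omega

theorem wt_pos (v : Word) (hv : Bal v) (h : v ≠ []) : 0 < wt v := by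
  unfold wt
  have h1 := hv.1
  cases v with
  | nil => exact absurd rfl h
  | cons a v =>
    cases a
    · rw [List.count_cons_self]
      omega
    · rw [List.count_cons_self] at h1
      omega
    · rw [List.count_cons_self (a := S)]
      omega

theorem B6_nil (v : Word) (h1 : v.count O = 0) (h2 : v.count C = 0) (h3 : v.count S = 0) :
    v = [] := by
  cases v with
  | nil => rfl
  | cons a v =>
    cases a
    · rw [List.count_cons_self] at h1
      omega
    · rw [List.count_cons_self] at h2
      omega
    · rw [List.count_cons_self] at h3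
      omega

theorem prm_wt_one (v : Word) (hv : Prm v) (h : wt v = 1) : v = [S] ∨ v = [O, C] := by
  unfold wt at h
  have hb := hv.1.1
  cases v with
  | nil => exact absurd rfl hv.2.1
  | cons a v =>
    cases a
    · right
      rw [List.count_cons_self, List.count_cons_of_ne (by decide)] at h
      rw [List.count_cons_self, List.count_cons_of_ne (by decide)] at hb
      cases v with
      | nil => simp at hb
      | cons b v =>
        cases b
        · rw [List.count_cons_self] at h
          omega
        · rw [List.count_cons_of_ne (by decide), List.count_cons_of_ne (by decide)] at h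
          rw [List.count_cons_self, List.count_cons_of_ne (by decide)] at hb
          rw [B6_nil v (by omega) (by omega) (by omega)]
        · rw [List.count_cons_self (a := S)] at h
          omega
    · have := hv.1.2 1
      simp at this
    · left
      have := hv.2.2 1 one_pos
      cases v with
      | nil => rfl
      | cons b v =>
        exfalso
        apply this (by simp)
        refine ⟨by simp, fun i => ?_⟩
        rcases i with _ | i
        · simp
        · simp

theorem B6_take_cw (m i : ℕ) (hm : 1 ≤ m) :
    ((cw m).take i).count C = min (i - m) (m - 1) ∧ ((cw m).take i).count O = min i (m - 1) := by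
  unfold cw
  rw [List.take_append, List.count_append, List.count_append, List.take_replicate,
    List.length_replicate]
  obtain ⟨m, rfl⟩ : ∃ m', m = m' + 1 := ⟨m - 1, by omega⟩
  simp only [Nat.add_sub_cancel]
  rcases Nat.lt_or_ge m i with h | h
  · obtain ⟨j, hj⟩ : ∃ j, i - m = j + 1 := ⟨i - m - 1, by omega⟩
    rw [hj, List.take_succ_cons, List.take_replicate]
    simp only [List.count_replicate_self, List.count_cons, List.count_replicate]
    simp
    omega
  · have hj : i - m = 0 := by omega
    rw [hj, List.take_zero]
    simp [List.count_replicate]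
    omega

theorem B6_len_cw (m : ℕ) (hm : 1 ≤ m) : (cw m).length = 2 * m - 1 := by
  unfold cw
  simp
  omega

theorem prm_cw (m : ℕ) (hm : 1 ≤ m) : Prm (cw m) := by
  refine ⟨⟨?_, fun i => ?_⟩, ?_, fun i hi hil hb => ?_⟩
  · have h := B6_take_cw m (cw m).length hm
    rw [List.take_length, B6_len_cw m hm] at h
    omega
  · have h := B6_take_cw m i hm
    omega
  · intro h
    have := B6_len_cw m hm
    rw [h] at this
    simp at this
    omega
  · have h := B6_take_cw m i hm
    rw [B6_len_cw m hm] at hil
    have := hb.1
    omega

theorem B6_take_Aw (m i : ℕ) :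
    ((Aw m).take i).count C = min (i - m) m ∧ ((Aw m).take i).count O = min i m := by
  unfold Aw
  rw [List.take_append, List.count_append, List.count_append, List.take_replicate,
    List.length_replicate, List.take_replicate]
  simp [List.count_replicate]

theorem B6_len_Aw (m : ℕ) : (Aw m).length = 2 * m := by
  unfold Aw
  simp
  omega

theorem prm_Aw (m : ℕ) (hm : 1 ≤ m) : Prm (Aw m) := by
  refine ⟨⟨?_, fun i => ?_⟩, ?_, fun i hi hil hb => ?_⟩
  · have h := B6_take_Aw m (Aw m).length
    rw [List.take_length, B6_len_Aw m] at h
    omega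
  · have h := B6_take_Aw m i
    omega
  · intro h
    have := B6_len_Aw m
    rw [h] at this
    simp at this
    omega
  · have h := B6_take_Aw m i
    rw [B6_len_Aw m] at hil
    have := hb.1
    omega

theorem aS_succ (k : ℕ) : aS (k + 1) = [O, C] ++ aS k := by
  simp [aS, List.replicate_succ]

theorem bal_aS (k : ℕ) : Bal (aS k) := by
  induction k with
  | zero =>
    refine ⟨by decide, fun i => ?_⟩
    rcases i with _ | i
    · simp
    · simp [aS]
  | succ k ih =>
    rw [aS_succ]
    apply bal_append _ _ _ ih
    refine ⟨by decide, fun i => ?_⟩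
    rcases i with _ | i
    · simp
    · rcases i with _ | i
      · simp
      · simp

theorem inL_aS (k : ℕ) : InL (k + 1) 1 (aS k) := by
  refine ⟨bal_aS k, ?_, ?_, (List.replicate k [O, C]).flatten, 0, by simp [aS]⟩
  · induction k with
    | zero => decide
    | succ k ih =>
      rw [aS_succ, wt_append, ih]
      have : wt [O, C] = 1 := by decide
      omega
  · induction k with
    | zero => decide
    | succ k ih =>
      rw [aS_succ, List.count_append, ih]
      decide

theorem B6_mem (w f : Word) (hf : bdw K w f ≠ 0) :
    ∃ k < w.count O, f = fO k w ∨ f = fC k w := by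
  have h1 : f ∈ (dW K (Finsupp.single w (1 : K))).support := by
    rw [Finsupp.mem_support_iff, dW_single, one_smul]
    exact hf
  obtain ⟨w', hw', k, hk, h⟩ := mem_support_dW _ f h1
  have h2 : w' = w := by
    by_contra hne
    rw [Finsupp.mem_support_iff, Finsupp.single_apply, if_neg (fun h => hne h.symm)] at hw'
    exact hw' rfl
  rw [h2] at hk h
  exact ⟨k, hk, h⟩

theorem B6_face (w f : Word) (hw : Bal w) (hf : bdw K w f ≠ 0) : Bal f ∧ f ≠ [] := by
  obtain ⟨k, hk, h⟩ := B6_mem w f hf
  have hS : f.count S = w.count S + 1 := by
    rcases h with rfl | rfl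
    · exact (count_fO w k hk hw.1).2.2
    · exact (count_fC w k hk hw.1).2.2
  refine ⟨?_, fun h0 => ?_⟩
  · rcases h with rfl | rfl
    · exact bal_fO w k hk hw
    · exact bal_fC w k hk hw
  · rw [h0] at hS
    simp at hS

theorem B6_np (w : Word) (hw : Bal w) (hnp : ¬ Prm w) (v : Word) (hv : Prm v) :
    bdw K w v = 0 := by
  by_cases h0 : w = []
  · subst h0
    simp [bdw]
  obtain ⟨v1, w1, hvw, hv1, hw1⟩ := prm_decomp w hw h0
  have hw10 : w1 ≠ [] := by
    intro h
    rw [h, List.append_nil] at hvw
    rw [hvw] at hnp
    exact hnp hv1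
  rw [hvw, bdw_append v1 w1 hv1.1.1, Finsupp.add_apply, Finsupp.smul_apply]
  have ha : rm w1 (bdw K v1) v = 0 := by
    by_contra hne
    have h1 : v ∈ (rm w1 (bdw K v1)).support := Finsupp.mem_support_iff.2 hne
    have h2 := Finsupp.mapDomain_support (f := (· ++ w1)) (s := bdw K v1) h1
    obtain ⟨u, hu, rfl⟩ := mem_image.1 h2
    obtain ⟨hub, hu0⟩ := B6_face v1 u hv1.1 (Finsupp.mem_support_iff.1 hu)
    exact not_prm_append u w1 hub hw1 hu0 hw10 hv
  have hb : lm v1 (bdw K w1) v = 0 := by
    by_contra hne
    have h1 : v ∈ (lm v1 (bdw K w1)).support := Finsupp.mem_support_iff.2 hne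
    have h2 := Finsupp.mapDomain_support (f := (v1 ++ ·)) (s := bdw K w1) h1
    obtain ⟨u, hu, rfl⟩ := mem_image.1 h2
    obtain ⟨hub, hu0⟩ := B6_face w1 u hw1 (Finsupp.mem_support_iff.1 hu)
    exact not_prm_append v1 u hv1.1 hub hv1.2.1 hu0 hv
  rw [ha, hb, smul_zero, add_zero]

/-- nonprime words have no prime faces: the value of the boundary at a prime word only depends on
the prime words in the support -/
theorem dW_prime (x : Word →₀ K) (hx : ∀ w ∈ x.support, Bal w) (v : Word) (hv : Prm v) :
    dW K x v = dW K (open Classical in x.filter Prm) v := by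
  classical
  have h1 : ∀ y : Word →₀ K, dW K y v = ∑ w ∈ y.support, y w * bdw K w v := by
    intro y
    unfold dW
    rw [Finsupp.linearCombination_apply, Finsupp.sum, Finsupp.finsetSum_apply]
    rfl
  rw [h1, h1]
  symm
  rw [Finsupp.support_filter]
  apply Finset.sum_subset_zero_on_sdiff (Finset.filter_subset _ _)
  · intro w hw
    rw [mem_sdiff, mem_filter] at hw
    have hnp : ¬ Prm w := fun h => hw.2 ⟨hw.1, h⟩
    rw [B6_np w (hx w hw.1) hnp v hv, mul_zero]
  · intro w hw
    rw [mem_filter] at hw
    rw [Finsupp.filter_apply_pos _ _ hw.2]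

end

end Pool.Agent.Helper5.NM
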