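import Pool.Agent.Helper5.NM.Defs
import Pool.Agent.Helper5.NM.B1
import Pool.Agent.Helper5.NM.B3

set_option autoImplicit false

open Finset Function

namespace Pool.Agent.Helper5.NM

open Let

section
variable {K : Type*} [CommRing K]

/-! Module B5: the coface formula. -/

theorem B5_L1 (a : Let) (w : Word) (k : ℕ) (hk : k < w.count a) :
    ∃ p q, w = p ++ a :: q ∧ p.count a = k := by
  induction w generalizing k with
  | nil => simp at hk
  | cons b w ih =>
    by_cases hb : b = a
    · subst hb
      rw [List.count_cons_self] at hk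
      rcases k with _ | k
      · exact ⟨[], w, rfl, rfl⟩
      · obtain ⟨p, q, h1, h2⟩ := ih k (by omega)
        exact ⟨b :: p, q, by rw [h1]; rfl, by rw [List.count_cons_self, h2]⟩
    · rw [List.count_cons_of_ne hb] at hk
      obtain ⟨p, q, h1, h2⟩ := ih k hk
      exact ⟨b :: p, q, by rw [h1]; rfl, by rw [List.count_cons_of_ne hb, h2]⟩

theorem B5_L2 (a : Let) (r p q : Word) : modK a r (p.count a) (p ++ a :: q) = p ++ (r ++ q) := by
  induction p with
  | nil => simp [modK]
  | cons b p ih =>
    by_cases hb : b = a
    · subst hb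
      rw [List.count_cons_self]
      simp only [List.cons_append, modK, if_true, Nat.add_one_ne_zero, if_false,
        Nat.add_sub_cancel, ih]
    · rw [List.count_cons_of_ne hb]
      simp only [List.cons_append, modK, if_neg hb, ih]

theorem B5_L3 (a : Let) (p q : Word) : nS a (p.count a) (p ++ a :: q) = p.count S := by
  induction p with
  | nil => simp [nS]
  | cons b p ih =>
    by_cases hb : b = a
    · subst hb
      rw [List.count_cons_self]
      simp only [List.cons_append, nS, if_true, Nat.add_one_ne_zero, if_false,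
        Nat.add_sub_cancel, ih, List.count_cons]
      by_cases hS : b = S
      · subst hS
        simp
        omega
      · simp [hS]
    · rw [List.count_cons_of_ne hb]
      simp only [List.cons_append, nS, if_neg hb, ih, List.count_cons]
      by_cases hS : b = S
      · subst hS
        simp
        omega
      · simp [hS]

theorem B5_L4 (a : Let) (p p' q q' : Word) (h : p ++ a :: q = p' ++ a :: q')
    (hc : p.count a = p'.count a) : p = p' ∧ q = q' := by
  induction p generalizing p' with
  | nil =>
    cases p' with
    | nil =>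
      simp only [List.nil_append, List.cons.injEq, true_and] at h
      exact ⟨rfl, h⟩
    | cons b p' =>
      simp only [List.nil_append, List.cons_append, List.cons.injEq] at h
      rw [← h.1, List.count_cons_self] at hc
      simp at hc
  | cons b p ih =>
    cases p' with
    | nil =>
      simp only [List.nil_append, List.cons_append, List.cons.injEq] at h
      rw [h.1, List.count_cons_self] at hc
      simp at hc
    | cons c p' =>
      simp only [List.cons_append, List.cons.injEq] at h
      rw [h.1] at hc ⊢
      rw [List.count_cons, List.count_cons] at hc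
      obtain ⟨h1, h2⟩ := ih p' h.2 (by omega)
      exact ⟨by rw [h1], h2⟩

theorem B5_set (p r : Word) (a b : Let) : (p ++ a :: r).set p.length b = p ++ b :: r := by
  induction p with
  | nil => rfl
  | cons c p ih => simp [ih]

theorem B5_ins (p r : Word) (b : Let) : (p ++ r).insertIdx p.length b = p ++ b :: r := by
  induction p with
  | nil => simp
  | cons c p ih => simp [ih]

/-- the two pieces of a face -/
theorem B5_fO (p q t : Word) (h : p.count C + q.count C = p.count O) :
    fO (p.count O) (p ++ O :: (q ++ C :: t)) = p ++ S :: (q ++ t) := by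
  unfold fO
  rw [B5_L2]
  have h1 : p ++ ([S] ++ (q ++ C :: t)) = (p ++ S :: q) ++ C :: t := by simp
  have h2 : (p ++ S :: q).count C = p.count O := by
    rw [List.count_append, List.count_cons_of_ne (by decide), h]
  rw [h1, ← h2, B5_L2]
  simp

theorem B5_fC (p q t : Word) (h : p.count C + q.count C = p.count O) :
    fC (p.count O) (p ++ O :: (q ++ C :: t)) = p ++ (q ++ S :: t) := by
  unfold fC
  have h1 : p ++ O :: (q ++ C :: t) = (p ++ O :: q) ++ C :: t := by simp
  have h2 : (p ++ O :: q).count C = p.count O := by
    rw [List.count_append, List.count_cons_of_ne (by decide), h]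
  have h3 : modK C [S] (p.count O) ((p ++ O :: q) ++ C :: t) = (p ++ O :: q) ++ ([S] ++ t) := by
    conv_lhs => rw [← h2]
    rw [B5_L2]
  rw [h1, h3]
  have h4 : (p ++ O :: q) ++ ([S] ++ t) = p ++ O :: (q ++ S :: t) := by simp
  rw [h4, B5_L2]
  simp

theorem B5_nC (p q t : Word) (h : p.count C + q.count C = p.count O) :
    nS C (p.count O) (p ++ O :: (q ++ C :: t)) = (p ++ q).count S := by
  have h1 : p ++ O :: (q ++ C :: t) = (p ++ O :: q) ++ C :: t := by simp
  have h2 : (p ++ O :: q).count C = p.count O := by
    rw [List.count_append, List.count_cons_of_ne (by decide), h]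
  have h3 : nS C (p.count O) ((p ++ O :: q) ++ C :: t) = (p ++ O :: q).count S := by
    conv_lhs => rw [← h2]
    rw [B5_L3]
  rw [h1, h3, List.count_append, List.count_append, List.count_cons_of_ne (by decide)]

/-- decomposition of a balanced word at the `k`-th pair -/
theorem B5_dec (w : Word) (hw : Bal w) (k : ℕ) (hk : k < w.count O) :
    ∃ p q t, w = p ++ O :: (q ++ C :: t) ∧ p.count O = k ∧ p.count C + q.count C = k := by
  obtain ⟨p, q', h1, h2⟩ := B5_L1 O w k hk
  have h3 := hw.2 p.length
  rw [h1, List.take_left, h2] at h3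
  have h4 := hw.1
  rw [h4.symm, h1, List.count_append, List.count_cons_of_ne (by decide)] at hk
  obtain ⟨q, t, h5, h6⟩ := B5_L1 C q' (k - p.count C) (by omega)
  exact ⟨p, q, t, by rw [h1, h5], h2, by omega⟩

theorem B5_split (f : Word) (s : ℕ) (h : f[s]? = some S) : f = f.take s ++ S :: f.drop (s + 1) := by
  obtain ⟨h1, h2⟩ := List.getElem?_eq_some_iff.1 h
  conv_lhs => rw [← List.take_append_drop s f]
  rw [List.drop_eq_getElem_cons h1, h2]

/-- right insertions -/
theorem B5_right (f : Word) (s i : ℕ) (h : f[s]? = some S) (hsi : s < i) (hi : i ≤ f.length) :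
    ∃ p q t, f = p ++ S :: (q ++ t) ∧ p.length = s ∧ p.length + 1 + q.length = i ∧
      f.take s = p ∧ f.take i = p ++ S :: q ∧
      (f.set s O).insertIdx i C = p ++ O :: (q ++ C :: t) := by
  have h0 := B5_split f s h
  obtain ⟨hs, -⟩ := List.getElem?_eq_some_iff.1 h
  have hl : (f.take s).length = s := by rw [List.length_take]; omega
  refine ⟨f.take s, (f.drop (s + 1)).take (i - (s + 1)), f.drop i, ?_, hl, ?_, rfl, ?_, ?_⟩
  · have h1 : f.drop (s + 1) = (f.drop (s + 1)).take (i - (s + 1)) ++ f.drop i := by
      conv_lhs => rw [← List.take_append_drop (i - (s + 1)) (f.drop (s + 1))]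
      rw [List.drop_drop]
      congr 2
      omega
    rw [← h1]
    exact h0
  · rw [hl, List.length_take, List.length_drop]
    omega
  · conv_lhs => rw [h0]
    rw [List.take_append, hl]
    have h1 : i - s = (i - (s + 1)) + 1 := by omega
    rw [h1, List.take_succ_cons, List.take_take, min_eq_right (by omega)]
  · have h1 : f.drop (s + 1) = (f.drop (s + 1)).take (i - (s + 1)) ++ f.drop i := by
      conv_lhs => rw [← List.take_append_drop (i - (s + 1)) (f.drop (s + 1))]
      rw [List.drop_drop]
      congr 2
      omega
    have h2 : f.set s O = f.take s ++ O :: f.drop (s + 1) := by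
      have := B5_set (f.take s) (f.drop (s + 1)) S O
      rw [hl, ← h0] at this
      exact this
    rw [h2]
    conv_lhs => rw [h1]
    set q := (f.drop (s + 1)).take (i - (s + 1)) with hq
    have h3 : (f.take s ++ O :: q).length = i := by
      rw [List.length_append, List.length_cons, hl, hq, List.length_take, List.length_drop]
      omega
    have h4 := B5_ins (f.take s ++ O :: q) (f.drop i) C
    rw [h3] at h4
    simp only [List.append_assoc, List.cons_append] at h4
    exact h4

/-- left insertions -/
theorem B5_left (f : Word) (s i : ℕ) (h : f[s]? = some S) (hsi : i ≤ s) :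
    ∃ p q t, f = p ++ (q ++ S :: t) ∧ p.length = i ∧ p.length + q.length = s ∧
      f.take i = p ∧ f.take s = p ++ q ∧
      (f.set s C).insertIdx i O = p ++ O :: (q ++ C :: t) := by
  have h0 := B5_split f s h
  obtain ⟨hs, -⟩ := List.getElem?_eq_some_iff.1 h
  have hl : (f.take s).length = s := by rw [List.length_take]; omega
  have hl' : (f.take i).length = i := by rw [List.length_take]; omega
  have h1 : f.take s = f.take i ++ (f.take s).drop i := by
    conv_lhs => rw [← List.take_append_drop i (f.take s)]
    rw [List.take_take, min_eq_left hsi]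
  refine ⟨f.take i, (f.take s).drop i, f.drop (s + 1), ?_, hl', ?_, rfl, h1, ?_⟩
  · rw [← List.append_assoc, ← h1]
    exact h0
  · rw [hl', List.length_drop, hl]
    omega
  · have h2 : f.set s C = f.take s ++ C :: f.drop (s + 1) := by
      have := B5_set (f.take s) (f.drop (s + 1)) S C
      rw [hl, ← h0] at this
      exact this
    rw [h2, h1]
    have h4 := B5_ins (f.take i) ((f.take s).drop i ++ C :: f.drop (s + 1)) O
    rw [hl'] at h4
    rw [List.append_assoc]
    rw [← h1]
    exact h4

theorem B5_O (w f : Word) (hw : Bal w) :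
    ∑ k ∈ range (w.count O), (if fO k w = f then (-1 : K) ^ nS O k w else 0) =
      ∑ s ∈ range f.length, ∑ i ∈ Ioc s f.length,
        (if f[s]? = some S ∧ (f.take i).count C = (f.take s).count O ∧
            (f.set s O).insertIdx i C = w then (-1 : K) ^ (f.take s).count S else 0) := by
  rw [Finset.sum_sigma', ← sum_filter, ← sum_filter]
  symm
  refine Finset.sum_bij (fun x _ => (f.take x.1).count O) ?_ ?_ ?_ ?_
  · rintro ⟨s, i⟩ hx
    rw [mem_filter, mem_sigma, mem_range, mem_Ioc] at hx
    dsimp only at hx ⊢
    obtain ⟨⟨hs, hsi, hi⟩, h1, h2, h3⟩ := hx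
    obtain ⟨p, q, t, e1, e2, e3, e4, e5, e6⟩ := B5_right f s i h1 hsi hi
    rw [e6] at h3
    rw [e4, e5, List.count_append, List.count_cons_of_ne (by decide)] at h2
    rw [mem_filter, mem_range, e4, ← h3, B5_fO p q t h2]
    refine ⟨?_, e1.symm⟩
    rw [List.count_append, List.count_cons_self]
    omega
  · rintro ⟨s, i⟩ hx ⟨s', i'⟩ hx' hk
    rw [mem_filter, mem_sigma, mem_range, mem_Ioc] at hx hx'
    dsimp only at hx hx' hk
    obtain ⟨⟨hs, hsi, hi⟩, h1, h2, h3⟩ := hx
    obtain ⟨⟨hs', hsi', hi'⟩, h1', h2', h3'⟩ := hx'
    obtain ⟨p, q, t, e1, e2, e3, e4, e5, e6⟩ := B5_right f s i h1 hsi hi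
    obtain ⟨p', q', t', e1', e2', e3', e4', e5', e6'⟩ := B5_right f s' i' h1' hsi' hi'
    rw [e6] at h3
    rw [e6', ← h3] at h3'
    rw [e4, e4'] at hk
    obtain ⟨g1, g2⟩ := B5_L4 O _ _ _ _ h3' hk.symm
    rw [e4, e5, List.count_append, List.count_cons_of_ne (by decide)] at h2
    rw [e4', e5', List.count_append, List.count_cons_of_ne (by decide)] at h2'
    obtain ⟨g3, g4⟩ := B5_L4 C _ _ _ _ g2 (by rw [g1] at h2'; omega)
    have hss : s = s' := by rw [← e2, ← e2', g1]
    have hii : i = i' := by rw [← e3, ← e3', g1, g3]
    rw [hss, hii]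
  · intro k hk
    rw [mem_filter, mem_range] at hk
    obtain ⟨hk, hf⟩ := hk
    obtain ⟨p, q, t, h1, h2, h3⟩ := B5_dec w hw k hk
    have hf' : f = p ++ S :: (q ++ t) := by
      rw [← hf, h1, ← h2, B5_fO p q t (by omega)]
    have t1 : f.take p.length = p := by rw [hf', List.take_left]
    have t2 : f.take (p ++ S :: q).length = p ++ S :: q := by
      have : f = (p ++ S :: q) ++ t := by rw [hf']; simp
      conv_lhs => rw [this]
      rw [List.take_left]
    refine ⟨⟨p.length, (p ++ S :: q).length⟩, ?_, ?_⟩
    · rw [mem_filter, mem_sigma, mem_range, mem_Ioc]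
      dsimp only
      rw [t1, t2]
      refine ⟨⟨?_, ?_, ?_⟩, ?_, ?_, ?_⟩
      · rw [hf']
        simp
      · simp
        try omega
      · rw [hf']
        simp
        try omega
      · rw [hf', List.getElem?_append_right (le_refl _)]
        simp
      · rw [List.count_append, List.count_cons_of_ne (by decide), h2, h3]
      · have e1 : f.set p.length O = (p ++ O :: q) ++ t := by
          rw [hf', B5_set]
          simp
        have e2 : (p ++ S :: q).length = (p ++ O :: q).length := by simp
        rw [e1, e2, B5_ins, h1]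
        simp
    · dsimp only
      rw [t1, h2]
  · rintro ⟨s, i⟩ hx
    rw [mem_filter, mem_sigma, mem_range, mem_Ioc] at hx
    dsimp only at hx ⊢
    obtain ⟨⟨hs, hsi, hi⟩, h1, h2, h3⟩ := hx
    obtain ⟨p, q, t, e1, e2, e3, e4, e5, e6⟩ := B5_right f s i h1 hsi hi
    rw [e6] at h3
    rw [e4, ← h3, B5_L3]

theorem B5_C (w f : Word) (hw : Bal w) :
    ∑ k ∈ range (w.count O), (if fC k w = f then (-1 : K) ^ nS C k w else 0) =
      ∑ s ∈ range f.length, ∑ i ∈ range (s + 1),
        (if f[s]? = some S ∧ (f.take i).count O = (f.take s).count C ∧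
            (f.set s C).insertIdx i O = w then (-1 : K) ^ (f.take s).count S else 0) := by
  rw [Finset.sum_sigma', ← sum_filter, ← sum_filter]
  symm
  refine Finset.sum_bij (fun x _ => (f.take x.2).count O) ?_ ?_ ?_ ?_
  · rintro ⟨s, i⟩ hx
    rw [mem_filter, mem_sigma, mem_range, mem_range] at hx
    dsimp only at hx ⊢
    obtain ⟨⟨hs, hsi⟩, h1, h2, h3⟩ := hx
    obtain ⟨p, q, t, e1, e2, e3, e4, e5, e6⟩ := B5_left f s i h1 (by omega)
    rw [e6] at h3
    rw [e4, e5, List.count_append] at h2
    rw [mem_filter, mem_range, e4, ← h3, B5_fC p q t h2.symm]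
    refine ⟨?_, e1.symm⟩
    rw [List.count_append, List.count_cons_self]
    omega
  · rintro ⟨s, i⟩ hx ⟨s', i'⟩ hx' hk
    rw [mem_filter, mem_sigma, mem_range, mem_range] at hx hx'
    dsimp only at hx hx' hk
    obtain ⟨⟨hs, hsi⟩, h1, h2, h3⟩ := hx
    obtain ⟨⟨hs', hsi'⟩, h1', h2', h3'⟩ := hx'
    obtain ⟨p, q, t, e1, e2, e3, e4, e5, e6⟩ := B5_left f s i h1 (by omega)
    obtain ⟨p', q', t', e1', e2', e3', e4', e5', e6'⟩ := B5_left f s' i' h1' (by omega)
    rw [e6] at h3
    rw [e6', ← h3] at h3'
    rw [e4, e4'] at hk
    obtain ⟨g1, g2⟩ := B5_L4 O _ _ _ _ h3' hk.symm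
    rw [e4, e5, List.count_append] at h2
    rw [e4', e5', List.count_append] at h2'
    obtain ⟨g3, g4⟩ := B5_L4 C _ _ _ _ g2 (by rw [g1] at h2'; omega)
    have hii : i = i' := by rw [← e2, ← e2', g1]
    have hss : s = s' := by rw [← e3, ← e3', g1, g3]
    rw [hss, hii]
  · intro k hk
    rw [mem_filter, mem_range] at hk
    obtain ⟨hk, hf⟩ := hk
    obtain ⟨p, q, t, h1, h2, h3⟩ := B5_dec w hw k hk
    have hf' : f = p ++ (q ++ S :: t) := by
      rw [← hf, h1, ← h2, B5_fC p q t (by omega)]
    have hf2 : f = (p ++ q) ++ S :: t := by rw [hf']; simp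
    have t1 : f.take p.length = p := by rw [hf', List.take_left]
    have t2 : f.take (p ++ q).length = p ++ q := by
      conv_lhs => rw [hf2]
      rw [List.take_left]
    refine ⟨⟨(p ++ q).length, p.length⟩, ?_, ?_⟩
    · rw [mem_filter, mem_sigma, mem_range, mem_range]
      dsimp only
      rw [t1, t2]
      refine ⟨⟨?_, ?_⟩, ?_, ?_, ?_⟩
      · rw [hf2]
        simp
      · simp
      · rw [hf2, List.getElem?_append_right (le_refl _)]
        simp
      · rw [List.count_append, h2, h3]
      · have e1 : f.set (p ++ q).length C = p ++ (q ++ C :: t) := by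
          rw [hf2, B5_set]
          simp
        rw [e1, B5_ins, h1]
    · dsimp only
      rw [t1, h2]
  · rintro ⟨s, i⟩ hx
    rw [mem_filter, mem_sigma, mem_range, mem_range] at hx
    dsimp only at hx ⊢
    obtain ⟨⟨hs, hsi⟩, h1, h2, h3⟩ := hx
    obtain ⟨p, q, t, e1, e2, e3, e4, e5, e6⟩ := B5_left f s i h1 (by omega)
    rw [e6] at h3
    rw [e4, e5, List.count_append] at h2
    rw [e4, e5, ← h3, B5_nC p q t h2.symm]

theorem dW_apply (x : Word →₀ K) (hx : ∀ w ∈ x.support, Bal w) (f : Word) (hf : Bal f) :
    dW K x f = ∑ s ∈ range f.length, (if f[s]? = some S then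
      (-1 : K) ^ (f.take s).count S *
        ((∑ i ∈ Ioc s f.length, (if (f.take i).count C = (f.take s).count O then
            x ((f.set s O).insertIdx i C) else 0)) -
         (∑ i ∈ range (s + 1), (if (f.take i).count O = (f.take s).count C then
            x ((f.set s C).insertIdx i O) else 0))) else 0) := by
  have h0 : dW K x f = ∑ w ∈ x.support, x w * bdw K w f := by
    unfold dW
    rw [Finsupp.linearCombination_apply, Finsupp.sum, Finsupp.finsetSum_apply]
    rfl
  have h1 : ∀ w ∈ x.support, x w * bdw K w f =
      (∑ s ∈ range f.length, ∑ i ∈ Ioc s f.length,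
        (if f[s]? = some S ∧ (f.take i).count C = (f.take s).count O ∧
            (f.set s O).insertIdx i C = w then (-1 : K) ^ (f.take s).count S * x w else 0)) -
      (∑ s ∈ range f.length, ∑ i ∈ range (s + 1),
        (if f[s]? = some S ∧ (f.take i).count O = (f.take s).count C ∧
            (f.set s C).insertIdx i O = w then (-1 : K) ^ (f.take s).count S * x w else 0)) := by
    intro w hw
    have hb := hx w hw
    have h2 : bdw K w f =
        ∑ k ∈ range (w.count O), (if fO k w = f then (-1 : K) ^ nS O k w else 0) -
        ∑ k ∈ range (w.count O), (if fC k w = f then (-1 : K) ^ nS C k w else 0) := by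
      unfold bdw
      rw [Finsupp.finsetSum_apply, ← sum_sub_distrib]
      apply sum_congr rfl
      intro k _
      rw [Finsupp.sub_apply, Finsupp.single_apply, Finsupp.single_apply]
    rw [h2, B5_O w f hb, B5_C w f hb, mul_sub, mul_sum, mul_sum]
    congr 1
    · apply sum_congr rfl
      intro s _
      rw [mul_sum]
      apply sum_congr rfl
      intro i _
      rw [mul_ite, mul_zero, mul_comm]
    · apply sum_congr rfl
      intro s _
      rw [mul_sum]
      apply sum_congr rfl
      intro i _
      rw [mul_ite, mul_zero, mul_comm]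
  rw [h0, sum_congr rfl h1, sum_sub_distrib, sum_comm, sum_comm (s := x.support),
    ← sum_sub_distrib]
  apply sum_congr rfl
  intro s _
  have hkey : ∀ (P : Prop) [Decidable P] (W : Word) (c : K),
      ∑ w ∈ x.support, (if P ∧ W = w then c * x w else 0) = if P then c * x W else 0 := by
    intro P _ W c
    by_cases hP : P
    · simp only [hP, true_and, if_true]
      rw [Finset.sum_ite_eq]
      split_ifs with h
      · rfl
      · rw [Finsupp.notMem_support_iff.1 h, mul_zero]
    · simp [hP]
  rw [sum_comm, sum_comm (s := x.support)]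
  have e1 : ∀ i, ∑ w ∈ x.support, (if f[s]? = some S ∧ (f.take i).count C = (f.take s).count O ∧
      (f.set s O).insertIdx i C = w then (-1 : K) ^ (f.take s).count S * x w else 0) =
      if f[s]? = some S then (-1 : K) ^ (f.take s).count S *
        (if (f.take i).count C = (f.take s).count O then x ((f.set s O).insertIdx i C) else 0)
      else 0 := by
    intro i
    have := hkey (f[s]? = some S ∧ (f.take i).count C = (f.take s).count O)
      ((f.set s O).insertIdx i C) ((-1 : K) ^ (f.take s).count S)
    simp only [and_assoc] at this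
    rw [this]
    by_cases ha : f[s]? = some S <;> by_cases hb : (f.take i).count C = (f.take s).count O <;>
      simp [ha, hb]
  have e2 : ∀ i, ∑ w ∈ x.support, (if f[s]? = some S ∧ (f.take i).count O = (f.take s).count C ∧
      (f.set s C).insertIdx i O = w then (-1 : K) ^ (f.take s).count S * x w else 0) =
      if f[s]? = some S then (-1 : K) ^ (f.take s).count S *
        (if (f.take i).count O = (f.take s).count C then x ((f.set s C).insertIdx i O) else 0)
      else 0 := by
    intro i
    have := hkey (f[s]? = some S ∧ (f.take i).count O = (f.take s).count C)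
      ((f.set s C).insertIdx i O) ((-1 : K) ^ (f.take s).count S)
    simp only [and_assoc] at this
    rw [this]
    by_cases ha : f[s]? = some S <;> by_cases hb : (f.take i).count O = (f.take s).count C <;>
      simp [ha, hb]
  rw [sum_congr rfl (fun i _ => e1 i), sum_congr rfl (fun i _ => e2 i)]
  by_cases ha : f[s]? = some S
  · simp only [if_pos ha]
    rw [mul_sub, mul_sum, mul_sum]
  · simp only [if_neg ha]
    simp

end

end Pool.Agent.Helper5.NM
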