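import Pool.Agent.Helper5.NM.Defs
import Pool.Agent.Helper5.NM.B5
import Pool.Agent.Helper5.NM.B6

set_option autoImplicit false

open Finset Function

namespace Pool.Agent.Helper5.NM

open Let

section
variable {K : Type*} [CommRing K]

/-- chains of prime words of weight `m` with `s` letters `S` -/
def PC (m s : ℕ) (x : Word →₀ K) : Prop :=
  ∀ w ∈ x.support, Prm w ∧ wt w = m ∧ w.count S = s

/-! Module B7: three evaluations of the boundary (with the coface formula B5). -/

/-! #### lists -/

theorem B7_ins (a : Let) : ∀ (i : ℕ) (l : Word), i ≤ l.length →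
    l.insertIdx i a = l.take i ++ a :: l.drop i := by
  intro i
  induction i with
  | zero => intro l _; simp
  | succ i ih =>
    intro l hl
    cases l with
    | nil => simp at hl
    | cons b l =>
      rw [List.insertIdx_succ_cons, ih l (by simpa using hl)]
      rfl

theorem B7_cc (x y : Let) (h : x ≠ y) (j : ℕ) (r : Word) :
    ((x :: r).take j).count y = (r.take (j - 1)).count y := by
  cases j with
  | zero => simp
  | succ j => rw [List.take_succ_cons, List.count_cons_of_ne h]; rfl

theorem B7_cc' (y : Let) (j : ℕ) (r : Word) :
    ((y :: r).take j).count y = min j 1 + (r.take (j - 1)).count y := by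
  cases j with
  | zero => simp
  | succ j =>
    rw [List.take_succ_cons, List.count_cons_self]
    have : min (j + 1) 1 = 1 := by omega
    rw [this, Nat.add_sub_cancel]
    omega

theorem B7_cr (x y : Let) (h : x ≠ y) (a j : ℕ) (r : Word) :
    ((List.replicate a x ++ r).take j).count y = (r.take (j - a)).count y := by
  rw [List.take_append, List.count_append, List.take_replicate, List.length_replicate,
    List.count_replicate]
  simp [h]

theorem B7_cr' (y : Let) (a j : ℕ) (r : Word) :
    ((List.replicate a y ++ r).take j).count y = min j a + (r.take (j - a)).count y := by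
  rw [List.take_append, List.count_append, List.take_replicate, List.length_replicate,
    List.count_replicate_self]

theorem B7_ce (x y : Let) (h : x ≠ y) (a j : ℕ) :
    ((List.replicate a x).take j).count y = 0 := by
  rw [List.take_replicate, List.count_replicate]
  simp [h]

theorem B7_ce' (y : Let) (a j : ℕ) : ((List.replicate a y).take j).count y = min j a := by
  rw [List.take_replicate, List.count_replicate_self]

theorem B7_tr (x : Let) (a b : ℕ) (r : Word) :
    (List.replicate (a + b) x ++ r).take a = List.replicate a x := by
  rw [List.replicate_add, List.append_assoc, List.take_left' (by simp)]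

theorem B7_dr (x : Let) (a b : ℕ) (r : Word) :
    (List.replicate (a + b) x ++ r).drop a = List.replicate b x ++ r := by
  rw [List.replicate_add, List.append_assoc, List.drop_left' (by simp)]

/-- the contribution of one letter `S` -/
noncomputable def B7_R (x : Word →₀ K) (p q : Word) : K :=
  ∑ j ∈ range (q.length + 1), (if p.count C + (q.take j).count C = p.count O then
    x (p ++ O :: (q.take j ++ C :: q.drop j)) else 0)

noncomputable def B7_L (x : Word →₀ K) (p q : Word) : K :=
  ∑ i ∈ range (p.length + 1), (if (p.take i).count O = p.count C then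
    x (p.take i ++ O :: (p.drop i ++ C :: q)) else 0)

/-- the summand of `dW_apply` -/
noncomputable def B7_g (x : Word →₀ K) (f : Word) (s : ℕ) : K :=
  (-1 : K) ^ (f.take s).count S *
        ((∑ i ∈ Ioc s f.length, (if (f.take i).count C = (f.take s).count O then
            x ((f.set s O).insertIdx i C) else 0)) -
         (∑ i ∈ range (s + 1), (if (f.take i).count O = (f.take s).count C then
            x ((f.set s C).insertIdx i O) else 0)))

theorem B7_g_eq (x : Word →₀ K) (p q : Word) :
    B7_g x (p ++ S :: q) p.length = (-1 : K) ^ p.count S * (B7_R x p q - B7_L x p q) := by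
  have ht : (p ++ S :: q).take p.length = p := List.take_left' rfl
  have hs : ∀ a : Let, (p ++ S :: q).set p.length a = p ++ a :: q := by
    intro a
    rw [List.set_append_right _ _ (le_refl _)]
    simp
  unfold B7_g
  rw [ht, hs, hs]
  congr 1
  congr 1
  · unfold B7_R
    have hI : Ioc p.length (p ++ S :: q).length = Ico (p.length + 1) (p.length + 1 + (q.length + 1)) := by
      ext i
      simp only [mem_Ioc, mem_Ico, List.length_append, List.length_cons]
      omega
    rw [hI, sum_Ico_eq_sum_range, Nat.add_sub_cancel_left]
    refine sum_congr rfl fun j hj => ?_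
    rw [mem_range] at hj
    have h1 : (p ++ S :: q).take (p.length + 1 + j) = p ++ S :: q.take j := by
      rw [show p.length + 1 + j = p.length + (j + 1) by ring, List.take_length_add_append,
        List.take_succ_cons]
    have h2 : (p ++ O :: q).insertIdx (p.length + 1 + j) C =
        p ++ O :: (q.take j ++ C :: q.drop j) := by
      rw [B7_ins _ _ _ (by simp; omega), show p.length + 1 + j = p.length + (j + 1) by ring,
        List.take_length_add_append, List.take_succ_cons, List.drop_length_add_append,
        List.drop_succ_cons, List.append_assoc]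
      rfl
    rw [h1, h2, List.count_append, List.count_cons_of_ne (by decide)]
  · unfold B7_L
    refine sum_congr rfl fun i hi => ?_
    rw [mem_range] at hi
    have h1 : (p ++ S :: q).take i = p.take i := by
      rw [List.take_append_of_le_length (by omega)]
    have h2 : (p ++ C :: q).insertIdx i O = p.take i ++ O :: (p.drop i ++ C :: q) := by
      rw [B7_ins _ _ _ (by simp; omega), List.take_append_of_le_length (by omega),
        List.drop_append_of_le_length (by omega)]
    rw [h1, h2]

theorem B7_get (p q : Word) (hp : S ∉ p) (hq : S ∉ q) (s : ℕ)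
    (h : (p ++ S :: q)[s]? = some S) : s = p.length := by
  rcases lt_trichotomy s p.length with h1 | h1 | h1
  · rw [List.getElem?_append_left h1] at h
    exact absurd (List.mem_of_getElem? h) hp
  · exact h1
  · rw [List.getElem?_append_right (by omega)] at h
    obtain ⟨k, hk⟩ : ∃ k, s - p.length = k + 1 := ⟨s - p.length - 1, by omega⟩
    rw [hk, List.getElem?_cons_succ] at h
    exact absurd (List.mem_of_getElem? h) hq

theorem B7_one (x : Word →₀ K) (hx : ∀ w ∈ x.support, Bal w) (p q : Word) (hf : Bal (p ++ S :: q))
    (hp : S ∉ p) (hq : S ∉ q) : dW K x (p ++ S :: q) = B7_R x p q - B7_L x p q := by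
  rw [dW_apply x hx _ hf]
  change ∑ s ∈ range (p ++ S :: q).length, (if (p ++ S :: q)[s]? = some S then
    B7_g x (p ++ S :: q) s else 0) = _
  rw [sum_eq_single p.length]
  · rw [if_pos (by simp), B7_g_eq, List.count_eq_zero_of_not_mem hp, pow_zero, one_mul]
  · intro s _ hs
    rw [if_neg]
    intro h
    exact hs (B7_get p q hp hq s h)
  · intro h
    exfalso
    apply h
    simp

theorem B7_two (x : Word →₀ K) (hx : ∀ w ∈ x.support, Bal w) (p q r : Word)
    (hf : Bal (p ++ S :: (q ++ S :: r)))
    (hp : S ∉ p) (hq : S ∉ q) (hr : S ∉ r) : dW K x (p ++ S :: (q ++ S :: r)) =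
      (B7_R x p (q ++ S :: r) - B7_L x p (q ++ S :: r)) -
      (B7_R x (p ++ S :: q) r - B7_L x (p ++ S :: q) r) := by
  rw [dW_apply x hx _ hf]
  have hff : p ++ S :: (q ++ S :: r) = (p ++ S :: q) ++ S :: r := by simp
  change ∑ s ∈ range (p ++ S :: (q ++ S :: r)).length, (if (p ++ S :: (q ++ S :: r))[s]? = some S then
    B7_g x (p ++ S :: (q ++ S :: r)) s else 0) = _
  have h1 := B7_g_eq x p (q ++ S :: r)
  have h2 := B7_g_eq x (p ++ S :: q) r
  rw [← hff] at h2
  rw [List.count_eq_zero_of_not_mem hp, pow_zero, one_mul] at h1
  have h3 : (p ++ S :: q).count S = 1 := by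
    rw [List.count_append, List.count_cons_self, List.count_eq_zero_of_not_mem hp,
      List.count_eq_zero_of_not_mem hq]
  rw [h3, pow_one, neg_one_mul] at h2
  rw [sum_eq_add p.length (p ++ S :: q).length]
  · rw [if_pos (by simp), if_pos (by rw [hff]; simp), h1, h2]
    ring
  · simp
  · rintro s _ ⟨hs1, hs2⟩
    rw [if_neg]
    intro h
    rcases lt_or_ge p.length s with h4 | h4
    · rw [List.getElem?_append_right (by omega)] at h
      obtain ⟨k, hk⟩ : ∃ k, s - p.length = k + 1 := ⟨s - p.length - 1, by omega⟩
      rw [hk, List.getElem?_cons_succ] at h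
      have := B7_get q r hq hr k h
      apply hs2
      simp
      omega
    · have h5 : s < p.length := by omega
      rw [List.getElem?_append_left h5] at h
      exact absurd (List.mem_of_getElem? h) hp
  · intro h
    exfalso
    apply h
    simp
  · intro h
    exfalso
    apply h
    simp

theorem B7_rep (a : ℕ) (y : Let) (h : y ≠ S) : S ∉ List.replicate a y := by
  intro h1
  exact h (List.eq_of_mem_replicate h1).symm

theorem ev_cw (m : ℕ) (hm : 1 ≤ m) (x : Word →₀ K) (hx : PC m 0 x) : dW K x (cw m) = 0 := by
  have hb : ∀ w ∈ x.support, Bal w := fun w hw => (hx w hw).1.1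
  have h1 := (prm_cw m hm).1
  unfold cw at h1 ⊢
  rw [B7_one x hb _ _ h1 (B7_rep _ _ (by decide)) (B7_rep _ _ (by decide))]
  have hR : B7_R x (List.replicate (m - 1) O) (List.replicate (m - 1) C) =
      x (List.replicate (m - 1) O ++ O :: (List.replicate (m - 1) C ++ [C])) := by
    unfold B7_R
    rw [sum_eq_single (m - 1)]
    · rw [B7_ce', List.count_replicate_self, List.count_replicate]
      simp
    · intro j hj hj2
      rw [mem_range, List.length_replicate] at hj
      rw [B7_ce', List.count_replicate_self, List.count_replicate]
      rw [if_neg]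
      simp
      omega
    · intro h
      exfalso
      apply h
      simp
  have hL : B7_L x (List.replicate (m - 1) O) (List.replicate (m - 1) C) =
      x (O :: (List.replicate (m - 1) O ++ C :: List.replicate (m - 1) C)) := by
    unfold B7_L
    rw [sum_eq_single 0]
    · rw [List.count_replicate]
      simp
    · intro j hj hj2
      rw [mem_range, List.length_replicate] at hj
      rw [B7_ce', List.count_replicate]
      rw [if_neg]
      simp
      omega
    · intro h
      exfalso
      apply h
      simp
  rw [hR, hL, sub_eq_zero]
  congr 1
  have e1 : List.replicate (m - 1) C ++ [C] = C :: List.replicate (m - 1) C := by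
    rw [← List.replicate_succ', List.replicate_succ]
  rw [e1]
  have e2 : ∀ r : Word, List.replicate (m - 1) O ++ O :: r = O :: (List.replicate (m - 1) O ++ r) := by
    intro r
    rw [← List.cons_append, ← List.replicate_succ, List.replicate_succ', List.append_assoc]
    rfl
  rw [e2]

/-- the words `O^k S C^a O C^b` -/
def B7_w (k a b : ℕ) : Word :=
  List.replicate k O ++ S :: (List.replicate a C ++ O :: List.replicate b C)

theorem B7_w_C (k a b i : ℕ) : ((B7_w k a b).take i).count C =
    min (i - k - 1) a + min (i - k - 1 - a - 1) b := by
  unfold B7_w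
  rw [B7_cr _ _ (by decide), B7_cc _ _ (by decide), B7_cr', B7_cc _ _ (by decide), B7_ce']

theorem B7_w_O (k a b i : ℕ) : ((B7_w k a b).take i).count O =
    min i k + min (i - k - 1 - a) 1 := by
  unfold B7_w
  rw [B7_cr', B7_cc _ _ (by decide), B7_cr _ _ (by decide), B7_cc', B7_ce _ _ (by decide)]
  omega

theorem B7_w_len (k a b : ℕ) : (B7_w k a b).length = k + 1 + (a + 1 + b) := by
  unfold B7_w
  simp
  omega

theorem B7_w_bal (k a b : ℕ) (h : a + b = k + 1) (hb : 1 ≤ b) : Bal (B7_w k a b) := by
  have h1 := B7_w_C k a b (B7_w k a b).length
  have h2 := B7_w_O k a b (B7_w k a b).length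
  rw [List.take_length] at h1 h2
  refine ⟨?_, fun i => ?_⟩
  · rw [h1, h2, B7_w_len]
    omega
  · rw [B7_w_C, B7_w_O]
    omega

theorem B7_w_prm (k a b : ℕ) (h : a + b = k + 1) (ha : a < k) : Prm (B7_w k a b) := by
  refine ⟨B7_w_bal k a b h (by omega), ?_, fun i hi hi2 hb => ?_⟩
  · intro h0
    have := B7_w_len k a b
    rw [h0, List.length_nil] at this
    omega
  · have h1 := hb.1
    rw [B7_w_C, B7_w_O] at h1
    rw [B7_w_len] at hi2
    omega

/-- the words `O^(k+1) C^a O C^(k+2-a)` -/
def B7_y (k a : ℕ) : Word :=
  List.replicate (k + 1) O ++ (List.replicate a C ++ O :: List.replicate (k + 2 - a) C)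

theorem B7_np (k : ℕ) (x : Word →₀ K) (hx : PC (k + 2) 0 x) :
    x (List.replicate (k + 1) O ++ (List.replicate (k + 1) C ++ [O, C])) = 0 := by
  by_contra h
  have h1 := (hx _ (Finsupp.mem_support_iff.2 h)).1
  have e : List.replicate (k + 1) O ++ (List.replicate (k + 1) C ++ [O, C]) =
      Aw (k + 1) ++ Aw 1 := by
    unfold Aw
    simp [List.replicate]
  rw [e] at h1
  have hA := prm_Aw (k + 1) (by omega)
  have hA1 := prm_Aw 1 (le_refl _)
  exact not_prm_append _ _ hA.1 hA1.1 hA.2.1 hA1.2.1 h1

theorem B7_eval (k a : ℕ) (ha : a ≤ k) (x : Word →₀ K) (hx : PC (k + 2) 0 x) :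
    dW K x (B7_w k a (k + 1 - a)) = x (B7_y k a) - (if a < k then x (B7_y k (a + 1)) else 0) := by
  have hb : ∀ w ∈ x.support, Bal w := fun w hw => (hx w hw).1.1
  have h1 := B7_w_bal k a (k + 1 - a) (by omega) (by omega)
  unfold B7_w at h1 ⊢
  have hq : S ∉ List.replicate a C ++ O :: List.replicate (k + 1 - a) C := by
    rw [List.mem_append, List.mem_cons]
    rintro (h | h | h)
    · exact B7_rep _ _ (by decide) h
    · exact absurd h (by decide)
    · exact B7_rep _ _ (by decide) h
  rw [B7_one x hb _ _ h1 (B7_rep _ _ (by decide)) hq]
  have hlen : (List.replicate a C ++ O :: List.replicate (k + 1 - a) C).length = k + 2 := by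
    simp; omega
  have hcnt : ∀ j, ((List.replicate a C ++ O :: List.replicate (k + 1 - a) C).take j).count C =
      min j a + min (j - a - 1) (k + 1 - a) := by
    intro j
    rw [B7_cr', B7_cc _ _ (by decide), B7_ce']
  have hO : (List.replicate k O : Word).count O = k := List.count_replicate_self
  have hC : (List.replicate k O : Word).count C = 0 := by
    rw [List.count_replicate]; simp
  congr 1
  · unfold B7_R
    rw [hlen, hO, hC]
    rw [sum_eq_single (k + 1)]
    · rw [hcnt, if_pos (by omega)]
      congr 1
      have e1 : (List.replicate a C ++ O :: List.replicate (k + 1 - a) C) =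
          (List.replicate a C ++ O :: List.replicate (k - a) C) ++ [C] := by
        have : k + 1 - a = (k - a) + 1 := by omega
        rw [this, List.replicate_succ' (n := k - a)]
        simp
      rw [e1, List.take_left' (by simp; omega), List.drop_left' (by simp; omega)]
      unfold B7_y
      have e2 : k + 2 - a = (k - a) + 2 := by omega
      rw [e2, List.replicate_succ' (n := k), List.replicate_add (m := k - a) (n := 2)]
      simp [List.replicate]
    · intro j hj hj2
      rw [mem_range] at hj
      rw [hcnt]
      split_ifs with hc
      · -- `a = k`, `j = k`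
        have hak : a = k := by omega
        have hjk : j = k := by omega
        subst hjk
        subst hak
        have e1 : (List.replicate a C ++ O :: List.replicate (a + 1 - a) C).take a =
            List.replicate a C := List.take_left' (by simp)
        have e2 : (List.replicate a C ++ O :: List.replicate (a + 1 - a) C).drop a =
            O :: List.replicate (a + 1 - a) C := List.drop_left' (by simp)
        rw [e1, e2]
        have e3 : List.replicate a O ++ O :: (List.replicate a C ++ C :: O :: List.replicate (a + 1 - a) C)
            = List.replicate (a + 1) O ++ (List.replicate (a + 1) C ++ [O, C]) := by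
          have : a + 1 - a = 1 := by omega
          rw [this, List.replicate_succ' (n := a), List.replicate_succ' (n := a)]
          simp
        rw [e3]
        exact B7_np a x hx
      · rfl
    · intro h
      exfalso
      apply h
      simp
  · unfold B7_L
    rw [List.length_replicate, hC]
    rw [sum_eq_single 0]
    · rw [if_pos (by simp), List.take_zero, List.drop_zero, List.nil_append]
      split_ifs with hak
      · congr 1
        unfold B7_y
        have : k + 2 - (a + 1) = k + 1 - a := by omega
        rw [this, List.replicate_succ (n := k), List.replicate_succ (n := a)]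
        simp
      · have hak' : a = k := by omega
        subst hak'
        have e3 : O :: (List.replicate a O ++ C :: (List.replicate a C ++ O :: List.replicate (a + 1 - a) C))
            = List.replicate (a + 1) O ++ (List.replicate (a + 1) C ++ [O, C]) := by
          have : a + 1 - a = 1 := by omega
          rw [this, List.replicate_succ (n := a), List.replicate_succ (n := a)]
          simp
        rw [e3]
        exact B7_np a x hx
    · intro j hj hj2
      rw [mem_range] at hj
      rw [B7_ce', if_neg]
      omega
    · intro h
      exfalso
      apply h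
      simp

theorem ev_kappa (m : ℕ) (hm : 2 ≤ m) (x : Word →₀ K) (hx : PC m 0 x)
    (hc : ∀ v, Prm v → dW K x v = 0) : dW K x (cw (m - 1) ++ [O, C]) = x (Aw m) := by
  obtain ⟨k, rfl⟩ : ∃ k, m = k + 2 := ⟨m - 2, by omega⟩
  have h1 : ∀ a, a ≤ k → x (B7_y k a) = x (Aw (k + 2)) := by
    intro a
    induction a with
    | zero =>
      intro _
      congr 1
      unfold B7_y Aw
      rw [List.replicate_succ' (n := k + 1)]
      simp
    | succ a ih =>
      intro ha
      have h2 := B7_eval k a (by omega) x hx
      rw [hc _ (B7_w_prm k a (k + 1 - a) (by omega) (by omega)), if_pos (by omega)] at h2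
      rw [← ih (by omega)]
      exact (sub_eq_zero.1 h2.symm).symm
  have h2 := B7_eval k k (le_refl _) x hx
  rw [if_neg (lt_irrefl _), sub_zero, h1 k (le_refl _)] at h2
  rw [← h2]
  congr 1
  unfold cw B7_w
  have e1 : k + 2 - 1 - 1 = k := by omega
  have e2 : k + 1 - k = 1 := by omega
  rw [e1, e2]
  simp

theorem B7_notEnd : ∀ (i j : ℕ) (u v : Word),
    List.replicate i C ++ O :: u ≠ List.replicate j C ++ S :: v := by
  intro i
  induction i with
  | zero =>
    intro j u v h
    cases j with
    | zero => simp at h
    | succ j => simp [List.replicate_succ] at h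
  | succ i ih =>
    intro j u v h
    cases j with
    | zero => simp [List.replicate_succ] at h
    | succ j =>
      rw [List.replicate_succ, List.replicate_succ, List.cons_append, List.cons_append] at h
      exact ih j u v (List.cons.inj h).2

theorem B7_end (n : ℕ) (x : Word →₀ K) (hx : ∀ w ∈ x.support, InL n 1 w) (u : Word) (b : ℕ) :
    x (u ++ O :: List.replicate b C) = 0 := by
  by_contra h
  obtain ⟨p, i, hp⟩ := (hx _ (Finsupp.mem_support_iff.2 h)).2.2.2
  have h1 := congrArg List.reverse hp
  simp only [List.reverse_append, List.reverse_cons, List.reverse_replicate, List.append_assoc,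
    List.singleton_append] at h1
  exact B7_notEnd _ _ _ _ h1

/-- the words `O^(k+1) C^i S C^(k+1-i)` -/
def B7_W (k i : ℕ) : Word :=
  List.replicate (k + 1) O ++ (List.replicate i C ++ S :: List.replicate (k + 1 - i) C)

theorem B7_f_bal (k i : ℕ) (hi : i ≤ k) :
    Bal (List.replicate k O ++ S :: (List.replicate i C ++ S :: List.replicate (k - i) C)) := by
  set f := List.replicate k O ++ S :: (List.replicate i C ++ S :: List.replicate (k - i) C) with hf
  have hC : ∀ j, (f.take j).count C = min (j - k - 1) i + min (j - k - 1 - i - 1) (k - i) := by
    intro j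
    rw [hf, B7_cr _ _ (by decide), B7_cc _ _ (by decide), B7_cr', B7_cc _ _ (by decide), B7_ce']
  have hO : ∀ j, (f.take j).count O = min j k := by
    intro j
    rw [hf, B7_cr', B7_cc _ _ (by decide), B7_cr _ _ (by decide), B7_cc _ _ (by decide),
      B7_ce _ _ (by decide), add_zero]
  have hl : f.length = k + 1 + (i + 1 + (k - i)) := by
    rw [hf]; simp; omega
  refine ⟨?_, fun j => ?_⟩
  · have h1 := hC f.length
    have h2 := hO f.length
    rw [List.take_length] at h1 h2
    rw [h1, h2, hl]
    omega
  · rw [hC, hO]
    omega

theorem B7_evalf (k i : ℕ) (hi : i ≤ k) (x : Word →₀ K)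
    (hx : ∀ w ∈ x.support, InL (k + 2) 1 w) :
    dW K x (List.replicate k O ++ S :: (List.replicate i C ++ S :: List.replicate (k - i) C)) =
      x (B7_W k i) + (if i = k then x (B7_W k (k + 1)) else 0) - x (B7_W k (i + 1)) +
        x (cw (k + 2)) := by
  have hb : ∀ w ∈ x.support, Bal w := fun w hw => (hx w hw).1
  rw [B7_two x hb _ _ _ (B7_f_bal k i hi) (B7_rep _ _ (by decide)) (B7_rep _ _ (by decide))
    (B7_rep _ _ (by decide))]
  have hO : (List.replicate k O : Word).count O = k := List.count_replicate_self
  have hC : (List.replicate k O : Word).count C = 0 := by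
    rw [List.count_replicate]; simp
  have hlen : (List.replicate i C ++ S :: List.replicate (k - i) C).length = k + 1 := by
    simp; omega
  have hcnt : ∀ j, ((List.replicate i C ++ S :: List.replicate (k - i) C).take j).count C =
      min j i + min (j - i - 1) (k - i) := by
    intro j
    rw [B7_cr', B7_cc _ _ (by decide), B7_ce']
  -- first S, right
  have r1 : B7_R x (List.replicate k O) (List.replicate i C ++ S :: List.replicate (k - i) C) =
      x (B7_W k i) + (if i = k then x (B7_W k (k + 1)) else 0) := by
    unfold B7_R
    rw [hlen, hO, hC, sum_range_succ, hcnt (k + 1), if_pos (by omega)]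
    have e0 : x (List.replicate k O ++ O ::
        ((List.replicate i C ++ S :: List.replicate (k - i) C).take (k + 1) ++
          C :: (List.replicate i C ++ S :: List.replicate (k - i) C).drop (k + 1))) =
        x (B7_W k i) := by
      congr 1
      rw [List.take_of_length_le (by rw [hlen]), List.drop_of_length_le (by rw [hlen])]
      unfold B7_W
      have e2 : k + 1 - i = (k - i) + 1 := by omega
      rw [e2, List.replicate_succ' (n := k), List.replicate_succ' (n := k - i)]
      simp
    rw [e0, add_comm]
    congr 1
    rw [sum_eq_single k]
    · rw [hcnt]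
      by_cases hik : i = k
      · subst hik
        rw [if_pos (by omega), if_pos rfl, List.take_left' (by simp), List.drop_left' (by simp)]
        congr 1
        unfold B7_W
        rw [List.replicate_succ' (n := i), List.replicate_succ' (n := i)]
        simp
      · rw [if_neg (by omega), if_neg hik]
    · intro j hj hj2
      rw [mem_range] at hj
      rw [hcnt, if_neg (by omega)]
    · intro h
      exfalso
      apply h
      simp
  -- first S, left
  have r2 : B7_L x (List.replicate k O) (List.replicate i C ++ S :: List.replicate (k - i) C) =
      x (B7_W k (i + 1)) := by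
    unfold B7_L
    rw [List.length_replicate, hC]
    rw [sum_eq_single 0]
    · rw [if_pos (by simp), List.take_zero, List.drop_zero, List.nil_append]
      congr 1
      unfold B7_W
      have : k + 1 - (i + 1) = k - i := by omega
      rw [this, List.replicate_succ (n := k), List.replicate_succ (n := i)]
      simp
    · intro j hj hj2
      rw [mem_range] at hj
      rw [B7_ce', if_neg]
      omega
    · intro h
      exfalso
      apply h
      simp
  -- second S, right
  have r3 : B7_R x (List.replicate k O ++ S :: List.replicate i C) (List.replicate (k - i) C) = 0 := by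
    unfold B7_R
    refine sum_eq_zero fun j hj => ?_
    rw [mem_range, List.length_replicate] at hj
    have e : (List.replicate (k - i) C).take j ++ C :: (List.replicate (k - i) C).drop j =
        List.replicate (k - i + 1) C := by
      rw [List.take_replicate, List.drop_replicate, ← List.replicate_succ, ← List.replicate_add]
      congr 1
      omega
    rw [e, B7_end (k + 2) x hx, ite_self]
  -- second S, left
  have r4 : B7_L x (List.replicate k O ++ S :: List.replicate i C) (List.replicate (k - i) C) =
      x (cw (k + 2)) := by
    have hC' : (List.replicate k O ++ S :: List.replicate i C).count C = i := by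
      rw [List.count_append, hC, List.count_cons_of_ne (by decide), List.count_replicate_self,
        zero_add]
    have hlen' : (List.replicate k O ++ S :: List.replicate i C).length = k + 1 + i := by
      simp; omega
    unfold B7_L
    rw [hC', hlen', sum_eq_single i]
    · rw [B7_cr', B7_cc _ _ (by decide), B7_ce _ _ (by decide), if_pos (by omega)]
      congr 1
      obtain ⟨d, rfl⟩ : ∃ d, k = i + d := ⟨k - i, by omega⟩
      rw [B7_tr, B7_dr, Nat.add_sub_cancel_left]
      unfold cw
      have e1 : i + d + 2 - 1 = i + (d + 1) := by omega
      rw [e1, List.replicate_add (m := i) (n := d + 1), List.replicate_add (m := i) (n := d + 1),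
        List.replicate_succ (n := d), List.replicate_succ (n := d)]
      simp
    · intro j hj hj2
      rw [mem_range] at hj
      rw [B7_cr', B7_cc _ _ (by decide), B7_ce _ _ (by decide)]
      by_cases hjk : j ≤ k
      · rw [if_neg (by omega)]
      · have e1 : (List.replicate k O ++ S :: List.replicate i C).drop j =
            List.replicate (k + 1 + i - j) C := by
          have h0 : List.replicate k O ++ S :: List.replicate i C =
              (List.replicate k O ++ [S]) ++ List.replicate i C := by simp
          obtain ⟨e, rfl⟩ : ∃ e, j = (List.replicate k O ++ [S]).length + e :=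
            ⟨j - (k + 1), by simp; omega⟩
          rw [h0, List.drop_length_add_append, List.drop_replicate]
          congr 1
          simp
          omega
        have e2 : (List.replicate k O ++ S :: List.replicate i C).drop j ++
            C :: List.replicate (k - i) C = List.replicate (k + 1 + i - j + (k - i + 1)) C := by
          rw [e1, ← List.replicate_succ, ← List.replicate_add]
        rw [e2, B7_end (k + 2) x hx, ite_self]
    · intro h
      exfalso
      apply h
      rw [mem_range]
      omega
  rw [r1, r2, r3, r4]
  ring

theorem rho_dW (n : ℕ) (hn : 2 ≤ n) (x : Word →₀ K) (hx : ∀ w ∈ x.support, InL n 1 w) :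
    rho n (dW K x) = (n : K) * x (cw n) := by
  obtain ⟨k, rfl⟩ : ∃ k, n = k + 2 := ⟨n - 2, by omega⟩
  unfold rho
  have e1 : k + 2 - 1 = k + 1 := by omega
  have e2 : k + 2 - 2 = k := by omega
  rw [e1, e2]
  have h1 : ∀ i ∈ range (k + 1), dW K x (List.replicate k O ++ S :: (List.replicate i C ++
      S :: List.replicate (k - i) C)) = (x (B7_W k i) - x (B7_W k (i + 1))) +
        (if i = k then x (B7_W k (k + 1)) else 0) + x (cw (k + 2)) := by
    intro i hi
    rw [mem_range] at hi
    rw [B7_evalf k i (by omega) x hx]
    ring
  rw [sum_congr rfl h1, sum_add_distrib, sum_add_distrib, sum_range_sub', sum_ite_eq',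
    if_pos (by simp), sum_const, card_range, nsmul_eq_mul]
  have h2 : B7_W k 0 = cw (k + 2) := by
    unfold B7_W cw
    simp
  rw [h2]
  push_cast
  ring

end

end Pool.Agent.Helper5.NM
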