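import Pool.Agent.Helper5.NM.Defs
import Pool.Agent.Helper5.NM.B5
import Pool.Agent.Helper5.NM.B6

set_option autoImplicit false

open Finset Function

namespace Pool.Agent.Helper5.NM

open Let

section
variable {K : Type*} [CommRing K]

/-- words beginning with `O^(k+1) C`, `k ≥ 1` -/
def CT (w : Word) : Prop := ∃ (k : ℕ) (r : Word), 1 ≤ k ∧ w = List.replicate (k + 1) O ++ C :: r

/-- words beginning with `O^k S`, `k ≥ 1` -/
def ST (w : Word) : Prop := ∃ (k : ℕ) (r : Word), 1 ≤ k ∧ w = List.replicate k O ++ S :: r

/-! Module B8: prime words of weight at least two are of exactly one of the two types; the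
partner map `O^k S r <-> O^(k+1) C r`; evaluation of the boundary of a chain of C-type words at an
S-type word; injectivity. -/

/-- the first run of `O` is unique -/
theorem b8_run (a : ℕ) : ∀ (b : ℕ) (x y : Let) (r r' : Word), x ≠ O → y ≠ O →
    List.replicate a O ++ x :: r = List.replicate b O ++ y :: r' → a = b ∧ x = y ∧ r = r' := by
  induction a with
  | zero =>
    intro b x y r r' hx hy h
    cases b with
    | zero => simpa using h
    | succ b =>
      rw [List.replicate_succ, List.cons_append] at h
      simp only [List.replicate_zero, List.nil_append, List.cons.injEq] at h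
      exact absurd h.1 hx
  | succ a ih =>
    intro b x y r r' hx hy h
    cases b with
    | zero =>
      rw [List.replicate_succ, List.cons_append] at h
      simp only [List.replicate_zero, List.nil_append, List.cons.injEq] at h
      exact absurd h.1.symm hy
    | succ b =>
      rw [List.replicate_succ, List.replicate_succ, List.cons_append, List.cons_append] at h
      simp only [List.cons.injEq, true_and] at h
      obtain ⟨h1, h2, h3⟩ := ih b x y r r' hx hy h
      exact ⟨by omega, h2, h3⟩

theorem b8_not_ST_CT (w : Word) (h1 : CT w) (h2 : ST w) : False := by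
  obtain ⟨k, r, -, rfl⟩ := h1
  obtain ⟨k', r', -, h⟩ := h2
  have := (b8_run _ _ _ _ _ _ (by decide) (by decide) h).2.1
  exact absurd this (by decide)

theorem prm_iff (w : Word) : Prm w ↔ w ≠ [] ∧ w.count C = w.count O ∧
    ∀ i, 0 < i → i < w.length → (w.take i).count C < (w.take i).count O := by
  constructor
  · rintro ⟨hb, hne, hp⟩
    refine ⟨hne, hb.1, fun i h0 hi => ?_⟩
    have h1 := hb.2 i
    rcases h1.lt_or_eq with h | h
    · exact h
    · exfalso
      refine hp i h0 hi ⟨h, fun j => ?_⟩
      rw [List.take_take]
      exact hb.2 _
  · rintro ⟨hne, h1, h2⟩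
    refine ⟨⟨h1, fun i => ?_⟩, hne, fun i h0 hi hb => ?_⟩
    · rcases Nat.eq_zero_or_pos i with h0 | h0
      · simp [h0]
      · rcases lt_or_ge i w.length with h | h
        · exact (h2 i h0 h).le
        · rw [List.take_of_length_le h, h1]
    · have := h2 i h0 hi
      have := hb.1
      omega

/-- primality of a word with a positive prefix -/
theorem b8_prm_pre (p r : Word) (hp : p ≠ [])
    (hpos : ∀ i, 0 < i → i ≤ p.length → (p.take i).count C < (p.take i).count O) :
    Prm (p ++ r) ↔ (p.count C + r.count C = p.count O + r.count O ∧
      ∀ j < r.length, p.count C + (r.take j).count C < p.count O + (r.take j).count O) := by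
  rw [prm_iff]
  have hpl : 0 < p.length := List.length_pos_of_ne_nil hp
  constructor
  · rintro ⟨-, h1, h2⟩
    refine ⟨by simpa [List.count_append] using h1, fun j hj => ?_⟩
    have := h2 (p.length + j) (by omega) (by rw [List.length_append]; omega)
    rw [List.take_length_add_append] at this
    simpa [List.count_append] using this
  · rintro ⟨h1, h2⟩
    refine ⟨by simp [hp], by simpa [List.count_append] using h1, fun i h0 hi => ?_⟩
    rcases le_or_gt i p.length with h | h
    · rw [List.take_append_of_le_length h]
      exact hpos i h0 h
    · obtain ⟨j, rfl⟩ : ∃ j, i = p.length + j := ⟨i - p.length, by omega⟩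
      rw [List.take_length_add_append, List.count_append, List.count_append]
      exact h2 j (by rw [List.length_append] at hi; omega)

theorem b8_pos_O (k : ℕ) (b : Let) (hk : 1 ≤ k) (hb : b = S ∨ 2 ≤ k) :
    ∀ i, 0 < i → i ≤ (List.replicate k O ++ [b]).length →
      ((List.replicate k O ++ [b]).take i).count C <
        ((List.replicate k O ++ [b]).take i).count O := by
  intro i h0 hi
  rw [List.length_append, List.length_replicate, List.length_singleton] at hi
  rcases Nat.lt_or_ge i (k + 1) with h | h
  · rw [List.take_append_of_le_length (by rw [List.length_replicate]; omega),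
      List.take_replicate, List.count_replicate, List.count_replicate]
    simp
    omega
  · rw [List.take_of_length_le (by simp; omega), List.count_append, List.count_append,
      List.count_replicate, List.count_replicate]
    rcases hb with rfl | hb
    · simp
      omega
    · cases b <;> simp <;> omega

theorem prm_partner (k : ℕ) (hk : 1 ≤ k) (r : Word) :
    Prm (List.replicate (k + 1) O ++ C :: r) ↔ Prm (List.replicate k O ++ S :: r) := by
  have e1 : List.replicate (k + 1) O ++ C :: r = (List.replicate (k + 1) O ++ [C]) ++ r := by simp
  have e2 : List.replicate k O ++ S :: r = (List.replicate k O ++ [S]) ++ r := by simp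
  rw [e1, e2, b8_prm_pre _ _ (by simp) (b8_pos_O (k + 1) C (by omega) (Or.inr (by omega))),
    b8_prm_pre _ _ (by simp) (b8_pos_O k S hk (Or.inl rfl))]
  simp only [List.count_append, List.count_replicate]
  simp
  constructor
  · rintro ⟨h1, h2⟩
    refine ⟨by omega, fun j hj => ?_⟩
    have := h2 j hj
    omega
  · rintro ⟨h1, h2⟩
    refine ⟨by omega, fun j hj => ?_⟩
    have := h2 j hj
    omega

/-- every word is a run of `O` followed by nothing or by another letter -/
theorem b8_first (w : Word) : (∃ k, w = List.replicate k O) ∨
    ∃ k b r, b ≠ O ∧ w = List.replicate k O ++ b :: r := by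
  induction w with
  | nil => exact Or.inl ⟨0, rfl⟩
  | cons a w ih =>
    by_cases ha : a = O
    · subst ha
      rcases ih with ⟨k, rfl⟩ | ⟨k, b, r, hb, rfl⟩
      · exact Or.inl ⟨k + 1, by rw [List.replicate_succ]⟩
      · exact Or.inr ⟨k + 1, b, r, hb, by rw [List.replicate_succ, List.cons_append]⟩
    · exact Or.inr ⟨0, a, w, ha, rfl⟩

theorem prm_type (w : Word) (hw : Prm w) (h2 : 2 ≤ wt w) : (CT w ∨ ST w) ∧ ¬ (CT w ∧ ST w) := by
  refine ⟨?_, fun h => b8_not_ST_CT w h.1 h.2⟩
  have hw' := (prm_iff w).1 hw
  rcases b8_first w with ⟨k, rfl⟩ | ⟨k, b, r, hb, rfl⟩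
  · exfalso
    have := hw'.2.1
    rw [List.count_replicate, List.count_replicate] at this
    simp at this
    subst this
    exact hw'.1 rfl
  · rcases Nat.eq_zero_or_pos k with h0 | h0
    · subst h0
      exfalso
      have h3 : r ≠ [] := by
        rintro rfl
        cases b
        · exact hb rfl
        · have := hw'.2.1
          simp at this
        · simp [wt] at h2
      have h4 := hw'.2.2 1 (by omega) (by
        have := List.length_pos_of_ne_nil h3
        simpa using this)
      simp [hb] at h4
    · cases b
      · exact absurd rfl hb
      · rcases Nat.lt_or_ge k 2 with h1 | h1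
        · exfalso
          obtain rfl : k = 1 := by omega
          have h3 : r ≠ [] := by
            rintro rfl
            simp [wt] at h2
          have h4 := hw'.2.2 2 (by omega) (by
            have := List.length_pos_of_ne_nil h3
            simpa using this)
          simp at h4
        · left
          refine ⟨k - 1, r, by omega, ?_⟩
          congr 2
          omega
      · right
        exact ⟨k, r, h0, rfl⟩

theorem b8_ins_right (k : ℕ) (l : Word) (j : ℕ) (a : Let) :
    (List.replicate k O ++ l).insertIdx (k + j) a = List.replicate k O ++ l.insertIdx j a := by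
  induction k with
  | zero => simp
  | succ k ih =>
    rw [List.replicate_succ, List.cons_append, List.cons_append,
      show k + 1 + j = (k + j) + 1 by omega, List.insertIdx_succ_cons, ih]

theorem b8_ins_left (k : ℕ) : ∀ (i : ℕ) (l : Word), i ≤ k →
    (List.replicate k O ++ l).insertIdx i O = List.replicate (k + 1) O ++ l := by
  induction k with
  | zero =>
    intro i l hi
    obtain rfl : i = 0 := by omega
    simp
  | succ k ih =>
    intro i l hi
    cases i with
    | zero => simp [List.replicate_succ]
    | succ i =>
      rw [List.replicate_succ, List.cons_append, List.insertIdx_succ_cons, ih i l (by omega)]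
      simp [List.replicate_succ]

theorem b8_set (k : ℕ) (l : Word) (t : ℕ) (a : Let) :
    (List.replicate k O ++ l).set (k + t) a = List.replicate k O ++ l.set t a := by
  rw [List.set_append_right _ _ (by simp)]
  simp

theorem dW_ST (x : Word →₀ K) (hx : ∀ w ∈ x.support, Prm w ∧ CT w) (k : ℕ) (hk : 1 ≤ k)
    (r : Word) (hv : Prm (List.replicate k O ++ S :: r)) :
    dW K x (List.replicate k O ++ S :: r) =
      (∑ i ∈ range (r.length + 1), (if (r.take i).count C = k then
        x (List.replicate (k + 1) O ++ r.insertIdx i C) else 0)) -
      x (List.replicate (k + 1) O ++ C :: r) := by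
  have hx0 : ∀ (j : ℕ) (q : Word), 1 ≤ j → x (List.replicate j O ++ S :: q) = 0 := by
    intro j q hj
    by_contra h
    exact b8_not_ST_CT _ (hx _ (Finsupp.mem_support_iff.2 h)).2 ⟨j, q, hj, rfl⟩
  rw [dW_apply x (fun w hw => (hx w hw).1.1) _ hv.1]
  have hlen : (List.replicate k O ++ S :: r).length = k + 1 + r.length := by
    simp; omega
  rw [hlen]
  have hget : ∀ t : ℕ, (List.replicate k O ++ S :: r)[k + t]? = (S :: r)[t]? := by
    intro t
    rw [List.getElem?_append_right (by simp)]
    simp
  rw [Finset.sum_eq_single k]
  · have h0 := hget 0
    rw [Nat.add_zero] at h0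
    have htk : (List.replicate k O ++ S :: r).take k = List.replicate k O := by
      simp
    rw [h0, htk]
    rw [if_pos (by simp)]
    have hc1 : (List.replicate k O).count S = 0 := by
      rw [List.count_replicate]; simp
    have hc2 : (List.replicate k O).count O = k := by
      rw [List.count_replicate]; simp
    have hc3 : (List.replicate k O).count C = 0 := by
      rw [List.count_replicate]; simp
    rw [hc1, hc2, hc3, pow_zero, one_mul]
    congr 1
    · symm
      refine Finset.sum_bij (fun i _ => k + 1 + i) ?_ ?_ ?_ ?_
      · intro i hi
        rw [Finset.mem_range] at hi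
        rw [Finset.mem_Ioc]
        omega
      · intro i _ j _ h
        simpa using h
      · intro b hb
        rw [Finset.mem_Ioc] at hb
        exact ⟨b - (k + 1), by rw [Finset.mem_range]; omega, by omega⟩
      · intro i hi
        have h1 : (List.replicate k O ++ S :: r).take (k + 1 + i) =
            List.replicate k O ++ S :: r.take i := by
          rw [show k + 1 + i = (List.replicate k O).length + (i + 1) by simp; omega,
            List.take_length_add_append, List.take_succ_cons]
        have h2 : ((List.replicate k O ++ S :: r).set k O).insertIdx (k + 1 + i) C =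
            List.replicate (k + 1) O ++ r.insertIdx i C := by
          have := b8_set k (S :: r) 0 O
          rw [Nat.add_zero] at this
          rw [this, List.set_cons_zero]
          have h3 : List.replicate k O ++ O :: r = List.replicate (k + 1) O ++ r := by
            rw [List.replicate_succ']
            simp
          rw [h3, b8_ins_right]
        rw [h1, h2]
        have h4 : (List.replicate k O ++ S :: r.take i).count C = (r.take i).count C := by
          rw [List.count_append, hc3]
          simp
        rw [h4]
    · rw [Finset.sum_eq_single 0]
      · rw [if_pos (by simp)]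
        have := b8_set k (S :: r) 0 C
        rw [Nat.add_zero] at this
        rw [this, List.set_cons_zero, b8_ins_left k 0 _ (by omega)]
      · intro i hi h0
        rw [Finset.mem_range] at hi
        rw [if_neg]
        rw [List.take_append_of_le_length (by simp; omega), List.take_replicate,
          List.count_replicate]
        simp
        omega
      · intro h
        simp at h
  · intro s hs hsk
    rw [Finset.mem_range] at hs
    split_ifs with hS
    · have hks : k < s := by
        rcases Nat.lt_or_ge s k with h | h
        · rw [List.getElem?_append_left (by simpa using h), List.getElem?_replicate, if_pos h]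
            at hS
          simp at hS
        · omega
      obtain ⟨t, rfl⟩ : ∃ t, s = k + (t + 1) := ⟨s - k - 1, by omega⟩
      rw [b8_set, b8_set, List.set_cons_succ, List.set_cons_succ]
      rw [Finset.sum_eq_zero, Finset.sum_eq_zero, sub_zero, mul_zero]
      · intro i hi
        rw [Finset.mem_range] at hi
        split_ifs with h
        · rcases Nat.lt_or_ge k i with h1 | h1
          · obtain ⟨j, rfl⟩ : ∃ j, i = k + (j + 1) := ⟨i - k - 1, by omega⟩
            rw [b8_ins_right, List.insertIdx_succ_cons]
            exact hx0 _ _ hk
          · rw [b8_ins_left _ _ _ h1]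
            exact hx0 _ _ (by omega)
        · rfl
      · intro i hi
        rw [Finset.mem_Ioc] at hi
        split_ifs with h
        · obtain ⟨j, rfl⟩ : ∃ j, i = k + (j + 1) := ⟨i - k - 1, by omega⟩
          rw [b8_ins_right, List.insertIdx_succ_cons]
          exact hx0 _ _ hk
        · rfl
    · rfl
  · intro h
    exact absurd (Finset.mem_range.2 (by omega)) h

theorem b8_ins_eq (r : Word) : ∀ i : ℕ, i ≤ r.length →
    r.insertIdx i C = r.take i ++ C :: r.drop i := by
  induction r with
  | nil =>
    intro i hi
    obtain rfl : i = 0 := by simpa using hi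
    simp
  | cons a r ih =>
    intro i hi
    cases i with
    | zero => simp
    | succ i =>
      rw [List.insertIdx_succ_cons, ih i (by simpa using hi)]
      simp

/-- binary value of a word: the letters different from `C` count one -/
def b8_val (w : Word) : ℕ := w.foldl (fun n b => 2 * n + if b = C then 0 else 1) 0

theorem b8_val_aux (w : Word) : ∀ n : ℕ,
    w.foldl (fun n b => 2 * n + if b = C then 0 else 1) n = n * 2 ^ w.length + b8_val w := by
  induction w with
  | nil => intro n; simp [b8_val]
  | cons a w ih =>
    intro n
    have h1 := ih (2 * n + if a = C then 0 else 1)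
    have h2 := ih (2 * 0 + if a = C then 0 else 1)
    unfold b8_val
    rw [List.foldl_cons, List.foldl_cons, h1, h2, List.length_cons, pow_succ]
    ring

theorem b8_val_append (v w : Word) : b8_val (v ++ w) = b8_val v * 2 ^ w.length + b8_val w := by
  unfold b8_val
  rw [List.foldl_append, b8_val_aux]
  rfl

theorem b8_val_cons_C (w : Word) : b8_val (C :: w) = b8_val w := by
  have := b8_val_append [C] w
  simpa [b8_val] using this

theorem b8_val_C (w : Word) : b8_val (w ++ [C]) = 2 * b8_val w := by
  rw [b8_val_append]
  simp [b8_val]
  omega

theorem b8_val_zero (w : Word) (h : b8_val w = 0) : w.count C = w.length := by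
  induction w with
  | nil => rfl
  | cons a w ih =>
    have h1 := b8_val_append [a] w
    rw [List.singleton_append, h] at h1
    have h2 : b8_val w = 0 := by omega
    have h3 : b8_val [a] * 2 ^ w.length = 0 := by omega
    have h4 : b8_val [a] = 0 := by
      rcases Nat.mul_eq_zero.1 h3 with h | h
      · exact h
      · exact absurd h (by positivity)
    have ha : a = C := by
      by_contra hne
      simp [b8_val, hne] at h4
    rw [ha, List.count_cons_self, ih h2, List.length_cons]

theorem Uinj (m : ℕ) (hm : 2 ≤ m) (x : Word →₀ K)
    (hx : ∀ w ∈ x.support, Prm w ∧ wt w = m ∧ CT w ∧ w ≠ Aw m)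
    (h : ∀ v, Prm v → ST v → dW K x v = 0) : x = 0 := by
  by_contra hne
  obtain ⟨w, hw, hmax⟩ := Finset.exists_max_image x.support b8_val
    (Finsupp.support_nonempty_iff.2 hne)
  obtain ⟨hP, hwt, ⟨k, r, hk, rfl⟩, hA⟩ := hx w hw
  have hPv := (prm_partner k hk r).1 hP
  have h0 := h _ hPv ⟨k, r, hk, rfl⟩
  rw [dW_ST x (fun w hw => ⟨(hx w hw).1, (hx w hw).2.2.1⟩) k hk r hPv, sub_eq_zero] at h0
  have h1 : (∑ i ∈ range (r.length + 1), (if (r.take i).count C = k then
        x (List.replicate (k + 1) O ++ r.insertIdx i C) else 0)) ≠ 0 := by
    rw [h0]
    exact Finsupp.mem_support_iff.1 hw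
  obtain ⟨i, hi, h2⟩ := Finset.exists_ne_zero_of_sum_ne_zero h1
  rw [Finset.mem_range] at hi
  split_ifs at h2 with h3
  · have hins : r.insertIdx i C = r.take i ++ C :: r.drop i := b8_ins_eq r i (by omega)
    have h4 := hmax _ (Finsupp.mem_support_iff.2 h2)
    have e1 : List.replicate (k + 1) O ++ r.insertIdx i C =
        List.replicate (k + 1) O ++ (((r.take i) ++ [C]) ++ r.drop i) := by
      rw [hins]; simp
    have e2 : List.replicate (k + 1) O ++ C :: r =
        List.replicate (k + 1) O ++ ((C :: (r.take i)) ++ r.drop i) := by
      rw [List.cons_append, List.take_append_drop]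
    rw [e1, e2, b8_val_append, b8_val_append (List.replicate (k + 1) O), b8_val_append (_ ++ [C]),
      b8_val_append (C :: _), b8_val_C, b8_val_cons_C] at h4
    have h5 : b8_val (r.take i) = 0 := by
      by_contra hne0
      have h6 : 0 < 2 ^ (r.drop i).length := by positivity
      have h7 : (r.take i ++ [C] ++ r.drop i).length = (C :: r.take i ++ r.drop i).length := by
        simp
        omega
      rw [h7] at h4
      have h8 : 0 < b8_val (r.take i) * 2 ^ (r.drop i).length :=
        Nat.mul_pos (Nat.pos_of_ne_zero hne0) h6
      nlinarith
    have h6 := b8_val_zero _ h5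
    rw [h3] at h6
    have h7 : r.take i = List.replicate k C := by
      rw [List.eq_replicate_iff]
      refine ⟨h6.symm, fun b hb => ?_⟩
      have h8 : (r.take i).count C = (r.take i).length := by rw [h3, h6]
      exact (List.count_eq_length.1 h8 b hb).symm
    have h8 : List.replicate (k + 1) O ++ C :: r = Aw (k + 1) ++ r.drop i := by
      conv_lhs => rw [← List.take_append_drop i r, h7]
      simp [Aw, List.replicate_succ]
    have h9 : r.drop i = [] := by
      by_contra hne0
      have h10 := ((prm_iff _).1 hP).2.2 (2 * (k + 1)) (by omega) (by
        rw [h8]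
        have := List.length_pos_of_ne_nil hne0
        simp [Aw] at this ⊢
        omega)
      rw [h8, List.take_append_of_le_length (by simp [Aw]; omega),
        List.take_of_length_le (by simp [Aw]; omega)] at h10
      simp [Aw, List.count_append, List.count_replicate] at h10
    rw [h9, List.append_nil] at h8
    apply hA
    rw [h8]
    congr 1
    rw [← hwt, h8]
    simp [Aw, wt, List.count_append, List.count_replicate]
  · exact h2 rfl

end

end Pool.Agent.Helper5.NM
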