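import Pool.Agent.Helper5.NM.Defs
import Pool.Agent.Helper5.NM.B3
import Pool.Agent.Helper5.NM.B6
import Pool.Agent.Helper5.NM.B8

set_option autoImplicit false

open Finset Function

namespace Pool.Agent.Helper5.NM

open Let

section
variable {K : Type*} [Field K]

/-! Module B9: surjectivity (finite dimensional linear algebra from `Uinj`). -/

theorem b9_surj (m : ℕ) (hm : 2 ≤ m) (A B : Set Word) (hAf : A.Finite) (hBf : B.Finite)
    (e : A ≃ B) (hA : ∀ w ∈ A, Prm w ∧ wt w = m ∧ CT w ∧ w ≠ Aw m)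
    (h0 : ∀ x : Word →₀ K, (∀ w ∈ x.support, w ∈ A) → ∀ v, Prm v → ST v → v ∉ B →
      dW K x v = 0) (y : Word →₀ K) :
    ∃ r : Word →₀ K, (∀ w ∈ r.support, w ∈ A) ∧ ∀ v ∈ B, dW K r v = y v := by
  classical
  have := hAf.fintype
  have := hBf.fintype
  let i : (A →₀ K) →ₗ[K] (Word →₀ K) := Finsupp.lmapDomain K K Subtype.val
  let p : (Word →₀ K) →ₗ[K] (B →₀ K) :=
    Finsupp.lcomapDomain (Subtype.val : B → Word) Subtype.val_injective
  have hi : ∀ a : A →₀ K, ∀ w ∈ (i a).support, w ∈ A := by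
    intro a w hw
    have h1 : w ∈ (Finsupp.mapDomain Subtype.val a).support := hw
    have h2 := Finsupp.mapDomain_support h1
    obtain ⟨b, -, rfl⟩ := Finset.mem_image.1 h2
    exact b.2
  have hp : ∀ (x : Word →₀ K) (v : B), p x v = x v := by
    intro x v
    rfl
  let F : (A →₀ K) →ₗ[K] (B →₀ K) := p ∘ₗ (dW K) ∘ₗ i
  have hFinj : Function.Injective F := by
    rw [← LinearMap.ker_eq_bot, LinearMap.ker_eq_bot']
    intro a ha
    have h1 : i a = 0 := by
      refine Uinj m hm (i a) (fun w hw => hA w (hi a w hw)) ?_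
      intro v hv hST
      by_cases hvB : v ∈ B
      · have h2 : F a ⟨v, hvB⟩ = 0 := by rw [ha]; rfl
        exact h2
      · exact h0 _ (hi a) v hv hST hvB
    have h2 : Finsupp.mapDomain (Subtype.val : A → Word) a =
        Finsupp.mapDomain (Subtype.val : A → Word) 0 := by
      rw [Finsupp.mapDomain_zero]; exact h1
    exact Finsupp.mapDomain_injective Subtype.val_injective h2
  have hcard : Module.finrank K (A →₀ K) = Module.finrank K (B →₀ K) := by
    rw [Module.finrank_finsupp_self, Module.finrank_finsupp_self]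
    exact Fintype.card_congr e
  have hFsurj : Function.Surjective F :=
    (LinearMap.injective_iff_surjective_of_finrank_eq_finrank hcard).1 hFinj
  obtain ⟨a, ha⟩ := hFsurj (p y)
  refine ⟨i a, hi a, fun v hv => ?_⟩
  have h1 : F a ⟨v, hv⟩ = p y ⟨v, hv⟩ := by rw [ha]
  exact h1

theorem b9_finite (m : ℕ) : {w : Word | w.count C = w.count O ∧ wt w = m}.Finite := by
  have : Finite Let := Finite.intro (n := 3) ⟨fun a => match a with
    | O => 0
    | C => 1
    | S => 2, fun a => match a with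
    | 0 => O
    | 1 => C
    | 2 => S, by intro a; cases a <;> rfl, by intro a; fin_cases a <;> rfl⟩
  refine (List.finite_length_le Let (2 * m)).subset ?_
  intro w hw
  obtain ⟨h1, h2⟩ := hw
  unfold wt at h2
  have h3 : w.length = w.count O + w.count C + w.count S := by
    clear h1 h2
    induction w with
    | nil => rfl
    | cons a w ih => cases a <;> simp [ih] <;> omega
  show w.length ≤ 2 * m
  omega

/-- the partner map, from `C`-type words to `S`-type words -/
theorem b9_equiv (A B : Set Word) (hA : ∀ w ∈ A, CT w) (hB : ∀ w ∈ B, ST w)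
    (h : ∀ k r, 1 ≤ k → (List.replicate (k + 1) O ++ C :: r ∈ A ↔
      List.replicate k O ++ S :: r ∈ B)) : Nonempty (A ≃ B) := by
  classical
  have hA' : ∀ w : A, ∃ p : ℕ × Word, 1 ≤ p.1 ∧
      (w : Word) = List.replicate (p.1 + 1) O ++ C :: p.2 := by
    intro w
    obtain ⟨k, r, hk, hw⟩ := hA w w.2
    exact ⟨(k, r), hk, hw⟩
  choose f hf1 hf2 using hA'
  have hmem : ∀ w : A, List.replicate (f w).1 O ++ S :: (f w).2 ∈ B := by
    intro w
    rw [← h _ _ (hf1 w), ← hf2 w]
    exact w.2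
  refine ⟨Equiv.ofBijective (fun w : A => (⟨_, hmem w⟩ : B)) ⟨?_, ?_⟩⟩
  · intro w w' hww
    have h1 : List.replicate (f w).1 O ++ S :: (f w).2 =
        List.replicate (f w').1 O ++ S :: (f w').2 := congrArg Subtype.val hww
    obtain ⟨h2, -, h3⟩ := b8_run _ _ _ _ _ _ (by decide) (by decide) h1
    apply Subtype.ext
    rw [hf2 w, hf2 w', h2, h3]
  · intro v
    obtain ⟨k, r, hk, hv⟩ := hB v v.2
    have h1 : List.replicate (k + 1) O ++ C :: r ∈ A := by
      rw [h k r hk, ← hv]
      exact v.2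
    refine ⟨⟨_, h1⟩, ?_⟩
    apply Subtype.ext
    have h2 := hf2 ⟨_, h1⟩
    obtain ⟨h3, -, h4⟩ := b8_run _ _ _ _ _ _ (by decide) (by decide) h2
    show List.replicate (f ⟨_, h1⟩).1 O ++ S :: (f ⟨_, h1⟩).2 = v
    rw [hv, ← h4, show (f ⟨_, h1⟩).1 = k by omega]

/-- faces keep the weight and increase the number of letters `S` -/
theorem b9_faces (m s : ℕ) (x : Word →₀ K)
    (hx : ∀ w ∈ x.support, Bal w ∧ wt w = m ∧ w.count S = s) (v : Word)
    (hv : dW K x v ≠ 0) : wt v = m ∧ v.count S = s + 1 := by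
  obtain ⟨w, hw, k, hk, h⟩ := mem_support_dW x v (Finsupp.mem_support_iff.2 hv)
  obtain ⟨hb, h1, h2⟩ := hx w hw
  rcases h with rfl | rfl
  · have h3 := count_fO w k hk hb.1
    have h4 := wt_fO w k hk hb.1
    omega
  · have h3 := count_fC w k hk hb.1
    have h4 := wt_fC w k hk hb.1
    omega

theorem b9_CT_ne (m k : ℕ) (hm : 1 ≤ m) (r : Word) :
    List.replicate (k + 1) O ++ C :: r = Aw m ↔ List.replicate k O ++ S :: r = cw m := by
  obtain ⟨j, rfl⟩ : ∃ j, m = j + 1 := ⟨m - 1, by omega⟩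
  have h1 : Aw (j + 1) = List.replicate (j + 1) O ++ C :: List.replicate j C := by
    unfold Aw
    rw [List.replicate_succ (n := j) (a := C)]
  have h2 : cw (j + 1) = List.replicate j O ++ S :: List.replicate j C := rfl
  rw [h1, h2]
  constructor
  · intro h
    obtain ⟨h3, -, h4⟩ := b8_run _ _ _ _ _ _ (by decide) (by decide) h
    rw [h4, show k = j by omega]
  · intro h
    obtain ⟨h3, -, h4⟩ := b8_run _ _ _ _ _ _ (by decide) (by decide) h
    rw [h4, h3]

theorem b9_mem (m s k : ℕ) (hm : 2 ≤ m) (hk : 1 ≤ k) (r : Word) :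
    (Prm (List.replicate (k + 1) O ++ C :: r) ∧ wt (List.replicate (k + 1) O ++ C :: r) = m ∧
      CT (List.replicate (k + 1) O ++ C :: r) ∧
      (List.replicate (k + 1) O ++ C :: r).count S = s ∧
      List.replicate (k + 1) O ++ C :: r ≠ Aw m) ↔
    (Prm (List.replicate k O ++ S :: r) ∧ wt (List.replicate k O ++ S :: r) = m ∧
      ST (List.replicate k O ++ S :: r) ∧
      (List.replicate k O ++ S :: r).count S = s + 1 ∧
      List.replicate k O ++ S :: r ≠ cw m) := by
  have h1 := prm_partner k hk r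
  have h2 := b9_CT_ne m k (by omega) r
  have h3 : wt (List.replicate (k + 1) O ++ C :: r) = wt (List.replicate k O ++ S :: r) := by
    simp [wt, List.count_append, List.count_replicate]
    omega
  have h4 : (List.replicate k O ++ S :: r).count S =
      (List.replicate (k + 1) O ++ C :: r).count S + 1 := by
    simp [List.count_append, List.count_replicate]
  have h5 : CT (List.replicate (k + 1) O ++ C :: r) := ⟨k, r, hk, rfl⟩
  have h6 : ST (List.replicate k O ++ S :: r) := ⟨k, r, hk, rfl⟩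
  rw [h1, h3, h4]
  constructor
  · rintro ⟨a, b, -, c, d⟩
    exact ⟨a, b, h6, by omega, fun h => d (h2.2 h)⟩
  · rintro ⟨a, b, -, c, d⟩
    exact ⟨a, b, h5, by omega, fun h => d (h2.1 h)⟩

theorem Usurj (m s : ℕ) (hm : 2 ≤ m) (y : Word →₀ K)
    (hy : ∀ w ∈ y.support, Prm w ∧ wt w = m ∧ ST w ∧ w.count S = s + 1 ∧ w ≠ cw m) :
    ∃ r : Word →₀ K,
      (∀ w ∈ r.support, Prm w ∧ wt w = m ∧ CT w ∧ w.count S = s ∧ w ≠ Aw m) ∧
      ∀ v, Prm v → ST v → v ≠ cw m → dW K r v = y v := by
  let A : Set Word := {w | Prm w ∧ wt w = m ∧ CT w ∧ w.count S = s ∧ w ≠ Aw m}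
  let B : Set Word := {w | Prm w ∧ wt w = m ∧ ST w ∧ w.count S = s + 1 ∧ w ≠ cw m}
  have hAf : A.Finite := (b9_finite m).subset fun w hw => ⟨hw.1.1.1, hw.2.1⟩
  have hBf : B.Finite := (b9_finite m).subset fun w hw => ⟨hw.1.1.1, hw.2.1⟩
  obtain ⟨e⟩ := b9_equiv A B (fun w hw => hw.2.2.1) (fun w hw => hw.2.2.1)
    (fun k r hk => b9_mem m s k hm hk r)
  have hout : ∀ x : Word →₀ K, (∀ w ∈ x.support, w ∈ A) → ∀ v, Prm v → ST v → v ∉ B →
      v ≠ cw m → dW K x v = 0 := by
    intro x hx v hv hST hvB hne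
    by_contra h
    have h1 := b9_faces m s x
      (fun w hw => ⟨(hx w hw).1.1, (hx w hw).2.1, (hx w hw).2.2.2.1⟩) v h
    exact hvB ⟨hv, h1.1, hST, h1.2, hne⟩
  obtain ⟨r, hr1, hr2⟩ := b9_surj m hm A B hAf hBf e
    (fun w hw => ⟨hw.1, hw.2.1, hw.2.2.1, hw.2.2.2.2⟩)
    (by
      intro x hx v hv hST hvB
      by_cases hne : v = cw m
      · subst hne
        obtain ⟨j, rfl⟩ : ∃ j, m = j + 1 := ⟨m - 1, by omega⟩
        have h2 : cw (j + 1) = List.replicate j O ++ S :: List.replicate j C := rfl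
        have hxA : x (Aw (j + 1)) = 0 := by
          by_contra h
          exact (hx _ (Finsupp.mem_support_iff.2 h)).2.2.2.2 rfl
        have hA1 : Aw (j + 1) = List.replicate (j + 1) O ++ C :: List.replicate j C := by
          unfold Aw
          rw [List.replicate_succ (n := j) (a := C)]
        rw [h2] at hv ⊢
        rw [dW_ST x (fun w hw => ⟨(hx w hw).1, (hx w hw).2.2.1⟩) j (by omega) _ hv, ← hA1, hxA,
          sub_zero]
        apply Finset.sum_eq_zero
        intro i hi
        rw [Finset.mem_range, List.length_replicate] at hi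
        split_ifs
        · rw [b8_ins_eq _ i (by rw [List.length_replicate]; omega), List.take_replicate,
            List.drop_replicate]
          have h3 : List.replicate (min i j) C ++ C :: List.replicate (j - i) C =
              C :: List.replicate j C := by
            rw [← List.replicate_succ, ← List.replicate_succ, List.replicate_append_replicate]
            congr 1
            omega
          rw [h3, ← hA1, hxA]
        · rfl
      · exact hout x hx v hv hST hvB hne) y
  refine ⟨r, hr1, fun v hv hST hne => ?_⟩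
  by_cases hvB : v ∈ B
  · exact hr2 v hvB
  · rw [hout r hr1 v hv hST hvB hne]
    by_contra h
    exact hvB (hy v (Finsupp.mem_support_iff.2 (Ne.symm h)))

theorem b9_endS (p r : Word) (hr : 1 ≤ r.count S) : EndS (p ++ r) ↔ EndS r := by
  constructor
  · rintro ⟨q, i, h⟩
    rcases List.append_eq_append_iff.1 h with ⟨a, h1, h2⟩ | ⟨a, h1, h2⟩
    · exact ⟨a, i, h2⟩
    · cases a with
      | nil => exact ⟨[], i, by simpa using h2.symm⟩
      | cons b a =>
        exfalso
        rw [List.cons_append] at h2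
        simp only [List.cons.injEq] at h2
        have h3 : (List.replicate i C).count S = 0 := by
          rw [List.count_replicate]; simp
        rw [h2.2, List.count_append] at h3
        omega
  · rintro ⟨q, i, rfl⟩
    exact ⟨p ++ q, i, by simp⟩

theorem Usurj' (m s : ℕ) (hm : 2 ≤ m) (hs : 1 ≤ s) (y : Word →₀ K)
    (hy : ∀ w ∈ y.support, Prm w ∧ wt w = m ∧ ST w ∧ w.count S = s + 1 ∧ EndS w) :
    ∃ r : Word →₀ K,
      (∀ w ∈ r.support, Prm w ∧ wt w = m ∧ CT w ∧ w.count S = s ∧ EndS w ∧ w ≠ Aw m) ∧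
      ∀ v, Prm v → ST v → dW K r v = y v := by
  let A : Set Word := {w | Prm w ∧ wt w = m ∧ CT w ∧ w.count S = s ∧ EndS w ∧ w ≠ Aw m}
  let B : Set Word := {w | Prm w ∧ wt w = m ∧ ST w ∧ w.count S = s + 1 ∧ EndS w}
  have hAf : A.Finite := (b9_finite m).subset fun w hw => ⟨hw.1.1.1, hw.2.1⟩
  have hBf : B.Finite := (b9_finite m).subset fun w hw => ⟨hw.1.1.1, hw.2.1⟩
  obtain ⟨e⟩ := b9_equiv A B (fun w hw => hw.2.2.1) (fun w hw => hw.2.2.1)
    (by
      intro k r hk
      have h1 := b9_mem m s k hm hk r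
      have hc : (List.replicate (k + 1) O ++ C :: r).count S = r.count S := by
        simp [List.count_append, List.count_replicate]
      have hc' : (List.replicate k O ++ S :: r).count S = r.count S + 1 := by
        simp [List.count_append, List.count_replicate]
      have e1 : List.replicate (k + 1) O ++ C :: r = (List.replicate (k + 1) O ++ [C]) ++ r := by
        simp
      have e2 : List.replicate k O ++ S :: r = (List.replicate k O ++ [S]) ++ r := by simp
      constructor
      · rintro ⟨a1, a2, a3, a4, a5, a6⟩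
        obtain ⟨b1, b2, b3, b4, b5⟩ := h1.1 ⟨a1, a2, a3, a4, a6⟩
        refine ⟨b1, b2, b3, b4, ?_⟩
        rw [e2, b9_endS _ _ (by omega)]
        rwa [e1, b9_endS _ _ (by omega)] at a5
      · rintro ⟨a1, a2, a3, a4, a5⟩
        have hne : List.replicate k O ++ S :: r ≠ cw m := by
          intro h
          rw [h] at a4
          simp [cw, List.count_append, List.count_replicate] at a4
          omega
        obtain ⟨b1, b2, b3, b4, b5⟩ := h1.2 ⟨a1, a2, a3, a4, hne⟩
        refine ⟨b1, b2, b3, b4, ?_, b5⟩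
        rw [e1, b9_endS _ _ (by omega)]
        rwa [e2, b9_endS _ _ (by omega)] at a5)
  have hout : ∀ x : Word →₀ K, (∀ w ∈ x.support, w ∈ A) → ∀ v, Prm v → ST v → v ∉ B →
      dW K x v = 0 := by
    intro x hx v hv hST hvB
    by_contra h
    have h1 := b9_faces m s x
      (fun w hw => ⟨(hx w hw).1.1, (hx w hw).2.1, (hx w hw).2.2.2.1⟩) v h
    obtain ⟨w, hw, k, hk, h2⟩ := mem_support_dW x v (Finsupp.mem_support_iff.2 h)
    have h3 : EndS v := by
      rcases h2 with rfl | rfl
      · exact endS_fO w k hk (hx w hw).1.1 (hx w hw).2.2.2.2.1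
      · exact endS_fC w k hk (hx w hw).1.1 (hx w hw).2.2.2.2.1
    exact hvB ⟨hv, h1.1, hST, h1.2, h3⟩
  obtain ⟨r, hr1, hr2⟩ := b9_surj m hm A B hAf hBf e
    (fun w hw => ⟨hw.1, hw.2.1, hw.2.2.1, hw.2.2.2.2.2⟩) hout y
  refine ⟨r, hr1, fun v hv hST => ?_⟩
  by_cases hvB : v ∈ B
  · exact hr2 v hvB
  · rw [hout r hr1 v hv hST hvB]
    by_contra h
    exact hvB (hy v (Finsupp.mem_support_iff.2 (Ne.symm h)))

end

end Pool.Agent.Helper5.NM
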