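import Pool.Agent.Helper5.NM.Defs
import Pool.Agent.Helper5.NM.B1
import Pool.Agent.Helper5.NM.B3
import Pool.Agent.Helper5.NM.B4
import Pool.Agent.Helper5.NM.B6
import Pool.Agent.Helper5.NM.B7
import Pool.Agent.Helper5.NM.B8
import Pool.Agent.Helper5.NM.B9

set_option autoImplicit false

open Finset Function

namespace Pool.Agent.Helper5.NM

open Let

section
variable {K : Type*} [Field K]

/-! Module B10: the homology of the complexes of prime words. -/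

theorem V1i (m : ℕ) (hm : 1 ≤ m) (q : Word →₀ K) (hq : PC m 1 q)
    (hc : ∀ v, Prm v → dW K q v = 0) (h0 : q (cw m) = 0) :
    ∃ r : Word →₀ K, PC m 0 r ∧ ∀ v, Prm v → dW K r v = q v := by sorry

theorem V1iii (m : ℕ) (hm : 2 ≤ m) (q : Word →₀ K) (hq : PC m 0 q)
    (hc : ∀ v, Prm v → dW K q v = 0) (h0 : q (Aw m) = 0) : q = 0 := by sorry

theorem V1y (m : ℕ) (hm : 2 ≤ m) :
    ∃ y : Word →₀ K, PC m 0 y ∧ (∀ v, Prm v → dW K y v = 0) ∧ y (Aw m) = 1 := by sorry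

theorem V2i (m : ℕ) (hm : 1 ≤ m) (q : Word →₀ K) (hq : PC m 2 q) (hE : ∀ w ∈ q.support, EndS w)
    (hc : ∀ v, Prm v → dW K q v = 0) :
    ∃ r : Word →₀ K, PC m 1 r ∧ (∀ w ∈ r.support, EndS w) ∧ r (cw m) = 0 ∧
      ∀ v, Prm v → dW K r v = q v := by sorry

theorem V2ii (m : ℕ) (hm : 2 ≤ m) (q : Word →₀ K) (hq : PC m 1 q) (hE : ∀ w ∈ q.support, EndS w)
    (hc : ∀ v, Prm v → dW K q v = 0) (h0 : q (cw m) = 0) : q = 0 := by sorry

end

end Pool.Agent.Helper5.NM
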