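import Pool.Agent.Helper5.NM.Defs
import Pool.Agent.Helper5.NM.B1
import Pool.Agent.Helper5.NM.B2
import Pool.Agent.Helper5.NM.B3
import Pool.Agent.Helper5.NM.B6

set_option autoImplicit false

open Finset Function

namespace Pool.Agent.Helper5.NM

open Let

section
variable {K : Type*} [CommRing K]

/-- all words in the support begin with a prime word of weight at most `M` -/
def FPle (M : ℕ) (x : Word →₀ K) : Prop :=
  ∀ w ∈ x.support, ∃ v w', w = v ++ w' ∧ Prm v ∧ Bal w' ∧ wt v ≤ M

/-- left slice -/
noncomputable def sl (v : Word) (x : Word →₀ K) : Word →₀ K :=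
  x.comapDomain (v ++ ·) (fun _ _ _ _ h => List.append_cancel_left h)

/-- right slice restricted to prime words of weight `M` -/
noncomputable def slr (w : Word) (M : ℕ) (x : Word →₀ K) : Word →₀ K :=
  open Classical in
  (x.comapDomain (· ++ w) (fun _ _ _ _ h => List.append_cancel_right h)).filter
    (fun v => Prm v ∧ wt v = M)

/-! Module B11: slices of the boundary. -/

theorem sl_apply (v : Word) (x : Word →₀ K) (w : Word) : sl v x w = x (v ++ w) := by sorry

theorem slr_apply (w : Word) (M : ℕ) (x : Word →₀ K) (v : Word) (hv : Prm v) (hM : wt v = M) :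
    slr w M x v = x (v ++ w) := by sorry

theorem FPle_dW (M : ℕ) (x : Word →₀ K) (hx : FPle M x) : FPle M (dW K x) := by sorry

theorem FPle_add (M : ℕ) (x y : Word →₀ K) (hx : FPle M x) (hy : FPle M y) : FPle M (x + y) := by
  sorry

theorem FPle_zero (x : Word →₀ K) (hx : FPle 0 x) : x = 0 := by sorry

/-- lowering the filtration -/
theorem FPle_pred (M : ℕ) (x : Word →₀ K) (hx : FPle M x)
    (h : ∀ v w', Prm v → wt v = M → x (v ++ w') = 0) : FPle (M - 1) x := by sorry

theorem dW_slice (M : ℕ) (x : Word →₀ K) (hx : FPle M x) (v w' : Word) (hv : Prm v)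
    (hM : wt v = M) :
    dW K x (v ++ w') = (-1 : K) ^ v.count S * dW K (sl v x) w' + dW K (slr w' M x) v := by sorry

end

end Pool.Agent.Helper5.NM
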