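import Pool.Agent.Helper5.NM.Defs
import Pool.Agent.Helper5.NM.B2
import Pool.Agent.Helper5.NM.B3
import Pool.Agent.Helper5.NM.B6
import Pool.Agent.Helper5.NM.B7
import Pool.Agent.Helper5.NM.B10
import Pool.Agent.Helper5.NM.B11

set_option autoImplicit false

open Finset Function

namespace Pool.Agent.Helper5.NM

open Let

section
variable {K : Type*} [Field K]

/-! Module B12: statement A(n). -/

theorem stepA (n : ℕ) (hn : 2 ≤ n) (hK : (n : K) ≠ 0) (ih : ∀ m, 1 ≤ m → m < n → StA K m) :
    StA K n := by sorry

theorem stepA_one : StA K 1 := by sorry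

end

end Pool.Agent.Helper5.NM
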