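import Pool.Agent.Helper5.NM.Defs
import Pool.Agent.Helper5.NM.B2
import Pool.Agent.Helper5.NM.B3
import Pool.Agent.Helper5.NM.B4
import Pool.Agent.Helper5.NM.B6
import Pool.Agent.Helper5.NM.B7
import Pool.Agent.Helper5.NM.B11

/-! Common lemmas for B12, B13, B14. -/

set_option autoImplicit false

open Finset Function

namespace Pool.Agent.Helper5.NM

open Let

section
variable {K : Type*} [CommRing K]

theorem B13_endS_append (v w : Word) (h : EndS w) : EndS (v ++ w) := by
  obtain ⟨p, i, rfl⟩ := h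
  exact ⟨v ++ p, i, by simp⟩

theorem B13_endS_count (w : Word) (h : EndS w) : 0 < w.count S := by
  obtain ⟨p, i, rfl⟩ := h
  rw [List.count_append, List.count_cons]
  simp

theorem B13_endS_of_append (v w : Word) (h : EndS (v ++ w)) (hw : 0 < w.count S) : EndS w := by
  obtain ⟨p, i, hp⟩ := h
  rcases List.append_eq_append_iff.1 hp with ⟨a, ha, hb⟩ | ⟨a, ha, hb⟩
  · exact ⟨a, i, hb⟩
  · rcases a with _ | ⟨b, a⟩
    · refine ⟨[], i, ?_⟩
      rw [List.nil_append] at hb
      rw [List.nil_append, hb]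
    · exfalso
      rw [List.cons_append] at hb
      have h2 : List.replicate i C = a ++ w := (List.cons.inj hb).2
      have h3 : (a ++ w).count S = 0 := by
        rw [← h2, List.count_replicate]
        simp
      rw [List.count_append] at h3
      omega

theorem B13_noS (v w : Word) (h : EndS (v ++ w)) (hb : Bal w) (hw : w.count S = 0) : w = [] := by
  rcases w with _ | ⟨b, w⟩
  · rfl
  exfalso
  have hbO : b = O := by
    have h1 := hb.2 1
    rcases b with _ | _ | _
    · rfl
    · simp at h1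
    · simp at hw
  subst hbO
  obtain ⟨p, i, hp⟩ := h
  rcases List.append_eq_append_iff.1 hp with ⟨a, ha, hb'⟩ | ⟨a, ha, hb'⟩
  · rw [hb', List.count_append] at hw
    simp at hw
  · have : O ∈ a ++ O :: w := by simp
    rw [← hb'] at this
    simp at this

theorem B13_count (w : Word) (h : Bal w) : w.count C = w.count O := h.1

theorem B13_dW_ne (x : Word →₀ K) (hx : ∀ w ∈ x.support, w.count C = w.count O) (f : Word)
    (h : dW K x f ≠ 0) : ∃ w ∈ x.support, f.count S = w.count S + 1 ∧ wt f = wt w := by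
  obtain ⟨w, hw, k, hk, hf⟩ := mem_support_dW x f (Finsupp.mem_support_iff.2 h)
  refine ⟨w, hw, ?_⟩
  rcases hf with rfl | rfl
  · exact ⟨(count_fO w k hk (hx w hw)).2.2, wt_fO w k hk (hx w hw)⟩
  · exact ⟨(count_fC w k hk (hx w hw)).2.2, wt_fC w k hk (hx w hw)⟩

theorem B13_dW_bal (x : Word →₀ K) (hx : ∀ w ∈ x.support, Bal w) (f : Word)
    (h : dW K x f ≠ 0) : Bal f := by
  obtain ⟨w, hw, k, hk, hf⟩ := mem_support_dW x f (Finsupp.mem_support_iff.2 h)
  rcases hf with rfl | rfl
  · exact bal_fO w k hk (hx w hw)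
  · exact bal_fC w k hk (hx w hw)

theorem B13_nil_of_wt (w : Word) (hb : Bal w) (h : wt w = 0) : w = [] := by
  by_contra hne
  have := wt_pos w hb hne
  omega

/-- a balanced word of weight `M` beginning with the prime word `v` of weight `M` is `v` -/
theorem B13_first (M : ℕ) (u v w' a : Word) (hM : 1 ≤ M) (hu : Bal u) (huM : wt u = M)
    (hv : Prm v) (hvM : wt v = M) (h : u ++ a = v ++ w') : u = v ∧ a = w' := by
  have hu0 : u ≠ [] := by
    rintro rfl
    simp [wt] at huM
    omega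
  obtain ⟨v1, u', rfl, hv1, hu'⟩ := prm_decomp u hu hu0
  rw [List.append_assoc] at h
  obtain ⟨h1, h2⟩ := prm_unique v1 v _ _ hv1 hv h
  subst h1
  rw [wt_append] at huM
  have h3 := B13_nil_of_wt u' hu' (by omega)
  subst h3
  exact ⟨by simp, by simpa using h2⟩

theorem B13_inL_slice (n M s : ℕ) (v w' : Word) (hv : Prm v) (hM : wt v = M)
    (h : InL n (v.count S + s) (v ++ w')) (hs : 0 < s) : InL (n - M) s w' := by
  obtain ⟨h1, h2, h3, h4⟩ := h
  have h5 : w'.count S = s := by
    rw [List.count_append] at h3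
    omega
  refine ⟨bal_of_append v w' hv.1 h1, ?_, h5, B13_endS_of_append v w' h4 (by omega)⟩
  rw [wt_append] at h2
  omega

theorem B13_FPle_sub (M : ℕ) (x y : Word →₀ K) (hx : FPle M x) (hy : FPle M y) :
    FPle M (x - y) := by
  rw [sub_eq_add_neg]
  apply FPle_add M _ _ hx
  intro w hw
  rw [Finsupp.support_neg] at hw
  exact hy w hw

theorem B13_slr_ne (w : Word) (M : ℕ) (x : Word →₀ K) (v : Word) (h : slr w M x v ≠ 0) :
    Prm v ∧ wt v = M ∧ x (v ++ w) ≠ 0 := by
  classical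
  have h1 : Prm v ∧ wt v = M := by
    by_contra hcon
    apply h
    unfold slr
    exact Finsupp.filter_apply_neg (fun v => Prm v ∧ wt v = M) _ hcon
  refine ⟨h1.1, h1.2, ?_⟩
  rw [← slr_apply w M x v h1.1 h1.2]
  exact h

theorem B13_rm_ne (w : Word) (x : Word →₀ K) (f : Word) (h : rm w x f ≠ 0) :
    ∃ u ∈ x.support, f = u ++ w := by
  classical
  have h1 : f ∈ (Finsupp.mapDomain (· ++ w) x).support := Finsupp.mem_support_iff.2 h
  obtain ⟨u, hu, rfl⟩ := Finset.mem_image.1 (Finsupp.mapDomain_support h1)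
  exact ⟨u, hu, rfl⟩

theorem B13_lm_ne (w : Word) (x : Word →₀ K) (f : Word) (h : lm w x f ≠ 0) :
    ∃ u ∈ x.support, f = w ++ u := by
  classical
  have h1 : f ∈ (Finsupp.mapDomain (w ++ ·) x).support := Finsupp.mem_support_iff.2 h
  obtain ⟨u, hu, rfl⟩ := Finset.mem_image.1 (Finsupp.mapDomain_support h1)
  exact ⟨u, hu, rfl⟩

theorem B13_not_cw (n : ℕ) (hn : 1 ≤ n) (v w : Word) (hv : Bal v) (hw : Bal w) (hv0 : v ≠ [])
    (hw0 : w ≠ []) : v ++ w ≠ cw n := by
  intro h
  apply not_prm_append v w hv hw hv0 hw0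
  rw [h]
  exact prm_cw n hn

theorem B13_sub (n : ℕ) (x Y : Word →₀ K) (hx : ∀ w ∈ x.support, InL n 2 w) (hc : dW K x = 0)
    (hY : ∀ w ∈ Y.support, InL n 1 w) :
    (∀ w ∈ (x - dW K Y).support, InL n 2 w) ∧ dW K (x - dW K Y) = 0 := by
  classical
  refine ⟨fun w hw => ?_, ?_⟩
  · rcases Finset.mem_union.1 (Finsupp.support_sub hw) with h | h
    · exact hx w h
    · exact inL_dW n 1 Y hY w h
  · rw [map_sub, hc, dW_dW Y fun w hw => (hY w hw).1.1, sub_zero]

theorem B13_wt_cw (M : ℕ) (hM : 1 ≤ M) : wt (cw M) = M := by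
  simp [wt, cw, List.count_replicate]
  omega

theorem B13_S_cw (M : ℕ) : (cw M).count S = 1 := by
  simp [cw, List.count_replicate]

theorem B13_wt_aS (k : ℕ) : wt (aS k) = k + 1 := (inL_aS k).2.1

theorem B13_S_aS (k : ℕ) : (aS k).count S = 1 := (inL_aS k).2.2.1

theorem B13_endS_aS (k : ℕ) : EndS (aS k) := (inL_aS k).2.2.2

theorem B13_aS_ne (k : ℕ) : aS k ≠ [] := by
  intro h
  have := B13_S_aS k
  rw [h] at this
  simp at this

/-- the slice of the boundary when the words in the slice of the second kind have too many `S` -/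
theorem B13_slice_zero (M : ℕ) (x : Word →₀ K) (hF : FPle M x) (v w' : Word) (hv : Prm v)
    (hM : wt v = M)
    (h : ∀ u, Prm u → wt u = M → x (u ++ w') ≠ 0 → v.count S ≠ u.count S + 1) :
    dW K x (v ++ w') = (-1 : K) ^ v.count S * dW K (sl v x) w' := by
  rw [dW_slice M x hF v w' hv hM]
  have h1 : dW K (slr w' M x) v = 0 := by
    by_contra hne
    obtain ⟨u, hu, h2, _⟩ := B13_dW_ne (slr w' M x) (fun u hu =>
      (B13_slr_ne w' M x u (Finsupp.mem_support_iff.1 hu)).1.1.1) v hne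
    obtain ⟨h3, h4, h5⟩ := B13_slr_ne w' M x u (Finsupp.mem_support_iff.1 hu)
    exact h u h3 h4 h5 h2
  rw [h1, add_zero]

end

end Pool.Agent.Helper5.NM
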