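import Pool.Agent.Helper5.NM.Defs
import Pool.Agent.Helper5.NM.B2
import Pool.Agent.Helper5.NM.B3
import Pool.Agent.Helper5.NM.B6
import Pool.Agent.Helper5.NM.B7
import Pool.Agent.Helper5.NM.B10
import Pool.Agent.Helper5.NM.B11
import Pool.Agent.Helper5.NM.B13h

set_option autoImplicit false

open Finset Function

namespace Pool.Agent.Helper5.NM

open Let

section
variable {K : Type*} [Field K]

/-! Module B13: killing the part with first prime of weight `M`. -/

theorem B13_step1 (n M : ℕ) (hM : 1 ≤ M) (hMn : M < n) (x : Word →₀ K)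
    (hF : FPle M x) (h0 : M + 1 = n → x (cw M ++ [S]) = 0) :
    ∃ Y : Word →₀ K, (∀ w ∈ Y.support, InL n 1 w) ∧ Y (cw n) = 0 ∧ FPle M (x - dW K Y) ∧
      (x - dW K Y) (cw M ++ aS (n - M - 1)) = 0 := by
  classical
  by_cases hn : M + 1 = n
  · refine ⟨0, by simp, by simp, ?_, ?_⟩
    · rw [map_zero, sub_zero]
      exact hF
    · rw [map_zero, sub_zero]
      have h1 : n - M - 1 = 0 := by omega
      rw [h1]
      exact h0 hn
  · obtain ⟨y, hy1, hy2, hy3⟩ := V1y (K := K) (M + 1) (by omega)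
    set a := x (cw M ++ aS (n - M - 1)) with ha
    have hyC : ∀ v ∈ (a • y).support, v.count C = v.count O := fun v hv =>
      (hy1 v (Finsupp.support_smul hv)).1.1.1
    have hdY : dW K (rm (aS (n - M - 2)) (a • y)) = rm (aS (n - M - 2)) (a • dW K y) := by
      rw [dW_rm _ (bdw_aS _) _ hyC, map_smul]
    refine ⟨rm (aS (n - M - 2)) (a • y), ?_, ?_, ?_, ?_⟩
    · intro w hw
      obtain ⟨u, hu, rfl⟩ := B13_rm_ne _ _ _ (Finsupp.mem_support_iff.1 hw)
      obtain ⟨h1, h2, h3⟩ := hy1 u (Finsupp.support_smul hu)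
      refine ⟨bal_append _ _ h1.1 (bal_aS _), ?_, ?_, B13_endS_append _ _ (B13_endS_aS _)⟩
      · rw [wt_append, h2, B13_wt_aS]
        omega
      · rw [List.count_append, h3, B13_S_aS]
    · by_contra hne
      obtain ⟨u, hu, hcw⟩ := B13_rm_ne _ _ _ hne
      obtain ⟨h1, h2, h3⟩ := hy1 u (Finsupp.support_smul hu)
      exact B13_not_cw n (by omega) u _ h1.1 (bal_aS _) h1.2.1 (B13_aS_ne _) hcw.symm
    · refine B13_FPle_sub M _ _ hF ?_
      rw [hdY]
      intro w hw
      obtain ⟨u, hu, rfl⟩ := B13_rm_ne _ _ _ (Finsupp.mem_support_iff.1 hw)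
      have hu' : dW K y u ≠ 0 := Finsupp.mem_support_iff.1 (Finsupp.support_smul hu)
      have hub : Bal u := B13_dW_bal y (fun v hv => (hy1 v hv).1.1) u hu'
      obtain ⟨v0, hv0, _, hwt⟩ := B13_dW_ne y (fun v hv => (hy1 v hv).1.1.1) u hu'
      have hwu : wt u = M + 1 := by rw [hwt, (hy1 v0 hv0).2.1]
      have hunp : ¬ Prm u := fun hp => hu' (hy2 u hp)
      have hu0 : u ≠ [] := by
        rintro rfl
        simp [wt] at hwu
      obtain ⟨v1, u', rfl, hv1, hu'b⟩ := prm_decomp u hub hu0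
      have hu'0 : u' ≠ [] := by
        rintro rfl
        apply hunp
        rw [List.append_nil]
        exact hv1
      have := wt_pos u' hu'b hu'0
      rw [wt_append] at hwu
      exact ⟨v1, u' ++ aS (n - M - 2), by simp, hv1, bal_append _ _ hu'b (bal_aS _), by omega⟩
    · rw [hdY, Finsupp.sub_apply, ← ha]
      have h1 : n - M - 1 = (n - M - 2) + 1 := by omega
      have h2 : cw M ++ aS (n - M - 1) = (cw M ++ [O, C]) ++ aS (n - M - 2) := by
        rw [h1, aS_succ, List.append_assoc]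
      have h3 := ev_kappa (M + 1) (by omega) y hy1 hy2
      rw [Nat.add_sub_cancel] at h3
      rw [h2, rm_apply, Finsupp.smul_apply, h3, hy3, smul_eq_mul, mul_one, sub_self]

theorem B13_step2 (n M : ℕ) (hM : 1 ≤ M) (hMn : M < n)
    (ihB : ∀ m, 2 ≤ m → m < n → StB K m) (x : Word →₀ K) (hx : ∀ w ∈ x.support, InL n 2 w)
    (hF : FPle M x) (hc : dW K x = 0) (h1 : x (cw M ++ aS (n - M - 1)) = 0) :
    ∃ X : Word →₀ K, (∀ w ∈ X.support, InL n 1 w) ∧ X (cw n) = 0 ∧ FPle M (x - dW K X) ∧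
      (x - dW K X) (cw M ++ aS (n - M - 1)) = 0 ∧
      ∀ v w', Prm v → wt v = M → v.count S = 0 → (x - dW K X) (v ++ w') = 0 := by
  classical
  -- slices
  have hsl : ∀ v, Prm v → wt v = M → v.count S = 0 → ∀ w' ∈ (sl v x).support,
      InL (n - M) 2 w' := by
    intro v hv hvM hvS w' hw'
    have h2 : x (v ++ w') ≠ 0 := by
      rw [← sl_apply]
      exact Finsupp.mem_support_iff.1 hw'
    have h3 := hx _ (Finsupp.mem_support_iff.2 h2)
    refine B13_inL_slice n M 2 v w' hv hvM ?_ (by norm_num)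
    rw [hvS, zero_add]
    exact h3
  have hdsl : ∀ v, Prm v → wt v = M → v.count S = 0 → dW K (sl v x) = 0 := by
    intro v hv hvM hvS
    ext w'
    have h2 := B13_slice_zero M x hF v w' hv hvM (fun u _ _ _ h => by omega)
    rw [hc, hvS, pow_zero, one_mul] at h2
    rw [← h2]
    rfl
  have hR : ∀ v, ∃ R : Word →₀ K, (∀ w ∈ R.support, InL (n - M) 1 w) ∧
      (Prm v → wt v = M → v.count S = 0 → dW K R = sl v x) := by
    intro v
    by_cases hv : Prm v ∧ wt v = M ∧ v.count S = 0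
    · obtain ⟨hv1, hv2, hv3⟩ := hv
      by_cases hn : 2 ≤ n - M
      · obtain ⟨R, hR1, hR2⟩ := ihB (n - M) hn (by omega) (sl v x) (hsl v hv1 hv2 hv3)
          (hdsl v hv1 hv2 hv3)
        exact ⟨R, hR1, fun _ _ _ => hR2⟩
      · refine ⟨0, by simp, fun _ _ _ => ?_⟩
        rw [map_zero]
        symm
        rw [← Finsupp.support_eq_empty, Finset.eq_empty_iff_forall_notMem]
        intro w' hw'
        obtain ⟨a1, a2, a3, a4⟩ := hsl v hv1 hv2 hv3 w' hw'
        unfold wt at a2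
        omega
    · exact ⟨0, by simp, fun h1 h2 h3 => absurd ⟨h1, h2, h3⟩ hv⟩
  choose R hR1 hR2 using hR
  let V : Finset Word := (x.support.image (fun w => w.take (2 * M))).filter
    (fun v => Prm v ∧ wt v = M ∧ v.count S = 0)
  have hV : ∀ v ∈ V, Prm v ∧ wt v = M ∧ v.count S = 0 := fun v hv => (Finset.mem_filter.1 hv).2
  have hlen : ∀ v : Word, v.length = v.count O + v.count C + v.count S := by
    intro v
    induction v with
    | nil => rfl
    | cons b v ih =>
      rcases b with _ | _ | _ <;> simp [ih] <;> omega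
  have hVx : ∀ v w', Prm v → wt v = M → v.count S = 0 → v ∉ V → x (v ++ w') = 0 := by
    intro v w' hv hvM hvS hvV
    by_contra hne
    apply hvV
    refine Finset.mem_filter.2 ⟨Finset.mem_image.2 ⟨v ++ w', Finsupp.mem_support_iff.2 hne, ?_⟩,
      hv, hvM, hvS⟩
    have h2 : v.length = 2 * M := by
      rw [hlen, hvS, hv.1.1]
      unfold wt at hvM
      omega
    show (v ++ w').take (2 * M) = v
    rw [← h2, List.take_left]
  let X : Word →₀ K := ∑ v ∈ V, lm v (R v)
  have hXne : ∀ w, X w ≠ 0 → ∃ v ∈ V, ∃ w' ∈ (R v).support, w = v ++ w' := by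
    intro w hw
    have h2 : X w = ∑ v ∈ V, lm v (R v) w := by
      simp only [X, Finsupp.finsetSum_apply]
    rw [h2] at hw
    obtain ⟨v, hv, hv2⟩ := Finset.exists_ne_zero_of_sum_ne_zero hw
    obtain ⟨u, hu, hwu⟩ := B13_lm_ne _ _ _ hv2
    exact ⟨v, hv, u, hu, hwu⟩
  have hXv : ∀ v, Prm v → v ∈ V → sl v X = R v := by
    intro v hv hvV
    ext w'
    rw [sl_apply]
    simp only [X, Finsupp.finsetSum_apply]
    rw [Finset.sum_eq_single v]
    · exact lm_apply v (R v) w'
    · intro u hu huv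
      by_contra hne
      obtain ⟨u', _, h3⟩ := B13_lm_ne _ _ _ hne
      exact huv (prm_unique v u _ _ hv (hV u hu).1 h3).1.symm
    · intro h
      exact absurd hvV h
  have hXv' : ∀ v, Prm v → v ∉ V → sl v X = 0 := by
    intro v hv hvV
    ext w'
    rw [sl_apply]
    by_contra hne
    obtain ⟨u, hu, w1, _, h3⟩ := hXne _ hne
    have := (prm_unique v u _ _ hv (hV u hu).1 h3).1
    rw [this] at hvV
    exact hvV hu
  have hXL : ∀ w ∈ X.support, InL n 1 w := by
    intro w hw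
    obtain ⟨v, hv, w', hw', rfl⟩ := hXne w (Finsupp.mem_support_iff.1 hw)
    obtain ⟨a1, a2, a3⟩ := hV v hv
    obtain ⟨b1, b2, b3, b4⟩ := hR1 v w' hw'
    refine ⟨bal_append _ _ a1.1 b1, ?_, ?_, B13_endS_append _ _ b4⟩
    · rw [wt_append, a2, b2]
      omega
    · rw [List.count_append, a3, b3]
  have hXcw : X (cw n) = 0 := by
    by_contra hne
    obtain ⟨v, hv, w', hw', h2⟩ := hXne _ hne
    obtain ⟨a1, a2, a3⟩ := hV v hv
    obtain ⟨b1, b2, b3, b4⟩ := hR1 v w' hw'
    refine B13_not_cw n (by omega) v w' a1.1 b1 a1.2.1 ?_ h2.symm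
    rintro rfl
    simp at b3
  have hXF : FPle M X := by
    intro w hw
    obtain ⟨v, hv, w', hw', rfl⟩ := hXne w (Finsupp.mem_support_iff.1 hw)
    obtain ⟨a1, a2, a3⟩ := hV v hv
    exact ⟨v, w', rfl, a1, (hR1 v w' hw').1, by omega⟩
  refine ⟨X, hXL, hXcw, B13_FPle_sub M _ _ hF (FPle_dW M X hXF), ?_, ?_⟩
  · rw [Finsupp.sub_apply, h1, zero_sub, neg_eq_zero]
    have hcwp : Prm (cw M) := prm_cw M hM
    have hcw1 : wt (cw M) = M := B13_wt_cw M hM
    have hcwS : (cw M).count S = 1 := B13_S_cw M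
    have hcwV : cw M ∉ V := by
      intro h
      have := (hV _ h).2.2
      omega
    rw [dW_slice M X hXF _ _ hcwp hcw1, hXv' _ hcwp hcwV]
    rw [map_zero, Finsupp.zero_apply, mul_zero, zero_add]
    apply ev_cw M hM
    intro u hu
    obtain ⟨a1, a2, a3⟩ := B13_slr_ne _ _ _ _ (Finsupp.mem_support_iff.1 hu)
    have h2 := (hXL _ (Finsupp.mem_support_iff.2 a3)).2.2.1
    rw [List.count_append, B13_S_aS] at h2
    exact ⟨a1, a2, by omega⟩
  · intro v w' hv hvM hvS
    rw [Finsupp.sub_apply, B13_slice_zero M X hXF v w' hv hvM (fun u _ _ _ h => by omega), hvS,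
      pow_zero, one_mul]
    by_cases hvV : v ∈ V
    · rw [hXv v hv hvV, hR2 v hv hvM hvS, sl_apply, sub_self]
    · rw [hXv' v hv hvV, hVx v w' hv hvM hvS hvV]
      simp

theorem B13_step3 (n M : ℕ) (hM : 1 ≤ M) (hMn : M < n)
    (ihA : ∀ m, 1 ≤ m → m < n → StA K m) (x : Word →₀ K) (hx : ∀ w ∈ x.support, InL n 2 w)
    (hF : FPle M x) (hc : dW K x = 0) (h1 : x (cw M ++ aS (n - M - 1)) = 0)
    (h2 : ∀ v w', Prm v → wt v = M → v.count S = 0 → x (v ++ w') = 0) :
    ∃ X : Word →₀ K, (∀ w ∈ X.support, InL n 1 w) ∧ X (cw n) = 0 ∧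
      FPle (M - 1) (x - dW K X) := by
  classical
  -- words with first prime with at least two letters S
  have hS2 : ∀ v w', Prm v → wt v = M → 2 ≤ v.count S → x (v ++ w') = 0 := by
    intro v w' hv hvM hvS
    by_contra hne
    obtain ⟨a1, a2, a3, a4⟩ := hx _ (Finsupp.mem_support_iff.2 hne)
    rw [List.count_append] at a3
    have hb := bal_of_append v w' hv.1 a1
    have := B13_noS v w' a4 hb (by omega)
    subst this
    rw [List.append_nil] at a2
    omega
  have hdsl : ∀ v, Prm v → wt v = M → v.count S = 1 → dW K (sl v x) = 0 := by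
    intro v hv hvM hvS
    ext w'
    have h3 := B13_slice_zero M x hF v w' hv hvM (fun u hu huM hux h => by
      apply hux
      exact h2 u w' hu huM (by omega))
    rw [hc, hvS, pow_one] at h3
    simp only [Finsupp.zero_apply] at h3
    simp only [Finsupp.zero_apply]
    have h4 : -(dW K (sl v x) w') = 0 := by
      rw [h3]
      ring
    exact neg_eq_zero.1 h4
  have hsl : ∀ v, Prm v → wt v = M → ∀ w', w' ≠ aS (n - M - 1) → x (v ++ w') = 0 := by
    intro v hv hvM w' hw'
    rcases Nat.lt_trichotomy (v.count S) 1 with h | h | h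
    · exact h2 v w' hv hvM (by omega)
    · obtain ⟨c, hcs⟩ := ihA (n - M) (by omega) (by omega) (sl v x) (by
        intro w hw
        have h3 : x (v ++ w) ≠ 0 := by
          rw [← sl_apply]
          exact Finsupp.mem_support_iff.1 hw
        have h4 := hx _ (Finsupp.mem_support_iff.2 h3)
        refine B13_inL_slice n M 1 v w hv hvM ?_ (by norm_num)
        rw [h]
        exact h4) (hdsl v hv hvM h)
      rw [← sl_apply, hcs, Finsupp.single_apply, if_neg (Ne.symm hw')]
    · exact hS2 v w' hv hvM (by omega)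
  -- the right slice
  have hq1 : PC M 1 (slr (aS (n - M - 1)) M x) := by
    intro v hv
    obtain ⟨a1, a2, a3⟩ := B13_slr_ne _ _ _ _ (Finsupp.mem_support_iff.1 hv)
    have h3 := (hx _ (Finsupp.mem_support_iff.2 a3)).2.2.1
    rw [List.count_append, B13_S_aS] at h3
    exact ⟨a1, a2, by omega⟩
  have hq2 : ∀ v, Prm v → dW K (slr (aS (n - M - 1)) M x) v = 0 := by
    intro v hv
    by_cases hvM : wt v = M
    · have h3 := dW_slice M x hF v (aS (n - M - 1)) hv hvM
      rw [hc, Finsupp.zero_apply] at h3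
      have h4 : dW K (sl v x) (aS (n - M - 1)) = 0 := by
        by_cases hvS : v.count S = 1
        · rw [hdsl v hv hvM hvS]
          rfl
        · have h5 : sl v x = 0 := by
            ext w'
            rw [sl_apply]
            rcases Nat.lt_or_ge (v.count S) 1 with h | h
            · exact h2 v w' hv hvM (by omega)
            · exact hS2 v w' hv hvM (by omega)
          rw [h5, map_zero]
          rfl
      rw [h4, mul_zero, zero_add] at h3
      exact h3.symm
    · by_contra hne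
      obtain ⟨u, hu, _, h4⟩ := B13_dW_ne _ (fun u hu => (hq1 u hu).1.1.1) v hne
      exact hvM (by rw [h4, (hq1 u hu).2.1])
  have hcwp : Prm (cw M) := prm_cw M hM
  have hcw1 : wt (cw M) = M := B13_wt_cw M hM
  have hq3 : slr (aS (n - M - 1)) M x (cw M) = 0 := by
    rw [slr_apply _ _ _ _ hcwp hcw1]
    exact h1
  obtain ⟨r, hr1, hr2⟩ := V1i M hM _ hq1 hq2 hq3
  have hrC : ∀ v ∈ r.support, v.count C = v.count O := fun v hv => (hr1 v hv).1.1.1
  have hdX : dW K (rm (aS (n - M - 1)) r) = rm (aS (n - M - 1)) (dW K r) :=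
    dW_rm _ (bdw_aS _) _ hrC
  refine ⟨rm (aS (n - M - 1)) r, ?_, ?_, ?_⟩
  · intro w hw
    obtain ⟨u, hu, rfl⟩ := B13_rm_ne _ _ _ (Finsupp.mem_support_iff.1 hw)
    obtain ⟨a1, a2, a3⟩ := hr1 u hu
    refine ⟨bal_append _ _ a1.1 (bal_aS _), ?_, ?_, B13_endS_append _ _ (B13_endS_aS _)⟩
    · rw [wt_append, a2, B13_wt_aS]
      omega
    · rw [List.count_append, a3, B13_S_aS]
  · by_contra hne
    obtain ⟨u, hu, hcw⟩ := B13_rm_ne _ _ _ hne
    obtain ⟨a1, a2, a3⟩ := hr1 u hu
    exact B13_not_cw n (by omega) u _ a1.1 (bal_aS _) a1.2.1 (B13_aS_ne _) hcw.symm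
  · apply FPle_pred M
    · refine B13_FPle_sub M _ _ hF (FPle_dW M _ ?_)
      intro w hw
      obtain ⟨u, hu, rfl⟩ := B13_rm_ne _ _ _ (Finsupp.mem_support_iff.1 hw)
      obtain ⟨a1, a2, a3⟩ := hr1 u hu
      exact ⟨u, _, rfl, a1, bal_aS _, by omega⟩
    · intro v w' hv hvM
      rw [Finsupp.sub_apply, hdX]
      by_cases hw' : w' = aS (n - M - 1)
      · rw [hw', rm_apply, hr2 v hv, slr_apply _ _ _ _ hv hvM, sub_self]
      · rw [hsl v hv hvM w' hw', zero_sub, neg_eq_zero]
        by_contra hne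
        obtain ⟨u, hu, h3⟩ := B13_rm_ne _ _ _ hne
        have hu' : dW K r u ≠ 0 := Finsupp.mem_support_iff.1 hu
        have hub : Bal u := B13_dW_bal r (fun v hv => (hr1 v hv).1.1) u hu'
        obtain ⟨v0, hv0, _, hwt⟩ := B13_dW_ne r (fun v hv => (hr1 v hv).1.1.1) u hu'
        have hwu : wt u = M := by rw [hwt, (hr1 v0 hv0).2.1]
        exact hw' (B13_first M u v w' _ hM hub hwu hv hvM h3.symm).2.symm

theorem killM (n M : ℕ) (hM : 1 ≤ M) (hMn : M < n) (ihA : ∀ m, 1 ≤ m → m < n → StA K m)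
    (ihB : ∀ m, 2 ≤ m → m < n → StB K m) (x : Word →₀ K) (hx : ∀ w ∈ x.support, InL n 2 w)
    (hF : FPle M x) (hc : dW K x = 0) (h0 : M + 1 = n → x (cw M ++ [S]) = 0) :
    ∃ X : Word →₀ K, (∀ w ∈ X.support, InL n 1 w) ∧ X (cw n) = 0 ∧ FPle (M - 1) (x - dW K X) := by
  classical
  obtain ⟨Y, hY1, hY2, hY3, hY4⟩ := B13_step1 n M hM hMn x hF h0
  obtain ⟨hx1, hc1⟩ := B13_sub n x Y hx hc hY1
  obtain ⟨X1, hX1, hX2, hX3, hX4, hX5⟩ := B13_step2 n M hM hMn ihB _ hx1 hY3 hc1 hY4
  obtain ⟨hx2, hc2⟩ := B13_sub n _ X1 hx1 hc1 hX1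
  obtain ⟨X2, hZ1, hZ2, hZ3⟩ := B13_step3 n M hM hMn ihA _ hx2 hX3 hc2 hX4 hX5
  refine ⟨Y + X1 + X2, ?_, ?_, ?_⟩
  · intro w hw
    rcases Finset.mem_union.1 (Finsupp.support_add hw) with h | h
    · rcases Finset.mem_union.1 (Finsupp.support_add h) with h | h
      · exact hY1 w h
      · exact hX1 w h
    · exact hZ1 w h
  · rw [Finsupp.add_apply, Finsupp.add_apply, hY2, hX2, hZ2]
    simp
  · have h3 : x - dW K (Y + X1 + X2) = x - dW K Y - dW K X1 - dW K X2 := by
      rw [map_add, map_add]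
      abel
    rw [h3]
    exact hZ3

end

end Pool.Agent.Helper5.NM
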