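import Pool.Agent.Helper5.NM.Defs
import Pool.Agent.Helper5.NM.B3
import Pool.Agent.Helper5.NM.B4
import Pool.Agent.Helper5.NM.B6
import Pool.Agent.Helper5.NM.B7
import Pool.Agent.Helper5.NM.B10
import Pool.Agent.Helper5.NM.B11
import Pool.Agent.Helper5.NM.B12
import Pool.Agent.Helper5.NM.B13

set_option autoImplicit false

open Finset Function

namespace Pool.Agent.Helper5.NM

open Let

section
variable {K : Type*} [Field K]

/-! Module B14: statements C(n) and B(n). -/

theorem stepC (n : ℕ) (hn : 2 ≤ n) (ihA : ∀ m, 1 ≤ m → m < n → StA K m)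
    (ihB : ∀ m, 2 ≤ m → m < n → StB K m) : StC K n := by sorry

theorem stepB (n : ℕ) (hn : 2 ≤ n) (hK : (n : K) ≠ 0) (hC : StC K n) : StB K n := by sorry

end

end Pool.Agent.Helper5.NM
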