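import Pool.Agent.Helper5.NM.Defs
import Pool.Agent.Helper5.NM.B3
import Pool.Agent.Helper5.NM.B4
import Pool.Agent.Helper5.NM.B6
import Pool.Agent.Helper5.NM.B7
import Pool.Agent.Helper5.NM.B12
import Pool.Agent.Helper5.NM.B14

set_option autoImplicit false

open Finset Function

namespace Pool.Agent.Helper5.NM

open Let

section

/-! Module B15: the cycle `zeta`. -/

theorem exists_zeta (p : ℕ) [Fact p.Prime] :
    ∃ ζ : Word →₀ ZMod p, (∀ w ∈ ζ.support, InL p 1 w) ∧ dW (ZMod p) ζ = 0 ∧ ζ (cw p) = 1 := by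
  sorry

end

end Pool.Agent.Helper5.NM
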