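import Mathlib

/-!
Definitions for MP_42cd19_co: f(p) = 3p - 1 for every prime p.
See /team-store/MP_42cd19-plan.md for the written proof.
-/

set_option autoImplicit false

open Finset Function

namespace Pool.Agent.Helper5.NM

/-! ### The problem -/

/-- Same definition as in `Results/MP_42cd19_co/LinearBound.lean`. -/
def IsNonNestedMatching {m : ℕ} (S : Finset (Fin m × Fin m)) : Prop :=
  (∀ e ∈ S, e.1 < e.2) ∧
  (∀ e ∈ S, ∀ f ∈ S, e ≠ f → e.1 ≠ f.1 ∧ e.1 ≠ f.2 ∧ e.2 ≠ f.1 ∧ e.2 ≠ f.2) ∧
  (∀ e ∈ S, ∀ f ∈ S, ¬ (e.1 < f.1 ∧ f.2 < e.2))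

/-- Every 2-colouring of the edges of the ordered `K_m` has a monochromatic non-nested matching
of size `n`. -/
def Arrows (m n : ℕ) : Prop :=
  ∀ col : Fin m → Fin m → Bool, ∃ (b : Bool) (S : Finset (Fin m × Fin m)),
    IsNonNestedMatching S ∧ S.card = n ∧ ∀ e ∈ S, col e.1 e.2 = b

/-! ### Partial maps `Fin N → Option T` (cells over a finite set of tokens `T`) -/

section Gen

variable {T : Type*} [Fintype T] [DecidableEq T] {N : ℕ} {K : Type*} [CommRing K]

/-- tokens used by `f` -/
def im (f : Fin N → Option T) : Finset T := univ.filter fun a => ∃ i, f i = some a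

/-- number of used vertices -/
def sz (f : Fin N → Option T) : ℕ := (univ.filter fun i => f i ≠ none).card

/-- number of used vertices before `v` -/
def bef (f : Fin N → Option T) (v : Fin N) : ℕ :=
  (univ.filter fun j => j < v ∧ f j ≠ none).card

/-- all vertices with token `a` come before all vertices with token `b` -/
def sep (f : Fin N → Option T) (a b : T) : Prop := ∀ i j, f i = some a → f j = some b → i < j

/-- `f` is onto `P` and monotone for the relation `R`. -/
structure IsCell (R : T → T → Prop) (P : Finset T) (f : Fin N → Option T) : Prop where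
  im_eq : im f = P
  sep : ∀ a b, R a b → sep f a b

/-- internal boundary (in coface form): a vertex is added to a nonempty fibre -/
def dInt (z : (Fin N → Option T) → K) (f : Fin N → Option T) : K :=
  ∑ v, ∑ a, if f v = none ∧ a ∈ im f then (-1 : K) ^ bef f v * z (update f v (some a)) else 0

/-- number of inversions of `f` for the injective key `key : T → ℕ` -/
def invs (key : T → ℕ) (f : Fin N → Option T) : ℕ :=
  (univ.filter fun p : Fin N × Fin N =>
    p.1 < p.2 ∧ ∃ a b, f p.1 = some a ∧ f p.2 = some b ∧ key b < key a).card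

/-- signed augmentation -/
def aug (key : T → ℕ) (z : (Fin N → Option T) → K) : K := ∑ f, (-1 : K) ^ invs key f * z f

/-- the chain `z` consists of cells over `(R, P)` with exactly `m` used vertices -/
def SuppIn (R : T → T → Prop) (P : Finset T) (m : ℕ) (z : (Fin N → Option T) → K) : Prop :=
  ∀ f, z f ≠ 0 → IsCell R P f ∧ sz f = m

/-- the operator `r_a` of the Pi-lemma -/
def rr (a : T) (y : (Fin N → Option T) → K) (g : Fin N → Option T) : K :=
  ∑ v, if g v = none then (-1 : K) ^ bef g v * y (update g v (some a)) else 0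

/-- append a last vertex -/
def sn (g : Fin N → Option T) (o : Option T) : Fin (N + 1) → Option T :=
  Fin.snoc (α := fun _ => Option T) g o

end Gen

/-! ### The geometric complex -/

/-- tokens: (label, part), part `0 = L`, `1 = M`, `2 = R` -/
abbrev Tok (n : ℕ) := Fin n × Fin 3

/-- labelled cells (candidates) -/
abbrev Cel (n N : ℕ) := Fin N → Option (Tok n)

section Geo

variable {n N : ℕ} {K : Type*} [CommRing K]

/-- the blocks of label `x` in `t`: `(L, M), (M, R)` if `x` is double, `(L, R)` if single -/
def Blk (t : Cel n N) (x : Fin n) (p q : Fin 3) : Prop :=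
  ((x, 1) ∈ im t ∧ (p = 0 ∧ q = 1 ∨ p = 1 ∧ q = 2)) ∨ ((x, 1) ∉ im t ∧ p = 0 ∧ q = 2)

/-- good cells -/
def Good (t : Cel n N) : Prop :=
  (∀ x, (x, 0) ∈ im t ∧ (x, 2) ∈ im t ∧
    sep t (x, 0) (x, 1) ∧ sep t (x, 1) (x, 2) ∧ sep t (x, 0) (x, 2)) ∧
  ∀ x y, x ≠ y → ∀ p q p' q', Blk t x p q → Blk t y p' q' →
    (sep t (x, p) (y, p') ∧ sep t (x, q) (y, q')) ∨
    (sep t (y, p') (x, p) ∧ sep t (y, q') (x, q))

/-- pairs of tokens whose order is fixed in a type -/
def Qp (a b : Tok n) : Prop := a.1 = b.1 ∨ ¬ ((a.2 = 0 ∧ b.2 = 2) ∨ (a.2 = 2 ∧ b.2 = 0))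

/-- the type of a cell (together with `im t`) -/
def Rel (t : Cel n N) (a b : Tok n) : Prop :=
  a ∈ im t ∧ b ∈ im t ∧ a ≠ b ∧ Qp a b ∧ sep t a b

/-- number of double labels -/
def nd (t : Cel n N) : ℕ := (univ.filter fun x : Fin n => (x, (1 : Fin 3)) ∈ im t).card

/-- labels in the order of their `L` sets -/
def Canon (t : Cel n N) : Prop := ∀ x y : Fin n, x < y → sep t (x, 0) (y, 0)

/-- the single label `x` becomes double, the new vertex `v` is its `L` set -/
def splitL (t : Cel n N) (x : Fin n) (v : Fin N) : Cel n N :=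
  fun j => if j = v then some (x, 0) else if t j = some (x, 0) then some (x, 1) else t j

/-- the single label `x` becomes double, the new vertex `v` is its `R` set -/
def splitR (t : Cel n N) (x : Fin n) (v : Fin N) : Cel n N :=
  fun j => if j = v then some (x, 2) else if t j = some (x, 2) then some (x, 1) else t j

/-- `x` is a single label of `t` -/
def Sgl (t : Cel n N) (x : Fin n) : Prop := (x, 0) ∈ im t ∧ (x, 1) ∉ im t ∧ (x, 2) ∈ im t

instance (t : Cel n N) (x : Fin n) : Decidable (Sgl t x) := by unfold Sgl; infer_instance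

/-- external boundary in coface form -/
def dExt (z : Cel n N → K) (t : Cel n N) : K :=
  ∑ v, ∑ x, if t v = none ∧ Sgl t x then
    (-1 : K) ^ bef t v * (z (splitL t x v) - z (splitR t x v)) else 0

/-- total boundary -/
def bd (z : Cel n N → K) (t : Cel n N) : K := dInt z t + dExt z t

/-- relabelling -/
def act (σ : Equiv.Perm (Fin n)) (t : Cel n N) : Cel n N :=
  fun v => (t v).map fun a => (σ a.1, a.2)

/-- antisymmetric chains -/
def AntiS (z : Cel n N → K) : Prop :=
  ∀ (σ : Equiv.Perm (Fin n)) (t : Cel n N), z (act σ t) = ((Equiv.Perm.sign σ : ℤ) : K) * z t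

/-- lexicographic key of tokens -/
def key (a : Tok n) : ℕ := 3 * a.1.val + a.2.val

/-- restriction of a chain to the cells over `(R, P)` -/
noncomputable def restr (R : Tok n → Tok n → Prop) (P : Finset (Tok n)) (z : Cel n N → K) :
    Cel n N → K :=
  open Classical in fun f => if IsCell R P f then z f else 0

/-- The augmentation condition in the first step of the descent: on every type with `s` double
labels the restricted chain has augmentation zero. -/
def AugZero (s m : ℕ) (z : Cel n N → K) : Prop :=
  ∀ t : Cel n N, Good t → Canon t → nd t = s → sz t = m → aug key (restr (Rel t) (im t) z) = 0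

/-- the frame cells -/
def Frame (n : ℕ) {N : ℕ} (t : Cel (n + 1) N) : Prop :=
  Good t ∧ Canon t ∧ sz t = N ∧ (Fin.last n, 1) ∉ im t ∧
  ∀ y : Fin (n + 1), y ≠ Fin.last n → (y, 1) ∈ im t ∧ sep t (Fin.last n, 0) (y, 1)

end Geo

/-! ### Product form -/

section Prod

variable {n N : ℕ} {K : Type*} [CommRing K]

/-- label cells are cells with one label -/
abbrev LC (N : ℕ) := Cel 1 N

/-- the label cell of label `i` -/
def lab (t : Cel n N) (i : Fin n) : LC N := fun v =>
  match t v with
  | some a => if a.1 = i then some (0, a.2) else none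
  | none => none

/-- vertex sets pairwise disjoint -/
def Dj (c : Fin n → LC N) : Prop := ∀ v i j, c i v ≠ none → c j v ≠ none → i = j

/-- the cell with given label cells -/
noncomputable def join (c : Fin n → LC N) : Cel n N := fun v =>
  open Classical in
  if h : ∃ i, c i v ≠ none then (c h.choose v).map fun a => (h.choose, a.2) else none

/-- local incidence numbers -/
noncomputable def inc (K : Type*) [CommRing K] (c e : LC N) : K :=
  open Classical in bd (fun f => if f = c then (1 : K) else 0) e

/-- number of inversions between different labels -/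
def linv (t : Cel n N) : ℕ :=
  (univ.filter fun p : Fin N × Fin N =>
    p.1 < p.2 ∧ ∃ a b, t p.1 = some a ∧ t p.2 = some b ∧ b.1 < a.1).card

/-- product form of a chain -/
noncomputable def pf (z : Cel n N → K) (c : Fin n → LC N) : K :=
  open Classical in if Dj c then (-1 : K) ^ linv (join c) * z (join c) else 0

/-- sum of the sizes of the label cells before `i` -/
def szb (u : Fin n → LC N) (i : Fin n) : ℕ := ∑ j ∈ univ.filter (· < i), sz (u j)

/-- `Z` is a cycle in product form -/
def PCyc (Z : (Fin n → LC N) → K) : Prop :=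
  ∀ u : Fin n → LC N, ∑ i, ∑ c : LC N, (-1 : K) ^ szb u i * inc K c (u i) * Z (update u i c) = 0

/-- the integrals `I_k` -/
noncomputable def II (Z : (Fin n → LC N) → K) (k : Fin n) (s : Fin n → LC N) : K :=
  ∑ c : Fin n → LC N,
    open Classical in
    if c k = s k then Z c * ∏ i ∈ univ.erase k, inc K (c i) (s i) else 0

/-- antisymmetry in product form -/
def PAnti (Z : (Fin n → LC N) → K) : Prop :=
  ∀ (a b : Fin n), a.val + 1 = b.val → ∀ c : Fin n → LC N,
    Z (c ∘ Equiv.swap a b) = -((-1 : K) ^ (sz (c a) * sz (c b)) * Z c)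

/-- the label cell of an edge -/
def ec (e : Fin N × Fin N) : LC N := fun v =>
  if v = e.1 then some (0, 0) else if v = e.2 then some (0, 2) else none

/-- strict NN order on edges -/
def elt (e f : Fin N × Fin N) : Prop := e.1 < f.1 ∧ e.2 < f.2

/-- sequences of edges forming a non-nested matching in increasing order -/
def NNS (s : Fin n → Fin N × Fin N) : Prop :=
  (∀ i, (s i).1 < (s i).2) ∧ (∀ i j, i < j → elt (s i) (s j)) ∧ ∀ i j, (s i).1 ≠ (s j).2

/-- certificates: functions on increasing non-nested matchings of size `n` of `[N]` -/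
structure Cert (n N : ℕ) (K : Type*) [CommRing K] (w : (Fin n → Fin N × Fin N) → K) :
    Prop where
  supp : ∀ s, w s ≠ 0 → NNS s
  level : ∀ S : Finset (Fin N × Fin N), S.Nonempty → S.card < n →
    ∑ s : Fin n → Fin N × Fin N, (if (∀ e ∈ S, ∃ i, s i = e) then w s else 0) = 0
  total : ∑ s : Fin n → Fin N × Fin N, w s ≠ 0

end Prod

/-! ### The word algebra -/

/-- letters: `O` opens a double label, `C` closes it (first in, first out), `S` single label -/
inductive Let where
  | O | C | S
  deriving DecidableEq

open Let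

abbrev Word := List Let

section Words

/-- replace the `k`-th occurrence (from 0) of `a` by the list `r` -/
def modK (a : Let) (r : Word) : ℕ → Word → Word
  | _, [] => []
  | k, b :: w => if b = a then (if k = 0 then r ++ w else b :: modK a r (k - 1) w)
      else b :: modK a r k w

/-- number of `S` before the `k`-th occurrence of `a` -/
def nS (a : Let) : ℕ → Word → ℕ
  | _, [] => 0
  | k, b :: w => if b = a then (if k = 0 then 0 else (if b = S then 1 else 0) + nS a (k - 1) w)
      else (if b = S then 1 else 0) + nS a k w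

/-- the `k`-th `O` becomes `S`, the `k`-th `C` is deleted -/
def fO (k : ℕ) (w : Word) : Word := modK C [] k (modK O [S] k w)

/-- the `k`-th `O` is deleted, the `k`-th `C` becomes `S` -/
def fC (k : ℕ) (w : Word) : Word := modK O [] k (modK C [S] k w)

/-- weight = number of labels -/
def wt (w : Word) : ℕ := w.count O + w.count S

/-- balanced words -/
def Bal (w : Word) : Prop :=
  w.count C = w.count O ∧ ∀ i, (w.take i).count C ≤ (w.take i).count O

/-- prime words -/
def Prm (w : Word) : Prop :=
  Bal w ∧ w ≠ [] ∧ ∀ i, 0 < i → i < w.length → ¬ Bal (w.take i)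

/-- the last letter different from `C` is `S` -/
def EndS (w : Word) : Prop := ∃ (p : Word) (i : ℕ), w = p ++ S :: List.replicate i C

variable (K : Type*) [CommRing K]

/-- boundary of a word -/
noncomputable def bdw (w : Word) : Word →₀ K :=
  ∑ k ∈ range (w.count O),
    (Finsupp.single (fO k w) ((-1 : K) ^ nS O k w) - Finsupp.single (fC k w) ((-1 : K) ^ nS C k w))

/-- boundary of chains of words -/
noncomputable def dW : (Word →₀ K) →ₗ[K] (Word →₀ K) :=
  Finsupp.linearCombination K (bdw K)

variable {K}

/-- left multiplication by a word -/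
noncomputable def lm (v : Word) : (Word →₀ K) →ₗ[K] (Word →₀ K) :=
  Finsupp.lmapDomain K K (v ++ ·)

/-- right multiplication by a word -/
noncomputable def rm (w : Word) : (Word →₀ K) →ₗ[K] (Word →₀ K) :=
  Finsupp.lmapDomain K K (· ++ w)

/-- `c_n = O^(n-1) S C^(n-1)` -/
def cw (n : ℕ) : Word := List.replicate (n - 1) O ++ S :: List.replicate (n - 1) C

/-- `A_n = O^n C^n` -/
def Aw (n : ℕ) : Word := List.replicate n O ++ List.replicate n C

/-- `a^k S` with `a = OC` -/
def aS (k : ℕ) : Word := (List.replicate k [O, C]).flatten ++ [S]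

/-- words of `L(n)` with `s` letters `S` -/
def InL (n s : ℕ) (w : Word) : Prop := Bal w ∧ wt w = n ∧ w.count S = s ∧ EndS w

/-- the functional `rho` -/
noncomputable def rho (n : ℕ) (x : Word →₀ K) : K :=
  ∑ i ∈ range (n - 1),
    x (List.replicate (n - 2) O ++ S :: (List.replicate i C ++ S :: List.replicate (n - 2 - i) C))

/-- statements of the induction -/
def StA (K : Type*) [CommRing K] (n : ℕ) : Prop :=
  ∀ x : Word →₀ K, (∀ w ∈ x.support, InL n 1 w) → dW K x = 0 →
    ∃ c : K, x = Finsupp.single (aS (n - 1)) c

def StB (K : Type*) [CommRing K] (n : ℕ) : Prop :=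
  ∀ x : Word →₀ K, (∀ w ∈ x.support, InL n 2 w) → dW K x = 0 →
    ∃ X : Word →₀ K, (∀ w ∈ X.support, InL n 1 w) ∧ dW K X = x

def StC (K : Type*) [CommRing K] (n : ℕ) : Prop :=
  ∀ x : Word →₀ K, (∀ w ∈ x.support, InL n 2 w) → dW K x = 0 → rho n x = 0 →
    ∃ X : Word →₀ K, (∀ w ∈ X.support, InL n 1 w) ∧ dW K X = x ∧ X (cw n) = 0

end Words

/-! ### The bridge from words to top cells -/

section Bridge

variable {n N : ℕ}

/-- labelled word of a cell: labels of the `L` and `M` vertices in increasing order -/
def lword (t : Cel n N) : List (Fin n) :=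
  (List.ofFn t).filterMap fun o =>
    match o with
    | some a => if a.2 = 2 then none else some a.1
    | none => none

/-- pattern of a labelled word -/
def pat : List (Fin n) → Word := fun u =>
  (List.range u.length).map fun i =>
    match u[i]? with
    | some x => if x ∈ u.take i then C else if x ∈ u.drop (i + 1) then O else S
    | none => S

/-- FIFO words on the labels `Fin n` -/
def FW (u : List (Fin n)) : Prop :=
  (∀ x, u.count x = 1 ∨ u.count x = 2) ∧
  ∀ x y, x ≠ y → ¬ [x, y, y, x].Sublist u

/-- erase the last occurrence -/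
def erL (x : Fin n) (u : List (Fin n)) : List (Fin n) := (u.reverse.erase x).reverse

/-- number of pairs of labels in the wrong order, not both double -/
def chiN (u : List (Fin n)) : ℕ :=
  (univ.filter fun p : Fin n × Fin n =>
    p.1 < p.2 ∧ u.idxOf p.2 < u.idxOf p.1 ∧ ¬ (u.count p.1 = 2 ∧ u.count p.2 = 2)).card

/-- sum of the indices (among first letters) of the letters `O` -/
def bsN : Word → ℕ
  | [] => 0
  | a :: w => (if a = C then 0 else w.count O) + bsN w

/-- the signed value on labelled words -/
noncomputable def ZZ {K : Type*} [CommRing K] (ζ : Word →₀ K) (u : List (Fin n)) : K :=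
  (-1 : K) ^ (chiN u + bsN (pat u)) * ζ (pat u)

end Bridge

end Pool.Agent.Helper5.NM
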