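import Pool.Agent.Helper5.NM.Defs

set_option autoImplicit false
set_option linter.unusedSectionVars false
set_option linter.unusedDecidableInType false

open Finset Function

namespace Pool.Agent.Helper5.NM

section
variable {T : Type*} [Fintype T] [DecidableEq T] {N : ℕ} {K : Type*} [CommRing K]

/-! Module G1: `dInt` squares to zero (for every function). -/

theorem G1_bef_update (f : Fin N → Option T) (v w : Fin N) (a : T) (hv : f v = none) :
    bef (update f v (some a)) w = bef f w + if v < w then 1 else 0 := by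
  simp only [bef, card_filter]
  have h1 : (if v < w then 1 else 0 : ℕ) = ∑ j : Fin N, if j = v then (if v < w then 1 else 0) else 0 := by
    rw [Finset.sum_ite_eq' univ v]
    simp
  rw [h1, ← Finset.sum_add_distrib]
  refine Finset.sum_congr rfl fun j _ => ?_
  by_cases hj : j = v
  · subst hj
    rw [update_self, hv]
    simp
  · rw [update_of_ne hj, if_neg hj, add_zero]

theorem G1_im_update (f : Fin N → Option T) (v : Fin N) (a : T) (hv : f v = none)
    (ha : a ∈ im f) : im (update f v (some a)) = im f := by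
  ext b
  simp only [im, mem_filter, mem_univ, true_and] at ha ⊢
  constructor
  · rintro ⟨i, hi⟩
    by_cases h : i = v
    · subst h
      rw [update_self] at hi
      obtain rfl : a = b := by simpa using hi
      exact ha
    · rw [update_of_ne h] at hi
      exact ⟨i, hi⟩
  · rintro ⟨i, hi⟩
    have h : i ≠ v := by
      rintro rfl
      rw [hv] at hi
      simp at hi
    exact ⟨i, by rw [update_of_ne h]; exact hi⟩

theorem dInt_dInt (z : (Fin N → Option T) → K) (f : Fin N → Option T) :
    dInt (dInt z) f = 0 := by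
  classical
  have h1 : dInt (dInt z) f = ∑ x : (Fin N × T) × (Fin N × T),
      if f x.1.1 = none ∧ x.1.2 ∈ im f ∧ f x.2.1 = none ∧ x.2.2 ∈ im f ∧ x.1.1 ≠ x.2.1 then
        (-1 : K) ^ (bef f x.1.1 + bef f x.2.1 + if x.1.1 < x.2.1 then 1 else 0) *
          z (update (update f x.1.1 (some x.1.2)) x.2.1 (some x.2.2)) else 0 := by
    rw [Fintype.sum_prod_type, Fintype.sum_prod_type]
    rw [dInt]
    refine Finset.sum_congr rfl fun v _ => Finset.sum_congr rfl fun a _ => ?_
    rw [Fintype.sum_prod_type]
    split_ifs with h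
    · rw [dInt, Finset.mul_sum]
      refine Finset.sum_congr rfl fun w _ => ?_
      rw [Finset.mul_sum]
      refine Finset.sum_congr rfl fun b _ => ?_
      rw [G1_im_update f v a h.1 h.2, G1_bef_update f v w a h.1]
      by_cases hw : w = v
      · subst hw
        rw [update_self, if_neg (by simp), if_neg (by simp), mul_zero]
      · rw [update_of_ne hw]
        by_cases hc : f w = none ∧ b ∈ im f
        · have hc' : f v = none ∧ a ∈ im f ∧ f w = none ∧ b ∈ im f ∧ v ≠ w :=
            ⟨h.1, h.2, hc.1, hc.2, Ne.symm hw⟩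
          rw [if_pos hc, if_pos hc']
          ring
        · rw [if_neg hc, if_neg (fun h' => hc ⟨h'.2.2.1, h'.2.2.2.1⟩), mul_zero]
    · symm
      refine Finset.sum_eq_zero fun w _ => Finset.sum_eq_zero fun b _ => ?_
      rw [if_neg]
      rintro ⟨h2, h3, -⟩
      exact h ⟨h2, h3⟩
  rw [h1]
  refine Finset.sum_involution (fun x _ => (x.2, x.1)) ?_ ?_ ?_ ?_
  · rintro ⟨⟨v, a⟩, ⟨w, b⟩⟩ _
    dsimp only
    by_cases hc : f v = none ∧ a ∈ im f ∧ f w = none ∧ b ∈ im f ∧ v ≠ w
    · have hc' : f w = none ∧ b ∈ im f ∧ f v = none ∧ a ∈ im f ∧ w ≠ v :=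
        ⟨hc.2.2.1, hc.2.2.2.1, hc.1, hc.2.1, Ne.symm hc.2.2.2.2⟩
      rw [if_pos hc, if_pos hc', update_comm hc.2.2.2.2]
      rcases lt_or_gt_of_ne hc.2.2.2.2 with hlt | hgt
      · rw [if_pos hlt, if_neg (not_lt.2 hlt.le), add_comm (bef f w) (bef f v)]
        ring
      · rw [if_pos hgt, if_neg (not_lt.2 hgt.le), add_comm (bef f w) (bef f v)]
        ring
    · rw [if_neg hc, if_neg, add_zero]
      rintro ⟨h2, h3, h4, h5, h6⟩
      exact hc ⟨h4, h5, h2, h3, Ne.symm h6⟩
  · rintro ⟨⟨v, a⟩, ⟨w, b⟩⟩ _ hne heq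
    dsimp only at hne heq
    apply hne
    rw [if_neg]
    rintro ⟨-, -, -, -, h⟩
    apply h
    have := congrArg (fun x => x.1.1) heq
    exact this.symm
  · intro x _
    exact mem_univ _
  · intro x _
    rfl

end

end Pool.Agent.Helper5.NM
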