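import Pool.Agent.Helper5.NM.Defs

set_option autoImplicit false

open Finset Function

namespace Pool.Agent.Helper5.NM

section
variable {n N : ℕ} {K : Type*} [CommRing K]

/-! Module G5: relabelling. -/

/-- the action on tokens as an equivalence -/
def G5_tk (σ : Equiv.Perm (Fin n)) : Equiv.Perm (Tok n) := Equiv.prodCongr σ (Equiv.refl _)

theorem G5_tk_apply (σ : Equiv.Perm (Fin n)) (a : Tok n) : G5_tk σ a = (σ a.1, a.2) := rfl

theorem G5_act_eq (σ : Equiv.Perm (Fin n)) (t : Cel n N) (v : Fin N) (a : Tok n) :
    act σ t v = some (σ a.1, a.2) ↔ t v = some a := by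
  unfold act
  constructor
  · intro h
    rw [Option.map_eq_some_iff] at h
    obtain ⟨b, hb, hb2⟩ := h
    rw [hb]
    rw [Prod.mk.injEq] at hb2
    rw [Option.some_inj]
    exact Prod.ext (σ.injective hb2.1) hb2.2
  · intro h
    rw [h]
    rfl

theorem G5_act_none (σ : Equiv.Perm (Fin n)) (t : Cel n N) (v : Fin N) :
    act σ t v = none ↔ t v = none := by
  unfold act
  rw [Option.map_eq_none_iff]

theorem act_one (t : Cel n N) : act 1 t = t := by
  funext v
  unfold act
  cases t v with
  | none => rfl
  | some a => rfl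

theorem act_mul (σ τ : Equiv.Perm (Fin n)) (t : Cel n N) : act (σ * τ) t = act σ (act τ t) := by
  funext v
  unfold act
  cases t v with
  | none => rfl
  | some a => rfl

theorem G5_mem_im (σ : Equiv.Perm (Fin n)) (t : Cel n N) (a : Tok n) :
    G5_tk σ a ∈ im (act σ t) ↔ a ∈ im t := by
  unfold im
  simp only [mem_filter, mem_univ, true_and, G5_tk_apply]
  exact exists_congr fun i => G5_act_eq σ t i a

theorem mem_im_act (σ : Equiv.Perm (Fin n)) (t : Cel n N) (x : Fin n) (p : Fin 3) :
    (σ x, p) ∈ im (act σ t) ↔ (x, p) ∈ im t := G5_mem_im σ t (x, p)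

theorem sep_act (σ : Equiv.Perm (Fin n)) (t : Cel n N) (x y : Fin n) (p q : Fin 3) :
    sep (act σ t) (σ x, p) (σ y, q) ↔ sep t (x, p) (y, q) := by
  unfold sep
  refine forall_congr' fun i => forall_congr' fun j => ?_
  rw [G5_act_eq σ t i (x, p), G5_act_eq σ t j (y, q)]

theorem sz_act (σ : Equiv.Perm (Fin n)) (t : Cel n N) : sz (act σ t) = sz t := by
  unfold sz
  congr 1
  refine filter_congr fun i _ => ?_
  rw [not_iff_not]
  exact G5_act_none σ t i

theorem G5_bef_act (σ : Equiv.Perm (Fin n)) (t : Cel n N) (v : Fin N) :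
    bef (act σ t) v = bef t v := by
  unfold bef
  congr 1
  refine filter_congr fun i _ => ?_
  refine and_congr_right fun _ => ?_
  rw [not_iff_not]
  exact G5_act_none σ t i

theorem nd_act (σ : Equiv.Perm (Fin n)) (t : Cel n N) : nd (act σ t) = nd t := by
  unfold nd
  have : (univ.filter fun x : Fin n => (x, (1 : Fin 3)) ∈ im (act σ t)) =
      (univ.filter fun x : Fin n => (x, (1 : Fin 3)) ∈ im t).map σ.toEmbedding := by
    ext y
    simp only [mem_filter, mem_univ, true_and, mem_map, Equiv.coe_toEmbedding]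
    constructor
    · intro h
      refine ⟨σ.symm y, ?_, σ.apply_symm_apply y⟩
      rw [← mem_im_act σ, σ.apply_symm_apply]
      exact h
    · rintro ⟨x, hx, rfl⟩
      rw [mem_im_act]
      exact hx
  rw [this, card_map]

theorem G5_blk (σ : Equiv.Perm (Fin n)) (t : Cel n N) (x : Fin n) (p q : Fin 3) :
    Blk (act σ t) (σ x) p q ↔ Blk t x p q := by
  unfold Blk
  rw [mem_im_act]

theorem good_act (σ : Equiv.Perm (Fin n)) (t : Cel n N) : Good (act σ t) ↔ Good t := by
  unfold Good
  refine and_congr ?_ ?_
  · rw [σ.surjective.forall]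
    refine forall_congr' fun x => ?_
    rw [mem_im_act, mem_im_act, sep_act, sep_act, sep_act]
  · rw [σ.surjective.forall]
    refine forall_congr' fun x => ?_
    rw [σ.surjective.forall]
    refine forall_congr' fun y => ?_
    rw [σ.injective.ne_iff]
    refine forall_congr' fun _ => forall_congr' fun p => forall_congr' fun q =>
      forall_congr' fun p' => forall_congr' fun q' => ?_
    rw [G5_blk, G5_blk, sep_act, sep_act, sep_act, sep_act]

theorem G5_update (σ : Equiv.Perm (Fin n)) (t : Cel n N) (v : Fin N) (a : Tok n) :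
    act σ (update t v (some a)) = update (act σ t) v (some (G5_tk σ a)) := by
  funext j
  by_cases h : j = v
  · subst h
    unfold act
    rw [update_self, update_self]
    rfl
  · unfold act
    rw [update_of_ne h, update_of_ne h]

theorem dInt_act (σ : Equiv.Perm (Fin n)) (z : Cel n N → K) (t : Cel n N) :
    dInt (fun t => z (act σ t)) t = dInt z (act σ t) := by
  unfold dInt
  refine sum_congr rfl fun v _ => ?_
  refine Fintype.sum_equiv (G5_tk σ) _ _ fun a => ?_
  have h1 : (act σ t v = none ∧ G5_tk σ a ∈ im (act σ t)) ↔ (t v = none ∧ a ∈ im t) := by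
    rw [G5_act_none, G5_mem_im]
  simp only [h1, G5_bef_act, G5_update]

theorem G5_sgl (σ : Equiv.Perm (Fin n)) (t : Cel n N) (x : Fin n) :
    Sgl (act σ t) (σ x) ↔ Sgl t x := by
  unfold Sgl
  rw [mem_im_act, mem_im_act, mem_im_act]

theorem G5_splitL (σ : Equiv.Perm (Fin n)) (t : Cel n N) (x : Fin n) (v : Fin N) :
    act σ (splitL t x v) = splitL (act σ t) (σ x) v := by
  funext j
  have h := G5_act_eq σ t j (x, 0)
  unfold splitL
  by_cases hj : j = v
  · simp [act, hj]
  · by_cases h2 : t j = some (x, 0)
    · have h3 := h.2 h2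
      simp only at h3
      simp only [hj, if_false, h3, if_true]
      unfold act
      simp only [hj, if_false, h2, if_true]
      rfl
    · have h3 : act σ t j ≠ some (σ x, 0) := fun h4 => h2 (h.1 h4)
      simp only [hj, if_false, h3]
      unfold act
      simp only [hj, if_false, h2]

theorem G5_splitR (σ : Equiv.Perm (Fin n)) (t : Cel n N) (x : Fin n) (v : Fin N) :
    act σ (splitR t x v) = splitR (act σ t) (σ x) v := by
  funext j
  have h := G5_act_eq σ t j (x, 2)
  unfold splitR
  by_cases hj : j = v
  · simp [act, hj]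
  · by_cases h2 : t j = some (x, 2)
    · have h3 := h.2 h2
      simp only at h3
      simp only [hj, if_false, h3, if_true]
      unfold act
      simp only [hj, if_false, h2, if_true]
      rfl
    · have h3 : act σ t j ≠ some (σ x, 2) := fun h4 => h2 (h.1 h4)
      simp only [hj, if_false, h3]
      unfold act
      simp only [hj, if_false, h2]

theorem dExt_act (σ : Equiv.Perm (Fin n)) (z : Cel n N → K) (t : Cel n N) :
    dExt (fun t => z (act σ t)) t = dExt z (act σ t) := by
  unfold dExt
  refine sum_congr rfl fun v _ => ?_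
  refine Fintype.sum_equiv σ _ _ fun x => ?_
  have h1 : (act σ t v = none ∧ Sgl (act σ t) (σ x)) ↔ (t v = none ∧ Sgl t x) := by
    rw [G5_act_none, G5_sgl]
  simp only [h1, G5_bef_act, G5_splitL, G5_splitR]

theorem antiS_dInt (z : Cel n N → K) (h : AntiS z) : AntiS (dInt z) := by
  intro σ t
  rw [← dInt_act]
  have : (fun t => z (act σ t)) = fun t => ((Equiv.Perm.sign σ : ℤ) : K) * z t := by
    funext t
    exact h σ t
  rw [this]
  unfold dInt
  rw [mul_sum]
  refine sum_congr rfl fun v _ => ?_
  rw [mul_sum]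
  refine sum_congr rfl fun a _ => ?_
  split_ifs
  · ring
  · ring

theorem antiS_dExt (z : Cel n N → K) (h : AntiS z) : AntiS (dExt z) := by
  intro σ t
  rw [← dExt_act]
  have : (fun t => z (act σ t)) = fun t => ((Equiv.Perm.sign σ : ℤ) : K) * z t := by
    funext t
    exact h σ t
  rw [this]
  unfold dExt
  rw [mul_sum]
  refine sum_congr rfl fun v _ => ?_
  rw [mul_sum]
  refine sum_congr rfl fun a _ => ?_
  split_ifs
  · ring
  · ring

end

end Pool.Agent.Helper5.NM
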