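import Pool.Agent.Helper5.NM.Defs

set_option autoImplicit false

open Finset Function

namespace Pool.Agent.Helper5.NM

section
variable {n N : ℕ}

/-! Module G6: types of good cells. -/

theorem G6_mem_im (t : Cel n N) (a : Tok n) : a ∈ im t ↔ ∃ i, t i = some a := by
  simp [im]

theorem G6_Qp_symm {a b : Tok n} (h : Qp a b) : Qp b a := by
  rcases h with h | h
  · exact Or.inl h.symm
  · right
    rintro (⟨h1, h2⟩ | ⟨h1, h2⟩)
    · exact h (Or.inr ⟨h2, h1⟩)
    · exact h (Or.inl ⟨h2, h1⟩)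

theorem G6_blk_left (t : Cel n N) (x : Fin n) : ∃ q, Blk t x 0 q := by
  by_cases h : (x, (1 : Fin 3)) ∈ im t
  · exact ⟨1, Or.inl ⟨h, Or.inl ⟨rfl, rfl⟩⟩⟩
  · exact ⟨2, Or.inr ⟨h, rfl, rfl⟩⟩

theorem G6_blk_right (t : Cel n N) (x : Fin n) : ∃ p, Blk t x p 2 := by
  by_cases h : (x, (1 : Fin 3)) ∈ im t
  · exact ⟨1, Or.inl ⟨h, Or.inr ⟨rfl, rfl⟩⟩⟩
  · exact ⟨0, Or.inr ⟨h, rfl, rfl⟩⟩

theorem G6_blk_left' (t : Cel n N) (x : Fin n) (p : Fin 3) (hp : p ≠ 2) (hx : (x, p) ∈ im t) :
    ∃ q, Blk t x p q := by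
  fin_cases p
  · exact G6_blk_left t x
  · exact ⟨2, Or.inl ⟨hx, Or.inr ⟨rfl, rfl⟩⟩⟩
  · exact absurd rfl hp

theorem G6_blk_right' (t : Cel n N) (x : Fin n) (q : Fin 3) (hq : q ≠ 0) (hx : (x, q) ∈ im t) :
    ∃ p, Blk t x p q := by
  fin_cases q
  · exact absurd rfl hq
  · exact ⟨0, Or.inl ⟨hx, Or.inl ⟨rfl, rfl⟩⟩⟩
  · exact G6_blk_right t x

/-- parts of a block -/
theorem G6_blk_parts (t : Cel n N) (hg : Good t) (x : Fin n) (p q : Fin 3) (h : Blk t x p q) :
    (x, p) ∈ im t ∧ (x, q) ∈ im t ∧ p ≠ 2 ∧ q ≠ 0 := by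
  have h0 := hg.1 x
  rcases h with ⟨h1, (⟨rfl, rfl⟩ | ⟨rfl, rfl⟩)⟩ | ⟨h1, rfl, rfl⟩
  · exact ⟨h0.1, h1, by decide, by decide⟩
  · exact ⟨h1, h0.2.1, by decide, by decide⟩
  · exact ⟨h0.1, h0.2.1, by decide, by decide⟩

theorem isCell_self (t : Cel n N) : IsCell (Rel t) (im t) t :=
  ⟨rfl, fun _ _ h => h.2.2.2.2⟩

/-- in a good cell two different tokens forming a `Qp` pair are comparable -/
theorem good_total (t : Cel n N) (hg : Good t) (a b : Tok n) (ha : a ∈ im t) (hb : b ∈ im t)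
    (hab : a ≠ b) (hq : Qp a b) : sep t a b ∨ sep t b a := by
  obtain ⟨x, p⟩ := a
  obtain ⟨y, q⟩ := b
  by_cases hxy : x = y
  · subst hxy
    have hpq : p ≠ q := fun h => hab (by rw [h])
    obtain ⟨-, -, h01, h12, h02⟩ := hg.1 x
    fin_cases p <;> fin_cases q
    · exact absurd rfl hpq
    · exact Or.inl h01
    · exact Or.inl h02
    · exact Or.inr h01
    · exact absurd rfl hpq
    · exact Or.inl h12
    · exact Or.inr h02
    · exact Or.inr h12
    · exact absurd rfl hpq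
  · have hq' : ¬ ((p = 0 ∧ q = 2) ∨ (p = 2 ∧ q = 0)) := by
      rcases hq with h | h
      · exact absurd h hxy
      · exact h
    by_cases hl : p ≠ 2 ∧ q ≠ 2
    · obtain ⟨p', hp'⟩ := G6_blk_left' t x p hl.1 ha
      obtain ⟨q', hq''⟩ := G6_blk_left' t y q hl.2 hb
      rcases hg.2 x y hxy p p' q q' hp' hq'' with h | h
      · exact Or.inl h.1
      · exact Or.inr h.1
    · have hr : p ≠ 0 ∧ q ≠ 0 := by
        constructor
        · intro h0
          subst h0
          apply hq'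
          left
          refine ⟨rfl, ?_⟩
          by_contra h2
          exact hl ⟨by decide, h2⟩
        · intro h0
          subst h0
          apply hq'
          right
          refine ⟨?_, rfl⟩
          by_contra h2
          exact hl ⟨h2, by decide⟩
      obtain ⟨p', hp'⟩ := G6_blk_right' t x p hr.1 ha
      obtain ⟨q', hq''⟩ := G6_blk_right' t y q hr.2 hb
      rcases hg.2 x y hxy p' p q' q hp' hq'' with h | h
      · exact Or.inl h.2
      · exact Or.inr h.2

theorem not_sep_both (t : Cel n N) (a b : Tok n) (ha : a ∈ im t) (hb : b ∈ im t)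
    (h1 : sep t a b) : ¬ sep t b a := by
  obtain ⟨i, hi⟩ := (G6_mem_im t a).1 ha
  obtain ⟨j, hj⟩ := (G6_mem_im t b).1 hb
  intro h2
  exact absurd (h1 i j hi hj) (not_lt.2 (h2 j i hj hi).le)

theorem good_of_isCell (t t' : Cel n N) (hg : Good t) (h : IsCell (Rel t) (im t) t') :
    Good t' ∧ im t' = im t ∧ Rel t' = Rel t := by
  have him : im t' = im t := h.im_eq
  have hs := h.sep
  have hsep : ∀ a b : Tok n, a ≠ b → Qp a b → sep t a b → sep t' a b := by
    intro a b hab hq hab'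
    by_cases ha : a ∈ im t
    · by_cases hb : b ∈ im t
      · exact hs a b ⟨ha, hb, hab, hq, hab'⟩
      · intro i j _ hj
        exact absurd ((G6_mem_im t' b).2 ⟨j, hj⟩) (by rw [him]; exact hb)
    · intro i j hi _
      exact absurd ((G6_mem_im t' a).2 ⟨i, hi⟩) (by rw [him]; exact ha)
  have hblk : ∀ x p q, Blk t' x p q ↔ Blk t x p q := by
    intro x p q
    unfold Blk
    rw [him]
  have hgood : Good t' := by
    refine ⟨fun x => ?_, fun x y hxy p q p' q' hb hb' => ?_⟩
    · obtain ⟨h0, h2, h01, h12, h02⟩ := hg.1 x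
      rw [him]
      refine ⟨h0, h2, hsep _ _ ?_ (Or.inl rfl) h01, hsep _ _ ?_ (Or.inl rfl) h12,
        hsep _ _ ?_ (Or.inl rfl) h02⟩
      · intro h
        have h' : (0 : Fin 3) = 1 := congrArg Prod.snd h
        exact absurd h' (by decide)
      · intro h
        have h' : (1 : Fin 3) = 2 := congrArg Prod.snd h
        exact absurd h' (by decide)
      · intro h
        have h' : (0 : Fin 3) = 2 := congrArg Prod.snd h
        exact absurd h' (by decide)
    · rw [hblk] at hb hb'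
      obtain ⟨-, -, hp2, hq0⟩ := G6_blk_parts t hg x p q hb
      obtain ⟨-, -, hp2', hq0'⟩ := G6_blk_parts t hg y p' q' hb'
      have hne : ∀ r s : Fin 3, ((x, r) : Tok n) ≠ (y, s) := fun r s h =>
        hxy (congrArg Prod.fst h)
      have hne' : ∀ r s : Fin 3, ((y, r) : Tok n) ≠ (x, s) := fun r s h =>
        hxy (congrArg Prod.fst h).symm
      have hQp : Qp ((x, p) : Tok n) (y, p') := by
        right
        rintro (⟨_, h2⟩ | ⟨h1, _⟩)
        · exact hp2' h2
        · exact hp2 h1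
      have hQq : Qp ((x, q) : Tok n) (y, q') := by
        right
        rintro (⟨h1, _⟩ | ⟨_, h2⟩)
        · exact hq0 h1
        · exact hq0' h2
      rcases hg.2 x y hxy p q p' q' hb hb' with h | h
      · exact Or.inl ⟨hsep _ _ (hne _ _) hQp h.1, hsep _ _ (hne _ _) hQq h.2⟩
      · exact Or.inr ⟨hsep _ _ (hne' _ _) (G6_Qp_symm hQp) h.1,
          hsep _ _ (hne' _ _) (G6_Qp_symm hQq) h.2⟩
  refine ⟨hgood, him, ?_⟩
  funext a b
  apply propext
  constructor
  · rintro ⟨ha, hb, hab, hq, hs'⟩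
    have ha' : a ∈ im t := by rw [← him]; exact ha
    have hb' : b ∈ im t := by rw [← him]; exact hb
    refine ⟨ha', hb', hab, hq, ?_⟩
    rcases good_total t hg a b ha' hb' hab hq with h1 | h1
    · exact h1
    · exact absurd (hsep b a hab.symm (G6_Qp_symm hq) h1) (not_sep_both t' a b ha hb hs')
  · intro hR
    obtain ⟨ha, hb, hab, hq, hs'⟩ := hR
    exact ⟨by rw [him]; exact ha, by rw [him]; exact hb, hab, hq, hsep a b hab hq hs'⟩

theorem good_update (f : Cel n N) (v : Fin N) (a : Tok n) (hv : f v = none) (ha : a ∈ im f)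
    (hg : Good (update f v (some a))) :
    Good f ∧ im f = im (update f v (some a)) ∧ Rel f = Rel (update f v (some a)) := by
  apply good_of_isCell _ _ hg
  refine ⟨?_, ?_⟩
  · ext b
    rw [G6_mem_im, G6_mem_im]
    constructor
    · rintro ⟨i, hi⟩
      refine ⟨i, ?_⟩
      rw [update_of_ne]
      · exact hi
      · rintro rfl
        rw [hv] at hi
        exact absurd hi (by simp)
    · rintro ⟨i, hi⟩
      by_cases hiv : i = v
      · subst hiv
        rw [update_self] at hi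
        have hab : a = b := by simpa using hi
        rw [← hab]
        exact (G6_mem_im f a).1 ha
      · rw [update_of_ne hiv] at hi
        exact ⟨i, hi⟩
  · intro c d hcd i j hi hj
    apply hcd.2.2.2.2 i j
    · rw [update_of_ne]
      · exact hi
      · rintro rfl
        rw [hv] at hi
        exact absurd hi (by simp)
    · rw [update_of_ne]
      · exact hj
      · rintro rfl
        rw [hv] at hj
        exact absurd hj (by simp)

theorem canon_iff (t : Cel n N) (hg : Good t) :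
    Canon t ↔ ∀ x y : Fin n, x < y → Rel t (x, 0) (y, 0) := by
  constructor
  · intro h x y hxy
    refine ⟨(hg.1 x).1, (hg.1 y).1, ?_, ?_, h x y hxy⟩
    · intro he
      exact hxy.ne (congrArg Prod.fst he)
    · right
      rintro (⟨_, h2⟩ | ⟨h1, _⟩)
      · have h' : (0 : Fin 3) = 2 := h2
        exact absurd h' (by decide)
      · have h' : (0 : Fin 3) = 2 := h1
        exact absurd h' (by decide)
  · intro h x y hxy
    exact (h x y hxy).2.2.2.2

/-- a rank function compatible with the type: the smallest vertex of the fibre -/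
theorem exists_rho (t : Cel n N) : ∃ ρ : Tok n → ℕ,
    (∀ a ∈ im t, ∀ b ∈ im t, ρ a = ρ b → a = b) ∧
    ∀ a ∈ im t, ∀ b ∈ im t, Rel t a b → ρ a < ρ b := by
  have key : ∀ a ∈ im t, ∃ h : sInf {i : ℕ | ∃ h : i < N, t ⟨i, h⟩ = some a} < N,
      t ⟨sInf {i : ℕ | ∃ h : i < N, t ⟨i, h⟩ = some a}, h⟩ = some a := by
    intro a ha
    obtain ⟨i, hi⟩ := (G6_mem_im t a).1 ha
    have hne : {i : ℕ | ∃ h : i < N, t ⟨i, h⟩ = some a}.Nonempty := ⟨i.val, i.isLt, hi⟩
    exact Nat.sInf_mem hne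
  refine ⟨fun a => sInf {i : ℕ | ∃ h : i < N, t ⟨i, h⟩ = some a}, ?_, ?_⟩
  · intro a ha b hb hab
    obtain ⟨h1, h2⟩ := key a ha
    obtain ⟨h3, h4⟩ := key b hb
    have hab' : sInf {i : ℕ | ∃ h : i < N, t ⟨i, h⟩ = some a} =
        sInf {i : ℕ | ∃ h : i < N, t ⟨i, h⟩ = some b} := hab
    have h5 : (⟨sInf {i : ℕ | ∃ h : i < N, t ⟨i, h⟩ = some a}, h1⟩ : Fin N) =
        ⟨sInf {i : ℕ | ∃ h : i < N, t ⟨i, h⟩ = some b}, h3⟩ := Fin.ext hab'
    rw [h5, h4] at h2
    exact (Option.some_injective _ h2).symm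
  · intro a ha b hb hR
    obtain ⟨h1, h2⟩ := key a ha
    obtain ⟨h3, h4⟩ := key b hb
    exact hR.2.2.2.2 _ _ h2 h4

theorem card_im (t : Cel n N) (hg : Good t) : (im t).card = 2 * n + nd t := by
  have h1 : (im t).card = ∑ a : Fin n × Fin 3, if a ∈ im t then 1 else 0 := by
    rw [Finset.sum_boole]
    simp
  have h2 : nd t = ∑ x : Fin n, if ((x, (1 : Fin 3)) : Tok n) ∈ im t then 1 else 0 := by
    rw [nd, Finset.card_filter]
  rw [h1, h2, Fintype.sum_prod_type]
  have h3 : ∀ x : Fin n, (∑ p : Fin 3, if ((x, p) : Tok n) ∈ im t then 1 else 0) =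
      2 + if ((x, (1 : Fin 3)) : Tok n) ∈ im t then 1 else 0 := by
    intro x
    rw [Fin.sum_univ_three, if_pos (hg.1 x).1, if_pos (hg.1 x).2.1]
    ring
  rw [Finset.sum_congr rfl (fun x _ => h3 x), Finset.sum_add_distrib]
  simp [mul_comm]

end

end Pool.Agent.Helper5.NM
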