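import Pool.Agent.Helper5.NM.Defs
import Pool.Agent.Helper5.NM.G5
import Pool.Agent.Helper5.NM.G6

set_option autoImplicit false

open Finset Function

namespace Pool.Agent.Helper5.NM

section
variable {n N : ℕ}

/-! Module G8: every good cell has exactly one canonical relabelling. -/

theorem canon_perm (t : Cel n N) (hg : Good t) :
    ∃! σ : Equiv.Perm (Fin n), Canon (act σ⁻¹ t) := by
  classical
  have hex : ∀ x : Fin n, ∃ i, t i = some (x, (0 : Fin 3)) := by
    intro x
    have := (hg.1 x).1
    simpa [im] using this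
  -- the smallest vertex of the fibre
  have hm : ∀ x : Fin n, ∃ i, t i = some (x, (0 : Fin 3)) ∧
      ∀ j, t j = some (x, (0 : Fin 3)) → i ≤ j := by
    intro x
    have hne : (univ.filter fun i => t i = some (x, (0 : Fin 3))).Nonempty := by
      obtain ⟨i, hi⟩ := hex x
      exact ⟨i, by simp [hi]⟩
    refine ⟨(univ.filter fun i => t i = some (x, (0 : Fin 3))).min' hne, ?_, ?_⟩
    · have := Finset.min'_mem _ hne
      simpa using this
    · intro j hj
      exact Finset.min'_le _ _ (by simp [hj])
  choose m hm1 hm2 using hm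
  have hmin : ∀ x y : Fin n, x ≠ y → (sep t (x, 0) (y, 0) ↔ m x < m y) := by
    intro x y hxy
    constructor
    · intro h
      exact h _ _ (hm1 x) (hm1 y)
    · intro h
      have hx0 : (x, (0 : Fin 3)) ∈ im t := (hg.1 x).1
      have hy0 : (y, (0 : Fin 3)) ∈ im t := (hg.1 y).1
      rcases good_total t hg (x, 0) (y, 0) hx0 hy0 (by
        intro h; exact hxy (Prod.mk.inj h).1) (Or.inr (by simp)) with h' | h'
      · exact h'
      · have := h' _ _ (hm1 y) (hm1 x)
        exact absurd this (not_lt.2 h.le)
  have hinj : Injective m := by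
    intro x y hxy
    by_contra hne
    have h1 := hm1 x
    have h2 := hm1 y
    rw [hxy, h2] at h1
    have := (Prod.mk.inj (Option.some.inj h1)).1
    exact hne this.symm
  have key : ∀ σ : Equiv.Perm (Fin n), Canon (act σ⁻¹ t) ↔ StrictMono (m ∘ σ) := by
    intro σ
    have hs : ∀ x y : Fin n, sep (act σ⁻¹ t) (x, 0) (y, 0) ↔ sep t (σ x, 0) (σ y, 0) := by
      intro x y
      have := sep_act σ⁻¹ t (σ x) (σ y) 0 0
      simpa using this
    constructor
    · intro h x y hxy
      have h1 := (hs x y).1 (h x y hxy)
      exact (hmin _ _ (fun he => hxy.ne (σ.injective he))).1 h1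
    · intro h x y hxy
      exact (hs x y).2 ((hmin _ _ (fun he => hxy.ne (σ.injective he))).2 (h hxy))
  refine ⟨Tuple.sort m, ?_, ?_⟩
  · show Canon (act (Tuple.sort m)⁻¹ t)
    rw [key]
    exact (Tuple.monotone_sort m).strictMono_of_injective
      (hinj.comp (Tuple.sort m).injective)
  · intro τ hτ
    have hτ' : StrictMono (m ∘ τ) := (key τ).1 hτ
    have := Tuple.unique_monotone (f := m) (Tuple.monotone_sort m) hτ'.monotone
    ext x
    have h1 := congrFun this x
    exact congrArg Fin.val (hinj h1).symm

end

end Pool.Agent.Helper5.NM
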