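import Pool.Agent.Helper5.NM.Defs

set_option autoImplicit false
set_option linter.unusedSectionVars false
set_option linter.unusedDecidableInType false

open Finset Function

namespace Pool.Agent.Helper5.NM

section
variable {T : Type*} [Fintype T] [DecidableEq T] {N : ℕ}

/-! Module P1: the last vertex.  `sn g o = Fin.snoc g o`. -/

theorem sn_castSucc (g : Fin N → Option T) (o : Option T) (v : Fin N) :
    sn g o v.castSucc = g v := by
  simp [sn]

theorem sn_last (g : Fin N → Option T) (o : Option T) : sn g o (Fin.last N) = o := by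
  simp [sn]

theorem exists_sn (f : Fin (N + 1) → Option T) :
    f = sn (fun v => f v.castSucc) (f (Fin.last N)) := by
  funext v
  refine Fin.lastCases ?_ (fun v => ?_) v
  · rw [sn_last]
  · rw [sn_castSucc]

theorem update_sn_castSucc (g : Fin N → Option T) (o x : Option T) (v : Fin N) :
    update (sn g o) v.castSucc x = sn (update g v x) o := by
  unfold sn
  rw [Fin.snoc_update]

theorem update_sn_last (g : Fin N → Option T) (o x : Option T) :
    update (sn g o) (Fin.last N) x = sn g x := by
  unfold sn
  rw [Fin.update_snoc_last]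

theorem P1_ex (p : Fin (N + 1) → Prop) :
    (∃ i, p i) ↔ (∃ i : Fin N, p i.castSucc) ∨ p (Fin.last N) := by
  constructor
  · rintro ⟨i, hi⟩
    revert hi
    refine Fin.lastCases (fun h => Or.inr h) (fun i h => Or.inl ⟨i, h⟩) i
  · rintro (⟨i, hi⟩ | h)
    · exact ⟨_, hi⟩
    · exact ⟨_, h⟩

theorem im_sn_none (g : Fin N → Option T) : im (sn g none) = im g := by
  ext a
  simp only [im, mem_filter, mem_univ, true_and]
  rw [P1_ex]
  simp only [sn_castSucc, sn_last]
  simp

theorem im_sn_some (g : Fin N → Option T) (a : T) : im (sn g (some a)) = insert a (im g) := by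
  ext b
  simp only [im, mem_filter, mem_univ, true_and, mem_insert]
  rw [P1_ex]
  simp only [sn_castSucc, sn_last, Option.some.injEq]
  constructor
  · rintro (h | h)
    · exact Or.inr h
    · exact Or.inl h.symm
  · rintro (h | h)
    · exact Or.inr h.symm
    · exact Or.inl h

theorem sz_sn_none (g : Fin N → Option T) : sz (sn g none) = sz g := by
  simp only [sz, card_filter]
  rw [Fin.sum_univ_castSucc]
  simp only [sn_castSucc, sn_last]
  simp

theorem sz_sn_some (g : Fin N → Option T) (a : T) : sz (sn g (some a)) = sz g + 1 := by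
  simp only [sz, card_filter]
  rw [Fin.sum_univ_castSucc]
  simp only [sn_castSucc, sn_last]
  simp

theorem bef_sn_castSucc (g : Fin N → Option T) (o : Option T) (v : Fin N) :
    bef (sn g o) v.castSucc = bef g v := by
  simp only [bef, card_filter]
  rw [Fin.sum_univ_castSucc]
  simp only [sn_castSucc, sn_last, Fin.castSucc_lt_castSucc_iff]
  rw [if_neg, add_zero]
  rintro ⟨h, -⟩
  exact absurd h (not_lt.2 (Fin.le_last _))

theorem bef_sn_last (g : Fin N → Option T) (o : Option T) :
    bef (sn g o) (Fin.last N) = sz g := by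
  simp only [bef, sz, card_filter]
  rw [Fin.sum_univ_castSucc]
  simp only [sn_castSucc, sn_last, Fin.castSucc_lt_last, true_and]
  rw [if_neg, add_zero]
  rintro ⟨h, -⟩
  exact lt_irrefl _ h

theorem P1_sep_sn (g : Fin N → Option T) (o : Option T) (b c : T) :
    sep (sn g o) b c ↔ sep g b c ∧ (o = some b → ∀ j, g j ≠ some c) ∧
      ¬ (o = some b ∧ o = some c) := by
  constructor
  · intro h
    refine ⟨fun i j hi hj => ?_, fun ho j hj => ?_, fun ho => ?_⟩
    · have := h i.castSucc j.castSucc (by rw [sn_castSucc]; exact hi) (by rw [sn_castSucc]; exact hj)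
      simpa using this
    · have := h (Fin.last N) j.castSucc (by rw [sn_last]; exact ho) (by rw [sn_castSucc]; exact hj)
      exact absurd this (not_lt.2 (Fin.le_last _))
    · have := h (Fin.last N) (Fin.last N) (by rw [sn_last]; exact ho.1)
        (by rw [sn_last]; exact ho.2)
      exact lt_irrefl _ this
  · rintro ⟨h1, h2, h3⟩ i j
    refine Fin.lastCases ?_ (fun i => ?_) i
    · refine Fin.lastCases ?_ (fun j => ?_) j
      · rw [sn_last]
        intro hb hc
        exact absurd ⟨hb, hc⟩ h3
      · rw [sn_last, sn_castSucc]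
        intro hb hc
        exact absurd hc (h2 hb j)
    · refine Fin.lastCases ?_ (fun j => ?_) j
      · intro _ _
        exact Fin.castSucc_lt_last i
      · rw [sn_castSucc, sn_castSucc]
        intro hb hc
        exact Fin.castSucc_lt_castSucc_iff.2 (h1 i j hb hc)

theorem isCell_sn_none (R : T → T → Prop) (P : Finset T) (g : Fin N → Option T) :
    IsCell R P (sn g none) ↔ IsCell R P g := by
  constructor
  · rintro ⟨h1, h2⟩
    refine ⟨by rw [← h1, im_sn_none], fun a b hab => ?_⟩
    exact ((P1_sep_sn g none a b).1 (h2 a b hab)).1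
  · rintro ⟨h1, h2⟩
    refine ⟨by rw [← h1, im_sn_none], fun a b hab => ?_⟩
    exact (P1_sep_sn g none a b).2 ⟨h2 a b hab, fun h => by simp at h, fun h => by simp at h⟩

theorem isCell_sn_some (R : T → T → Prop) (P : Finset T) (g : Fin N → Option T) (a : T) :
    IsCell R P (sn g (some a)) ↔
      insert a (im g) = P ∧ (∀ b c, R b c → sep g b c) ∧ (∀ b ∈ im g, ¬ R a b) ∧ ¬ R a a := by
  constructor
  · rintro ⟨h1, h2⟩
    refine ⟨by rw [← h1, im_sn_some], fun b c hbc => ?_, fun b hb hab => ?_, fun haa => ?_⟩
    · exact ((P1_sep_sn g (some a) b c).1 (h2 b c hbc)).1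
    · obtain ⟨i, hi⟩ : ∃ i, g i = some b := by simpa [im] using hb
      exact ((P1_sep_sn g (some a) a b).1 (h2 a b hab)).2.1 rfl i hi
    · exact ((P1_sep_sn g (some a) a a).1 (h2 a a haa)).2.2 ⟨rfl, rfl⟩
  · rintro ⟨h1, h2, h3, h4⟩
    refine ⟨by rw [← h1, im_sn_some], fun b c hbc => ?_⟩
    refine (P1_sep_sn g (some a) b c).2 ⟨h2 b c hbc, fun h j hj => ?_, fun h => ?_⟩
    · have hab : a = b := by simpa using h
      subst hab
      exact h3 c (by simp only [im, mem_filter, mem_univ, true_and]; exact ⟨j, hj⟩) hbc
    · have hab : a = b := by simpa using h.1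
      have hac : a = c := by simpa using h.2
      subst hab
      subst hac
      exact h4 hbc

end

end Pool.Agent.Helper5.NM
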