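import Pool.Agent.Helper5.NM.Defs
import Pool.Agent.Helper5.NM.P1

set_option autoImplicit false

open Finset Function

namespace Pool.Agent.Helper5.NM

section
variable {T : Type*} [Fintype T] [DecidableEq T] {N : ℕ} {K : Type*} [CommRing K]

/-! Module P2: `dInt` in terms of the last vertex. -/

theorem dInt_sn_none (z : (Fin (N + 1) → Option T) → K) (g : Fin N → Option T) :
    dInt z (sn g none) = dInt (fun g' => z (sn g' none)) g +
      (-1 : K) ^ sz g * ∑ a, (if a ∈ im g then z (sn g (some a)) else 0) := by
  unfold dInt
  rw [Fin.sum_univ_castSucc]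
  simp only [sn_castSucc, sn_last, im_sn_none, bef_sn_castSucc, bef_sn_last,
    update_sn_castSucc, update_sn_last, true_and, Finset.mul_sum, mul_ite, mul_zero]

private theorem P2_ins (a : T) (S : Finset T) (ha : a ∉ S) (p : Prop) [Decidable p]
    (F : T → K) :
    (∑ b, if p ∧ b ∈ insert a S then F b else 0) =
      (∑ b, if p ∧ b ∈ S then F b else 0) + if p then F a else 0 := by
  by_cases hp : p
  · simp only [hp, true_and, if_true]
    rw [Finset.sum_ite_mem, Finset.sum_ite_mem, Finset.univ_inter, Finset.univ_inter,
      Finset.sum_insert ha, add_comm]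
  · simp [hp]

theorem dInt_sn_some (z : (Fin (N + 1) → Option T) → K) (g : Fin N → Option T) (a : T) :
    dInt z (sn g (some a)) = dInt (fun g' => z (sn g' (some a))) g +
      (if a ∈ im g then 0 else rr a (fun g' => z (sn g' (some a))) g) := by
  unfold dInt rr
  rw [Fin.sum_univ_castSucc]
  simp only [sn_castSucc, sn_last, im_sn_some, bef_sn_castSucc, update_sn_castSucc,
    reduceCtorEq, false_and, if_false, Finset.sum_const_zero, add_zero]
  by_cases ha : a ∈ im g
  · rw [if_pos ha, add_zero, Finset.insert_eq_of_mem ha]
  · rw [if_neg ha, ← Finset.sum_add_distrib]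
    exact Finset.sum_congr rfl fun v _ => P2_ins a (im g) ha (g v = none) _

end

end Pool.Agent.Helper5.NM
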