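import Pool.Agent.Helper5.NM.Defs

set_option autoImplicit false

open Finset Function

namespace Pool.Agent.Helper5.NM

section
variable {T : Type*} [Fintype T] [DecidableEq T] {N : ℕ} {K : Type*} [CommRing K]

/-! Module P3: `rr a` anticommutes with `dInt` on cells not using `a`; basic facts on `im`, `sz`
of updates. -/

theorem im_update (g : Fin N → Option T) (v : Fin N) (a : T) (hv : g v = none) :
    im (update g v (some a)) = insert a (im g) := by
  ext b
  simp only [im, mem_filter, mem_univ, true_and, mem_insert]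
  constructor
  · rintro ⟨i, hi⟩
    by_cases h : i = v
    · subst h
      rw [update_self] at hi
      exact Or.inl (Option.some.inj hi).symm
    · rw [update_of_ne h] at hi
      exact Or.inr ⟨i, hi⟩
  · rintro (rfl | ⟨i, hi⟩)
    · exact ⟨v, update_self ..⟩
    · refine ⟨i, ?_⟩
      rw [update_of_ne]
      · exact hi
      · rintro rfl
        rw [hv] at hi
        cases hi

theorem im_update_of_mem (g : Fin N → Option T) (v : Fin N) (a : T) (hv : g v = none)
    (ha : a ∈ im g) : im (update g v (some a)) = im g := by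
  rw [im_update g v a hv, insert_eq_of_mem ha]

theorem sz_update (g : Fin N → Option T) (v : Fin N) (a : T) (hv : g v = none) :
    sz (update g v (some a)) = sz g + 1 := by
  unfold sz
  have h : (univ.filter fun i => update g v (some a) i ≠ none) =
      insert v (univ.filter fun i => g i ≠ none) := by
    ext i
    simp only [mem_filter, mem_univ, true_and, mem_insert]
    by_cases h : i = v
    · subst h
      simp
    · rw [update_of_ne h]
      simp [h]
  rw [h, card_insert_of_notMem]
  simp [hv]

theorem card_im_le_sz (g : Fin N → Option T) : (im g).card ≤ sz g := by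
  unfold sz
  rw [← card_map Embedding.some]
  refine le_trans (card_le_card ?_) (card_image_le (f := g))
  intro o ho
  rw [mem_map] at ho
  obtain ⟨a, ha, rfl⟩ := ho
  simp only [im, mem_filter, mem_univ, true_and] at ha
  obtain ⟨i, hi⟩ := ha
  rw [mem_image]
  refine ⟨i, ?_, hi⟩
  simp [hi]

private theorem P3_bef_update (g : Fin N → Option T) (v w : Fin N) (a : T) (hv : g v = none) :
    bef (update g v (some a)) w = bef g w + if v < w then 1 else 0 := by
  unfold bef
  split_ifs with hvw
  · have h : (univ.filter fun j => j < w ∧ update g v (some a) j ≠ none) =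
        insert v (univ.filter fun j => j < w ∧ g j ≠ none) := by
      ext i
      simp only [mem_filter, mem_univ, true_and, mem_insert]
      by_cases h : i = v
      · subst h
        simp [hvw]
      · rw [update_of_ne h]
        simp [h]
    rw [h, card_insert_of_notMem]
    simp [hv]
  · rw [add_zero]
    congr 1
    ext i
    simp only [mem_filter, mem_univ, true_and]
    by_cases h : i = v
    · subst h
      simp [hvw]
    · rw [update_of_ne h]

private theorem P3_update_none (g : Fin N → Option T) (v w : Fin N) (a : T) :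
    update g v (some a) w = none ↔ v ≠ w ∧ g w = none := by
  by_cases h : w = v
  · subst h
    simp
  · rw [update_of_ne h]
    exact ⟨fun h1 => ⟨fun h2 => h h2.symm, h1⟩, fun h1 => h1.2⟩

private theorem P3_sign (g : Fin N → Option T) (v w : Fin N) (a b : T) (hv : g v = none)
    (hw : g w = none) (hvw : v ≠ w) :
    (-1 : K) ^ bef g w * (-1 : K) ^ bef (update g w (some a)) v =
      -((-1 : K) ^ bef g v * (-1 : K) ^ bef (update g v (some b)) w) := by
  rw [P3_bef_update g w v a hw, P3_bef_update g v w b hv]
  rcases lt_or_gt_of_ne hvw with h | h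
  · rw [if_neg (not_lt.2 h.le), if_pos h, pow_add, pow_add]
    ring
  · rw [if_pos h, if_neg (not_lt.2 h.le), pow_add, pow_add]
    ring

/-- the common summand -/
private def P3_S (y : (Fin N → Option T) → K) (g : Fin N → Option T) (a : T) (v w : Fin N)
    (b : T) : K :=
  if g v = none ∧ g w = none ∧ v ≠ w then
    (-1 : K) ^ bef g v * (-1 : K) ^ bef (update g v (some b)) w *
      y (update (update g v (some b)) w (some a)) else 0

private theorem P3_lhs (y : (Fin N → Option T) → K) (g : Fin N → Option T) (a : T) :
    dInt (rr a y) g = ∑ v, ∑ w, ∑ b, if b ∈ im g then P3_S y g a v w b else 0 := by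
  unfold dInt
  refine sum_congr rfl fun v _ => ?_
  rw [sum_comm]
  refine sum_congr rfl fun b _ => ?_
  by_cases hv : g v = none
  · by_cases hb : b ∈ im g
    · rw [if_pos ⟨hv, hb⟩]
      unfold rr
      rw [mul_sum]
      refine sum_congr rfl fun w _ => ?_
      rw [if_pos hb]
      unfold P3_S
      by_cases h : v ≠ w ∧ g w = none
      · rw [if_pos ((P3_update_none g v w b).2 h), if_pos ⟨hv, h.2, h.1⟩]
        ring
      · rw [if_neg (fun h' => h ((P3_update_none g v w b).1 h')), mul_zero, if_neg]
        rintro ⟨_, h1, h2⟩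
        exact h ⟨h2, h1⟩
    · rw [if_neg (fun h => hb h.2)]
      symm
      refine sum_eq_zero fun w _ => ?_
      rw [if_neg hb]
  · rw [if_neg (fun h => hv h.1)]
    symm
    refine sum_eq_zero fun w _ => ?_
    unfold P3_S
    rw [if_neg (fun h : g v = none ∧ g w = none ∧ v ≠ w => hv h.1)]
    simp

private theorem P3_rhs (y : (Fin N → Option T) → K) (g : Fin N → Option T) (a : T) :
    rr a (dInt y) g = ∑ w, ∑ v, ∑ b, if b ∈ insert a (im g) then -P3_S y g a v w b else 0 := by
  unfold rr
  refine sum_congr rfl fun w _ => ?_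
  by_cases hw : g w = none
  · rw [if_pos hw]
    unfold dInt
    rw [mul_sum]
    refine sum_congr rfl fun v _ => ?_
    rw [mul_sum]
    refine sum_congr rfl fun b _ => ?_
    rw [im_update g w a hw]
    unfold P3_S
    by_cases hb : b ∈ insert a (im g)
    · rw [if_pos hb]
      by_cases h : w ≠ v ∧ g v = none
      · rw [if_pos ⟨(P3_update_none g w v a).2 h, hb⟩, if_pos ⟨h.2, hw, h.1.symm⟩,
          ← mul_assoc, P3_sign g v w a b h.2 hw h.1.symm, update_comm h.1]
        ring
      · rw [if_neg (fun h' => h ((P3_update_none g w v a).1 h'.1)), mul_zero, if_neg, neg_zero]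
        rintro ⟨h1, _, h2⟩
        exact h ⟨h2.symm, h1⟩
    · rw [if_neg hb, if_neg (fun h => hb h.2), mul_zero]
  · rw [if_neg hw]
    symm
    refine sum_eq_zero fun v _ => sum_eq_zero fun b _ => ?_
    unfold P3_S
    rw [if_neg (fun h : g v = none ∧ g w = none ∧ v ≠ w => hw h.2.1)]
    simp

private theorem P3_anti (y : (Fin N → Option T) → K) (g : Fin N → Option T) (a : T)
    (v w : Fin N) : P3_S y g a v w a + P3_S y g a w v a = 0 := by
  unfold P3_S
  by_cases h : g v = none ∧ g w = none ∧ v ≠ w
  · rw [if_pos h, if_pos ⟨h.2.1, h.1, h.2.2.symm⟩, P3_sign g v w a a h.1 h.2.1 h.2.2,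
      update_comm h.2.2.symm]
    ring
  · rw [if_neg h, if_neg, add_zero]
    rintro ⟨h1, h2, h3⟩
    exact h ⟨h2, h1, h3.symm⟩

private theorem P3_zero (y : (Fin N → Option T) → K) (g : Fin N → Option T) (a : T) :
    ∑ w, ∑ v, P3_S y g a v w a = 0 := by
  rw [← sum_product' univ univ (fun w v => P3_S y g a v w a)]
  refine sum_involution (fun p _ => (p.2, p.1)) ?_ ?_ ?_ ?_
  · rintro ⟨w, v⟩ _
    exact P3_anti y g a v w
  · rintro ⟨w, v⟩ _ h1 h2
    simp only [Prod.mk.injEq] at h2
    apply h1
    unfold P3_S
    rw [if_neg]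
    rintro ⟨_, _, h3⟩
    exact h3 h2.1
  · rintro ⟨w, v⟩ _
    simp
  · rintro ⟨w, v⟩ _
    rfl

theorem dInt_rr (y : (Fin N → Option T) → K) (g : Fin N → Option T) (a : T) (h : a ∉ im g) :
    dInt (rr a y) g = - rr a (dInt y) g := by
  rw [P3_lhs, P3_rhs]
  have h1 : ∀ w v : Fin N, (∑ b, if b ∈ insert a (im g) then -P3_S y g a v w b else 0) =
      -(P3_S y g a v w a) - ∑ b, if b ∈ im g then P3_S y g a v w b else 0 := by
    intro w v
    rw [← sum_filter, ← sum_filter]
    have e1 : (univ.filter fun b => b ∈ insert a (im g)) = insert a (im g) := by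
      ext b; simp
    have e2 : (univ.filter fun b => b ∈ im g) = im g := by
      ext b; simp
    rw [e1, e2, sum_insert h, sum_neg_distrib]
    ring
  have h2 : (∑ w, ∑ v, ∑ b, if b ∈ insert a (im g) then -P3_S y g a v w b else 0) =
      -∑ w, ∑ v, ∑ b, if b ∈ im g then P3_S y g a v w b else 0 := by
    have h3 := P3_zero y g a
    calc (∑ w, ∑ v, ∑ b, if b ∈ insert a (im g) then -P3_S y g a v w b else 0)
        = ∑ w, ∑ v, (-(P3_S y g a v w a) - ∑ b, if b ∈ im g then P3_S y g a v w b else 0) :=
          sum_congr rfl fun w _ => sum_congr rfl fun v _ => h1 w v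
      _ = -(∑ w, ∑ v, P3_S y g a v w a) -
          ∑ w, ∑ v, ∑ b, (if b ∈ im g then P3_S y g a v w b else 0) := by
          simp only [sum_sub_distrib, sum_neg_distrib]
      _ = _ := by rw [h3]; ring
  rw [h2, neg_neg]
  exact sum_comm

end

end Pool.Agent.Helper5.NM
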