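import Pool.Agent.Helper5.NM.Defs

set_option autoImplicit false

open Finset Function

namespace Pool.Agent.Helper5.NM

section
variable {T : Type*} [Fintype T] [DecidableEq T] {N : ℕ}

/-! Module P4: the sign lemma (counting inversions). -/

theorem p4_card_pairs (key : T → ℕ) (f : Fin N → Option T) (v : Fin N) (a : T)
    (hv : f v = none) :
    (univ.filter fun p : Fin N × Fin N => p.1 < p.2 ∧ ∃ a' b', update f v (some a) p.1 = some a' ∧
      update f v (some a) p.2 = some b' ∧ key b' < key a').card =
    (univ.filter fun p : Fin N × Fin N => p.1 < p.2 ∧ ∃ a' b', f p.1 = some a' ∧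
      f p.2 = some b' ∧ key b' < key a').card +
    ((univ.filter fun j => j < v ∧ ∃ c, f j = some c ∧ key a < key c).card +
      (univ.filter fun j => v < j ∧ ∃ b, f j = some b ∧ key b < key a).card) := by
  classical
  set A : Finset (Fin N) := univ.filter fun j => j < v ∧ ∃ c, f j = some c ∧ key a < key c with hA
  set B : Finset (Fin N) := univ.filter fun j => v < j ∧ ∃ b, f j = some b ∧ key b < key a with hB
  set S : Finset (Fin N × Fin N) := univ.filter fun p : Fin N × Fin N => p.1 < p.2 ∧
    ∃ a' b', f p.1 = some a' ∧ f p.2 = some b' ∧ key b' < key a' with hS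
  have h1 : (univ.filter fun p : Fin N × Fin N => p.1 < p.2 ∧ ∃ a' b',
      update f v (some a) p.1 = some a' ∧ update f v (some a) p.2 = some b' ∧
      key b' < key a') = S ∪ (A.image (fun j => (j, v)) ∪ B.image (fun j => (v, j))) := by
    ext ⟨i, j⟩
    simp only [mem_filter, mem_univ, true_and, mem_union, mem_image, hA, hB, hS, Prod.mk.injEq]
    constructor
    · rintro ⟨hij, a', b', h1, h2, h3⟩
      by_cases hi : i = v
      · subst hi
        have hj : j ≠ i := ne_of_gt hij
        rw [update_self] at h1
        rw [update_of_ne hj] at h2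
        cases h1
        exact Or.inr (Or.inr ⟨j, ⟨hij, b', h2, h3⟩, rfl, rfl⟩)
      · rw [update_of_ne hi] at h1
        by_cases hj : j = v
        · subst hj
          rw [update_self] at h2
          cases h2
          exact Or.inr (Or.inl ⟨i, ⟨hij, a', h1, h3⟩, rfl, rfl⟩)
        · rw [update_of_ne hj] at h2
          exact Or.inl ⟨hij, a', b', h1, h2, h3⟩
    · rintro (⟨hij, a', b', h1, h2, h3⟩ | ⟨i', ⟨hij, c, h1, h2⟩, rfl, rfl⟩ |
        ⟨j', ⟨hij, b, h1, h2⟩, rfl, rfl⟩)
      · have hi : i ≠ v := by
          rintro rfl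
          rw [hv] at h1
          cases h1
        have hj : j ≠ v := by
          rintro rfl
          rw [hv] at h2
          cases h2
        exact ⟨hij, a', b', by rw [update_of_ne hi]; exact h1, by rw [update_of_ne hj]; exact h2, h3⟩
      · exact ⟨hij, c, a, by rw [update_of_ne hij.ne]; exact h1, update_self _ _ _, h2⟩
      · exact ⟨hij, a, b, update_self _ _ _, by rw [update_of_ne hij.ne']; exact h1, h2⟩
  have hSv : ∀ p ∈ S, p.1 ≠ v ∧ p.2 ≠ v := by
    rintro ⟨i, j⟩ hp
    simp only [hS, mem_filter, mem_univ, true_and] at hp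
    obtain ⟨-, a', b', h1, h2, -⟩ := hp
    constructor
    · intro h
      dsimp only at h
      rw [h, hv] at h1
      cases h1
    · intro h
      dsimp only at h
      rw [h, hv] at h2
      cases h2
  rw [h1, card_union_of_disjoint, card_union_of_disjoint, card_image_of_injective,
    card_image_of_injective]
  · intro x y h
    exact (Prod.mk.injEq _ _ _ _ ▸ h).2
  · intro x y h
    exact (Prod.mk.injEq _ _ _ _ ▸ h).1
  · rw [Finset.disjoint_left]
    intro p hp hq
    obtain ⟨i, hi, rfl⟩ := mem_image.1 hp
    obtain ⟨j, hj, h⟩ := mem_image.1 hq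
    simp only [hA, mem_filter, mem_univ, true_and] at hi
    have h2 : v = i := congrArg Prod.fst h
    rw [← h2] at hi
    exact lt_irrefl _ hi.1
  · rw [Finset.disjoint_left]
    intro p hp hq
    obtain ⟨h2, h3⟩ := hSv p hp
    rcases mem_union.1 hq with hq | hq
    · obtain ⟨i, -, rfl⟩ := mem_image.1 hq
      exact h3 rfl
    · obtain ⟨i, -, rfl⟩ := mem_image.1 hq
      exact h2 rfl

/-- Adding the vertex `v` with token `a`. -/
theorem sign_update (key : T → ℕ) (hkey : Injective key) (f : Fin N → Option T) (v : Fin N)
    (a : T) (hv : f v = none) :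
    Even (invs key (update f v (some a)) + invs key f + bef f v +
      (univ.filter fun j => ∃ b, f j = some b ∧ key b < key a).card +
      (univ.filter fun j => j < v ∧ f j = some a).card) := by
  classical
  have h1 := p4_card_pairs key f v a hv
  set nA := (univ.filter fun j => j < v ∧ ∃ c, f j = some c ∧ key a < key c).card with hnA
  set nB := (univ.filter fun j => v < j ∧ ∃ b, f j = some b ∧ key b < key a).card with hnB
  set nC := (univ.filter fun j => j < v ∧ ∃ b, f j = some b ∧ key b < key a).card with hnC
  set nE := (univ.filter fun j => j < v ∧ f j = some a).card with hnE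
  have h2 : bef f v = nA + (nE + nC) := by
    rw [bef, hnA, hnE, hnC, ← card_union_of_disjoint, ← card_union_of_disjoint]
    · congr 1
      ext j
      simp only [mem_filter, mem_univ, true_and, mem_union]
      constructor
      · rintro ⟨hj, hne⟩
        obtain ⟨b, hb⟩ := Option.ne_none_iff_exists'.1 hne
        rcases lt_trichotomy (key b) (key a) with h | h | h
        · exact Or.inr (Or.inr ⟨hj, b, hb, h⟩)
        · exact Or.inr (Or.inl ⟨hj, by rw [hb, hkey h]⟩)
        · exact Or.inl ⟨hj, b, hb, h⟩
      · rintro (⟨hj, b, hb, -⟩ | ⟨hj, hb⟩ | ⟨hj, b, hb, -⟩) <;> exact ⟨hj, by simp [hb]⟩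
    · rw [Finset.disjoint_left]
      intro j hj hj'
      simp only [mem_filter, mem_univ, true_and, mem_union] at hj hj'
      obtain ⟨-, c, hc, hac⟩ := hj
      rcases hj' with ⟨-, h⟩ | ⟨-, b, h, hba⟩
      · rw [hc] at h
        cases h
        exact lt_irrefl _ hac
      · rw [hc] at h
        cases h
        exact lt_asymm hac hba
    · rw [Finset.disjoint_left]
      intro j hj hj'
      simp only [mem_filter, mem_univ, true_and] at hj hj'
      obtain ⟨-, h⟩ := hj
      obtain ⟨-, b, hb, hba⟩ := hj'
      rw [h] at hb
      cases hb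
      exact lt_irrefl _ hba
  have h3 : (univ.filter fun j => ∃ b, f j = some b ∧ key b < key a).card = nC + nB := by
    rw [hnC, hnB, ← card_union_of_disjoint]
    · congr 1
      ext j
      simp only [mem_filter, mem_univ, true_and, mem_union]
      constructor
      · rintro ⟨b, hb, h⟩
        rcases lt_trichotomy j v with hj | hj | hj
        · exact Or.inl ⟨hj, b, hb, h⟩
        · rw [hj, hv] at hb
          cases hb
        · exact Or.inr ⟨hj, b, hb, h⟩
      · rintro (⟨-, h⟩ | ⟨-, h⟩) <;> exact h
    · rw [Finset.disjoint_left]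
      intro j hj hj'
      simp only [mem_filter, mem_univ, true_and] at hj hj'
      exact lt_asymm hj.1 hj'.1
  have h4 : invs key (update f v (some a)) = invs key f + (nA + nB) := h1
  rw [h4, h2, h3]
  exact ⟨invs key f + nA + nB + nE + nC, by ring⟩

end

end Pool.Agent.Helper5.NM
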