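import Pool.Agent.Helper5.NM.Defs
import Pool.Agent.Helper5.NM.P1
import Pool.Agent.Helper5.NM.P3
import Pool.Agent.Helper5.NM.P4

set_option autoImplicit false

open Finset Function

namespace Pool.Agent.Helper5.NM

section
variable {T : Type*} [Fintype T] [DecidableEq T] {N : ℕ} {K : Type*} [CommRing K]

/-! Module P5: augmentation. -/

theorem P5_mem_im {f : Fin N → Option T} {a : T} : a ∈ im f ↔ ∃ i, f i = some a := by
  simp [im]

theorem P5_image_sub (f : Fin N → Option T) (U : Finset (Fin N))
    (hU : ∀ i ∈ U, f i ≠ none) (hU' : ∀ i a, f i = some a → ∃ j ∈ U, f j = some a) :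
    U.image f = (im f).image some := by
  ext o
  simp only [mem_image]
  constructor
  · rintro ⟨i, hi, rfl⟩
    obtain ⟨a, ha⟩ := Option.ne_none_iff_exists'.1 (hU i hi)
    exact ⟨a, P5_mem_im.2 ⟨i, ha⟩, ha.symm⟩
  · rintro ⟨a, ha, rfl⟩
    obtain ⟨i, hi⟩ := P5_mem_im.1 ha
    obtain ⟨j, hj, hj'⟩ := hU' i a hi
    exact ⟨j, hj, hj'⟩

theorem P5_injOn {f : Fin N → Option T} (h : sz f = (im f).card) {i j : Fin N} {a : T}
    (hi : f i = some a) (hj : f j = some a) : i = j := by
  have h1 : Set.InjOn f (univ.filter fun i => f i ≠ none : Finset (Fin N)) := by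
    rw [← Finset.card_image_iff, P5_image_sub f _ (fun i hi => (mem_filter.1 hi).2)
      (fun i a hi => ⟨i, mem_filter.2 ⟨mem_univ _, by rw [hi]; simp⟩, hi⟩),
      card_image_of_injective _ (Option.some_injective T)]
    exact h.symm
  exact h1 (by simp [hi]) (by simp [hj]) (by rw [hi, hj])

theorem P5_count {f : Fin N → Option T} (h : sz f = (im f).card) (q : T → Prop)
    [DecidablePred q] :
    (univ.filter fun j => ∃ b, f j = some b ∧ q b).card = ((im f).filter q).card := by
  rw [← card_image_of_injective ((im f).filter q) (Option.some_injective T)]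
  have h1 : ((im f).filter q).image some =
      (univ.filter fun j => ∃ b, f j = some b ∧ q b).image f := by
    ext o
    simp only [mem_image, mem_filter, mem_univ, true_and]
    constructor
    · rintro ⟨a, ⟨ha, hq⟩, rfl⟩
      obtain ⟨i, hi⟩ := P5_mem_im.1 ha
      exact ⟨i, ⟨a, hi, hq⟩, hi⟩
    · rintro ⟨i, ⟨b, hb, hq⟩, rfl⟩
      exact ⟨b, ⟨P5_mem_im.2 ⟨i, hb⟩, hq⟩, hb.symm⟩
  rw [h1, card_image_of_injOn]
  intro i hi j hj hij
  obtain ⟨b, hb, -⟩ := (mem_filter.1 hi).2
  have hj' : f j = some b := by rw [← hb]; exact hij.symm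
  exact P5_injOn h hb hj'

theorem P5_le_two {f : Fin N → Option T} (h : sz f = (im f).card + 1) (a : T) {i j k : Fin N}
    (hi : f i = some a) (hj : f j = some a) (hk : f k = some a) (hij : i ≠ j) (hik : i ≠ k)
    (hjk : j ≠ k) : False := by
  set U : Finset (Fin N) := univ.filter fun i => f i ≠ none with hU
  have h1 : (((U.erase i).erase j).image f).card = (im f).card := by
    rw [P5_image_sub f, card_image_of_injective _ (Option.some_injective T)]
    · intro l hl
      exact (mem_filter.1 (mem_of_mem_erase (mem_of_mem_erase hl))).2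
    · intro l b hl
      by_cases hli : l = i ∨ l = j
      · refine ⟨k, mem_erase.2 ⟨hjk.symm, mem_erase.2 ⟨hik.symm, ?_⟩⟩, ?_⟩
        · rw [hU, mem_filter]
          exact ⟨mem_univ _, by rw [hk]; simp⟩
        · have : b = a := by
            rcases hli with rfl | rfl
            · rw [hi] at hl; exact (Option.some.inj hl).symm
            · rw [hj] at hl; exact (Option.some.inj hl).symm
          rw [this]; exact hk
      · push Not at hli
        refine ⟨l, mem_erase.2 ⟨hli.2, mem_erase.2 ⟨hli.1, ?_⟩⟩, hl⟩
        rw [hU, mem_filter]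
        exact ⟨mem_univ _, by rw [hl]; simp⟩
  have hiU : i ∈ U := by rw [hU, mem_filter]; exact ⟨mem_univ _, by rw [hi]; simp⟩
  have hjU : j ∈ U.erase i := mem_erase.2 ⟨hij.symm, by
    rw [hU, mem_filter]; exact ⟨mem_univ _, by rw [hj]; simp⟩⟩
  have h2 := card_image_le (s := (U.erase i).erase j) (f := f)
  rw [h1, card_erase_of_mem hjU, card_erase_of_mem hiU] at h2
  have h3 : U.card = (im f).card + 1 := h
  have h4 : 0 < (im f).card := card_pos.2 ⟨a, P5_mem_im.2 ⟨i, hi⟩⟩
  omega

/-- re-indexing -/
theorem P5_reindex (v : Fin N) (a : T) (C : (Fin N → Option T) → Prop) [DecidablePred C]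
    (G : (Fin N → Option T) → (Fin N → Option T) → K) :
    ∑ f, (if f v = none ∧ C f then G f (update f v (some a)) else 0) =
      ∑ t, (if t v = some a ∧ C (update t v none) then G (update t v none) t else 0) := by
  rw [← sum_filter, ← sum_filter]
  refine sum_nbij' (fun f => update f v (some a)) (fun t => update t v none) ?_ ?_ ?_ ?_ ?_
  · intro f hf
    obtain ⟨hf1, hf2⟩ := (mem_filter.1 hf).2
    refine mem_filter.2 ⟨mem_univ _, by simp, ?_⟩
    rw [update_idem, ← hf1, update_eq_self]
    exact hf2
  · intro t ht
    obtain ⟨ht1, ht2⟩ := (mem_filter.1 ht).2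
    exact mem_filter.2 ⟨mem_univ _, by simp, ht2⟩
  · intro f hf
    obtain ⟨hf1, -⟩ := (mem_filter.1 hf).2
    rw [update_idem, ← hf1, update_eq_self]
  · intro t ht
    obtain ⟨ht1, -⟩ := (mem_filter.1 ht).2
    rw [update_idem, ← ht1, update_eq_self]
  · intro f hf
    obtain ⟨hf1, -⟩ := (mem_filter.1 hf).2
    have : update (update f v (some a)) v none = f := by
      rw [update_idem, ← hf1, update_eq_self]
    rw [this]

/-- the sign of the removal of a vertex -/
theorem P5_sign (key : T → ℕ) (hkey : Injective key) (t : Fin N → Option T) (v : Fin N) (a : T)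
    (hv : t v = some a) :
    (-1 : K) ^ invs key (update t v none) * (-1 : K) ^ bef (update t v none) v =
      (-1 : K) ^ (invs key t + (univ.filter fun j => ∃ b, t j = some b ∧ key b < key a).card) *
        (-1 : K) ^ (univ.filter fun j => j < v ∧ t j = some a).card := by
  have h := sign_update key hkey (update t v none) v a (by simp)
  have h1 : update (update t v none) v (some a) = t := by
    rw [update_idem, ← hv, update_eq_self]
  have h2 : (univ.filter fun j => ∃ b, update t v none j = some b ∧ key b < key a) =
      univ.filter fun j => ∃ b, t j = some b ∧ key b < key a := by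
    ext j
    simp only [mem_filter, mem_univ, true_and]
    by_cases hj : j = v
    · subst hj
      constructor
      · rintro ⟨b, hb, -⟩
        simp at hb
      · rintro ⟨b, hb, hb'⟩
        rw [hv] at hb
        rw [← Option.some.inj hb] at hb'
        exact absurd hb' (lt_irrefl _)
    · rw [update_of_ne hj]
  have h3 : (univ.filter fun j => j < v ∧ update t v none j = some a) =
      univ.filter fun j => j < v ∧ t j = some a := by
    ext j
    simp only [mem_filter, mem_univ, true_and]
    constructor
    · rintro ⟨hj, hj'⟩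
      rw [update_of_ne hj.ne] at hj'
      exact ⟨hj, hj'⟩
    · rintro ⟨hj, hj'⟩
      rw [update_of_ne hj.ne]
      exact ⟨hj, hj'⟩
  rw [h1, h2, h3] at h
  rw [← pow_add, ← pow_add]
  rw [neg_one_pow_eq_pow_mod_two, neg_one_pow_eq_pow_mod_two (R := K)
    (n := invs key t + _ + _)]
  congr 1
  rw [Nat.even_iff] at h
  omega

/-- the augmentation kills boundaries of chains of degree one (degree one: every fibre has one
vertex except one fibre with two) -/
theorem aug_dInt (key : T → ℕ) (hkey : Injective key) (R : T → T → Prop) (P : Finset T)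
    (y : (Fin N → Option T) → K) (hy : SuppIn R P (P.card + 1) y) : aug key (dInt y) = 0 := by
  have h1 : aug key (dInt y) = ∑ v, ∑ a, ∑ f, (if f v = none ∧ a ∈ im f then
      (-1 : K) ^ invs key f * ((-1 : K) ^ bef f v * y (update f v (some a))) else 0) := by
    unfold aug dInt
    simp_rw [mul_sum]
    rw [sum_comm]
    refine sum_congr rfl fun v _ => ?_
    rw [sum_comm]
    refine sum_congr rfl fun a _ => sum_congr rfl fun f _ => ?_
    split_ifs <;> simp
  have h2 : ∀ (v : Fin N) (a : T), ∑ f, (if f v = none ∧ a ∈ im f then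
      (-1 : K) ^ invs key f * ((-1 : K) ^ bef f v * y (update f v (some a))) else 0) =
      ∑ t, (if t v = some a ∧ a ∈ im (update t v none) then
        (-1 : K) ^ invs key (update t v none) * ((-1 : K) ^ bef (update t v none) v * y t)
        else 0) := fun v a =>
    P5_reindex v a (fun f => a ∈ im f)
      (fun f t => (-1 : K) ^ invs key f * ((-1 : K) ^ bef f v * y t))
  rw [h1]
  simp_rw [h2]
  rw [sum_comm]
  refine sum_eq_zero fun a _ => ?_
  rw [sum_comm]
  refine sum_eq_zero fun t _ => ?_
  by_cases hyt : y t = 0
  · refine sum_eq_zero fun v _ => ?_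
    rw [hyt, mul_zero, mul_zero, ite_self]
  obtain ⟨hc, hs⟩ := hy t hyt
  have hs' : sz t = (im t).card + 1 := by rw [hc.im_eq]; exact hs
  set c : ℕ := invs key t + (univ.filter fun j => ∃ b, t j = some b ∧ key b < key a).card
  have h3 : ∀ v : Fin N, (if t v = some a ∧ a ∈ im (update t v none) then
        (-1 : K) ^ invs key (update t v none) * ((-1 : K) ^ bef (update t v none) v * y t)
        else 0) = if t v = some a ∧ ∃ j, j ≠ v ∧ t j = some a then
          (-1 : K) ^ c * y t * (-1 : K) ^ (univ.filter fun j => j < v ∧ t j = some a).card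
          else 0 := by
    intro v
    by_cases hv : t v = some a
    · have h4 : a ∈ im (update t v none) ↔ ∃ j, j ≠ v ∧ t j = some a := by
        rw [P5_mem_im]
        constructor
        · rintro ⟨j, hj⟩
          have hjv : j ≠ v := by rintro rfl; simp at hj
          rw [update_of_ne hjv] at hj
          exact ⟨j, hjv, hj⟩
        · rintro ⟨j, hjv, hj⟩
          exact ⟨j, by rw [update_of_ne hjv]; exact hj⟩
      simp only [hv, true_and, h4]
      split_ifs with h5
      · rw [← mul_assoc, P5_sign key hkey t v a hv]
        ring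
      · rfl
    · simp [hv]
  simp_rw [h3]
  by_cases hex : ∃ i j, i < j ∧ t i = some a ∧ t j = some a
  · obtain ⟨i, j, hij, hi, hj⟩ := hex
    have huniq : ∀ v, t v = some a → v = i ∨ v = j := by
      intro v hv
      by_contra hcon
      push Not at hcon
      exact P5_le_two hs' a hi hj hv hij.ne hcon.1.symm hcon.2.symm
    have h6 : ∀ v, (if t v = some a ∧ ∃ j, j ≠ v ∧ t j = some a then
          (-1 : K) ^ c * y t * (-1 : K) ^ (univ.filter fun j => j < v ∧ t j = some a).card
          else 0) = (if v = i then (-1 : K) ^ c * y t else 0) +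
            (if v = j then -((-1 : K) ^ c * y t) else 0) := by
      intro v
      by_cases hvi : v = i
      · subst hvi
        have h7 : (univ.filter fun j => j < v ∧ t j = some a) = ∅ := by
          rw [filter_eq_empty_iff]
          rintro l - ⟨hl, hl'⟩
          rcases huniq l hl' with rfl | rfl
          · exact lt_irrefl _ hl
          · exact lt_asymm hl hij
        rw [if_pos ⟨hi, j, hij.ne', hj⟩, h7, if_pos rfl, if_neg hij.ne]
        simp
      · by_cases hvj : v = j
        · subst hvj
          have h7 : (univ.filter fun j => j < v ∧ t j = some a) = {i} := by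
            ext l
            simp only [mem_filter, mem_univ, true_and, mem_singleton]
            constructor
            · rintro ⟨hl, hl'⟩
              rcases huniq l hl' with rfl | rfl
              · rfl
              · exact absurd hl (lt_irrefl _)
            · rintro rfl
              exact ⟨hij, hi⟩
          rw [if_pos ⟨hj, i, hij.ne, hi⟩, h7, if_neg hvi, if_pos rfl]
          simp
        · rw [if_neg, if_neg hvi, if_neg hvj, add_zero]
          rintro ⟨h7, -⟩
          rcases huniq v h7 with h8 | h8
          · exact hvi h8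
          · exact hvj h8
    simp_rw [h6]
    rw [sum_add_distrib, sum_ite_eq' univ i, sum_ite_eq' univ j]
    simp
  · refine sum_eq_zero fun v _ => ?_
    rw [if_neg]
    rintro ⟨hv, j, hjv, hj⟩
    rcases lt_or_gt_of_ne hjv with h | h
    · exact hex ⟨j, v, h, hj, hv⟩
    · exact hex ⟨v, j, h, hv, hj⟩

theorem aug_rr (key : T → ℕ) (hkey : Injective key) (R : T → T → Prop) (P : Finset T) (a : T)
    (ha : a ∈ P) (y : (Fin N → Option T) → K) (hy : SuppIn R P P.card y) :
    aug key (rr a y) = (-1 : K) ^ (P.filter fun b => key b < key a).card * aug key y := by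
  have h1 : aug key (rr a y) = ∑ v, ∑ f, (if f v = none ∧ True then
      (-1 : K) ^ invs key f * ((-1 : K) ^ bef f v * y (update f v (some a))) else 0) := by
    unfold aug rr
    simp_rw [mul_sum]
    rw [sum_comm]
    refine sum_congr rfl fun v _ => sum_congr rfl fun f _ => ?_
    simp only [and_true]
    split_ifs <;> simp
  have h2 : ∀ (v : Fin N), ∑ f, (if f v = none ∧ True then
      (-1 : K) ^ invs key f * ((-1 : K) ^ bef f v * y (update f v (some a))) else 0) =
      ∑ t, (if t v = some a ∧ True then
        (-1 : K) ^ invs key (update t v none) * ((-1 : K) ^ bef (update t v none) v * y t)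
        else 0) := fun v =>
    P5_reindex v a (fun _ => True)
      (fun f t => (-1 : K) ^ invs key f * ((-1 : K) ^ bef f v * y t))
  rw [h1]
  simp_rw [h2]
  rw [sum_comm]
  unfold aug
  rw [mul_sum]
  refine sum_congr rfl fun t _ => ?_
  by_cases hyt : y t = 0
  · rw [hyt, mul_zero, mul_zero]
    refine sum_eq_zero fun v _ => ?_
    rw [mul_zero, mul_zero, ite_self]
  obtain ⟨hc, hs⟩ := hy t hyt
  have hs' : sz t = (im t).card := by rw [hc.im_eq]; exact hs
  obtain ⟨i, hi⟩ := P5_mem_im.1 (hc.im_eq.symm ▸ ha : a ∈ im t)
  have h3 : ∀ v, (if t v = some a ∧ True then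
        (-1 : K) ^ invs key (update t v none) * ((-1 : K) ^ bef (update t v none) v * y t)
        else 0) = if v = i then (-1 : K) ^ (P.filter fun b => key b < key a).card *
          ((-1 : K) ^ invs key t * y t) else 0 := by
    intro v
    by_cases hv : v = i
    · subst hv
      rw [if_pos ⟨hi, trivial⟩, if_pos rfl, ← mul_assoc, P5_sign key hkey t v a hi,
        P5_count hs' (fun b => key b < key a), hc.im_eq]
      have h7 : (univ.filter fun j => j < v ∧ t j = some a) = ∅ := by
        rw [filter_eq_empty_iff]
        rintro l - ⟨hl, hl'⟩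
        exact hl.ne (P5_injOn hs' hl' hi)
      rw [h7]
      simp only [card_empty, pow_zero, mul_one, pow_add]
      ring
    · rw [if_neg, if_neg hv]
      rintro ⟨h4, -⟩
      exact hv (P5_injOn hs' h4 hi)
  simp_rw [h3]
  rw [sum_ite_eq' univ i, if_pos (mem_univ _)]

/-- `Fin.snoc` as an equivalence -/
def P5_equiv (T : Type*) (N : ℕ) : Option T × (Fin N → Option T) ≃ (Fin (N + 1) → Option T) where
  toFun p := Fin.snoc (α := fun _ => Option T) p.2 p.1
  invFun f := (f (Fin.last N), fun v => f v.castSucc)
  left_inv p := by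
    refine Prod.ext ?_ ?_
    · simp
    · funext v
      simp
  right_inv f := by
    funext v
    refine Fin.lastCases ?_ (fun v => ?_) v
    · simp
    · simp

theorem P5_invs_none (key : T → ℕ) (g : Fin N → Option T) :
    invs key (sn g none) = invs key g := by
  unfold invs
  symm
  refine card_bij (fun p _ => (p.1.castSucc, p.2.castSucc)) ?_ ?_ ?_
  · rintro ⟨i, j⟩ h
    obtain ⟨h1, a, b, ha, hb, hab⟩ := (mem_filter.1 h).2
    refine mem_filter.2 ⟨mem_univ _, ?_, a, b, ?_, ?_, hab⟩
    · exact Fin.castSucc_lt_castSucc_iff.2 h1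
    · rw [sn_castSucc]; exact ha
    · rw [sn_castSucc]; exact hb
  · rintro ⟨i, j⟩ _ ⟨i', j'⟩ _ h
    have h1 := congrArg Prod.fst h
    have h2 := congrArg Prod.snd h
    exact Prod.ext (Fin.castSucc_injective _ h1) (Fin.castSucc_injective _ h2)
  · rintro ⟨i, j⟩ h
    obtain ⟨h1, a, b, ha, hb, hab⟩ := (mem_filter.1 h).2
    simp only at h1 ha hb
    revert h1 ha hb
    refine Fin.lastCases ?_ (fun i => ?_) i
    · intro h1 ha hb
      rw [sn_last] at ha
      simp at ha
    · refine Fin.lastCases ?_ (fun j => ?_) j
      · intro h1 ha hb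
        rw [sn_last] at hb
        simp at hb
      · intro h1 ha hb
        rw [sn_castSucc] at ha hb
        exact ⟨(i, j), mem_filter.2 ⟨mem_univ _, Fin.castSucc_lt_castSucc_iff.1 h1, a, b, ha, hb,
          hab⟩, rfl⟩

theorem P5_invs_some (key : T → ℕ) (g : Fin N → Option T) (a : T) :
    invs key (sn g (some a)) = invs key g +
      (univ.filter fun j => ∃ b, g j = some b ∧ key a < key b).card := by
  unfold invs
  have h1 : (univ.filter fun p : Fin (N + 1) × Fin (N + 1) =>
      p.1 < p.2 ∧ ∃ a' b, sn g (some a) p.1 = some a' ∧ sn g (some a) p.2 = some b ∧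
        key b < key a') =
      ((univ.filter fun p : Fin N × Fin N => p.1 < p.2 ∧ ∃ a b, g p.1 = some a ∧
        g p.2 = some b ∧ key b < key a).image fun p => (p.1.castSucc, p.2.castSucc)) ∪
      ((univ.filter fun j => ∃ b, g j = some b ∧ key a < key b).image
        fun j => (j.castSucc, Fin.last N)) := by
    ext ⟨i, j⟩
    simp only [mem_filter, mem_univ, true_and, mem_union, mem_image, Prod.exists, Prod.mk.injEq]
    refine Fin.lastCases ?_ (fun j => ?_) j
    · refine Fin.lastCases ?_ (fun i => ?_) i
      · constructor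
        · rintro ⟨h, -⟩
          exact absurd h (lt_irrefl _)
        · rintro (⟨i', j', -, h, -⟩ | ⟨j', -, h, -⟩)
          · exact absurd h (Fin.castSucc_lt_last i').ne
          · exact absurd h (Fin.castSucc_lt_last j').ne
      · constructor
        · rintro ⟨-, c, b, hc, hb, h⟩
          rw [sn_castSucc] at hc
          rw [sn_last] at hb
          right
          refine ⟨i, ⟨c, hc, ?_⟩, rfl, rfl⟩
          rw [Option.some.inj hb]
          exact h
        · rintro (⟨i', j', -, -, h⟩ | ⟨j', ⟨b, hb, h⟩, h', -⟩)
          · exact absurd h (Fin.castSucc_lt_last j').ne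
          · have := Fin.castSucc_injective _ h'
            subst this
            refine ⟨Fin.castSucc_lt_last _, b, a, ?_, ?_, h⟩
            · rw [sn_castSucc]; exact hb
            · rw [sn_last]
    · refine Fin.lastCases ?_ (fun i => ?_) i
      · constructor
        · rintro ⟨h, -⟩
          exact absurd h (not_lt.2 (Fin.le_last _))
        · rintro (⟨i', j', -, h, -⟩ | ⟨j', -, h, -⟩)
          · exact absurd h (Fin.castSucc_lt_last i').ne
          · exact absurd h (Fin.castSucc_lt_last j').ne
      · constructor
        · rintro ⟨h, c, b, hc, hb, h'⟩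
          rw [sn_castSucc] at hc hb
          left
          exact ⟨i, j, ⟨Fin.castSucc_lt_castSucc_iff.1 h, c, b, hc, hb, h'⟩, rfl, rfl⟩
        · rintro (⟨i', j', ⟨h, c, b, hc, hb, h'⟩, h1, h2⟩ | ⟨j', -, -, h⟩)
          · have e1 := Fin.castSucc_injective _ h1
            have e2 := Fin.castSucc_injective _ h2
            subst e1 e2
            refine ⟨Fin.castSucc_lt_castSucc_iff.2 h, c, b, ?_, ?_, h'⟩
            · rw [sn_castSucc]; exact hc
            · rw [sn_castSucc]; exact hb
          · exact absurd h.symm (Fin.castSucc_lt_last j).ne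
  rw [h1, card_union_of_disjoint, card_image_of_injective, card_image_of_injective]
  · intro i j h
    exact Fin.castSucc_injective _ (congrArg Prod.fst h)
  · rintro ⟨i, j⟩ ⟨i', j'⟩ h
    exact Prod.ext (Fin.castSucc_injective _ (congrArg Prod.fst h))
      (Fin.castSucc_injective _ (congrArg Prod.snd h))
  · rw [Finset.disjoint_left]
    rintro p hp hp'
    obtain ⟨q, -, hq⟩ := mem_image.1 hp
    obtain ⟨r, -, hr⟩ := mem_image.1 hp'
    have h := congrArg Prod.snd (hq.trans hr.symm)
    exact absurd h (Fin.castSucc_lt_last q.2).ne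

theorem aug_sn (key : T → ℕ) (hkey : Injective key) (R : T → T → Prop) (P : Finset T)
    (z : (Fin (N + 1) → Option T) → K) (hz : SuppIn R P P.card z) :
    aug key z = aug key (fun g => z (sn g none)) +
      ∑ a, (-1 : K) ^ (P.filter fun b => key a < key b).card *
        aug key (fun g => z (sn g (some a))) := by
  have _ := hkey
  have h1 : aug key z = ∑ o : Option T, ∑ g : Fin N → Option T,
      (-1 : K) ^ invs key (sn g o) * z (sn g o) := by
    unfold aug
    rw [← Equiv.sum_comp (P5_equiv T N), Fintype.sum_prod_type]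
    rfl
  rw [h1, Fintype.sum_option]
  congr 1
  · unfold aug
    refine sum_congr rfl fun g _ => ?_
    rw [P5_invs_none]
  · refine sum_congr rfl fun a _ => ?_
    unfold aug
    rw [mul_sum]
    refine sum_congr rfl fun g _ => ?_
    by_cases h0 : z (sn g (some a)) = 0
    · simp only [h0, mul_zero]
    obtain ⟨hc, hs⟩ := hz _ h0
    have hs' : sz (sn g (some a)) = (im (sn g (some a))).card := by rw [hc.im_eq]; exact hs
    have h2 := P5_count hs' (fun b => key a < key b)
    have h3 : (univ.filter fun j => ∃ b, sn g (some a) j = some b ∧ key a < key b).card =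
        (univ.filter fun j => ∃ b, g j = some b ∧ key a < key b).card := by
      symm
      refine card_bij (fun j _ => j.castSucc) ?_ ?_ ?_
      · intro j hj
        obtain ⟨b, hb, h⟩ := (mem_filter.1 hj).2
        exact mem_filter.2 ⟨mem_univ _, b, by rw [sn_castSucc]; exact hb, h⟩
      · intro i _ j _ h
        exact Fin.castSucc_injective _ h
      · intro j hj
        obtain ⟨b, hb, h⟩ := (mem_filter.1 hj).2
        revert hb
        refine Fin.lastCases ?_ (fun j => ?_) j
        · intro hb
          rw [sn_last] at hb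
          rw [Option.some.inj hb] at h
          exact absurd h (lt_irrefl _)
        · intro hb
          rw [sn_castSucc] at hb
          exact ⟨j, mem_filter.2 ⟨mem_univ _, b, hb, h⟩, rfl⟩
    rw [P5_invs_some, ← h3, h2, hc.im_eq, pow_add]
    ring

end

end Pool.Agent.Helper5.NM
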