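import Pool.Agent.Helper5.NM.Defs

set_option autoImplicit false

open Finset Function

namespace Pool.Agent.Helper5.NM

section
variable {T : Type*} [Fintype T] [DecidableEq T] {N : ℕ} {K : Type*} [CommRing K]

/-! Module P6: existence of a chain of degree zero with augmentation one: put the tokens of `P` on
the first vertices in the order of `ρ`, coefficient = its own sign. -/

/-- rank of a token of `P` -/
def P6_rk (P : Finset T) (ρ : T → ℕ) (a : T) : ℕ := (P.filter fun b => ρ b < ρ a).card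

omit [Fintype T] [DecidableEq T] in
theorem P6_rk_lt (P : Finset T) (ρ : T → ℕ) (a b : T) (ha : a ∈ P) (hab : ρ a < ρ b) :
    P6_rk P ρ a < P6_rk P ρ b := by
  unfold P6_rk
  apply Finset.card_lt_card
  rw [Finset.ssubset_iff_of_subset]
  · exact ⟨a, Finset.mem_filter.2 ⟨ha, hab⟩, fun h => absurd (Finset.mem_filter.1 h).2 (by simp)⟩
  · intro c hc
    rw [Finset.mem_filter] at hc ⊢
    exact ⟨hc.1, hc.2.trans hab⟩

omit [Fintype T] [DecidableEq T] in
theorem P6_rk_lt_card (P : Finset T) (ρ : T → ℕ) (a : T) (ha : a ∈ P) :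
    P6_rk P ρ a < P.card := by
  unfold P6_rk
  apply Finset.card_lt_card
  rw [Finset.ssubset_iff_of_subset (Finset.filter_subset _ _)]
  exact ⟨a, ha, fun h => absurd (Finset.mem_filter.1 h).2 (by simp)⟩

omit [Fintype T] [DecidableEq T] in
theorem P6_rk_inj (P : Finset T) (ρ : T → ℕ) (hρ : ∀ a ∈ P, ∀ b ∈ P, ρ a = ρ b → a = b)
    (a b : T) (ha : a ∈ P) (hb : b ∈ P) (h : P6_rk P ρ a = P6_rk P ρ b) : a = b := by
  apply hρ a ha b hb
  rcases lt_trichotomy (ρ a) (ρ b) with hlt | heq | hgt
  · exact absurd h (P6_rk_lt P ρ a b ha hlt).ne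
  · exact heq
  · exact absurd h (P6_rk_lt P ρ b a hb hgt).ne'

theorem exists_aug_one (key : T → ℕ) (R : T → T → Prop) (P : Finset T) (ρ : T → ℕ)
    (hρ : ∀ a ∈ P, ∀ b ∈ P, ρ a = ρ b → a = b) (hR : ∀ a ∈ P, ∀ b ∈ P, R a b → ρ a < ρ b)
    (hN : P.card ≤ N) :
    ∃ y : (Fin N → Option T) → K, SuppIn R P P.card y ∧ aug key y = 1 := by
  classical
  let f : Fin N → Option T := fun v =>
    if h : ∃ a, a ∈ P ∧ P6_rk P ρ a = v.val then some h.choose else none
  have hf1 : ∀ v a, f v = some a → a ∈ P ∧ P6_rk P ρ a = v.val := by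
    intro v a hva
    by_cases h : ∃ a, a ∈ P ∧ P6_rk P ρ a = v.val
    · have h2 : f v = some h.choose := dif_pos h
      rw [h2] at hva
      have h3 : h.choose = a := Option.some.inj hva
      rw [← h3]
      exact h.choose_spec
    · have h2 : f v = none := dif_neg h
      rw [h2] at hva
      exact absurd hva (by simp)
  have hf2 : ∀ (v : Fin N) a, a ∈ P → P6_rk P ρ a = v.val → f v = some a := by
    intro v a ha hr
    have h : ∃ a, a ∈ P ∧ P6_rk P ρ a = v.val := ⟨a, ha, hr⟩
    have h2 : f v = some h.choose := dif_pos h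
    rw [h2]
    congr 1
    exact P6_rk_inj P ρ hρ _ _ h.choose_spec.1 ha (h.choose_spec.2.trans hr.symm)
  have him : im f = P := by
    ext a
    unfold im
    rw [Finset.mem_filter]
    constructor
    · rintro ⟨_, v, hv⟩
      exact (hf1 v a hv).1
    · intro ha
      exact ⟨Finset.mem_univ _, ⟨P6_rk P ρ a, (P6_rk_lt_card P ρ a ha).trans_le hN⟩,
        hf2 _ a ha rfl⟩
  have hsep : ∀ a b, R a b → sep f a b := by
    intro a b hab i j hi hj
    obtain ⟨ha, hia⟩ := hf1 i a hi
    obtain ⟨hb, hjb⟩ := hf1 j b hj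
    have := P6_rk_lt P ρ a b ha (hR a ha b hb hab)
    rw [Fin.lt_def, ← hia, ← hjb]
    exact this
  have hsz : sz f = P.card := by
    unfold sz
    have : (univ.filter fun i => f i ≠ none) =
        P.attach.image fun a => (⟨P6_rk P ρ a.1, (P6_rk_lt_card P ρ a.1 a.2).trans_le hN⟩ :
          Fin N) := by
      ext v
      rw [Finset.mem_filter, Finset.mem_image]
      constructor
      · rintro ⟨_, hv⟩
        obtain ⟨a, ha⟩ := Option.ne_none_iff_exists'.1 hv
        obtain ⟨h1, h2⟩ := hf1 v a ha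
        exact ⟨⟨a, h1⟩, Finset.mem_attach _ _, Fin.ext h2⟩
      · rintro ⟨⟨a, ha⟩, _, hv⟩
        refine ⟨Finset.mem_univ _, ?_⟩
        rw [hf2 v a ha (by rw [← hv])]
        simp
    rw [this, Finset.card_image_of_injective, Finset.card_attach]
    rintro ⟨a, ha⟩ ⟨b, hb⟩ h
    have h2 : P6_rk P ρ a = P6_rk P ρ b := by
      simpa using h
    exact Subtype.ext (P6_rk_inj P ρ hρ a b ha hb h2)
  refine ⟨fun g => if g = f then (-1 : K) ^ invs key f else 0, ?_, ?_⟩
  · intro g hg
    have hgf : g = f := by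
      by_contra h
      exact hg (if_neg h)
    subst hgf
    exact ⟨⟨him, hsep⟩, hsz⟩
  · unfold aug
    rw [Finset.sum_eq_single f]
    · show (-1 : K) ^ invs key f * (if f = f then (-1 : K) ^ invs key f else 0) = 1
      rw [if_pos rfl, ← pow_add]
      exact Even.neg_one_pow ⟨_, rfl⟩
    · intro g _ hg
      show (-1 : K) ^ invs key g * (if g = f then (-1 : K) ^ invs key f else 0) = 0
      rw [if_neg hg, mul_zero]
    · intro h
      exact absurd (Finset.mem_univ f) h

end

end Pool.Agent.Helper5.NM
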