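import Pool.Agent.Helper5.NM.Defs
import Pool.Agent.Helper5.NM.P1
import Pool.Agent.Helper5.NM.P2
import Pool.Agent.Helper5.NM.P3
import Pool.Agent.Helper5.NM.P5
import Pool.Agent.Helper5.NM.P6

set_option autoImplicit false

open Finset Function

namespace Pool.Agent.Helper5.NM

section
variable {T : Type*} [Fintype T] [DecidableEq T]

/-- statement of the Pi-lemma for `N` vertices -/
def PiL (K : Type*) [CommRing K] (R : T → T → Prop) (key ρ : T → ℕ) (N : ℕ) : Prop :=
  ∀ P : Finset T, (∀ a ∈ P, ∀ b ∈ P, ρ a = ρ b → a = b) →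
    (∀ a ∈ P, ∀ b ∈ P, R a b → ρ a < ρ b) →
    ∀ (d : ℕ) (z : (Fin N → Option T) → K), P.card + d < N → SuppIn R P (P.card + d) z →
      (∀ g, dInt z g = 0) → (d = 0 → aug key z = 0) →
      ∃ y : (Fin N → Option T) → K, SuppIn R P (P.card + d + 1) y ∧ ∀ g, dInt y g = z g

variable {N : ℕ} {K : Type*} [CommRing K]

/-! Module P7: the fillers of the part of the cycle with the last vertex in a fibre that has other
vertices. -/

/-! linearity -/

theorem P7_dInt_congr (z w : (Fin N → Option T) → K) (g : Fin N → Option T)
    (h : ∀ v a, g v = none → a ∈ im g → z (update g v (some a)) = w (update g v (some a))) :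
    dInt z g = dInt w g := by
  unfold dInt
  refine Finset.sum_congr rfl fun v _ => ?_
  refine Finset.sum_congr rfl fun a _ => ?_
  by_cases hc : g v = none ∧ a ∈ im g
  · rw [if_pos hc, if_pos hc, h v a hc.1 hc.2]
  · rw [if_neg hc, if_neg hc]

theorem P7_dInt_sub (z w : (Fin N → Option T) → K) (g : Fin N → Option T) :
    dInt (fun g' => z g' - w g') g = dInt z g - dInt w g := by
  unfold dInt
  rw [← Finset.sum_sub_distrib]
  refine Finset.sum_congr rfl fun v _ => ?_
  rw [← Finset.sum_sub_distrib]
  refine Finset.sum_congr rfl fun a _ => ?_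
  split_ifs
  · ring
  · simp

theorem P7_dInt_zero (g : Fin N → Option T) :
    dInt (fun _ : Fin N → Option T => (0 : K)) g = 0 := by
  unfold dInt
  simp

theorem P7_dInt_smul (c : K) (z : (Fin N → Option T) → K) (g : Fin N → Option T) :
    dInt (fun g' => c * z g') g = c * dInt z g := by
  unfold dInt
  rw [Finset.mul_sum]
  refine Finset.sum_congr rfl fun v _ => ?_
  rw [Finset.mul_sum]
  refine Finset.sum_congr rfl fun a _ => ?_
  split_ifs
  · ring
  · simp

theorem P7_dInt_add (z w : (Fin N → Option T) → K) (g : Fin N → Option T) :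
    dInt (fun g' => z g' + w g') g = dInt z g + dInt w g := by
  unfold dInt
  rw [← Finset.sum_add_distrib]
  refine Finset.sum_congr rfl fun v _ => ?_
  rw [← Finset.sum_add_distrib]
  refine Finset.sum_congr rfl fun a _ => ?_
  split_ifs
  · ring
  · simp

theorem P7_dInt_sum {ι : Type*} (s : Finset ι) (F : ι → (Fin N → Option T) → K)
    (g : Fin N → Option T) :
    dInt (fun g' => ∑ i ∈ s, F i g') g = ∑ i ∈ s, dInt (F i) g := by
  classical
  induction s using Finset.induction_on with
  | empty =>
    simp only [Finset.sum_empty]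
    exact P7_dInt_zero g
  | insert i s hi ih =>
    have h1 : (fun g' => ∑ j ∈ insert i s, F j g') = fun g' => F i g' + ∑ j ∈ s, F j g' := by
      funext g'
      exact Finset.sum_insert hi
    rw [h1, P7_dInt_add, ih, Finset.sum_insert hi]

theorem P7_aug_sub (key : T → ℕ) (z w : (Fin N → Option T) → K) :
    aug key (fun g => z g - w g) = aug key z - aug key w := by
  unfold aug
  rw [← Finset.sum_sub_distrib]
  exact Finset.sum_congr rfl fun f _ => by ring

theorem P7_aug_smul (key : T → ℕ) (c : K) (z : (Fin N → Option T) → K) :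
    aug key (fun g => c * z g) = c * aug key z := by
  unfold aug
  rw [Finset.mul_sum]
  exact Finset.sum_congr rfl fun f _ => by ring

theorem P7_aug_neg (key : T → ℕ) (z : (Fin N → Option T) → K) :
    aug key (fun g => - z g) = - aug key z := by
  unfold aug
  rw [← Finset.sum_neg_distrib]
  exact Finset.sum_congr rfl fun f _ => by ring

theorem P7_aug_sum (key : T → ℕ) {ι : Type*} (s : Finset ι) (F : ι → (Fin N → Option T) → K) :
    aug key (fun g' => ∑ i ∈ s, F i g') = ∑ i ∈ s, aug key (F i) := by
  unfold aug
  rw [Finset.sum_comm]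
  exact Finset.sum_congr rfl fun f _ => Finset.mul_sum _ _ _

theorem P7_aug_zero (key : T → ℕ) :
    aug key (fun _ : Fin N → Option T => (0 : K)) = 0 := by
  unfold aug
  simp

theorem P7_rr_congr (a : T) (z w : (Fin N → Option T) → K) (g : Fin N → Option T)
    (h : ∀ v, g v = none → z (update g v (some a)) = w (update g v (some a))) :
    rr a z g = rr a w g := by
  unfold rr
  refine Finset.sum_congr rfl fun v _ => ?_
  by_cases hc : g v = none
  · rw [if_pos hc, if_pos hc, h v hc]
  · rw [if_neg hc, if_neg hc]

theorem P7_mem_im_update (g : Fin N → Option T) (v : Fin N) (a : T) :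
    a ∈ im (update g v (some a)) := by
  unfold im
  rw [Finset.mem_filter]
  exact ⟨Finset.mem_univ _, v, by simp⟩

theorem P7_rr_zero (a : T) (z : (Fin N → Option T) → K) (g : Fin N → Option T)
    (h : ∀ v, g v = none → z (update g v (some a)) = 0) : rr a z g = 0 := by
  unfold rr
  refine Finset.sum_eq_zero fun v _ => ?_
  split_ifs with hv
  · rw [h v hv, mul_zero]
  · rfl

theorem P7_sign_sq (k : ℕ) : (-1 : K) ^ k * (-1 : K) ^ k = 1 := by
  rw [← pow_add]
  exact Even.neg_one_pow ⟨_, rfl⟩

/-! slices -/

theorem P7_slice (R : T → T → Prop) (P : Finset T) (m : ℕ) (z : (Fin (N + 1) → Option T) → K)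
    (hz : SuppIn R P m z) (g : Fin N → Option T) (a : T) (h : z (sn g (some a)) ≠ 0) :
    a ∈ P ∧ (∀ b ∈ P, ¬ R a b) ∧ insert a (im g) = P ∧ (∀ b c, R b c → sep g b c) ∧
      sz g + 1 = m := by
  obtain ⟨hcell, hs⟩ := hz _ h
  rw [isCell_sn_some] at hcell
  rw [sz_sn_some] at hs
  obtain ⟨h1, h2, h3, h4⟩ := hcell
  refine ⟨?_, ?_, h1, h2, hs⟩
  · rw [← h1]
    exact Finset.mem_insert_self _ _
  · intro b hb
    rw [← h1, Finset.mem_insert] at hb
    rcases hb with rfl | hb
    · exact h4
    · exact h3 b hb

theorem P7_build (R : T → T → Prop) (P : Finset T) (d : ℕ)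
    (z : (Fin (N + 1) → Option T) → K) (hz : SuppIn R P (P.card + d) z)
    (hc : ∀ g, dInt z g = 0) (a0 : T) (ha0 : a0 ∈ P) (hmax : ∀ b ∈ P, ¬ R a0 b)
    (Y' : T → (Fin N → Option T) → K)
    (h1 : ∀ a, SuppIn R P (P.card + d) (Y' a))
    (h2 : ∀ a, (a ∉ P ∨ ∃ b ∈ P, R a b) → ∀ g, Y' a g = 0)
    (h3 : ∀ a, a ≠ a0 → ∀ g, dInt (Y' a) g = if a ∈ im g then z (sn g (some a)) else 0)
    (Y : T → (Fin N → Option T) → K)
    (hYne : ∀ a, a ≠ a0 → ∀ g, Y a g = Y' a g)
    (hYeq : ∀ g, Y a0 g = (-1 : K) ^ (P.card + d) * z (sn g none) -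
      ∑ c ∈ univ.erase a0, Y' c g) :
    (∀ a, SuppIn R P (P.card + d) (Y a)) ∧
      (∀ a, (a ∉ P ∨ ∃ b ∈ P, R a b) → ∀ g, Y a g = 0) ∧
      (∀ a g, dInt (Y a) g = if a ∈ im g then z (sn g (some a)) else 0) ∧
      (∀ g, (-1 : K) ^ sz g * ∑ a, Y a g = z (sn g none)) := by
  classical
  refine ⟨?_, ?_, ?_, ?_⟩
  · intro a g hg
    by_cases ha : a = a0
    · subst ha
      rw [hYeq] at hg
      by_cases hz0 : z (sn g none) = 0
      · have : ∃ c ∈ univ.erase a, Y' c g ≠ 0 := by
          by_contra hcon
          push Not at hcon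
          apply hg
          rw [hz0, mul_zero, Finset.sum_eq_zero hcon, sub_zero]
        obtain ⟨c, _, hcne⟩ := this
        exact h1 c g hcne
      · obtain ⟨hcell, hs⟩ := hz _ hz0
        rw [isCell_sn_none] at hcell
        rw [sz_sn_none] at hs
        exact ⟨hcell, hs⟩
    · rw [hYne a ha] at hg
      exact h1 a g hg
  · intro a hbad g
    have ha : a ≠ a0 := by
      rintro rfl
      rcases hbad with h | ⟨b, hb, hab⟩
      · exact h ha0
      · exact hmax b hb hab
    rw [hYne a ha]
    exact h2 a hbad g
  · intro a g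
    by_cases ha : a = a0
    · subst ha
      have hfun : Y a = fun g' => (-1 : K) ^ (P.card + d) * z (sn g' none) -
          ∑ c ∈ univ.erase a, Y' c g' := funext hYeq
      rw [hfun, P7_dInt_sub, P7_dInt_smul, P7_dInt_sum]
      have h5 : ∑ c ∈ univ.erase a, dInt (Y' c) g =
          ∑ c ∈ univ.erase a, (if c ∈ im g then z (sn g (some c)) else 0) :=
        Finset.sum_congr rfl fun c hc' => h3 c (Finset.ne_of_mem_erase hc') g
      rw [h5]
      have h6 := hc (sn g none)
      rw [dInt_sn_none] at h6
      have h7 : ∑ c, (if c ∈ im g then z (sn g (some c)) else 0) =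
          (if a ∈ im g then z (sn g (some a)) else 0) +
          ∑ c ∈ univ.erase a, (if c ∈ im g then z (sn g (some c)) else 0) :=
        (Finset.add_sum_erase univ _ (Finset.mem_univ a)).symm
      by_cases hsz : sz g + 1 = P.card + d
      · have h8 : dInt (fun g' => z (sn g' none)) g =
            - ((-1 : K) ^ sz g * ∑ c, (if c ∈ im g then z (sn g (some c)) else 0)) :=
          eq_neg_of_add_eq_zero_left h6
        rw [h8, ← hsz, pow_succ]
        have h9 := P7_sign_sq (K := K) (sz g)
        have : (-1 : K) ^ sz g * -1 *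
            -((-1 : K) ^ sz g * ∑ c, (if c ∈ im g then z (sn g (some c)) else 0)) =
            ((-1 : K) ^ sz g * (-1 : K) ^ sz g) *
              ∑ c, (if c ∈ im g then z (sn g (some c)) else 0) := by ring
        rw [this, h9, one_mul, h7]
        ring
      · have h8 : ∀ c, (if c ∈ im g then z (sn g (some c)) else 0) = 0 := by
          intro c
          split_ifs
          · by_contra hne
            exact hsz (P7_slice R P _ z hz g c hne).2.2.2.2
          · rfl
        have h9 : ∑ c, (if c ∈ im g then z (sn g (some c)) else 0) = 0 :=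
          Finset.sum_eq_zero fun c _ => h8 c
        have h10 : ∑ c ∈ univ.erase a, (if c ∈ im g then z (sn g (some c)) else 0) = 0 :=
          Finset.sum_eq_zero fun c _ => h8 c
        rw [h9, mul_zero, add_zero] at h6
        rw [h6, h10, h8 a]
        ring
    · have hfun : Y a = Y' a := funext (hYne a ha)
      rw [hfun]
      exact h3 a ha g
  · intro g
    have h4 : ∑ a, Y a g = (-1 : K) ^ (P.card + d) * z (sn g none) := by
      rw [← Finset.add_sum_erase univ _ (Finset.mem_univ a0), hYeq]
      have : ∑ c ∈ univ.erase a0, Y c g = ∑ c ∈ univ.erase a0, Y' c g :=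
        Finset.sum_congr rfl fun c hc' => hYne c (Finset.ne_of_mem_erase hc') g
      rw [this]
      ring
    rw [h4]
    by_cases hz0 : z (sn g none) = 0
    · rw [hz0, mul_zero, mul_zero]
    · obtain ⟨_, hs⟩ := hz _ hz0
      rw [sz_sn_none] at hs
      rw [hs, ← mul_assoc, P7_sign_sq, one_mul]

/-- degree zero chains have no boundary -/
theorem P7_dInt_deg0 (R : T → T → Prop) (P : Finset T) (y : (Fin N → Option T) → K)
    (hy : SuppIn R P P.card y) (g : Fin N → Option T) : dInt y g = 0 := by
  have : dInt y g = dInt (fun _ : Fin N → Option T => (0 : K)) g := by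
    apply P7_dInt_congr
    intro v a hv ha
    by_contra hne
    obtain ⟨hcell, hs⟩ := hy _ hne
    have h1 := hcell.im_eq
    rw [im_update_of_mem g v a hv ha] at h1
    rw [sz_update g v a hv] at hs
    have h2 := card_im_le_sz g
    rw [h1] at h2
    omega
  rw [this, P7_dInt_zero]

/-- `rr a y g = 0` for degree zero chains if `a` is used -/
theorem P7_rr_deg0 (R : T → T → Prop) (P : Finset T) (y : (Fin N → Option T) → K)
    (hy : SuppIn R P P.card y) (g : Fin N → Option T) (a : T) (ha : a ∈ im g) :
    rr a y g = 0 := by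
  apply P7_rr_zero
  intro v hv
  by_contra hne
  obtain ⟨hcell, hs⟩ := hy _ hne
  have h1 := hcell.im_eq
  rw [im_update_of_mem g v a hv ha] at h1
  rw [sz_update g v a hv] at hs
  have h2 := card_im_le_sz g
  rw [h1] at h2
  omega

theorem step_Y (R : T → T → Prop) (key ρ : T → ℕ) (hkey : Injective key)
    (ih : PiL K R key ρ N) (P : Finset T)
    (hρ : ∀ a ∈ P, ∀ b ∈ P, ρ a = ρ b → a = b) (hR : ∀ a ∈ P, ∀ b ∈ P, R a b → ρ a < ρ b)
    (hP : P.Nonempty) (d : ℕ) (z : (Fin (N + 1) → Option T) → K) (hN : P.card + d < N + 1)
    (hz : SuppIn R P (P.card + d) z) (hc : ∀ g, dInt z g = 0) (ha : d = 0 → aug key z = 0) :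
    ∃ Y : T → (Fin N → Option T) → K,
      (∀ a, SuppIn R P (P.card + d) (Y a)) ∧
      (∀ a, (a ∉ P ∨ ∃ b ∈ P, R a b) → ∀ g, Y a g = 0) ∧
      (∀ a g, dInt (Y a) g = if a ∈ im g then z (sn g (some a)) else 0) ∧
      (∀ g, (-1 : K) ^ sz g * ∑ a, Y a g = z (sn g none)) ∧
      (d = 0 → ∀ a, aug key
        (fun g => if a ∈ im g then 0 else z (sn g (some a)) - rr a (Y a) g) = 0) := by
  classical
  obtain ⟨a0, ha0, hmaxρ⟩ := Finset.exists_max_image P ρ hP
  have hmax : ∀ b ∈ P, ¬ R a0 b := by
    intro b hb hab
    have := hR a0 ha0 b hb hab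
    have := hmaxρ b hb
    omega
  set B : T → (Fin N → Option T) → K := fun a g => if a ∈ im g then z (sn g (some a)) else 0
    with hBdef
  set A : T → (Fin N → Option T) → K := fun a g => if a ∈ im g then 0 else z (sn g (some a))
    with hAdef
  have hBin : ∀ a g, a ∈ im g → B a g = z (sn g (some a)) := fun a g h => if_pos h
  have hBout : ∀ a g, a ∉ im g → B a g = 0 := fun a g h => if_neg h
  have hAin : ∀ a g, a ∈ im g → A a g = 0 := fun a g h => if_pos h
  have hAout : ∀ a g, a ∉ im g → A a g = z (sn g (some a)) := fun a g h => if_neg h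
  have hBne : ∀ a g, B a g ≠ 0 → a ∈ im g ∧ z (sn g (some a)) ≠ 0 := by
    intro a g h
    by_cases hag : a ∈ im g
    · rw [hBin a g hag] at h
      exact ⟨hag, h⟩
    · exact absurd (hBout a g hag) h
  have hAne : ∀ a g, A a g ≠ 0 → a ∉ im g ∧ z (sn g (some a)) ≠ 0 := by
    intro a g h
    by_cases hag : a ∈ im g
    · exact absurd (hAin a g hag) h
    · rw [hAout a g hag] at h
      exact ⟨hag, h⟩
  have hbad0 : ∀ a g, (a ∉ P ∨ ∃ b ∈ P, R a b) → z (sn g (some a)) = 0 := by
    intro a g hbad
    by_contra hne
    obtain ⟨h1, h2, _⟩ := P7_slice R P _ z hz g a hne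
    rcases hbad with h | ⟨b, hb, hab⟩
    · exact h h1
    · exact h2 b hb hab
  -- (2)
  have h2 : ∀ a g, a ∉ im g → dInt (A a) g + rr a (B a) g = 0 := by
    intro a g hag
    have h := hc (sn g (some a))
    rw [dInt_sn_some, if_neg hag] at h
    have e1 : dInt (A a) g = dInt (fun g' => z (sn g' (some a))) g := by
      apply P7_dInt_congr
      intro v b hv hb
      apply hAout
      rw [im_update_of_mem g v b hv hb]
      exact hag
    have e2 : rr a (B a) g = rr a (fun g' => z (sn g' (some a))) g := by
      apply P7_rr_congr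
      intro v _
      exact hBin a _ (P7_mem_im_update g v a)
    rw [e1, e2]
    exact h
  have hAd : ∀ a g, a ∈ im g → dInt (A a) g = 0 := by
    intro a g hag
    have : dInt (A a) g = dInt (fun _ : Fin N → Option T => (0 : K)) g := by
      apply P7_dInt_congr
      intro v b hv hb
      apply hAin
      rw [im_update_of_mem g v b hv hb]
      exact hag
    rw [this, P7_dInt_zero]
  have hBd : ∀ a g, dInt (B a) g = 0 := by
    intro a g
    by_cases hag : a ∈ im g
    · have h := hc (sn g (some a))
      rw [dInt_sn_some, if_pos hag, add_zero] at h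
      rw [← h]
      apply P7_dInt_congr
      intro v b hv hb
      apply hBin
      rw [im_update_of_mem g v b hv hb]
      exact hag
    · have : dInt (B a) g = dInt (fun _ : Fin N → Option T => (0 : K)) g := by
        apply P7_dInt_congr
        intro v b hv hb
        apply hBout
        rw [im_update_of_mem g v b hv hb]
        exact hag
      rw [this, P7_dInt_zero]
  have hAsupp : ∀ a ∈ P, SuppIn R (P.erase a) ((P.erase a).card + d) (A a) := by
    intro a haP g hg
    obtain ⟨hag, hne⟩ := hAne a g hg
    obtain ⟨_, _, h3, h4, h5⟩ := P7_slice R P _ z hz g a hne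
    have hcardP : (P.erase a).card + 1 = P.card := Finset.card_erase_add_one haP
    refine ⟨⟨?_, h4⟩, ?_⟩
    · rw [← h3, Finset.erase_insert hag]
    · omega
  rcases Nat.eq_zero_or_pos d with hd | hd
  · -- degree zero
    subst hd
    simp only [Nat.add_zero] at hz hN ⊢
    have hB0 : ∀ a g, B a g = 0 := by
      intro a g
      by_contra hne
      obtain ⟨hag, hne2⟩ := hBne a g hne
      obtain ⟨_, _, h3, _, h5⟩ := P7_slice R P _ z hz g a hne2
      rw [Finset.insert_eq_of_mem hag] at h3
      have := card_im_le_sz g
      rw [h3] at this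
      omega
    obtain ⟨y1, hy1, hy1a⟩ := exists_aug_one (N := N) (K := K) key R P ρ hρ hR (by omega)
    set c : T → K := fun a => (-1 : K) ^ (P.filter fun b => key b < key a).card with hcdef
    have hcc : ∀ a, c a * c a = 1 := fun a => P7_sign_sq _
    set Y' : T → (Fin N → Option T) → K := fun a g => c a * aug key (A a) * y1 g with hY'def
    set Y : T → (Fin N → Option T) → K := fun a g =>
      if a = a0 then (-1 : K) ^ (P.card + 0) * z (sn g none) - ∑ b ∈ univ.erase a0, Y' b g
      else Y' a g with hYdef
    have hYne : ∀ a, a ≠ a0 → ∀ g, Y a g = Y' a g := fun a h g => if_neg h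
    have hYeq : ∀ g, Y a0 g = (-1 : K) ^ (P.card + 0) * z (sn g none) -
      ∑ b ∈ univ.erase a0, Y' b g := fun g => if_pos rfl
    have hA0 : ∀ a, (a ∉ P ∨ ∃ b ∈ P, R a b) → A a = fun _ => 0 := by
      intro a hbad
      funext g
      by_contra hne
      exact (hAne a g hne).2 (hbad0 a g hbad)
    have hY'1 : ∀ a, SuppIn R P (P.card + 0) (Y' a) := by
      intro a g hg
      apply hy1 g
      intro h0
      apply hg
      show c a * aug key (A a) * y1 g = 0
      rw [h0, mul_zero]
    have hY'2 : ∀ a, (a ∉ P ∨ ∃ b ∈ P, R a b) → ∀ g, Y' a g = 0 := by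
      intro a hbad g
      show c a * aug key (A a) * y1 g = 0
      rw [hA0 a hbad, P7_aug_zero, mul_zero, zero_mul]
    have hY'3 : ∀ a, a ≠ a0 → ∀ g,
        dInt (Y' a) g = if a ∈ im g then z (sn g (some a)) else 0 := by
      intro a _ g
      rw [P7_dInt_deg0 R P (Y' a) (hY'1 a) g]
      exact (hB0 a g).symm
    obtain ⟨c1, c2, c3, c4⟩ := P7_build R P 0 z hz hc a0 ha0 hmax Y' hY'1 hY'2 hY'3 Y hYne hYeq
    refine ⟨Y, c1, c2, c3, c4, fun _ a => ?_⟩
    have hfun : (fun g => if a ∈ im g then 0 else z (sn g (some a)) - rr a (Y a) g) =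
        fun g => A a g - rr a (Y a) g := by
      funext g
      by_cases hag : a ∈ im g
      · rw [if_pos hag, hAin a g hag, P7_rr_deg0 R P (Y a) (c1 a) g a hag, sub_zero]
      · rw [if_neg hag, hAout a g hag]
    rw [hfun, P7_aug_sub]
    by_cases hbad : a ∉ P ∨ ∃ b ∈ P, R a b
    · have e1 : rr a (Y a) = fun _ => 0 := by
        funext g
        exact P7_rr_zero a (Y a) g fun v _ => c2 a hbad _
      rw [hA0 a hbad, e1, P7_aug_zero, sub_zero]
    · have haP : a ∈ P := by
        by_contra h
        exact hbad (Or.inl h)
      have e0 : aug key (rr a (Y a)) = c a * aug key (Y a) := aug_rr key hkey R P a haP (Y a) (c1 a)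
      rw [e0]
      by_cases ha' : a = a0
      · subst ha'
        have hfY : Y a = fun g => (-1 : K) ^ (P.card + 0) * z (sn g none) -
          ∑ b ∈ univ.erase a, Y' b g := funext hYeq
        rw [hfY, P7_aug_sub, P7_aug_smul, P7_aug_sum]
        have e1 : ∀ b, aug key (Y' b) = c b * aug key (A b) := by
          intro b
          show aug key (fun g => c b * aug key (A b) * y1 g) = _
          rw [P7_aug_smul, hy1a, mul_one]
        have e2 : ∑ b ∈ univ.erase a, aug key (Y' b) = ∑ b ∈ univ.erase a, c b * aug key (A b) :=
          Finset.sum_congr rfl fun b _ => e1 b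
        have e3 := aug_sn key hkey R P z hz
        rw [ha rfl] at e3
        have e4 : ∀ b, (fun g : Fin N → Option T => z (sn g (some b))) = A b := by
          intro b
          funext g
          by_cases hbg : b ∈ im g
          · rw [hAin b g hbg]
            have := hB0 b g
            rw [hBin b g hbg] at this
            exact this
          · rw [hAout b g hbg]
        have e5 : ∀ b, (-1 : K) ^ (P.filter fun b' => key b < key b').card *
            aug key (fun g : Fin N → Option T => z (sn g (some b))) =
            -((-1 : K) ^ P.card * (c b * aug key (A b))) := by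
          intro b
          rw [e4 b]
          by_cases hbP : b ∈ P
          · have e6 : (P.filter fun b' => key b < key b').card +
                (P.filter fun b' => key b' < key b).card + 1 = P.card := by
              have s1 := Finset.card_filter_add_card_filter_not (s := P)
                (fun b' => key b < key b')
              have s2 : (P.filter fun b' => ¬ key b < key b') =
                  insert b (P.filter fun b' => key b' < key b) := by
                ext x
                rw [Finset.mem_filter, Finset.mem_insert, Finset.mem_filter]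
                constructor
                · rintro ⟨hx, hlt⟩
                  rcases lt_trichotomy (key x) (key b) with h | h | h
                  · exact Or.inr ⟨hx, h⟩
                  · exact Or.inl (hkey h)
                  · exact absurd h hlt
                · rintro (rfl | ⟨hx, hlt⟩)
                  · exact ⟨hbP, lt_irrefl _⟩
                  · exact ⟨hx, by omega⟩
              rw [s2, Finset.card_insert_of_notMem] at s1
              · omega
              · intro h
                exact absurd (Finset.mem_filter.1 h).2 (lt_irrefl _)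
            have e7 : (-1 : K) ^ P.card = -((-1 : K) ^ (P.filter fun b' => key b < key b').card *
                c b) := by
              rw [← e6, pow_succ, pow_add]
              ring
            rw [e7]
            have e8 : -(-((-1 : K) ^ (P.filter fun b' => key b < key b').card * c b) *
                (c b * aug key (A b))) =
                (-1 : K) ^ (P.filter fun b' => key b < key b').card * (c b * c b) *
                  aug key (A b) := by ring
            rw [e8, hcc, mul_one]
          · rw [hA0 b (Or.inl hbP), P7_aug_zero]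
            ring
        have e6 : ∑ b, (-1 : K) ^ (P.filter fun b' => key b < key b').card *
            aug key (fun g : Fin N → Option T => z (sn g (some b))) =
            -((-1 : K) ^ P.card * ∑ b, c b * aug key (A b)) := by
          rw [Finset.mul_sum, ← Finset.sum_neg_distrib]
          exact Finset.sum_congr rfl fun b _ => e5 b
        rw [e6] at e3
        have e7 : aug key (fun g : Fin N → Option T => z (sn g none)) =
            (-1 : K) ^ P.card * ∑ b, c b * aug key (A b) := by
          have : aug key (fun g : Fin N → Option T => z (sn g none)) +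
            -((-1 : K) ^ P.card * ∑ b, c b * aug key (A b)) = 0 := e3.symm
          exact eq_of_sub_eq_zero (by rw [sub_eq_add_neg]; exact this)
        have e8 : ∑ b, c b * aug key (A b) = c a * aug key (A a) +
            ∑ b ∈ univ.erase a, c b * aug key (A b) :=
          (Finset.add_sum_erase univ _ (Finset.mem_univ a)).symm
        rw [e2, e7, Nat.add_zero, ← mul_assoc, P7_sign_sq, one_mul, e8]
        have e9 : aug key (A a) - c a * (c a * aug key (A a) +
            ∑ b ∈ univ.erase a, c b * aug key (A b) - ∑ b ∈ univ.erase a, c b * aug key (A b)) =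
            aug key (A a) - (c a * c a) * aug key (A a) := by ring
        rw [e9, hcc, one_mul, sub_self]
      · have hfY : Y a = Y' a := funext (hYne a ha')
        rw [hfY]
        have e1 : aug key (Y' a) = c a * aug key (A a) := by
          show aug key (fun g => c a * aug key (A a) * y1 g) = _
          rw [P7_aug_smul, hy1a, mul_one]
        rw [e1, ← mul_assoc, hcc, one_mul, sub_self]
  · -- positive degree
    obtain ⟨e, rfl⟩ : ∃ e, d = e + 1 := ⟨d - 1, by omega⟩
    have hBsupp : ∀ a, SuppIn R P (P.card + e) (B a) := by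
      intro a g hg
      obtain ⟨hag, hne⟩ := hBne a g hg
      obtain ⟨_, _, h3, h4, h5⟩ := P7_slice R P _ z hz g a hne
      rw [Finset.insert_eq_of_mem hag] at h3
      exact ⟨⟨h3, h4⟩, by omega⟩
    have main : ∀ a : T, ∃ Ya : (Fin N → Option T) → K,
        SuppIn R P (P.card + (e + 1)) Ya ∧
        ((a ∉ P ∨ ∃ b ∈ P, R a b) → ∀ g, Ya g = 0) ∧
        (∀ g, dInt Ya g = if a ∈ im g then z (sn g (some a)) else 0) := by
      intro a
      by_cases hbad : a ∉ P ∨ ∃ b ∈ P, R a b
      · refine ⟨fun _ => 0, fun g hg => absurd rfl hg, fun _ _ => rfl, fun g => ?_⟩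
        rw [P7_dInt_zero]
        split_ifs
        · exact (hbad0 a g hbad).symm
        · rfl
      · have haP : a ∈ P := by
          by_contra h
          exact hbad (Or.inl h)
        have haug : e = 0 → aug key (B a) = 0 := by
          intro he
          subst he
          have hBs : SuppIn R P P.card (B a) := hBsupp a
          have e1 : rr a (B a) = fun g => - dInt (A a) g := by
            funext g
            by_cases hag : a ∈ im g
            · rw [P7_rr_deg0 R P (B a) hBs g a hag, hAd a g hag, neg_zero]
            · exact eq_neg_of_add_eq_zero_right (h2 a g hag)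
          have e2 := aug_rr key hkey R P a haP (B a) hBs
          have e3 := aug_dInt key hkey R (P.erase a) (A a) (hAsupp a haP)
          have e4 : aug key (fun g => - dInt (A a) g) = 0 := by
            rw [P7_aug_neg]
            have : aug key (fun g => dInt (A a) g) = 0 := e3
            rw [this, neg_zero]
          rw [e1, e4] at e2
          have e5 := congrArg
            (fun x => (-1 : K) ^ (P.filter fun b => key b < key a).card * x) e2
          simp only [mul_zero] at e5
          rw [← mul_assoc, P7_sign_sq, one_mul] at e5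
          exact e5.symm
        obtain ⟨Ya, hY1, hY2⟩ := ih P hρ hR e (B a) (by omega) (hBsupp a) (hBd a) haug
        exact ⟨Ya, hY1, fun h => absurd h hbad, hY2⟩
    choose Y' hY' using main
    refine ⟨fun a g =>
      if a = a0 then (-1 : K) ^ (P.card + (e + 1)) * z (sn g none) - ∑ b ∈ univ.erase a0, Y' b g
      else Y' a g, ?_⟩
    have hb := P7_build R P (e + 1) z hz hc a0 ha0 hmax Y' (fun a => (hY' a).1)
      (fun a => (hY' a).2.1) (fun a _ => (hY' a).2.2)
      (fun a g =>
      if a = a0 then (-1 : K) ^ (P.card + (e + 1)) * z (sn g none) - ∑ b ∈ univ.erase a0, Y' b g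
      else Y' a g) (fun a h g => if_neg h) (fun g => if_pos rfl)
    exact ⟨hb.1, hb.2.1, hb.2.2.1, hb.2.2.2, fun h => absurd h (by omega)⟩

end

end Pool.Agent.Helper5.NM
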