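import Pool.Agent.Helper5.NM.Defs
import Pool.Agent.Helper5.NM.P1
import Pool.Agent.Helper5.NM.P2
import Pool.Agent.Helper5.NM.P3
import Pool.Agent.Helper5.NM.P7

set_option autoImplicit false

open Finset Function

namespace Pool.Agent.Helper5.NM

section
variable {T : Type*} [Fintype T] [DecidableEq T] {N : ℕ} {K : Type*} [CommRing K]

/-! Module P8: the fillers of the part with the last vertex alone in its fibre. -/

theorem P8_dInt_congr (z w : (Fin N → Option T) → K) (g : Fin N → Option T)
    (h : ∀ v a, g v = none → a ∈ im g → z (update g v (some a)) = w (update g v (some a))) :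
    dInt z g = dInt w g := by
  unfold dInt
  refine Finset.sum_congr rfl fun v _ => ?_
  refine Finset.sum_congr rfl fun a _ => ?_
  by_cases hc : g v = none ∧ a ∈ im g
  · rw [if_pos hc, if_pos hc, h v a hc.1 hc.2]
  · rw [if_neg hc, if_neg hc]

theorem P8_dInt_sub (z w : (Fin N → Option T) → K) (g : Fin N → Option T) :
    dInt (fun g' => z g' - w g') g = dInt z g - dInt w g := by
  unfold dInt
  rw [← Finset.sum_sub_distrib]
  refine Finset.sum_congr rfl fun v _ => ?_
  rw [← Finset.sum_sub_distrib]
  refine Finset.sum_congr rfl fun a _ => ?_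
  split_ifs
  · ring
  · simp

theorem P8_dInt_zero (g : Fin N → Option T) :
    dInt (fun _ : Fin N → Option T => (0 : K)) g = 0 := by
  unfold dInt
  simp

theorem P8_rr_congr (a : T) (z w : (Fin N → Option T) → K) (g : Fin N → Option T)
    (h : ∀ v, g v = none → z (update g v (some a)) = w (update g v (some a))) :
    rr a z g = rr a w g := by
  unfold rr
  refine Finset.sum_congr rfl fun v _ => ?_
  by_cases hc : g v = none
  · rw [if_pos hc, if_pos hc, h v hc]
  · rw [if_neg hc, if_neg hc]

theorem P8_mem_im_update (g : Fin N → Option T) (v : Fin N) (a : T) :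
    a ∈ im (update g v (some a)) := by
  unfold im
  rw [Finset.mem_filter]
  exact ⟨Finset.mem_univ _, v, by simp⟩

theorem P8_rr_ne (a : T) (y : (Fin N → Option T) → K) (g : Fin N → Option T)
    (h : rr a y g ≠ 0) : ∃ v, g v = none ∧ y (update g v (some a)) ≠ 0 := by
  by_contra hcon
  push Not at hcon
  apply h
  unfold rr
  refine Finset.sum_eq_zero fun v _ => ?_
  split_ifs with hv
  · rw [hcon v hv, mul_zero]
  · rfl

theorem step_X (R : T → T → Prop) (key ρ : T → ℕ) (hkey : Injective key)
    (ih : PiL K R key ρ N) (P : Finset T)
    (hρ : ∀ a ∈ P, ∀ b ∈ P, ρ a = ρ b → a = b) (hR : ∀ a ∈ P, ∀ b ∈ P, R a b → ρ a < ρ b)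
    (d : ℕ) (z : (Fin (N + 1) → Option T) → K) (hN : P.card + d < N + 1)
    (hz : SuppIn R P (P.card + d) z) (hc : ∀ g, dInt z g = 0)
    (Y : T → (Fin N → Option T) → K)
    (hY1 : ∀ a, SuppIn R P (P.card + d) (Y a))
    (hY2 : ∀ a, (a ∉ P ∨ ∃ b ∈ P, R a b) → ∀ g, Y a g = 0)
    (hY3 : ∀ a g, dInt (Y a) g = if a ∈ im g then z (sn g (some a)) else 0)
    (hY5 : d = 0 → ∀ a, aug key
        (fun g => if a ∈ im g then 0 else z (sn g (some a)) - rr a (Y a) g) = 0) :
    ∃ X : T → (Fin N → Option T) → K,
      (∀ a, SuppIn R (P.erase a) (P.card + d) (X a)) ∧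
      (∀ a, (a ∉ P ∨ ∃ b ∈ P, R a b) → ∀ g, X a g = 0) ∧
      (∀ a g, dInt (X a) g = if a ∈ im g then 0 else z (sn g (some a)) - rr a (Y a) g) := by
  classical
  have main : ∀ a : T, ∃ X : (Fin N → Option T) → K,
      SuppIn R (P.erase a) (P.card + d) X ∧
      ((a ∉ P ∨ ∃ b ∈ P, R a b) → ∀ g, X g = 0) ∧
      (∀ g, dInt X g = if a ∈ im g then 0 else z (sn g (some a)) - rr a (Y a) g) := by
    intro a
    by_cases hbad : a ∉ P ∨ ∃ b ∈ P, R a b
    · refine ⟨fun _ => 0, fun f hf => absurd rfl hf, fun _ g => rfl, ?_⟩
      intro g
      rw [P8_dInt_zero]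
      split_ifs with hag
      · rfl
      · have h1 : z (sn g (some a)) = 0 := by
          by_contra hne
          obtain ⟨hcell, _⟩ := hz _ hne
          rw [isCell_sn_some] at hcell
          obtain ⟨h1, _, h3, h4⟩ := hcell
          rcases hbad with hb | ⟨b, hb, hab⟩
          · apply hb
            rw [← h1]
            exact Finset.mem_insert_self _ _
          · rw [← h1, Finset.mem_insert] at hb
            rcases hb with rfl | hb
            · exact h4 hab
            · exact h3 b hb hab
        have h2 : rr a (Y a) g = 0 := by
          by_contra hne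
          obtain ⟨v, _, hv⟩ := P8_rr_ne _ _ _ hne
          exact hv (hY2 a hbad _)
        rw [h1, h2, sub_zero]
    · have haP : a ∈ P := by
        by_contra h
        exact hbad (Or.inl h)
      have hcardP : (P.erase a).card + 1 = P.card := Finset.card_erase_add_one haP
      let A' : (Fin N → Option T) → K := fun g =>
        if a ∈ im g then 0 else z (sn g (some a)) - rr a (Y a) g
      have hA'in : ∀ g, a ∈ im g → A' g = 0 := fun g hg => if_pos hg
      have hA'out : ∀ g, a ∉ im g → A' g = z (sn g (some a)) - rr a (Y a) g :=
        fun g hg => if_neg hg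
      have hsupp : SuppIn R (P.erase a) ((P.erase a).card + d) A' := by
        intro g hg
        have hag : a ∉ im g := by
          intro h
          exact hg (hA'in g h)
        rw [hA'out g hag] at hg
        have hor : z (sn g (some a)) ≠ 0 ∨ rr a (Y a) g ≠ 0 := by
          by_contra hcon
          push Not at hcon
          exact hg (by rw [hcon.1, hcon.2, sub_zero])
        have key3 : insert a (im g) = P ∧ (∀ b c, R b c → sep g b c) ∧
            sz g + 1 = P.card + d := by
          rcases hor with h | h
          · obtain ⟨hcell, hs⟩ := hz _ h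
            rw [isCell_sn_some] at hcell
            rw [sz_sn_some] at hs
            exact ⟨hcell.1, hcell.2.1, hs⟩
          · obtain ⟨v, hv, hne⟩ := P8_rr_ne _ _ _ h
            obtain ⟨hcell, hs⟩ := hY1 a _ hne
            rw [sz_update g v a hv] at hs
            refine ⟨?_, ?_, hs⟩
            · rw [← im_update g v a hv]
              exact hcell.im_eq
            · intro b c hbc i j hi hj
              have hiv : i ≠ v := by
                rintro rfl
                rw [hv] at hi
                exact absurd hi (by simp)
              have hjv : j ≠ v := by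
                rintro rfl
                rw [hv] at hj
                exact absurd hj (by simp)
              apply hcell.sep b c hbc i j
              · rw [update_of_ne hiv]
                exact hi
              · rw [update_of_ne hjv]
                exact hj
        refine ⟨⟨?_, key3.2.1⟩, ?_⟩
        · rw [← key3.1, Finset.erase_insert hag]
        · omega
      have hcyc : ∀ g, dInt A' g = 0 := by
        intro g
        by_cases hag : a ∈ im g
        · have : dInt A' g = dInt (fun _ : Fin N → Option T => (0 : K)) g := by
            apply P8_dInt_congr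
            intro v b hv hb
            apply hA'in
            rw [im_update_of_mem g v b hv hb]
            exact hag
          rw [this, P8_dInt_zero]
        · have h1 : dInt A' g = dInt (fun g' => z (sn g' (some a)) - rr a (Y a) g') g := by
            apply P8_dInt_congr
            intro v b hv hb
            apply hA'out
            rw [im_update_of_mem g v b hv hb]
            exact hag
          have h2 := hc (sn g (some a))
          rw [dInt_sn_some, if_neg hag] at h2
          have h3 : rr a (dInt (Y a)) g = rr a (fun g' => z (sn g' (some a))) g := by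
            apply P8_rr_congr
            intro v _
            rw [hY3, if_pos (P8_mem_im_update g v a)]
          rw [h1, P8_dInt_sub, dInt_rr _ _ _ hag, h3, sub_neg_eq_add]
          exact h2
      have haug : d = 0 → aug key A' = 0 := fun hd => hY5 hd a
      have hρ' : ∀ b ∈ P.erase a, ∀ c ∈ P.erase a, ρ b = ρ c → b = c :=
        fun b hb c hc' h => hρ b (Finset.mem_of_mem_erase hb) c (Finset.mem_of_mem_erase hc') h
      have hR' : ∀ b ∈ P.erase a, ∀ c ∈ P.erase a, R b c → ρ b < ρ c :=
        fun b hb c hc' h => hR b (Finset.mem_of_mem_erase hb) c (Finset.mem_of_mem_erase hc') h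
      obtain ⟨X, hX1, hX2⟩ := ih (P.erase a) hρ' hR' d A' (by omega) hsupp hcyc haug
      refine ⟨X, ?_, fun h => absurd h hbad, hX2⟩
      have : (P.erase a).card + d + 1 = P.card + d := by omega
      rw [← this]
      exact hX1
  choose X hX using main
  exact ⟨X, fun a => (hX a).1, fun a => (hX a).2.1, fun a => (hX a).2.2⟩

end

end Pool.Agent.Helper5.NM
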