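import Pool.Agent.Helper5.NM.Defs
import Pool.Agent.Helper5.NM.P1
import Pool.Agent.Helper5.NM.P2
import Pool.Agent.Helper5.NM.P3
import Pool.Agent.Helper5.NM.P7

set_option autoImplicit false

open Finset Function

namespace Pool.Agent.Helper5.NM

section
variable {T : Type*} [Fintype T] [DecidableEq T] {N : ℕ} {K : Type*} [CommRing K]

/-! Module P9: assembly of the filler: `y (sn g none) = 0`, `y (sn g (some a)) = Y a g + X a g`. -/

theorem P9_dInt_add (z w : (Fin N → Option T) → K) (g : Fin N → Option T) :
    dInt (fun g' => z g' + w g') g = dInt z g + dInt w g := by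
  unfold dInt
  rw [← Finset.sum_add_distrib]
  refine Finset.sum_congr rfl fun v _ => ?_
  rw [← Finset.sum_add_distrib]
  refine Finset.sum_congr rfl fun a _ => ?_
  split_ifs
  · ring
  · simp

theorem P9_dInt_zero (g : Fin N → Option T) :
    dInt (fun _ : Fin N → Option T => (0 : K)) g = 0 := by
  unfold dInt
  simp

theorem P9_rr_add (a : T) (z w : (Fin N → Option T) → K) (g : Fin N → Option T) :
    rr a (fun g' => z g' + w g') g = rr a z g + rr a w g := by
  unfold rr
  rw [← Finset.sum_add_distrib]
  refine Finset.sum_congr rfl fun v _ => ?_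
  split_ifs
  · ring
  · simp

theorem P9_mem_im_update (g : Fin N → Option T) (v : Fin N) (a : T) :
    a ∈ im (update g v (some a)) := by
  unfold im
  rw [Finset.mem_filter]
  exact ⟨Finset.mem_univ _, v, by simp⟩

theorem step_fin (R : T → T → Prop) (P : Finset T) (hirr : ∀ a ∈ P, ¬ R a a)
    (d : ℕ) (z : (Fin (N + 1) → Option T) → K) (hz : SuppIn R P (P.card + d) z)
    (Y X : T → (Fin N → Option T) → K)
    (hY1 : ∀ a, SuppIn R P (P.card + d) (Y a))
    (hY2 : ∀ a, (a ∉ P ∨ ∃ b ∈ P, R a b) → ∀ g, Y a g = 0)
    (hY3 : ∀ a g, dInt (Y a) g = if a ∈ im g then z (sn g (some a)) else 0)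
    (hY4 : ∀ g, (-1 : K) ^ sz g * ∑ a, Y a g = z (sn g none))
    (hX1 : ∀ a, SuppIn R (P.erase a) (P.card + d) (X a))
    (hX2 : ∀ a, (a ∉ P ∨ ∃ b ∈ P, R a b) → ∀ g, X a g = 0)
    (hX3 : ∀ a g, dInt (X a) g = if a ∈ im g then 0 else z (sn g (some a)) - rr a (Y a) g) :
    ∃ y : (Fin (N + 1) → Option T) → K, SuppIn R P (P.card + d + 1) y ∧ ∀ f, dInt y f = z f := by
  classical
  let y : (Fin (N + 1) → Option T) → K := fun f =>
    match f (Fin.last N) with
    | none => 0
    | some a => Y a (fun v => f v.castSucc) + X a (fun v => f v.castSucc)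
  have hyn : ∀ g : Fin N → Option T, y (sn g none) = 0 := by
    intro g
    show (match (sn g none) (Fin.last N) with
      | none => (0 : K)
      | some a => Y a (fun v => (sn g none) v.castSucc) + X a (fun v => (sn g none) v.castSucc)) = 0
    rw [sn_last]
  have hys : ∀ (g : Fin N → Option T) (a : T), y (sn g (some a)) = Y a g + X a g := by
    intro g a
    show (match (sn g (some a)) (Fin.last N) with
      | none => (0 : K)
      | some b => Y b (fun v => (sn g (some a)) v.castSucc) +
          X b (fun v => (sn g (some a)) v.castSucc)) = _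
    rw [sn_last]
    have h1 : (fun v : Fin N => (sn g (some a)) v.castSucc) = g := by
      funext v
      exact sn_castSucc g (some a) v
    show Y a (fun v => (sn g (some a)) v.castSucc) +
          X a (fun v => (sn g (some a)) v.castSucc) = _
    rw [h1]
  have hX0 : ∀ (a : T) (g : Fin N → Option T), a ∈ im g → X a g = 0 := by
    intro a g ha
    by_contra hne
    have h1 := (hX1 a g hne).1.im_eq
    rw [h1] at ha
    exact (Finset.notMem_erase a P) ha
  have hY0 : ∀ (a : T) (g : Fin N → Option T), a ∉ im g → Y a g = 0 := by
    intro a g ha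
    by_contra hne
    have h1 := (hY1 a g hne).1.im_eq
    rw [h1] at ha
    exact hne (hY2 a (Or.inl ha) g)
  refine ⟨y, ?_, ?_⟩
  · intro f hf
    obtain ⟨g, o, rfl⟩ : ∃ (g : Fin N → Option T) (o : Option T), f = sn g o :=
      ⟨_, _, exists_sn f⟩
    cases o with
    | none => exact absurd (hyn g) hf
    | some a =>
      rw [hys] at hf
      have hor : Y a g ≠ 0 ∨ X a g ≠ 0 := by
        by_contra hcon
        push Not at hcon
        exact hf (by rw [hcon.1, hcon.2, add_zero])
      have hmax : a ∈ P ∧ ∀ b ∈ P, ¬ R a b := by
        rcases hor with h | h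
        · by_contra hcon
          apply h
          apply hY2
          by_cases haP : a ∈ P
          · right
            by_contra hc2
            push Not at hc2
            exact hcon ⟨haP, hc2⟩
          · exact Or.inl haP
        · by_contra hcon
          apply h
          apply hX2
          by_cases haP : a ∈ P
          · right
            by_contra hc2
            push Not at hc2
            exact hcon ⟨haP, hc2⟩
          · exact Or.inl haP
      have key : insert a (im g) = P ∧ (∀ b c, R b c → sep g b c) ∧ sz g = P.card + d := by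
        rcases hor with h | h
        · obtain ⟨hc, hs⟩ := hY1 a g h
          refine ⟨?_, hc.sep, hs⟩
          rw [hc.im_eq]
          exact Finset.insert_eq_of_mem hmax.1
        · obtain ⟨hc, hs⟩ := hX1 a g h
          refine ⟨?_, hc.sep, hs⟩
          rw [hc.im_eq]
          exact Finset.insert_erase hmax.1
      constructor
      · rw [isCell_sn_some]
        refine ⟨key.1, key.2.1, ?_, hirr a hmax.1⟩
        intro b hb
        apply hmax.2
        rw [← key.1]
        exact Finset.mem_insert_of_mem hb
      · rw [sz_sn_some, key.2.2]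
  · intro f
    obtain ⟨g, o, rfl⟩ : ∃ (g : Fin N → Option T) (o : Option T), f = sn g o :=
      ⟨_, _, exists_sn f⟩
    cases o with
    | none =>
      rw [dInt_sn_none]
      have h1 : (fun g' : Fin N → Option T => y (sn g' none)) = fun _ => (0 : K) := by
        funext g'
        exact hyn g'
      rw [h1, P9_dInt_zero, zero_add, ← hY4 g]
      congr 1
      refine Finset.sum_congr rfl fun a _ => ?_
      by_cases ha : a ∈ im g
      · rw [if_pos ha, hys, hX0 a g ha, add_zero]
      · rw [if_neg ha, hY0 a g ha]
    | some a =>
      rw [dInt_sn_some]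
      have h1 : (fun g' : Fin N → Option T => y (sn g' (some a))) = fun g' => Y a g' + X a g' := by
        funext g'
        exact hys g' a
      rw [h1, P9_dInt_add, P9_rr_add, hY3, hX3]
      have h2 : rr a (X a) g = 0 := by
        unfold rr
        refine Finset.sum_eq_zero fun v _ => ?_
        split_ifs
        · rw [hX0 a _ (P9_mem_im_update g v a), mul_zero]
        · rfl
      rw [h2]
      split_ifs
      · ring
      · ring

end

end Pool.Agent.Helper5.NM
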