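import Pool.Agent.Helper5.NM.Defs
import Pool.Agent.Helper5.NM.P7
import Pool.Agent.Helper5.NM.P8
import Pool.Agent.Helper5.NM.P9

set_option autoImplicit false

open Finset Function

namespace Pool.Agent.Helper5.NM

section
variable {T : Type*} [Fintype T] [DecidableEq T] {K : Type*} [CommRing K]

/-! Module P10: the Pi-lemma. -/

theorem P10_none {N : ℕ} (f : Fin N → Option T) (h : im f = ∅) : f = fun _ => none := by
  funext v
  rcases hv : f v with _ | a
  · rfl
  · exfalso
    have : a ∈ im f := by
      unfold im
      rw [Finset.mem_filter]
      exact ⟨Finset.mem_univ _, v, hv⟩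
    rw [h] at this
    exact absurd this (Finset.notMem_empty a)

theorem piL (R : T → T → Prop) (key ρ : T → ℕ) (hkey : Injective key) (N : ℕ) :
    PiL K R key ρ N := by
  classical
  induction N with
  | zero =>
    intro P _ _ d z hN
    exact absurd hN (Nat.not_lt_zero _)
  | succ N ih =>
    intro P hρ hR d z hN hz hc ha
    rcases P.eq_empty_or_nonempty with rfl | hP
    · have hz0 : ∀ f, z f = 0 := by
        by_contra hcon
        push Not at hcon
        obtain ⟨f, hf⟩ := hcon
        obtain ⟨hcell, hsz⟩ := hz f hf
        have hfn := P10_none f hcell.im_eq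
        have hd : d = 0 := by
          have h1 : sz f = 0 := by
            rw [hfn]
            simp [sz]
          rw [h1] at hsz
          simp only [Finset.card_empty, zero_add] at hsz
          exact hsz.symm
        have h2 := ha hd
        unfold aug at h2
        rw [Finset.sum_eq_single (fun _ => none : Fin (N + 1) → Option T)] at h2
        · have h3 : invs key (fun _ => none : Fin (N + 1) → Option T) = 0 := by
            simp [invs]
          rw [h3, pow_zero, one_mul] at h2
          rw [hfn] at hf
          exact hf h2
        · intro g _ hg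
          by_contra hne
          have hzg : z g ≠ 0 := fun h => hne (by rw [h, mul_zero])
          exact hg (P10_none g (hz g hzg).1.im_eq)
        · intro h
          exact absurd (Finset.mem_univ _) h
      refine ⟨fun _ => 0, fun f hf => absurd rfl hf, fun g => ?_⟩
      rw [P9_dInt_zero, hz0 g]
    · obtain ⟨Y, hY1, hY2, hY3, hY4, hY5⟩ := step_Y R key ρ hkey ih P hρ hR hP d z hN hz hc ha
      obtain ⟨X, hX1, hX2, hX3⟩ := step_X R key ρ hkey ih P hρ hR d z hN hz hc Y hY1 hY2 hY3 hY5
      exact step_fin R P (fun a ha h => lt_irrefl _ (hR a ha a ha h)) d z hz Y X hY1 hY2 hY3 hY4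
        hX1 hX2 hX3

end

end Pool.Agent.Helper5.NM
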