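import Pool.Agent.Helper5.NM.Defs
import Pool.Agent.Helper5.NM.G6
import Pool.Agent.Helper5.NM.P3
import Pool.Agent.Helper5.NM.P10

set_option autoImplicit false

open Finset Function

namespace Pool.Agent.Helper5.NM

section
variable {n N : ℕ} {K : Type*} [CommRing K]

theorem key_injective : Injective (key : Tok n → ℕ) := by
  rintro ⟨x, p⟩ ⟨y, q⟩ h
  simp only [key] at h
  have hp := p.isLt
  have hq := q.isLt
  have h1 : x.val = y.val := by omega
  have h2 : p.val = q.val := by omega
  exact Prod.ext (Fin.ext h1) (Fin.ext h2)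

/-! Module G9: filling on canonical cells, type by type (Pi-lemma). -/

theorem G9_dInt_congr {z z' : Cel n N → K} (f : Cel n N)
    (h : ∀ v a, f v = none → a ∈ im f →
      z (update f v (some a)) = z' (update f v (some a))) :
    dInt z f = dInt z' f := by
  unfold dInt
  refine Finset.sum_congr rfl fun v _ => Finset.sum_congr rfl fun a _ => ?_
  by_cases hc : f v = none ∧ a ∈ im f
  · rw [if_pos hc, if_pos hc, h v a hc.1 hc.2]
  · rw [if_neg hc, if_neg hc]

theorem G9_dInt_zero (f : Cel n N) : dInt (fun _ => (0 : K)) f = 0 := by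
  unfold dInt
  refine Finset.sum_eq_zero fun v _ => Finset.sum_eq_zero fun a _ => ?_
  split_ifs <;> simp

theorem G9_nd_congr {t t' : Cel n N} (h : im t = im t') : nd t = nd t' := by
  unfold nd
  rw [h]

theorem G9_canon_congr {t t' : Cel n N} (hg : Good t) (hg' : Good t') (h : Rel t = Rel t')
    (hc : Canon t) : Canon t' := by
  rw [canon_iff t' hg', ← h]
  exact (canon_iff t hg).1 hc

theorem G9_type (s m : ℕ) (hN : m < N) (Ω : Cel n N → K)
    (h1 : ∀ t, Ω t ≠ 0 → Good t ∧ Canon t ∧ nd t = s ∧ sz t = m)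
    (h2 : ∀ t, dInt Ω t = 0) (h3 : m = 2 * n + s → AugZero s m Ω)
    (t0 : Cel n N) (hg : Good t0) (hs : nd t0 = s) :
    ∃ ψ : Cel n N → K, SuppIn (Rel t0) (im t0) (m + 1) ψ ∧
      ∀ g, dInt ψ g = restr (Rel t0) (im t0) Ω g := by
  classical
  have hz : SuppIn (Rel t0) (im t0) m (restr (Rel t0) (im t0) Ω) := by
    intro f hf
    unfold restr at hf
    by_cases hc : IsCell (Rel t0) (im t0) f
    · rw [if_pos hc] at hf
      exact ⟨hc, (h1 f hf).2.2.2⟩
    · rw [if_neg hc] at hf
      exact absurd rfl hf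
  have hc : ∀ g, dInt (restr (Rel t0) (im t0) Ω) g = 0 := by
    intro g
    by_cases hcg : IsCell (Rel t0) (im t0) g
    · rw [← h2 g]
      obtain ⟨gg, gi, gr⟩ := good_of_isCell t0 g hg hcg
      refine G9_dInt_congr g fun v a hv ha => ?_
      unfold restr
      by_cases hcu : IsCell (Rel t0) (im t0) (update g v (some a))
      · rw [if_pos hcu]
      · rw [if_neg hcu]
        by_contra hne
        have hu := h1 _ (Ne.symm hne)
        obtain ⟨_, ui, ur⟩ := good_update g v a hv ha hu.1
        apply hcu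
        have := isCell_self (update g v (some a))
        rw [← ur, ← ui, gr, gi] at this
        exact this
    · rw [← G9_dInt_zero (K := K) g]
      refine G9_dInt_congr g fun v a hv ha => ?_
      by_contra hne
      unfold restr at hne
      by_cases hcu : IsCell (Rel t0) (im t0) (update g v (some a))
      · rw [if_pos hcu] at hne
        have hu := h1 _ hne
        obtain ⟨_, ui, ur⟩ := good_update g v a hv ha hu.1
        obtain ⟨_, wi, wr⟩ := good_of_isCell t0 _ hg hcu
        apply hcg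
        have := isCell_self g
        rw [ur, ui, wr, wi] at this
        exact this
      · rw [if_neg hcu] at hne
        exact hne rfl
  by_cases hm : m < (im t0).card
  · refine ⟨fun _ => 0, fun f hf => absurd rfl hf, fun g => ?_⟩
    rw [G9_dInt_zero]
    by_contra hne
    obtain ⟨hcell, hsz⟩ := hz g (Ne.symm hne)
    have := card_im_le_sz g
    rw [hcell.im_eq] at this
    omega
  · obtain ⟨ρ, hρ1, hρ2⟩ := exists_rho t0
    have hd : (im t0).card + (m - (im t0).card) = m := by omega
    have hpi := piL (K := K) (Rel t0) key ρ key_injective N (im t0) hρ1 hρ2 (m - (im t0).card)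
      (restr (Rel t0) (im t0) Ω)
    rw [hd] at hpi
    refine hpi hN hz hc ?_
    intro hd0
    have hm2 : m = 2 * n + s := by
      have := card_im t0 hg
      omega
    by_cases hz0 : ∃ f, restr (Rel t0) (im t0) Ω f ≠ 0
    · obtain ⟨f, hf⟩ := hz0
      obtain ⟨hcell, hsz⟩ := hz f hf
      have hΩ : Ω f ≠ 0 := by
        unfold restr at hf
        rw [if_pos hcell] at hf
        exact hf
      obtain ⟨a1, a2, a3, a4⟩ := h1 f hΩ
      have := h3 hm2 f a1 a2 a3 a4
      obtain ⟨_, wi, wr⟩ := good_of_isCell t0 f hg hcell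
      rw [wi, wr] at this
      exact this
    · push Not at hz0
      unfold aug
      refine Finset.sum_eq_zero fun f _ => ?_
      rw [hz0 f, mul_zero]

theorem fill_types (s m : ℕ) (hN : m < N) (Ω : Cel n N → K)
    (h1 : ∀ t, Ω t ≠ 0 → Good t ∧ Canon t ∧ nd t = s ∧ sz t = m)
    (h2 : ∀ t, dInt Ω t = 0) (h3 : m = 2 * n + s → AugZero s m Ω) :
    ∃ Ψ : Cel n N → K, (∀ t, Ψ t ≠ 0 → Good t ∧ Canon t ∧ nd t = s ∧ sz t = m + 1) ∧
      ∀ t, dInt Ψ t = Ω t := by
  classical
  have hex : ∀ (P : Finset (Tok n)) (R : Tok n → Tok n → Prop), ∃ ψ : Cel n N → K,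
      (∃ t0 : Cel n N, Good t0 ∧ nd t0 = s ∧ im t0 = P ∧ Rel t0 = R) →
        SuppIn R P (m + 1) ψ ∧ ∀ g, dInt ψ g = restr R P Ω g := by
    intro P R
    by_cases h : ∃ t0 : Cel n N, Good t0 ∧ nd t0 = s ∧ im t0 = P ∧ Rel t0 = R
    · obtain ⟨t0, hg, hs, rfl, rfl⟩ := h
      obtain ⟨ψ, hψ⟩ := G9_type s m hN Ω h1 h2 h3 t0 hg hs
      exact ⟨ψ, fun _ => hψ⟩
    · exact ⟨fun _ => 0, fun h' => absurd h' h⟩
  choose ψ hψ using hex
  refine ⟨fun t => if Good t ∧ Canon t ∧ nd t = s then ψ (im t) (Rel t) t else 0, ?_, ?_⟩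
  · intro t ht
    by_cases hc : Good t ∧ Canon t ∧ nd t = s
    · simp only [if_pos hc] at ht
      obtain ⟨a1, a2, a3⟩ := hc
      exact ⟨a1, a2, a3, ((hψ (im t) (Rel t) ⟨t, a1, a3, rfl, rfl⟩).1 t ht).2⟩
    · simp only [if_neg hc] at ht
      exact absurd rfl ht
  · intro f
    by_cases hc : Good f ∧ Canon f ∧ nd f = s
    · obtain ⟨a1, a2, a3⟩ := hc
      obtain ⟨b1, b2⟩ := hψ (im f) (Rel f) ⟨f, a1, a3, rfl, rfl⟩
      have e1 : Ω f = restr (Rel f) (im f) Ω f := by
        unfold restr
        rw [if_pos (isCell_self f)]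
      rw [e1, ← b2 f]
      refine G9_dInt_congr f fun v a hv ha => ?_
      by_cases hu : Good (update f v (some a)) ∧ Canon (update f v (some a)) ∧
          nd (update f v (some a)) = s
      · simp only [if_pos hu]
        obtain ⟨_, ui, ur⟩ := good_update f v a hv ha hu.1
        rw [ui, ur]
      · simp only [if_neg hu]
        by_contra hne
        obtain ⟨hcell, _⟩ := b1 _ (Ne.symm hne)
        obtain ⟨w1, wi, wr⟩ := good_of_isCell f _ a1 hcell
        exact hu ⟨w1, G9_canon_congr a1 w1 wr.symm a2, by rw [G9_nd_congr wi, a3]⟩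
    · have e1 : Ω f = 0 := by
        by_contra hne
        obtain ⟨a1, a2, a3, _⟩ := h1 f hne
        exact hc ⟨a1, a2, a3⟩
      rw [e1]
      refine (G9_dInt_congr (z' := fun _ => (0 : K)) f fun v a hv ha => ?_).trans
        (G9_dInt_zero f)
      by_cases hu : Good (update f v (some a)) ∧ Canon (update f v (some a)) ∧
          nd (update f v (some a)) = s
      · exfalso
        obtain ⟨u1, u2, u3⟩ := hu
        obtain ⟨w1, ui, ur⟩ := good_update f v a hv ha u1
        exact hc ⟨w1, G9_canon_congr u1 w1 ur.symm u2, by rw [G9_nd_congr ui, u3]⟩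
      · simp only [if_neg hu]

end

end Pool.Agent.Helper5.NM
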