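import Pool.Agent.Helper5.NM.Defs
import Pool.Agent.Helper5.NM.G5
import Pool.Agent.Helper5.NM.G6
import Pool.Agent.Helper5.NM.G8
import Pool.Agent.Helper5.NM.G9

set_option autoImplicit false

open Finset Function

namespace Pool.Agent.Helper5.NM

section
variable {n N : ℕ} {K : Type*} [CommRing K]

/-! Module G10: antisymmetric filling. -/

theorem G10_canon_eq (f g : Cel n N) (hf : Good f) (hg : Good g) (h : Rel f = Rel g) :
    Canon f ↔ Canon g := by
  rw [canon_iff f hf, canon_iff g hg, h]

theorem G10_dInt_sum {ι : Type*} (s : Finset ι) (c : ι → K) (z : ι → Cel n N → K) (f : Cel n N) :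
    dInt (fun t => ∑ i ∈ s, c i * z i t) f = ∑ i ∈ s, c i * dInt (z i) f := by
  unfold dInt
  simp only [Finset.mul_sum]
  rw [Finset.sum_comm]
  conv_rhs => rw [Finset.sum_comm]
  rw [Finset.sum_comm]
  refine Finset.sum_congr rfl fun v _ => ?_
  conv_rhs => rw [Finset.sum_comm]
  refine Finset.sum_congr rfl fun a _ => ?_
  split_ifs with h
  · refine Finset.sum_congr rfl fun i _ => ?_
    ring
  · simp

open Classical in
theorem G10_canonPart (Ω : Cel n N → K) (hgood : ∀ t, Ω t ≠ 0 → Good t) (f : Cel n N) :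
    dInt (fun t => if Canon t then Ω t else 0) f = if Canon f then dInt Ω f else 0 := by
  have key : ∀ v a, f v = none → a ∈ im f →
      (if Canon (update f v (some a)) then Ω (update f v (some a)) else 0)
        = if Canon f then Ω (update f v (some a)) else 0 := by
    intro v a hv ha
    by_cases h0 : Ω (update f v (some a)) = 0
    · simp [h0]
    · have hg := hgood _ h0
      obtain ⟨hgf, _, hR⟩ := good_update f v a hv ha hg
      have := G10_canon_eq f _ hgf hg hR
      simp only [this]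
  unfold dInt
  by_cases hc : Canon f
  · rw [if_pos hc]
    refine Finset.sum_congr rfl fun v _ => Finset.sum_congr rfl fun a _ => ?_
    by_cases h1 : f v = none ∧ a ∈ im f
    · have := key v a h1.1 h1.2
      rw [if_pos hc] at this
      simp only [if_pos h1]
      rw [this]
    · simp only [if_neg h1]
  · rw [if_neg hc]
    refine Finset.sum_eq_zero fun v _ => Finset.sum_eq_zero fun a _ => ?_
    by_cases h1 : f v = none ∧ a ∈ im f
    · have := key v a h1.1 h1.2
      rw [if_neg hc] at this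
      simp only [if_pos h1]
      rw [this, mul_zero]
    · simp only [if_neg h1]

theorem fill_anti (s m : ℕ) (hN : m < N) (Ω : Cel n N → K) (hA : AntiS Ω)
    (h1 : ∀ t, Ω t ≠ 0 → Good t ∧ nd t = s ∧ sz t = m)
    (h2 : ∀ t, dInt Ω t = 0) (h3 : m = 2 * n + s → AugZero s m Ω) :
    ∃ Ψ : Cel n N → K, AntiS Ψ ∧ (∀ t, Ψ t ≠ 0 → Good t ∧ nd t = s ∧ sz t = m + 1) ∧
      ∀ t, dInt Ψ t = Ω t := by
  classical
  set Ωc : Cel n N → K := fun t => if Canon t then Ω t else 0 with hΩc
  have e1 : ∀ t, Ωc t ≠ 0 → Good t ∧ Canon t ∧ nd t = s ∧ sz t = m := by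
    intro t ht
    by_cases hc : Canon t
    · simp only [hΩc, if_pos hc] at ht
      obtain ⟨a, b, c⟩ := h1 t ht
      exact ⟨a, hc, b, c⟩
    · simp only [hΩc, if_neg hc] at ht
      exact absurd rfl ht
  have e2 : ∀ t, dInt Ωc t = 0 := by
    intro t
    rw [hΩc, G10_canonPart Ω (fun t ht => (h1 t ht).1) t, h2 t, ite_self]
  have e3 : m = 2 * n + s → AugZero s m Ωc := by
    intro hm t hg hc hnd hsz
    have h := h3 hm t hg hc hnd hsz
    have hr : restr (Rel t) (im t) Ωc = restr (Rel t) (im t) Ω := by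
      funext f
      unfold restr
      by_cases hf : IsCell (Rel t) (im t) f
      · rw [if_pos hf, if_pos hf]
        obtain ⟨hgf, _, hR⟩ := good_of_isCell t f hg hf
        have : Canon f := (G10_canon_eq f t hgf hg hR).2 hc
        simp only [hΩc, if_pos this]
      · rw [if_neg hf, if_neg hf]
    rw [hr]; exact h
  obtain ⟨Ψc, p1, p2⟩ := fill_types s m hN Ωc e1 e2 e3
  refine ⟨fun t => ∑ σ : Equiv.Perm (Fin n), ((Equiv.Perm.sign σ : ℤ) : K) * Ψc (act σ⁻¹ t),
    ?_, ?_, ?_⟩
  · intro τ t
    simp only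
    rw [← Equiv.sum_comp (Equiv.mulLeft τ), Finset.mul_sum]
    refine Finset.sum_congr rfl fun ρ _ => ?_
    simp only [Equiv.coe_mulLeft]
    have : act (τ * ρ)⁻¹ (act τ t) = act ρ⁻¹ t := by
      rw [← act_mul]
      congr 1
      group
    rw [this]
    simp only [Equiv.Perm.sign_mul, Units.val_mul, Int.cast_mul]
    ring
  · intro t ht
    obtain ⟨σ, _, hσ⟩ := Finset.exists_ne_zero_of_sum_ne_zero ht
    have h' : Ψc (act σ⁻¹ t) ≠ 0 := fun h => hσ (by rw [h, mul_zero])
    obtain ⟨a, _, b, c⟩ := p1 _ h'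
    exact ⟨(good_act _ _).1 a, by rwa [nd_act] at b, by rwa [sz_act] at c⟩
  · intro t
    rw [G10_dInt_sum (Finset.univ) (fun σ : Equiv.Perm (Fin n) => ((Equiv.Perm.sign σ : ℤ) : K))
      (fun σ t => Ψc (act σ⁻¹ t)) t]
    have hs : ∀ σ : Equiv.Perm (Fin n), dInt (fun t => Ψc (act σ⁻¹ t)) t = Ωc (act σ⁻¹ t) := by
      intro σ
      rw [dInt_act, p2]
    simp only [hs]
    by_cases hg : Good t
    · obtain ⟨σ0, hσ0, huniq⟩ := canon_perm t hg
      rw [Finset.sum_eq_single σ0]
      · simp only [hΩc]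
        rw [if_pos hσ0, hA, ← mul_assoc, ← Int.cast_mul, ← Units.val_mul, ← Equiv.Perm.sign_mul,
          mul_inv_cancel, Equiv.Perm.sign_one]
        simp
      · intro σ _ hne
        have : ¬ Canon (act σ⁻¹ t) := fun h => hne (huniq σ h)
        simp only [hΩc, if_neg this, mul_zero]
      · intro h; exact absurd (Finset.mem_univ _) h
    · have h0 : Ω t = 0 := by
        by_contra h
        exact hg (h1 t h).1
      rw [h0]
      refine Finset.sum_eq_zero fun σ _ => ?_
      simp only [hΩc]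
      split_ifs with hc
      · rw [hA, h0]; simp
      · simp

end

end Pool.Agent.Helper5.NM
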