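import Pool.Agent.Helper5.NM.Defs

set_option autoImplicit false

open Finset Function

namespace Pool.Agent.Helper5.NM

section
variable {n N : ℕ} {K : Type*} [CommRing K]

/-! Module G2: facts on `splitL`, `splitR`. -/

private theorem G2_mem_im {T : Type*} [Fintype T] [DecidableEq T] (f : Fin N → Option T) (a : T) :
    a ∈ im f ↔ ∃ i, f i = some a := by
  simp [im]

/-- common form of `splitL`, `splitR` -/
private def G2_spl (q : Fin 3) (t : Cel n N) (x : Fin n) (v : Fin N) : Cel n N :=
  fun j => if j = v then some (x, q) else if t j = some (x, q) then some (x, 1) else t j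

private theorem G2_im (q : Fin 3) (t : Cel n N) (x : Fin n) (v : Fin N) (hv : t v = none)
    (hx : (x, q) ∈ im t) : im (G2_spl q t x v) = insert (x, 1) (im t) := by
  ext a
  rw [Finset.mem_insert, G2_mem_im, G2_mem_im]
  rw [G2_mem_im] at hx
  constructor
  · rintro ⟨j, hj⟩
    unfold G2_spl at hj
    split_ifs at hj with h1 h2
    · right
      rw [← Option.some.inj hj]
      exact hx
    · left
      exact (Option.some.inj hj).symm
    · exact Or.inr ⟨j, hj⟩
  · rintro (rfl | ⟨j, hj⟩)
    · obtain ⟨j, hj⟩ := hx
      refine ⟨j, ?_⟩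
      have hjv : j ≠ v := by
        rintro rfl
        rw [hv] at hj
        cases hj
      simp [G2_spl, hjv, hj]
    · by_cases ha : a = (x, q)
      · exact ⟨v, by simp [G2_spl, ha]⟩
      · have hjv : j ≠ v := by
          rintro rfl
          rw [hv] at hj
          cases hj
        refine ⟨j, ?_⟩
        simp only [G2_spl, hjv, if_false, hj, Option.some.injEq, ha]

private theorem G2_none (q : Fin 3) (t : Cel n N) (x : Fin n) (v j : Fin N) :
    G2_spl q t x v j = none ↔ j ≠ v ∧ t j = none := by
  unfold G2_spl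
  by_cases h1 : j = v
  · simp [h1]
  · by_cases h2 : t j = some (x, q)
    · simp [h1, h2]
    · simp [h1, h2]

private theorem G2_sz (q : Fin 3) (t : Cel n N) (x : Fin n) (v : Fin N) (hv : t v = none) :
    sz (G2_spl q t x v) = sz t + 1 := by
  unfold sz
  have h : (univ.filter fun i => G2_spl q t x v i ≠ none) =
      insert v (univ.filter fun i => t i ≠ none) := by
    ext j
    simp only [Finset.mem_filter, Finset.mem_univ, true_and, Finset.mem_insert, ne_eq, G2_none]
    tauto
  rw [h, Finset.card_insert_of_notMem]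
  simp [hv]

private theorem G2_bef (q : Fin 3) (t : Cel n N) (x : Fin n) (v j : Fin N) (hv : t v = none) :
    bef (G2_spl q t x v) j = bef t j + if v < j then 1 else 0 := by
  unfold bef
  by_cases hvj : v < j
  · rw [if_pos hvj]
    have h : (univ.filter fun i => i < j ∧ G2_spl q t x v i ≠ none) =
        insert v (univ.filter fun i => i < j ∧ t i ≠ none) := by
      ext i
      simp only [Finset.mem_filter, Finset.mem_univ, true_and, Finset.mem_insert, ne_eq, G2_none]
      by_cases hi : i = v
      · subst hi
        simp [hvj]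
      · simp [hi]
    rw [h, Finset.card_insert_of_notMem]
    simp [hv]
  · rw [if_neg hvj, add_zero]
    congr 1
    ext i
    simp only [Finset.mem_filter, Finset.mem_univ, true_and, ne_eq, G2_none]
    by_cases hi : i = v
    · subst hi
      simp [hvj]
    · simp [hi]

private theorem G2_nd {t t' : Cel n N} {x : Fin n} (h : im t' = insert (x, 1) (im t))
    (hx : (x, (1 : Fin 3)) ∉ im t) : nd t' = nd t + 1 := by
  unfold nd
  have e : (univ.filter fun y : Fin n => (y, (1 : Fin 3)) ∈ im t') =
      insert x (univ.filter fun y : Fin n => (y, (1 : Fin 3)) ∈ im t) := by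
    ext y
    simp [h]
  rw [e, Finset.card_insert_of_notMem]
  simp [hx]

private theorem G2_sgl {t t' : Cel n N} {x : Fin n} (h : im t' = insert (x, 1) (im t))
    (y : Fin n) : Sgl t' y ↔ y ≠ x ∧ Sgl t y := by
  unfold Sgl
  rw [h]
  simp only [Finset.mem_insert, Prod.mk.injEq]
  have h1 : ¬ ((0 : Fin 3) = 1) := by decide
  have h2 : ¬ ((2 : Fin 3) = 1) := by decide
  simp only [h1, h2, and_false, false_or, and_true]
  tauto

theorem im_splitL (t : Cel n N) (x : Fin n) (v : Fin N) (hv : t v = none) (hx : Sgl t x) :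
    im (splitL t x v) = insert (x, 1) (im t) := G2_im 0 t x v hv hx.1

theorem im_splitR (t : Cel n N) (x : Fin n) (v : Fin N) (hv : t v = none) (hx : Sgl t x) :
    im (splitR t x v) = insert (x, 1) (im t) := G2_im 2 t x v hv hx.2.2

theorem sz_splitL (t : Cel n N) (x : Fin n) (v : Fin N) (hv : t v = none) :
    sz (splitL t x v) = sz t + 1 := G2_sz 0 t x v hv

theorem sz_splitR (t : Cel n N) (x : Fin n) (v : Fin N) (hv : t v = none) :
    sz (splitR t x v) = sz t + 1 := G2_sz 2 t x v hv

theorem splitL_eq_none (t : Cel n N) (x : Fin n) (v j : Fin N) :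
    splitL t x v j = none ↔ j ≠ v ∧ t j = none := G2_none 0 t x v j

theorem splitR_eq_none (t : Cel n N) (x : Fin n) (v j : Fin N) :
    splitR t x v j = none ↔ j ≠ v ∧ t j = none := G2_none 2 t x v j

theorem bef_splitL (t : Cel n N) (x : Fin n) (v j : Fin N) (hv : t v = none) :
    bef (splitL t x v) j = bef t j + if v < j then 1 else 0 := G2_bef 0 t x v j hv

theorem bef_splitR (t : Cel n N) (x : Fin n) (v j : Fin N) (hv : t v = none) :
    bef (splitR t x v) j = bef t j + if v < j then 1 else 0 := G2_bef 2 t x v j hv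

theorem nd_splitL (t : Cel n N) (x : Fin n) (v : Fin N) (hv : t v = none) (hx : Sgl t x) :
    nd (splitL t x v) = nd t + 1 := G2_nd (im_splitL t x v hv hx) hx.2.1

theorem nd_splitR (t : Cel n N) (x : Fin n) (v : Fin N) (hv : t v = none) (hx : Sgl t x) :
    nd (splitR t x v) = nd t + 1 := G2_nd (im_splitR t x v hv hx) hx.2.1

theorem nd_update (t : Cel n N) (v : Fin N) (a : Tok n) (hv : t v = none) (ha : a ∈ im t) :
    nd (update t v (some a)) = nd t := by
  have h : im (update t v (some a)) = im t := by
    ext b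
    rw [G2_mem_im, G2_mem_im]
    constructor
    · rintro ⟨j, hj⟩
      by_cases hjv : j = v
      · subst hjv
        rw [update_self] at hj
        rw [← Option.some.inj hj]
        exact (G2_mem_im t a).1 ha
      · rw [update_of_ne hjv] at hj
        exact ⟨j, hj⟩
    · rintro ⟨j, hj⟩
      refine ⟨j, ?_⟩
      rw [update_of_ne, hj]
      rintro rfl
      rw [hv] at hj
      cases hj
  unfold nd
  rw [h]

/-- other labels stay single -/
theorem sgl_splitL (t : Cel n N) (x y : Fin n) (v : Fin N) (hv : t v = none) (hx : Sgl t x) :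
    Sgl (splitL t x v) y ↔ y ≠ x ∧ Sgl t y := G2_sgl (im_splitL t x v hv hx) y

theorem sgl_splitR (t : Cel n N) (x y : Fin n) (v : Fin N) (hv : t v = none) (hx : Sgl t x) :
    Sgl (splitR t x v) y ↔ y ≠ x ∧ Sgl t y := G2_sgl (im_splitR t x v hv hx) y

end

end Pool.Agent.Helper5.NM
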