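import Pool.Agent.Helper5.NM.Defs
import Pool.Agent.Helper5.NM.G2

set_option autoImplicit false

open Finset Function

namespace Pool.Agent.Helper5.NM

section
variable {n N : ℕ} {K : Type*} [CommRing K]

/-! Module G3: `dExt` squares to zero (for every function). -/

theorem G3_anti_sum (G : Fin N → Fin N → K) (h : ∀ v v', G v v' + G v' v = 0)
    (h0 : ∀ v, G v v = 0) : ∑ v, ∑ v', G v v' = 0 := by
  rw [← Finset.sum_product']
  refine Finset.sum_involution (fun p _ => (p.2, p.1)) ?_ ?_ ?_ ?_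
  · rintro ⟨v, v'⟩ _
    exact h v v'
  · rintro ⟨v, v'⟩ _ hne heq
    apply hne
    have h1 : v' = v := congrArg Prod.fst heq
    subst h1
    exact h0 v'
  · rintro ⟨v, v'⟩ _
    simp
  · rintro ⟨v, v'⟩ _
    rfl

/-- the sign of adding `v` and then `v'` -/
def G3_E (K : Type*) [CommRing K] (t : Cel n N) (v v' : Fin N) : K :=
  if t v = none ∧ t v' = none ∧ v ≠ v' then
    (-1 : K) ^ bef t v * (-1 : K) ^ (bef t v' + if v < v' then 1 else 0) else 0

theorem G3_E_pos (t : Cel n N) {v v' : Fin N} (h : t v = none ∧ t v' = none ∧ v ≠ v') :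
    G3_E K t v v' = (-1 : K) ^ bef t v * (-1 : K) ^ (bef t v' + if v < v' then 1 else 0) :=
  if_pos h

theorem G3_E_neg (t : Cel n N) {v v' : Fin N} (h : ¬ (t v = none ∧ t v' = none ∧ v ≠ v')) :
    G3_E K t v v' = 0 := if_neg h

theorem G3_E_anti (t : Cel n N) (v v' : Fin N) : G3_E K t v v' + G3_E K t v' v = 0 := by
  unfold G3_E
  by_cases h : t v = none ∧ t v' = none ∧ v ≠ v'
  · have h' : t v' = none ∧ t v = none ∧ v' ≠ v := ⟨h.2.1, h.1, h.2.2.symm⟩
    rw [if_pos h, if_pos h']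
    rcases lt_or_gt_of_ne h.2.2 with h1 | h1
    · rw [if_pos h1, if_neg (not_lt.2 h1.le)]
      ring
    · rw [if_neg (not_lt.2 h1.le), if_pos h1]
      ring
  · have h' : ¬ (t v' = none ∧ t v = none ∧ v' ≠ v) := fun h1 => h ⟨h1.2.1, h1.1, h1.2.2.symm⟩
    rw [if_neg h, if_neg h', add_zero]

theorem G3_E_self (t : Cel n N) (v : Fin N) : G3_E K t v v = 0 := by
  unfold G3_E
  simp

/-- the two splits commute -/
theorem G3_LL (t : Cel n N) {x x' : Fin n} {v v' : Fin N} (hx : x ≠ x') (hv : v ≠ v') :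
    splitL (splitL t x v) x' v' = splitL (splitL t x' v') x v := by
  funext j
  unfold splitL
  by_cases h1 : j = v'
  · subst h1
    simp [hv.symm, hx.symm]
  · by_cases h2 : j = v
    · subst h2
      simp [hv, hx]
    · simp only [h1, h2, if_false]
      by_cases h3 : t j = some (x, 0)
      · simp [h3, hx]
      · by_cases h4 : t j = some (x', 0)
        · simp [h4, hx.symm]
        · simp [h3, h4]

theorem G3_RR (t : Cel n N) {x x' : Fin n} {v v' : Fin N} (hx : x ≠ x') (hv : v ≠ v') :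
    splitR (splitR t x v) x' v' = splitR (splitR t x' v') x v := by
  funext j
  unfold splitR
  by_cases h1 : j = v'
  · subst h1
    simp [hv.symm, hx.symm]
  · by_cases h2 : j = v
    · subst h2
      simp [hv, hx]
    · simp only [h1, h2, if_false]
      by_cases h3 : t j = some (x, 2)
      · simp [h3, hx]
      · by_cases h4 : t j = some (x', 2)
        · simp [h4, hx.symm]
        · simp [h3, h4]

theorem G3_LR (t : Cel n N) {x x' : Fin n} {v v' : Fin N} (hx : x ≠ x') (hv : v ≠ v') :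
    splitR (splitL t x v) x' v' = splitL (splitR t x' v') x v := by
  funext j
  unfold splitR splitL
  by_cases h1 : j = v'
  · subst h1
    simp [hv.symm, hx.symm]
  · by_cases h2 : j = v
    · subst h2
      simp [hv, hx]
    · simp only [h1, h2, if_false]
      by_cases h3 : t j = some (x, 0)
      · simp [h3, hx]
      · by_cases h4 : t j = some (x', 2)
        · simp [h4, hx.symm]
        · simp [h3, h4]

theorem G3_dExt_splitL (z : Cel n N → K) (t : Cel n N) (x : Fin n) (v : Fin N) (hv : t v = none)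
    (hx : Sgl t x) : dExt z (splitL t x v) = ∑ v', ∑ x',
      if t v' = none ∧ v ≠ v' ∧ x ≠ x' ∧ Sgl t x' then
        (-1 : K) ^ (bef t v' + if v < v' then 1 else 0) *
          (z (splitL (splitL t x v) x' v') - z (splitR (splitL t x v) x' v')) else 0 := by
  unfold dExt
  refine Finset.sum_congr rfl fun v' _ => Finset.sum_congr rfl fun x' _ => ?_
  rw [bef_splitL t x v v' hv]
  refine if_congr ?_ rfl rfl
  rw [splitL_eq_none, sgl_splitL t x x' v hv hx]
  constructor
  · rintro ⟨⟨h1, h2⟩, h3, h4⟩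
    exact ⟨h2, h1.symm, h3.symm, h4⟩
  · rintro ⟨h1, h2, h3, h4⟩
    exact ⟨⟨h2.symm, h1⟩, h3.symm, h4⟩

theorem G3_dExt_splitR (z : Cel n N → K) (t : Cel n N) (x : Fin n) (v : Fin N) (hv : t v = none)
    (hx : Sgl t x) : dExt z (splitR t x v) = ∑ v', ∑ x',
      if t v' = none ∧ v ≠ v' ∧ x ≠ x' ∧ Sgl t x' then
        (-1 : K) ^ (bef t v' + if v < v' then 1 else 0) *
          (z (splitL (splitR t x v) x' v') - z (splitR (splitR t x v) x' v')) else 0 := by
  unfold dExt
  refine Finset.sum_congr rfl fun v' _ => Finset.sum_congr rfl fun x' _ => ?_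
  rw [bef_splitR t x v v' hv]
  refine if_congr ?_ rfl rfl
  rw [splitR_eq_none, sgl_splitR t x x' v hv hx]
  constructor
  · rintro ⟨⟨h1, h2⟩, h3, h4⟩
    exact ⟨h2, h1.symm, h3.symm, h4⟩
  · rintro ⟨h1, h2, h3, h4⟩
    exact ⟨⟨h2.symm, h1⟩, h3.symm, h4⟩

/-- the symmetric part -/
def G3_F (z : Cel n N → K) (t : Cel n N) (v v' : Fin N) : K :=
  ∑ x, ∑ x', if Sgl t x ∧ Sgl t x' ∧ x ≠ x' then
    (z (splitL (splitL t x v) x' v') - z (splitR (splitL t x v) x' v')) -
      (z (splitL (splitR t x v) x' v') - z (splitR (splitR t x v) x' v')) else 0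

theorem G3_F_symm (z : Cel n N → K) (t : Cel n N) {v v' : Fin N} (hv : v ≠ v') :
    G3_F z t v v' = G3_F z t v' v := by
  unfold G3_F
  rw [Finset.sum_comm]
  refine Finset.sum_congr rfl fun x' _ => Finset.sum_congr rfl fun x _ => ?_
  by_cases h : Sgl t x ∧ Sgl t x' ∧ x ≠ x'
  · have h' : Sgl t x' ∧ Sgl t x ∧ x' ≠ x := ⟨h.2.1, h.1, h.2.2.symm⟩
    rw [if_pos h, if_pos h', G3_LL t h.2.2 hv, G3_RR t h.2.2 hv, G3_LR t h.2.2 hv,
      ← G3_LR t h.2.2.symm hv.symm]
    ring
  · have h' : ¬ (Sgl t x' ∧ Sgl t x ∧ x' ≠ x) := fun h1 => h ⟨h1.2.1, h1.1, h1.2.2.symm⟩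
    rw [if_neg h, if_neg h']

theorem G3_def (z : Cel n N → K) (t : Cel n N) : dExt z t = ∑ v, ∑ x,
    if t v = none ∧ Sgl t x then
      (-1 : K) ^ bef t v * (z (splitL t x v) - z (splitR t x v)) else 0 := rfl

theorem dExt_dExt (z : Cel n N → K) (t : Cel n N) : dExt (dExt z) t = 0 := by
  have key : dExt (dExt z) t = ∑ v, ∑ v', G3_E K t v v' * G3_F z t v v' := by
    refine (G3_def (dExt z) t).trans ?_
    refine Finset.sum_congr rfl fun v _ => ?_
    by_cases hv : t v = none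
    swap
    · rw [Finset.sum_eq_zero, Finset.sum_eq_zero]
      · intro v' _
        rw [G3_E_neg t (fun h => hv h.1), zero_mul]
      · intro x _
        rw [if_neg (fun h => hv h.1)]
    have e1 : ∀ x, (if t v = none ∧ Sgl t x then (-1 : K) ^ bef t v *
        (dExt z (splitL t x v) - dExt z (splitR t x v)) else 0) =
        ∑ v', ∑ x', if t v' = none ∧ v ≠ v' ∧ x ≠ x' ∧ Sgl t x' ∧ Sgl t x then
          (-1 : K) ^ bef t v * (-1 : K) ^ (bef t v' + if v < v' then 1 else 0) *
          ((z (splitL (splitL t x v) x' v') - z (splitR (splitL t x v) x' v')) -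
            (z (splitL (splitR t x v) x' v') - z (splitR (splitR t x v) x' v'))) else 0 := by
      intro x
      by_cases hx : Sgl t x
      · rw [if_pos ⟨hv, hx⟩, G3_dExt_splitL z t x v hv hx, G3_dExt_splitR z t x v hv hx,
          ← Finset.sum_sub_distrib, Finset.mul_sum]
        refine Finset.sum_congr rfl fun v' _ => ?_
        rw [← Finset.sum_sub_distrib, Finset.mul_sum]
        refine Finset.sum_congr rfl fun x' _ => ?_
        by_cases h : t v' = none ∧ v ≠ v' ∧ x ≠ x' ∧ Sgl t x'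
        · have h5 : t v' = none ∧ v ≠ v' ∧ x ≠ x' ∧ Sgl t x' ∧ Sgl t x :=
            ⟨h.1, h.2.1, h.2.2.1, h.2.2.2, hx⟩
          simp only [if_pos h, if_pos h5]
          ring
        · have h5 : ¬ (t v' = none ∧ v ≠ v' ∧ x ≠ x' ∧ Sgl t x' ∧ Sgl t x) :=
            fun h1 => h ⟨h1.1, h1.2.1, h1.2.2.1, h1.2.2.2.1⟩
          simp only [if_neg h, if_neg h5]
          ring
      · rw [if_neg (fun h => hx h.2)]
        symm
        refine Finset.sum_eq_zero fun v' _ => Finset.sum_eq_zero fun x' _ => ?_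
        rw [if_neg (fun h => hx h.2.2.2.2)]
    rw [Finset.sum_congr rfl fun x _ => e1 x, Finset.sum_comm]
    refine Finset.sum_congr rfl fun v' _ => ?_
    unfold G3_F
    by_cases h : t v' = none ∧ v ≠ v'
    · rw [G3_E_pos t ⟨hv, h.1, h.2⟩, Finset.mul_sum]
      refine Finset.sum_congr rfl fun x _ => ?_
      rw [Finset.mul_sum]
      refine Finset.sum_congr rfl fun x' _ => ?_
      by_cases h1 : Sgl t x ∧ Sgl t x' ∧ x ≠ x'
      · have h5 : t v' = none ∧ v ≠ v' ∧ x ≠ x' ∧ Sgl t x' ∧ Sgl t x :=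
          ⟨h.1, h.2, h1.2.2, h1.2.1, h1.1⟩
        simp only [if_pos h1, if_pos h5]
      · have h5 : ¬ (t v' = none ∧ v ≠ v' ∧ x ≠ x' ∧ Sgl t x' ∧ Sgl t x) :=
          fun h2 => h1 ⟨h2.2.2.2.2, h2.2.2.2.1, h2.2.2.1⟩
        simp only [if_neg h1, if_neg h5, mul_zero]
    · rw [G3_E_neg t (fun h1 => h ⟨h1.2.1, h1.2.2⟩), zero_mul]
      refine Finset.sum_eq_zero fun x _ => Finset.sum_eq_zero fun x' _ => ?_
      rw [if_neg (fun h1 => h ⟨h1.1, h1.2.1⟩)]
  rw [key]
  apply G3_anti_sum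
  · intro v v'
    by_cases hv : v = v'
    · subst hv
      rw [G3_E_self, zero_mul, add_zero]
    · rw [G3_F_symm z t hv, ← add_mul, G3_E_anti, zero_mul]
  · intro v
    rw [G3_E_self, zero_mul]

end

end Pool.Agent.Helper5.NM
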