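import Pool.Agent.Helper5.NM.Defs
import Pool.Agent.Helper5.NM.G2
import Pool.Agent.Helper5.NM.G3
import Pool.Agent.Helper5.NM.P3

set_option autoImplicit false

open Finset Function

namespace Pool.Agent.Helper5.NM

section
variable {n N : ℕ} {K : Type*} [CommRing K]

/-! Module G4: `dInt` and `dExt` anticommute (for every function). -/

theorem G4_def (z : Cel n N → K) (f : Cel n N) : dInt z f = ∑ v, ∑ a,
    if f v = none ∧ a ∈ im f then (-1 : K) ^ bef f v * z (update f v (some a)) else 0 := rfl

theorem G4_bef_update (t : Cel n N) (v j : Fin N) (a : Tok n) (hv : t v = none) :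
    bef (update t v (some a)) j = bef t j + if v < j then 1 else 0 := by
  unfold bef
  by_cases hj : v < j
  · rw [if_pos hj]
    have h1 : (univ.filter fun i => i < j ∧ update t v (some a) i ≠ none) =
        insert v (univ.filter fun i => i < j ∧ t i ≠ none) := by
      ext i
      simp only [mem_filter, mem_univ, true_and, mem_insert]
      by_cases hi : i = v
      · subst hi
        simp [hj]
      · simp [hi]
    rw [h1, card_insert_of_notMem]
    simp [hv]
  · rw [if_neg hj, add_zero]
    congr 1
    ext i
    simp only [mem_filter, mem_univ, true_and]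
    by_cases hi : i = v
    · subst hi
      simp [hj]
    · rw [update_of_ne hi]

theorem G4_sgl_update (t : Cel n N) (v : Fin N) (a : Tok n) (hv : t v = none) (ha : a ∈ im t)
    (x : Fin n) : Sgl (update t v (some a)) x ↔ Sgl t x := by
  unfold Sgl
  rw [im_update_of_mem t v a hv ha]

theorem G4_update_none (t : Cel n N) (v j : Fin N) (a : Tok n) :
    update t v (some a) j = none ↔ v ≠ j ∧ t j = none := by
  by_cases hj : j = v
  · subst hj
    simp
  · rw [update_of_ne hj]
    constructor
    · exact fun h => ⟨fun h' => hj h'.symm, h⟩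
    · exact fun h => h.2

theorem G4_L (t : Cel n N) {x : Fin n} {a : Tok n} {v v' : Fin N} (hv : v ≠ v')
    (ha : a ≠ (x, 0)) : splitL (update t v (some a)) x v' = update (splitL t x v') v (some a) := by
  funext j
  by_cases h1 : j = v'
  · subst h1
    rw [update_of_ne hv.symm]
    simp [splitL]
  · by_cases h2 : j = v
    · subst h2
      rw [update_self]
      simp [splitL, hv, ha]
    · rw [update_of_ne h2]
      simp [splitL, h1, h2]

theorem G4_L0 (t : Cel n N) {x : Fin n} {v v' : Fin N} (hv : v ≠ v') :
    splitL (update t v (some (x, 0))) x v' = update (splitL t x v') v (some (x, 1)) := by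
  funext j
  by_cases h1 : j = v'
  · subst h1
    rw [update_of_ne hv.symm]
    simp [splitL]
  · by_cases h2 : j = v
    · subst h2
      rw [update_self]
      simp [splitL, hv]
    · rw [update_of_ne h2]
      simp [splitL, h1, h2]

theorem G4_R (t : Cel n N) {x : Fin n} {a : Tok n} {v v' : Fin N} (hv : v ≠ v')
    (ha : a ≠ (x, 2)) : splitR (update t v (some a)) x v' = update (splitR t x v') v (some a) := by
  funext j
  by_cases h1 : j = v'
  · subst h1
    rw [update_of_ne hv.symm]
    simp [splitR]
  · by_cases h2 : j = v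
    · subst h2
      rw [update_self]
      simp [splitR, hv, ha]
    · rw [update_of_ne h2]
      simp [splitR, h1, h2]

theorem G4_R2 (t : Cel n N) {x : Fin n} {v v' : Fin N} (hv : v ≠ v') :
    splitR (update t v (some (x, 2))) x v' = update (splitR t x v') v (some (x, 1)) := by
  funext j
  by_cases h1 : j = v'
  · subst h1
    rw [update_of_ne hv.symm]
    simp [splitR]
  · by_cases h2 : j = v
    · subst h2
      rw [update_self]
      simp [splitR, hv]
    · rw [update_of_ne h2]
      simp [splitR, h1, h2]

theorem G4_Lsymm (t : Cel n N) {x : Fin n} {v v' : Fin N} (hv : v ≠ v') :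
    update (splitL t x v') v (some (x, 0)) = update (splitL t x v) v' (some (x, 0)) := by
  funext j
  by_cases h1 : j = v'
  · subst h1
    rw [update_of_ne hv.symm, update_self]
    simp [splitL]
  · by_cases h2 : j = v
    · subst h2
      rw [update_self, update_of_ne h1]
      simp [splitL]
    · rw [update_of_ne h2, update_of_ne h1]
      simp [splitL, h1, h2]

theorem G4_Rsymm (t : Cel n N) {x : Fin n} {v v' : Fin N} (hv : v ≠ v') :
    update (splitR t x v') v (some (x, 2)) = update (splitR t x v) v' (some (x, 2)) := by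
  funext j
  by_cases h1 : j = v'
  · subst h1
    rw [update_of_ne hv.symm, update_self]
    simp [splitR]
  · by_cases h2 : j = v
    · subst h2
      rw [update_self, update_of_ne h1]
      simp [splitR]
    · rw [update_of_ne h2, update_of_ne h1]
      simp [splitR, h1, h2]

/-- the symmetric remainder -/
def G4_W (z : Cel n N → K) (t : Cel n N) (v v' : Fin N) : K :=
  ∑ x, if Sgl t x then
    z (update (splitR t x v') v (some (x, 2))) - z (update (splitL t x v') v (some (x, 0))) else 0

theorem G4_W_symm (z : Cel n N → K) (t : Cel n N) {v v' : Fin N} (hv : v ≠ v') :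
    G4_W z t v v' = G4_W z t v' v := by
  unfold G4_W
  refine Finset.sum_congr rfl fun x _ => ?_
  rw [G4_Lsymm t hv, G4_Rsymm t hv]

/-- first composition -/
def G4_A (z : Cel n N → K) (t : Cel n N) (v v' : Fin N) : K :=
  ∑ x, if Sgl t x then
    (∑ a ∈ im t, z (splitL (update t v (some a)) x v')) -
      ∑ a ∈ im t, z (splitR (update t v (some a)) x v') else 0

/-- second composition -/
def G4_B (z : Cel n N → K) (t : Cel n N) (v v' : Fin N) : K :=
  ∑ x, if Sgl t x then
    (∑ a ∈ insert (x, 1) (im t), z (update (splitL t x v') v (some a))) -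
      ∑ a ∈ insert (x, 1) (im t), z (update (splitR t x v') v (some a)) else 0

theorem G4_AB (z : Cel n N → K) (t : Cel n N) {v v' : Fin N} (hv : v ≠ v') :
    G4_A z t v v' - G4_B z t v v' = G4_W z t v v' := by
  unfold G4_A G4_B G4_W
  rw [← Finset.sum_sub_distrib]
  refine Finset.sum_congr rfl fun x _ => ?_
  by_cases hx : Sgl t x
  · rw [if_pos hx, if_pos hx, if_pos hx, Finset.sum_insert hx.2.1, Finset.sum_insert hx.2.1,
      ← Finset.add_sum_erase _ (fun a => z (splitL (update t v (some a)) x v')) hx.1,
      ← Finset.add_sum_erase _ (fun a => z (update (splitL t x v') v (some a))) hx.1,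
      ← Finset.add_sum_erase _ (fun a => z (splitR (update t v (some a)) x v')) hx.2.2,
      ← Finset.add_sum_erase _ (fun a => z (update (splitR t x v') v (some a))) hx.2.2]
    have e1 : ∑ a ∈ (im t).erase (x, 0), z (splitL (update t v (some a)) x v') =
        ∑ a ∈ (im t).erase (x, 0), z (update (splitL t x v') v (some a)) := by
      refine Finset.sum_congr rfl fun a ha => ?_
      rw [G4_L t hv (Finset.ne_of_mem_erase ha)]
    have e2 : ∑ a ∈ (im t).erase (x, 2), z (splitR (update t v (some a)) x v') =
        ∑ a ∈ (im t).erase (x, 2), z (update (splitR t x v') v (some a)) := by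
      refine Finset.sum_congr rfl fun a ha => ?_
      rw [G4_R t hv (Finset.ne_of_mem_erase ha)]
    rw [e1, e2, G4_L0 t hv, G4_R2 t hv]
    ring
  · rw [if_neg hx, if_neg hx, if_neg hx, sub_zero]

theorem G4_first (z : Cel n N → K) (t : Cel n N) :
    dInt (dExt z) t = ∑ v, ∑ v', G3_E K t v v' * G4_A z t v v' := by
  rw [G4_def]
  refine Finset.sum_congr rfl fun v _ => ?_
  by_cases hv : t v = none
  swap
  · rw [Finset.sum_eq_zero, Finset.sum_eq_zero]
    · intro v' _
      rw [G3_E_neg t (fun h => hv h.1), zero_mul]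
    · intro x _
      rw [if_neg (fun h => hv h.1)]
  have e1 : ∀ a, (if t v = none ∧ a ∈ im t then
      (-1 : K) ^ bef t v * dExt z (update t v (some a)) else 0) =
      ∑ v', if a ∈ im t then G3_E K t v v' * ∑ x, (if Sgl t x then
        z (splitL (update t v (some a)) x v') - z (splitR (update t v (some a)) x v') else 0)
        else 0 := by
    intro a
    by_cases ha : a ∈ im t
    · rw [if_pos ⟨hv, ha⟩, G3_def, Finset.mul_sum]
      refine Finset.sum_congr rfl fun v' _ => ?_
      rw [if_pos ha]
      by_cases h : t v' = none ∧ v ≠ v'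
      · rw [G3_E_pos t ⟨hv, h.1, h.2⟩, mul_assoc]
        congr 1
        rw [Finset.mul_sum]
        refine Finset.sum_congr rfl fun x _ => ?_
        rw [G4_bef_update t v v' a hv]
        have h5 : (update t v (some a) v' = none ∧ Sgl (update t v (some a)) x) ↔ Sgl t x := by
          rw [G4_update_none, G4_sgl_update t v a hv ha]
          exact ⟨fun h => h.2, fun h' => ⟨⟨h.2, h.1⟩, h'⟩⟩
        by_cases hx : Sgl t x
        · simp only [if_pos (h5.2 hx), if_pos hx]
        · simp only [if_neg (fun h => hx (h5.1 h)), if_neg hx, mul_zero]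
      · rw [G3_E_neg t (fun h1 => h ⟨h1.2.1, h1.2.2⟩), zero_mul, Finset.sum_eq_zero, mul_zero]
        intro x _
        rw [if_neg]
        rintro ⟨h1, -⟩
        rw [G4_update_none] at h1
        exact h ⟨h1.2, h1.1⟩
    · rw [if_neg (fun h => ha h.2)]
      symm
      refine Finset.sum_eq_zero fun v' _ => ?_
      rw [if_neg ha]
  rw [Finset.sum_congr rfl fun a _ => e1 a, Finset.sum_comm]
  refine Finset.sum_congr rfl fun v' _ => ?_
  rw [← Finset.sum_filter, Finset.filter_mem_eq_inter, Finset.univ_inter, ← Finset.mul_sum]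
  congr 1
  unfold G4_A
  rw [Finset.sum_comm]
  refine Finset.sum_congr rfl fun x _ => ?_
  by_cases hx : Sgl t x
  · simp only [if_pos hx]
    rw [Finset.sum_sub_distrib]
  · simp only [if_neg hx]
    rw [Finset.sum_const_zero]

theorem G4_dInt_splitL (z : Cel n N → K) (t : Cel n N) (x : Fin n) (v : Fin N) (hv : t v = none)
    (hx : Sgl t x) : (-1 : K) ^ bef t v * dInt z (splitL t x v) = ∑ v', G3_E K t v v' *
      ∑ a ∈ insert (x, 1) (im t), z (update (splitL t x v) v' (some a)) := by
  rw [G4_def, Finset.mul_sum]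
  refine Finset.sum_congr rfl fun v' _ => ?_
  by_cases h : t v' = none ∧ v ≠ v'
  · rw [G3_E_pos t ⟨hv, h.1, h.2⟩, mul_assoc]
    congr 1
    rw [bef_splitL t x v v' hv, im_splitL t x v hv hx, Finset.mul_sum]
    have h6 : splitL t x v v' = none := (splitL_eq_none t x v v').2 ⟨h.2.symm, h.1⟩
    simp only [h6, true_and]
    rw [← Finset.sum_filter, Finset.filter_mem_eq_inter, Finset.univ_inter]
  · rw [G3_E_neg t (fun h1 => h ⟨h1.2.1, h1.2.2⟩), zero_mul, Finset.sum_eq_zero, mul_zero]
    intro a _
    rw [if_neg]
    rintro ⟨h1, -⟩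
    rw [splitL_eq_none] at h1
    exact h ⟨h1.2, h1.1.symm⟩

theorem G4_dInt_splitR (z : Cel n N → K) (t : Cel n N) (x : Fin n) (v : Fin N) (hv : t v = none)
    (hx : Sgl t x) : (-1 : K) ^ bef t v * dInt z (splitR t x v) = ∑ v', G3_E K t v v' *
      ∑ a ∈ insert (x, 1) (im t), z (update (splitR t x v) v' (some a)) := by
  rw [G4_def, Finset.mul_sum]
  refine Finset.sum_congr rfl fun v' _ => ?_
  by_cases h : t v' = none ∧ v ≠ v'
  · rw [G3_E_pos t ⟨hv, h.1, h.2⟩, mul_assoc]
    congr 1
    rw [bef_splitR t x v v' hv, im_splitR t x v hv hx, Finset.mul_sum]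
    have h6 : splitR t x v v' = none := (splitR_eq_none t x v v').2 ⟨h.2.symm, h.1⟩
    simp only [h6, true_and]
    rw [← Finset.sum_filter, Finset.filter_mem_eq_inter, Finset.univ_inter]
  · rw [G3_E_neg t (fun h1 => h ⟨h1.2.1, h1.2.2⟩), zero_mul, Finset.sum_eq_zero, mul_zero]
    intro a _
    rw [if_neg]
    rintro ⟨h1, -⟩
    rw [splitR_eq_none] at h1
    exact h ⟨h1.2, h1.1.symm⟩

theorem G4_second (z : Cel n N → K) (t : Cel n N) :
    dExt (dInt z) t = ∑ v, ∑ v', G3_E K t v v' * G4_B z t v' v := by
  rw [G3_def]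
  refine Finset.sum_congr rfl fun v _ => ?_
  by_cases hv : t v = none
  swap
  · rw [Finset.sum_eq_zero, Finset.sum_eq_zero]
    · intro v' _
      rw [G3_E_neg t (fun h => hv h.1), zero_mul]
    · intro x _
      rw [if_neg (fun h => hv h.1)]
  have e1 : ∀ x, (if t v = none ∧ Sgl t x then (-1 : K) ^ bef t v *
      (dInt z (splitL t x v) - dInt z (splitR t x v)) else 0) =
      ∑ v', G3_E K t v v' * (if Sgl t x then
        (∑ a ∈ insert (x, 1) (im t), z (update (splitL t x v) v' (some a))) -
      ∑ a ∈ insert (x, 1) (im t), z (update (splitR t x v) v' (some a)) else 0) := by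
    intro x
    by_cases hx : Sgl t x
    · rw [if_pos ⟨hv, hx⟩, mul_sub, G4_dInt_splitL z t x v hv hx, G4_dInt_splitR z t x v hv hx,
        ← Finset.sum_sub_distrib]
      refine Finset.sum_congr rfl fun v' _ => ?_
      rw [if_pos hx]
      ring
    · rw [if_neg (fun h => hx h.2)]
      symm
      refine Finset.sum_eq_zero fun v' _ => ?_
      rw [if_neg hx, mul_zero]
  rw [Finset.sum_congr rfl fun x _ => e1 x, Finset.sum_comm]
  refine Finset.sum_congr rfl fun v' _ => ?_
  rw [← Finset.mul_sum]
  rfl

theorem dInt_dExt (z : Cel n N → K) (t : Cel n N) : dInt (dExt z) t + dExt (dInt z) t = 0 := by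
  have h2 : dExt (dInt z) t = ∑ v, ∑ v', G3_E K t v' v * G4_B z t v v' := by
    rw [G4_second, Finset.sum_comm]
  rw [G4_first, h2, ← Finset.sum_add_distrib]
  have h3 : ∀ v v', G3_E K t v v' * G4_A z t v v' + G3_E K t v' v * G4_B z t v v' =
      G3_E K t v v' * G4_W z t v v' := by
    intro v v'
    by_cases hv : v = v'
    · subst hv
      rw [G3_E_self]
      ring
    · have h4 : G3_E K t v' v = - G3_E K t v v' := by
        rw [eq_neg_iff_add_eq_zero, add_comm, G3_E_anti]
      rw [h4, ← G4_AB z t hv]
      ring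
  rw [show (∑ v, (∑ v', G3_E K t v v' * G4_A z t v v' + ∑ v', G3_E K t v' v * G4_B z t v v')) =
    ∑ v, ∑ v', G3_E K t v v' * G4_W z t v v' from
      Finset.sum_congr rfl fun v _ => by
        rw [← Finset.sum_add_distrib]
        exact Finset.sum_congr rfl fun v' _ => h3 v v']
  apply G3_anti_sum
  · intro v v'
    by_cases hv : v = v'
    · subst hv
      rw [G3_E_self, zero_mul, add_zero]
    · rw [G4_W_symm z t hv, ← add_mul, G3_E_anti, zero_mul]
  · intro v
    rw [G3_E_self, zero_mul]

end

end Pool.Agent.Helper5.NM
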