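import Pool.Agent.Helper5.NM.Defs
import Pool.Agent.Helper5.NM.G2

set_option autoImplicit false

open Finset Function

namespace Pool.Agent.Helper5.NM

section
variable {n N : ℕ}

/-! Module G7: external faces of good cells are good. -/

theorem G7_mem_im {t : Cel n N} {a : Tok n} : a ∈ im t ↔ ∃ i, t i = some a := by
  simp [im]

theorem G7_sep {t t' : Cel n N} {e : Tok n → Tok n} (h : ∀ j a, t j = some a → t' j = some (e a))
    {a b : Tok n} (hs : sep t' (e a) (e b)) : sep t a b :=
  fun i j hi hj => hs i j (h _ _ hi) (h _ _ hj)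

theorem G7_sep_left {t : Cel n N} {a b : Tok n} (h : a ∉ im t) : sep t a b :=
  fun i _ hi _ => absurd (G7_mem_im.2 ⟨i, hi⟩) h

theorem G7_sep_right {t : Cel n N} {a b : Tok n} (h : b ∉ im t) : sep t a b :=
  fun _ j _ hj => absurd (G7_mem_im.2 ⟨j, hj⟩) h

/-- the common part: `t` maps to `t'` by `e`, which changes only the token `(x, 0)` or `(x, 2)`. -/
theorem G7_aux {t t' : Cel n N} {x : Fin n} {e : Tok n → Tok n}
    (h : ∀ j a, t j = some a → t' j = some (e a)) (hx : Sgl t x)
    (him : im t' = insert (x, 1) (im t))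
    (hother : ∀ y p, y ≠ x → e (y, p) = (y, p))
    (p₀ q₀ : Fin 3) (hp : e (x, 0) = (x, p₀)) (hq : e (x, 2) = (x, q₀))
    (hpq : p₀ = 0 ∧ q₀ = 1 ∨ p₀ = 1 ∧ q₀ = 2) (hg : Good t') : Good t := by
  have hx1 : ((x, 1) : Tok n) ∈ im t' := by rw [him]; exact mem_insert_self _ _
  have himo : ∀ y p, y ≠ x → ((y, p) ∈ im t' ↔ (y, p) ∈ im t) := by
    intro y p hy
    rw [him, mem_insert]
    constructor
    · rintro (h | h)
      · exact absurd (congrArg Prod.fst h) hy
      · exact h
    · exact Or.inr
  have hblo : ∀ y p q, y ≠ x → Blk t y p q → Blk t' y p q := by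
    intro y p q hy hb
    unfold Blk at hb ⊢
    rw [himo y 1 hy]
    exact hb
  have hblx : ∀ p q, Blk t x p q → p = 0 ∧ q = 2 := by
    intro p q hb
    rcases hb with h | h
    · exact absurd h.1 hx.2.1
    · exact h.2
  have hblx' : Blk t' x p₀ q₀ := Or.inl ⟨hx1, hpq⟩
  have hs02 : sep t (x, 0) (x, 2) := by
    apply G7_sep h
    rw [hp, hq]
    rcases hpq with ⟨rfl, rfl⟩ | ⟨rfl, rfl⟩
    · exact (hg.1 x).2.2.1
    · exact (hg.1 x).2.2.2.1
  refine ⟨fun y => ?_, fun y z hyz p q p' q' hb hb' => ?_⟩
  · by_cases hy : y = x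
    · subst hy
      exact ⟨hx.1, hx.2.2, G7_sep_right hx.2.1, G7_sep_left hx.2.1, hs02⟩
    · obtain ⟨h0, h2, h01, h12, h02⟩ := hg.1 y
      refine ⟨(himo y 0 hy).1 h0, (himo y 2 hy).1 h2, ?_, ?_, ?_⟩
      · apply G7_sep h; rw [hother y 0 hy, hother y 1 hy]; exact h01
      · apply G7_sep h; rw [hother y 1 hy, hother y 2 hy]; exact h12
      · apply G7_sep h; rw [hother y 0 hy, hother y 2 hy]; exact h02
  · by_cases hy : y = x
    · subst hy
      obtain ⟨rfl, rfl⟩ := hblx p q hb
      have hz : z ≠ y := hyz.symm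
      rcases hg.2 y z hyz p₀ q₀ p' q' hblx' (hblo z p' q' hz hb') with ⟨h1, h2⟩ | ⟨h1, h2⟩
      · left
        constructor
        · apply G7_sep h; rw [hp, hother z p' hz]; exact h1
        · apply G7_sep h; rw [hq, hother z q' hz]; exact h2
      · right
        constructor
        · apply G7_sep h; rw [hp, hother z p' hz]; exact h1
        · apply G7_sep h; rw [hq, hother z q' hz]; exact h2
    · by_cases hz : z = x
      · subst hz
        obtain ⟨rfl, rfl⟩ := hblx p' q' hb'
        rcases hg.2 y z hyz p q p₀ q₀ (hblo y p q hy hb) hblx' with ⟨h1, h2⟩ | ⟨h1, h2⟩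
        · left
          constructor
          · apply G7_sep h; rw [hp, hother y p hy]; exact h1
          · apply G7_sep h; rw [hq, hother y q hy]; exact h2
        · right
          constructor
          · apply G7_sep h; rw [hp, hother y p hy]; exact h1
          · apply G7_sep h; rw [hq, hother y q hy]; exact h2
      · rcases hg.2 y z hyz p q p' q' (hblo y p q hy hb) (hblo z p' q' hz hb') with
          ⟨h1, h2⟩ | ⟨h1, h2⟩
        · left
          constructor
          · apply G7_sep h; rw [hother y p hy, hother z p' hz]; exact h1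
          · apply G7_sep h; rw [hother y q hy, hother z q' hz]; exact h2
        · right
          constructor
          · apply G7_sep h; rw [hother y p hy, hother z p' hz]; exact h1
          · apply G7_sep h; rw [hother y q hy, hother z q' hz]; exact h2

theorem good_splitL (t : Cel n N) (x : Fin n) (v : Fin N) (hv : t v = none) (hx : Sgl t x)
    (hg : Good (splitL t x v)) : Good t := by
  refine G7_aux (t' := splitL t x v) (e := fun a => if a = (x, 0) then (x, 1) else a) ?_ hx
    (im_splitL t x v hv hx) ?_ 1 2 ?_ ?_ (Or.inr ⟨rfl, rfl⟩) hg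
  · intro j a hj
    have hjv : j ≠ v := fun h => by rw [h, hv] at hj; exact absurd hj (by simp)
    simp only [splitL, hjv, if_false, hj, Option.some.injEq]
    split_ifs <;> rfl
  · intro y p hy
    have : (y, p) ≠ ((x, 0) : Tok n) := fun h => hy (congrArg Prod.fst h)
    simp only [this, if_false]
  · simp
  · simp

theorem good_splitR (t : Cel n N) (x : Fin n) (v : Fin N) (hv : t v = none) (hx : Sgl t x)
    (hg : Good (splitR t x v)) : Good t := by
  refine G7_aux (t' := splitR t x v) (e := fun a => if a = (x, 2) then (x, 1) else a) ?_ hx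
    (im_splitR t x v hv hx) ?_ 0 1 ?_ ?_ (Or.inl ⟨rfl, rfl⟩) hg
  · intro j a hj
    have hjv : j ≠ v := fun h => by rw [h, hv] at hj; exact absurd hj (by simp)
    simp only [splitR, hjv, if_false, hj, Option.some.injEq]
    split_ifs <;> rfl
  · intro y p hy
    have : (y, p) ≠ ((x, 2) : Tok n) := fun h => hy (congrArg Prod.fst h)
    simp only [this, if_false]
  · simp
  · simp

end

end Pool.Agent.Helper5.NM
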