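import Pool.Agent.Helper5.NM.Defs
import Pool.Agent.Helper5.NM.G2
import Pool.Agent.Helper5.NM.G3
import Pool.Agent.Helper5.NM.G4
import Pool.Agent.Helper5.NM.G5
import Pool.Agent.Helper5.NM.G6
import Pool.Agent.Helper5.NM.G7
import Pool.Agent.Helper5.NM.G10

set_option autoImplicit false

open Finset Function

namespace Pool.Agent.Helper5.NM

section
variable {K : Type*} [CommRing K]

/-! Module G11: the descent. -/

theorem G11_dInt_congr {n N : ℕ} (z w : Cel n N → K) (f : Cel n N)
    (h : ∀ v a, f v = none → a ∈ im f → z (update f v (some a)) = w (update f v (some a))) :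
    dInt z f = dInt w f := by
  unfold dInt
  refine Finset.sum_congr rfl fun v _ => Finset.sum_congr rfl fun a _ => ?_
  by_cases h1 : f v = none ∧ a ∈ im f
  · simp only [if_pos h1, h v a h1.1 h1.2]
  · simp only [if_neg h1]

theorem G11_dExt_congr {n N : ℕ} (z w : Cel n N → K) (f : Cel n N)
    (h : ∀ v x, f v = none → Sgl f x → z (splitL f x v) = w (splitL f x v) ∧
      z (splitR f x v) = w (splitR f x v)) :
    dExt z f = dExt w f := by
  unfold dExt
  refine Finset.sum_congr rfl fun v _ => Finset.sum_congr rfl fun a _ => ?_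
  by_cases h1 : f v = none ∧ Sgl f a
  · simp only [if_pos h1, (h v a h1.1 h1.2).1, (h v a h1.1 h1.2).2]
  · simp only [if_neg h1]

theorem G11_dInt_zero {n N : ℕ} (f : Cel n N) : dInt (fun _ => (0 : K)) f = 0 := by
  unfold dInt
  refine Finset.sum_eq_zero fun v _ => Finset.sum_eq_zero fun a _ => ?_
  simp

theorem G11_dExt_zero {n N : ℕ} (f : Cel n N) : dExt (fun _ => (0 : K)) f = 0 := by
  unfold dExt
  refine Finset.sum_eq_zero fun v _ => Finset.sum_eq_zero fun a _ => ?_
  simp

theorem G11_dInt_neg {n N : ℕ} (z : Cel n N → K) (f : Cel n N) :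
    dInt (fun t => - z t) f = - dInt z f := by
  unfold dInt
  simp only [← Finset.sum_neg_distrib]
  refine Finset.sum_congr rfl fun v _ => Finset.sum_congr rfl fun a _ => ?_
  split_ifs <;> ring

theorem G11_dExt_neg {n N : ℕ} (z : Cel n N → K) (f : Cel n N) :
    dExt (fun t => - z t) f = - dExt z f := by
  unfold dExt
  simp only [← Finset.sum_neg_distrib]
  refine Finset.sum_congr rfl fun v _ => Finset.sum_congr rfl fun a _ => ?_
  split_ifs <;> ring

theorem G11_dInt_add {n N : ℕ} (z w : Cel n N → K) (f : Cel n N) :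
    dInt (fun t => z t + w t) f = dInt z f + dInt w f := by
  unfold dInt
  simp only [← Finset.sum_add_distrib]
  refine Finset.sum_congr rfl fun v _ => Finset.sum_congr rfl fun a _ => ?_
  split_ifs <;> ring

theorem G11_dExt_add {n N : ℕ} (z w : Cel n N → K) (f : Cel n N) :
    dExt (fun t => z t + w t) f = dExt z f + dExt w f := by
  unfold dExt
  simp only [← Finset.sum_add_distrib]
  refine Finset.sum_congr rfl fun v _ => Finset.sum_congr rfl fun a _ => ?_
  split_ifs <;> ring

theorem G11_card_im_le {n N : ℕ} (f : Cel n N) : (im f).card ≤ sz f := by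
  classical
  unfold sz
  have : (im f).card ≤ ((univ.filter fun i => f i ≠ none).image
      (fun i => f i)).card := by
    rw [← Finset.card_image_of_injective (im f) (Option.some_injective _)]
    apply Finset.card_le_card
    intro o ho
    rw [Finset.mem_image] at ho
    obtain ⟨a, ha, rfl⟩ := ho
    unfold im at ha
    rw [Finset.mem_filter] at ha
    obtain ⟨_, i, hi⟩ := ha
    rw [Finset.mem_image]
    exact ⟨i, by simp [hi], hi⟩
  exact this.trans Finset.card_image_le

theorem G11_sz_update {n N : ℕ} (f : Cel n N) (v : Fin N) (a : Tok n) (hv : f v = none) :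
    sz (update f v (some a)) = sz f + 1 := by
  classical
  unfold sz
  have : (univ.filter fun i => update f v (some a) i ≠ none)
      = insert v (univ.filter fun i => f i ≠ none) := by
    ext i
    by_cases h : i = v
    · subst h; simp
    · simp [h]
  rw [this, Finset.card_insert_of_notMem]
  simp [hv]

theorem G11_exists_of_dExt_ne {n N : ℕ} (z : Cel n N → K) (f : Cel n N) (h : dExt z f ≠ 0) :
    ∃ v x, f v = none ∧ Sgl f x ∧ (z (splitL f x v) ≠ 0 ∨ z (splitR f x v) ≠ 0) := by
  by_contra hcon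
  push Not at hcon
  apply h
  rw [← G11_dExt_zero f]
  apply G11_dExt_congr
  intro v x hv hx
  exact hcon v x hv hx

theorem G11_step (k : ℕ) (Z : Cel (k + 1) (3 * k + 2) → K)
    (h2 : ∀ j, k = j + 1 → AugZero j (3 * k + 1) (dExt Z)) (s : ℕ) (hs : s + 1 ≤ k)
    (Ξ : Cel (k + 1) (3 * k + 2) → K) (a1 : AntiS Ξ)
    (a2 : ∀ t, Ξ t ≠ 0 → Good t ∧ s + 1 ≤ nd t ∧ sz t = 3 * k + 2)
    (a3 : ∀ t, nd t = k → Ξ t = Z t)
    (a4 : ∀ f, s + 1 ≤ nd f → bd Ξ f = 0) :
    ∃ Ξ' : Cel (k + 1) (3 * k + 2) → K, AntiS Ξ' ∧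
      (∀ t, Ξ' t ≠ 0 → Good t ∧ s ≤ nd t ∧ sz t = 3 * k + 2) ∧
      (∀ t, nd t = k → Ξ' t = Z t) ∧ ∀ f, s ≤ nd f → bd Ξ' f = 0 := by
  classical
  set Ω : Cel (k + 1) (3 * k + 2) → K := fun f => if nd f = s then - dExt Ξ f else 0 with hΩ
  have hanti : AntiS Ω := by
    intro σ t
    simp only [hΩ, nd_act]
    split_ifs
    · rw [antiS_dExt Ξ a1 σ t]; ring
    · simp
  have hsupp : ∀ t, Ω t ≠ 0 → Good t ∧ nd t = s ∧ sz t = 3 * k + 1 := by
    intro t ht
    by_cases hn : nd t = s
    · simp only [hΩ, if_pos hn] at ht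
      have ht' : dExt Ξ t ≠ 0 := fun h => ht (by rw [h, neg_zero])
      obtain ⟨v, x, hv, hx, hor⟩ := G11_exists_of_dExt_ne Ξ t ht'
      rcases hor with h | h
      · obtain ⟨hg, _, hsz⟩ := a2 _ h
        refine ⟨good_splitL t x v hv hx hg, hn, ?_⟩
        rw [sz_splitL t x v hv] at hsz
        omega
      · obtain ⟨hg, _, hsz⟩ := a2 _ h
        refine ⟨good_splitR t x v hv hx hg, hn, ?_⟩
        rw [sz_splitR t x v hv] at hsz
        omega
    · simp only [hΩ, if_neg hn] at ht
      exact absurd rfl ht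
  have hcyc : ∀ t, dInt Ω t = 0 := by
    intro f
    by_cases hn : nd f = s
    · have e1 : dInt Ω f = dInt (fun t => - dExt Ξ t) f := by
        apply G11_dInt_congr
        intro v a hv ha
        simp only [hΩ]
        rw [if_pos (by rw [nd_update f v a hv ha, hn])]
      rw [e1, G11_dInt_neg]
      have e2 : dInt (dExt Ξ) f + dExt (dInt Ξ) f = 0 := dInt_dExt Ξ f
      have e3 : dExt (dInt Ξ) f = dExt (fun t => - dExt Ξ t) f := by
        apply G11_dExt_congr
        intro v x hv hx
        have hL := a4 (splitL f x v) (by rw [nd_splitL f x v hv hx, hn])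
        have hR := a4 (splitR f x v) (by rw [nd_splitR f x v hv hx, hn])
        unfold bd at hL hR
        exact ⟨eq_neg_of_add_eq_zero_left hL, eq_neg_of_add_eq_zero_left hR⟩
      have e4 : dExt (fun t => - dExt Ξ t) f = 0 := by
        rw [G11_dExt_neg, dExt_dExt, neg_zero]
      rw [e3, e4, add_zero] at e2
      rw [e2, neg_zero]
    · rw [← G11_dInt_zero f]
      apply G11_dInt_congr
      intro v a hv ha
      simp only [hΩ]
      rw [if_neg (by rw [nd_update f v a hv ha]; exact hn)]
  have haug : 3 * k + 1 = 2 * (k + 1) + s → AugZero s (3 * k + 1) Ω := by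
    intro hm t hg hc hnd hsz
    have hk : k = s + 1 := by omega
    have h := h2 s hk t hg hc hnd hsz
    have hr : restr (Rel t) (im t) Ω = fun f => - restr (Rel t) (im t) (dExt Z) f := by
      funext f
      unfold restr
      by_cases hf : IsCell (Rel t) (im t) f
      · rw [if_pos hf, if_pos hf]
        have hnf : nd f = s := by
          rw [← hnd]
          unfold nd
          rw [hf.im_eq]
        simp only [hΩ, if_pos hnf]
        congr 1
        apply G11_dExt_congr
        intro v x hv hx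
        exact ⟨a3 _ (by rw [nd_splitL f x v hv hx, hnf, hk]),
          a3 _ (by rw [nd_splitR f x v hv hx, hnf, hk])⟩
      · rw [if_neg hf, if_neg hf, neg_zero]
    rw [hr]
    unfold aug at h ⊢
    simp only [mul_neg, Finset.sum_neg_distrib]
    rw [h, neg_zero]
  obtain ⟨Ψ, b1, b2, b3⟩ := fill_anti s (3 * k + 1) (by omega) Ω hanti hsupp hcyc haug
  have hdE : ∀ f, s ≤ nd f → dExt Ψ f = 0 := by
    intro f hf
    rw [← G11_dExt_zero f]
    apply G11_dExt_congr
    intro v x hv hx
    constructor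
    · by_contra hne
      obtain ⟨_, h, _⟩ := b2 _ hne
      rw [nd_splitL f x v hv hx] at h
      omega
    · by_contra hne
      obtain ⟨_, h, _⟩ := b2 _ hne
      rw [nd_splitR f x v hv hx] at h
      omega
  refine ⟨fun t => Ξ t + Ψ t, ?_, ?_, ?_, ?_⟩
  · intro σ t
    simp only [a1 σ t, b1 σ t]
    ring
  · intro t ht
    by_cases h : Ξ t = 0
    · have : Ψ t ≠ 0 := fun h' => ht (by simp only [h, h', add_zero])
      obtain ⟨x, y, z⟩ := b2 t this
      exact ⟨x, by omega, by omega⟩
    · obtain ⟨x, y, z⟩ := a2 t h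
      exact ⟨x, by omega, z⟩
  · intro t ht
    have : Ψ t = 0 := by
      by_contra h
      obtain ⟨_, y, _⟩ := b2 t h
      omega
    simp only [this, add_zero, a3 t ht]
  · intro f hf
    unfold bd
    rw [G11_dInt_add, G11_dExt_add, hdE f hf, b3 f, add_zero]
    by_cases hn : nd f = s
    · simp only [hΩ, if_pos hn]
      have : dInt Ξ f = 0 := by
        rw [← G11_dInt_zero f]
        apply G11_dInt_congr
        intro v a hv ha
        by_contra hne
        obtain ⟨_, h, _⟩ := a2 _ hne
        rw [nd_update f v a hv ha] at h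
        omega
      rw [this]; ring
    · simp only [hΩ, if_neg hn, add_zero]
      have := a4 f (by omega)
      unfold bd at this
      exact this

theorem descent (k : ℕ) (Z : Cel (k + 1) (3 * k + 2) → K) (hA : AntiS Z)
    (h1 : ∀ t, Z t ≠ 0 → Good t ∧ nd t = k ∧ sz t = 3 * k + 2)
    (h2 : ∀ j, k = j + 1 → AugZero j (3 * k + 1) (dExt Z)) :
    ∃ Ξ : Cel (k + 1) (3 * k + 2) → K, AntiS Ξ ∧
      (∀ t, Ξ t ≠ 0 → Good t ∧ sz t = 3 * k + 2) ∧ (∀ t, bd Ξ t = 0) ∧
      ∀ t, nd t = k → Ξ t = Z t := by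
  have main : ∀ j, j ≤ k → ∃ Ξ : Cel (k + 1) (3 * k + 2) → K, AntiS Ξ ∧
      (∀ t, Ξ t ≠ 0 → Good t ∧ k - j ≤ nd t ∧ sz t = 3 * k + 2) ∧
      (∀ t, nd t = k → Ξ t = Z t) ∧ ∀ f, k - j ≤ nd f → bd Ξ f = 0 := by
    intro j
    induction j with
    | zero =>
      intro _
      refine ⟨Z, hA, fun t ht => ⟨(h1 t ht).1, by rw [(h1 t ht).2.1]; omega, (h1 t ht).2.2⟩,
        fun t _ => rfl, ?_⟩
      intro f hf
      unfold bd
      have e1 : dInt Z f = 0 := by
        rw [← G11_dInt_zero f]
        apply G11_dInt_congr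
        intro v a hv ha
        by_contra hne
        obtain ⟨hg, hn, hsz⟩ := h1 _ hne
        obtain ⟨hgf, _, _⟩ := good_update f v a hv ha hg
        rw [nd_update f v a hv ha] at hn
        rw [G11_sz_update f v a hv] at hsz
        have c1 := card_im f hgf
        have c2 := G11_card_im_le f
        omega
      have e2 : dExt Z f = 0 := by
        rw [← G11_dExt_zero f]
        apply G11_dExt_congr
        intro v x hv hx
        constructor
        · by_contra hne
          obtain ⟨_, h, _⟩ := h1 _ hne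
          rw [nd_splitL f x v hv hx] at h
          omega
        · by_contra hne
          obtain ⟨_, h, _⟩ := h1 _ hne
          rw [nd_splitR f x v hv hx] at h
          omega
      rw [e1, e2, add_zero]
    | succ j ih =>
      intro hj
      obtain ⟨Ξ, a1, a2, a3, a4⟩ := ih (by omega)
      have hs : k - j = (k - (j + 1)) + 1 := by omega
      rw [hs] at a2 a4
      exact G11_step k Z h2 (k - (j + 1)) (by omega) Ξ a1 a2 a3 a4
  obtain ⟨Ξ, a1, a2, a3, a4⟩ := main k le_rfl
  exact ⟨Ξ, a1, fun t ht => ⟨(a2 t ht).1, (a2 t ht).2.2⟩, fun t => a4 t (by omega), a3⟩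

end

end Pool.Agent.Helper5.NM
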