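import Pool.Agent.Helper5.NM.Defs
import Pool.Agent.Helper5.NM.G1
import Pool.Agent.Helper5.NM.G3
import Pool.Agent.Helper5.NM.G4

set_option autoImplicit false

open Finset Function

namespace Pool.Agent.Helper5.NM

section
variable {n N : ℕ} {K : Type*} [CommRing K]

/-! Module G12: `bd` squares to zero. -/

theorem dInt_add (z z' : Cel n N → K) (t : Cel n N) :
    dInt (fun f => z f + z' f) t = dInt z t + dInt z' t := by
  unfold dInt
  rw [← Finset.sum_add_distrib]
  refine Finset.sum_congr rfl fun v _ => ?_
  rw [← Finset.sum_add_distrib]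
  refine Finset.sum_congr rfl fun a _ => ?_
  split_ifs with h
  · ring
  · ring

theorem dExt_add (z z' : Cel n N → K) (t : Cel n N) :
    dExt (fun f => z f + z' f) t = dExt z t + dExt z' t := by
  unfold dExt
  rw [← Finset.sum_add_distrib]
  refine Finset.sum_congr rfl fun v _ => ?_
  rw [← Finset.sum_add_distrib]
  refine Finset.sum_congr rfl fun a _ => ?_
  split_ifs with h
  · ring
  · ring

theorem bd_bd (z : Cel n N → K) (t : Cel n N) : bd (bd z) t = 0 := by
  have h1 : dInt (bd z) t = dInt (dInt z) t + dInt (dExt z) t := dInt_add _ _ _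
  have h2 : dExt (bd z) t = dExt (dInt z) t + dExt (dExt z) t := dExt_add _ _ _
  have h3 := dInt_dInt z t
  have h4 := dInt_dExt z t
  have h5 := dExt_dExt z t
  show dInt (bd z) t + dExt (bd z) t = 0
  rw [h1, h2, h3, h5, zero_add, add_zero]
  exact h4

end

end Pool.Agent.Helper5.NM
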