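import Pool.Agent.Helper74.NM.St
import Pool.Agent.Helper36.DR.M_PRS

/-!
# Project NM (MP_26f0da_lc), module CFN: the language `{w | NC R w}` is context-free
-/

set_option autoImplicit false

namespace Pool.Agent.Helper5.NM

open Pool.Agent.Helper74 Pool.Agent.Helper74.NM Pool.Agent.Helper74.DR

variable {n : ℕ}

/-- the rule `S → a S b S` -/
def rl (a b : Fin n) : ContextFreeRule (Fin n) Unit :=
  ⟨(), [Symbol.terminal a, Symbol.nonterminal (), Symbol.terminal b, Symbol.nonterminal ()]⟩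

/-- all rules -/
def Rl (R : Fin n → Fin n → Prop) : Set (ContextFreeRule (Fin n) Unit) :=
  {r | r = ⟨(), []⟩ ∨ ∃ a b, R a b ∧ r = rl a b}

theorem rl_finite (R : Fin n → Fin n → Prop) : (Rl R).Finite := by
  refine Set.Finite.subset (Set.Finite.insert (⟨(), []⟩ : ContextFreeRule (Fin n) Unit)
    (Set.finite_range (fun p : Fin n × Fin n => rl p.1 p.2))) ?_
  rintro r (h | ⟨a, b, -, h⟩)
  · exact Or.inl h
  · exact Or.inr ⟨(a, b), h.symm⟩

/-- the grammar -/
noncomputable def gr (R : Fin n → Fin n → Prop) : ContextFreeGrammar (Fin n) where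
  NT := Unit
  initial := ()
  rules := (rl_finite R).toFinset

theorem mem_gr (R : Fin n → Fin n → Prop) (r : ContextFreeRule (Fin n) Unit) :
    r ∈ (gr R).rules ↔ r ∈ Rl R := by
  show r ∈ (rl_finite R).toFinset ↔ _
  exact Set.Finite.mem_toFinset _

/-- joining a tree of a nonterminal with a forest -/
theorem pr_join {α : Type} {g : ContextFreeGrammar α} {X : g.NT} {n m : ℕ} {u v : List α}
    {s : List (Symbol α g.NT)} (h : Pr g n [Symbol.nonterminal X] u) (h' : Pr g m s v) :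
    ∃ k, Pr g k (Symbol.nonterminal X :: s) (u ++ v) := by
  cases h with
  | nont r s' u₁ v₁ n₁ m₁ hr h1 h2 =>
    cases h2
    rw [List.append_nil]
    exact ⟨_, Pr.nont r s u₁ v n₁ m hr h1 h'⟩

theorem nc_pr (R : Fin n → Fin n → Prop) (w : List (Fin n)) (h : NC R w) :
    ∃ k, Pr (gr R) k [Symbol.nonterminal ()] w := by
  induction h with
  | nil =>
    exact ⟨_, Pr.nont (⟨(), []⟩ : ContextFreeRule (Fin n) Unit) [] [] [] 0 0
      ((mem_gr R _).2 (Or.inl rfl)) Pr.nil Pr.nil⟩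
  | wrap a b u v hab _ _ ihu ihv =>
    obtain ⟨n₁, h3⟩ := ihu
    obtain ⟨n₂, h4⟩ := ihv
    obtain ⟨k₁, h5⟩ := pr_join h4 (Pr.nil (g := gr R))
    obtain ⟨k₂, h6⟩ := pr_join h3 (Pr.term b _ _ _ h5)
    have h7 := Pr.term a _ _ _ h6
    have h8 := Pr.nont (g := gr R) (rl a b) [] _ [] _ 0
      ((mem_gr R _).2 (Or.inr ⟨a, b, hab, rfl⟩)) h7 Pr.nil
    rw [List.append_nil, List.append_nil] at h8
    exact ⟨_, h8⟩

/-- words derived from a list of symbols -/
def Sub (R : Fin n → Fin n → Prop) : List (Symbol (Fin n) Unit) → List (Fin n) → Prop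
  | [], w => w = []
  | Symbol.terminal a :: s, w => ∃ w₁, w = a :: w₁ ∧ Sub R s w₁
  | Symbol.nonterminal _ :: s, w => ∃ u v, w = u ++ v ∧ NC R u ∧ Sub R s v

theorem pr_sub (R : Fin n → Fin n → Prop) (k : ℕ) (s : List (Symbol (Fin n) (gr R).NT))
    (w : List (Fin n)) (h : Pr (gr R) k s w) : Sub R s w := by
  induction h with
  | nil => exact rfl
  | term a s w n _ ih => exact ⟨w, rfl, ih⟩
  | nont r s u v n m hr _ _ ih1 ih2 =>
    refine ⟨u, v, rfl, ?_, ih2⟩
    rcases (mem_gr R r).1 hr with h | ⟨a, b, hab, h⟩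
    · subst h
      have h1 : u = [] := ih1
      rw [h1]
      exact NC.nil
    · subst h
      obtain ⟨w₁, rfl, u₁, v₁, rfl, hu, w₂, rfl, u₂, v₂, rfl, hv, h2⟩ := ih1
      have h3 : v₂ = [] := h2
      subst h3
      rw [List.append_nil]
      exact NC.wrap a b u₁ u₂ hab hu hv

theorem hCFN : StCFN := by
  intro n R
  refine ⟨gr R, fun w => ?_⟩
  rw [ContextFreeGrammar.mem_language_iff, Pool.Agent.Helper36.DR.hPRS]
  constructor
  · rintro ⟨k, h⟩
    obtain ⟨u, v, rfl, hu, hv⟩ := pr_sub R k _ w h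
    have h1 : v = [] := hv
    rw [h1, List.append_nil]
    exact hu
  · exact nc_pr R w

end Pool.Agent.Helper5.NM
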