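import Pool.Agent.Helper5.NM.Defs

set_option autoImplicit false

open Finset Function

namespace Pool.Agent.Helper5.NM

section
variable {n N : ℕ}

/-! Module Q1: a cell is the same as a disjoint family of label cells. -/

theorem lab_eq_some (t : Cel n N) (i : Fin n) (v : Fin N) (p : Fin 3) :
    lab t i v = some (0, p) ↔ t v = some (i, p) := by
  unfold lab
  rcases h : t v with _ | ⟨j, q⟩
  · simp
  · by_cases hj : j = i
    · subst hj
      simp
    · simp [hj]

theorem Q1_lab_none (t : Cel n N) (i : Fin n) (v : Fin N) :
    lab t i v = none ↔ ∀ p, t v ≠ some (i, p) := by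
  constructor
  · intro h p hp
    rw [← lab_eq_some, h] at hp
    exact absurd hp (by simp)
  · intro h
    rcases hl : lab t i v with _ | ⟨j, q⟩
    · rfl
    · exfalso
      have hj : j = 0 := Subsingleton.elim _ _
      subst hj
      exact h q ((lab_eq_some t i v q).1 hl)

theorem Q1_ext {c c' : LC N} (h : ∀ v p, c v = some (0, p) ↔ c' v = some (0, p)) : c = c' := by
  funext v
  rcases hc : c v with _ | ⟨j, q⟩
  · rcases hc' : c' v with _ | ⟨j, q⟩
    · rfl
    · have hj : j = 0 := Subsingleton.elim _ _
      subst hj
      rw [(h v q).2 hc'] at hc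
      exact absurd hc (by simp)
  · have hj : j = 0 := Subsingleton.elim _ _
    subst hj
    exact ((h v q).1 hc).symm

theorem Q1_ne_none (c : LC N) (v : Fin N) : c v ≠ none ↔ ∃ p, c v = some (0, p) := by
  constructor
  · intro h
    obtain ⟨⟨j, q⟩, ha⟩ := Option.ne_none_iff_exists'.1 h
    have hj : j = 0 := Subsingleton.elim _ _
    subst hj
    exact ⟨q, ha⟩
  · rintro ⟨p, hp⟩ h
    rw [h] at hp
    exact absurd hp (by simp)

theorem dj_lab (t : Cel n N) : Dj (lab t) := by
  intro v i j hi hj
  obtain ⟨p, hp⟩ := (Q1_ne_none _ _).1 hi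
  obtain ⟨q, hq⟩ := (Q1_ne_none _ _).1 hj
  rw [lab_eq_some] at hp hq
  rw [hp] at hq
  simp only [Option.some.injEq, Prod.mk.injEq] at hq
  exact hq.1

theorem join_eq_some (c : Fin n → LC N) (h : Dj c) (i : Fin n) (v : Fin N) (p : Fin 3) :
    join c v = some (i, p) ↔ c i v = some (0, p) := by
  classical
  unfold join
  split_ifs with hex
  · have hs := hex.choose_spec
    obtain ⟨q, hq⟩ := (Q1_ne_none _ _).1 hs
    rw [hq]
    simp only [Option.map_some, Option.some.injEq, Prod.mk.injEq]
    constructor
    · rintro ⟨h1, h2⟩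
      rw [← h1, ← h2]
      exact hq
    · intro hp
      have h1 : hex.choose = i := h v _ _ hs (by rw [hp]; simp)
      refine ⟨h1, ?_⟩
      have h2 : c hex.choose v = c i v := by rw [h1]
      rw [hq, hp] at h2
      simpa using h2
  · push Not at hex
    rw [hex i]
    simp

theorem join_eq_none (c : Fin n → LC N) (v : Fin N) :
    join c v = none ↔ ∀ i, c i v = none := by
  classical
  unfold join
  split_ifs with hex
  · have hs := hex.choose_spec
    obtain ⟨q, hq⟩ := (Q1_ne_none _ _).1 hs
    rw [hq]
    constructor
    · intro h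
      exact absurd h (by simp)
    · intro h
      exact absurd (h _) hs
  · push Not at hex
    exact ⟨fun _ => hex, fun _ => rfl⟩

theorem Q1_cel_ext {t t' : Cel n N} (h : ∀ v i p, t v = some (i, p) ↔ t' v = some (i, p)) :
    t = t' := by
  funext v
  rcases hc : t v with _ | ⟨j, q⟩
  · rcases hc' : t' v with _ | ⟨j, q⟩
    · rfl
    · rw [(h v j q).2 hc'] at hc
      exact absurd hc (by simp)
  · exact ((h v j q).1 hc).symm

theorem join_lab (t : Cel n N) : join (lab t) = t := by
  apply Q1_cel_ext
  intro v i p
  rw [join_eq_some _ (dj_lab t), lab_eq_some]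

theorem lab_join (c : Fin n → LC N) (h : Dj c) (i : Fin n) : lab (join c) i = c i := by
  apply Q1_ext
  intro v p
  rw [lab_eq_some, join_eq_some _ h]

theorem mem_im_lab (t : Cel n N) (i : Fin n) (p : Fin 3) :
    ((0 : Fin 1), p) ∈ im (lab t i) ↔ (i, p) ∈ im t := by
  unfold im
  simp only [mem_filter, mem_univ, true_and]
  exact exists_congr fun v => lab_eq_some t i v p

theorem sep_lab (t : Cel n N) (i : Fin n) (p q : Fin 3) :
    sep (lab t i) ((0 : Fin 1), p) (0, q) ↔ sep t (i, p) (i, q) := by
  unfold sep
  simp only [lab_eq_some]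

theorem sgl_lab (t : Cel n N) (i : Fin n) : Sgl (lab t i) 0 ↔ Sgl t i := by
  unfold Sgl
  rw [mem_im_lab, mem_im_lab, mem_im_lab]

theorem sz_eq_sum_lab (t : Cel n N) : sz t = ∑ i, sz (lab t i) := by
  classical
  unfold sz
  rw [← card_biUnion]
  · congr 1
    ext v
    simp only [mem_filter, mem_univ, true_and, mem_biUnion]
    constructor
    · intro h
      obtain ⟨⟨j, q⟩, ha⟩ := Option.ne_none_iff_exists'.1 h
      refine ⟨j, ?_⟩
      rw [Q1_ne_none]
      exact ⟨q, (lab_eq_some t j v q).2 ha⟩
    · rintro ⟨i, hi⟩ h
      obtain ⟨p, hp⟩ := (Q1_ne_none _ _).1 hi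
      rw [lab_eq_some, h] at hp
      exact absurd hp (by simp)
  · intro i _ j _ hij
    rw [Function.onFun, disjoint_left]
    intro v hv hv'
    simp only [mem_filter, mem_univ, true_and] at hv hv'
    exact hij (dj_lab t v i j hv hv')

theorem good_lab (t : Cel n N) (hg : Good t) (i : Fin n) : Good (lab t i) := by
  refine ⟨fun x => ?_, fun x y hxy => absurd (Subsingleton.elim x y) hxy⟩
  have hx : x = 0 := Subsingleton.elim _ _
  subst hx
  obtain ⟨h1, h2, h3, h4, h5⟩ := hg.1 i
  rw [mem_im_lab, mem_im_lab, sep_lab, sep_lab, sep_lab]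
  exact ⟨h1, h2, h3, h4, h5⟩

theorem lab_update (t : Cel n N) (i j : Fin n) (p : Fin 3) (v : Fin N) (hv : t v = none) :
    lab (update t v (some (i, p))) j =
      if j = i then update (lab t i) v (some (0, p)) else lab t j := by
  apply Q1_ext
  intro w q
  rw [lab_eq_some]
  by_cases hw : w = v
  · subst hw
    rw [update_self]
    split_ifs with hj
    · subst hj
      rw [update_self]
      simp
    · rw [lab_eq_some, hv]
      simp only [Option.some.injEq, Prod.mk.injEq, reduceCtorEq, iff_false, not_and]
      intro h
      exact absurd h.symm hj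
  · rw [update_of_ne hw]
    split_ifs with hj
    · subst hj
      rw [update_of_ne hw, lab_eq_some]
    · rw [lab_eq_some]

theorem lab_splitL (t : Cel n N) (i j : Fin n) (v : Fin N) (hv : t v = none) :
    lab (splitL t i v) j = if j = i then splitL (lab t i) 0 v else lab t j := by
  apply Q1_ext
  intro w q
  rw [lab_eq_some]
  by_cases hw : w = v
  · subst hw
    split_ifs with hj
    · subst hj
      simp [splitL]
    · rw [lab_eq_some, hv]
      simp only [splitL, if_true, Option.some.injEq, Prod.mk.injEq, reduceCtorEq, iff_false,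
        not_and]
      intro h
      exact absurd h.symm hj
  · by_cases h0 : t w = some (i, 0)
    · have h1 : lab t i w = some (0, 0) := (lab_eq_some t i w 0).2 h0
      split_ifs with hj
      · subst hj
        simp [splitL, hw, h0, h1]
      · rw [lab_eq_some, h0]
        have hj' : ¬ i = j := fun h => hj h.symm
        simp [splitL, hw, h0, hj']
    · have h1 : lab t i w ≠ some (0, 0) := fun h => h0 ((lab_eq_some t i w 0).1 h)
      split_ifs with hj
      · subst hj
        simp only [splitL, hw, h0, h1, if_false]
        exact (lab_eq_some t _ w q).symm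
      · rw [lab_eq_some]
        simp [splitL, hw, h0]

theorem lab_splitR (t : Cel n N) (i j : Fin n) (v : Fin N) (hv : t v = none) :
    lab (splitR t i v) j = if j = i then splitR (lab t i) 0 v else lab t j := by
  apply Q1_ext
  intro w q
  rw [lab_eq_some]
  by_cases hw : w = v
  · subst hw
    split_ifs with hj
    · subst hj
      simp [splitR]
    · rw [lab_eq_some, hv]
      simp only [splitR, if_true, Option.some.injEq, Prod.mk.injEq, reduceCtorEq, iff_false,
        not_and]
      intro h
      exact absurd h.symm hj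
  · by_cases h0 : t w = some (i, 2)
    · have h1 : lab t i w = some (0, 2) := (lab_eq_some t i w 2).2 h0
      split_ifs with hj
      · subst hj
        simp [splitR, hw, h0, h1]
      · rw [lab_eq_some, h0]
        have hj' : ¬ i = j := fun h => hj h.symm
        simp [splitR, hw, h0, hj']
    · have h1 : lab t i w ≠ some (0, 2) := fun h => h0 ((lab_eq_some t i w 2).1 h)
      split_ifs with hj
      · subst hj
        simp only [splitR, hw, h0, h1, if_false]
        exact (lab_eq_some t _ w q).symm
      · rw [lab_eq_some]
        simp [splitR, hw, h0]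

end

end Pool.Agent.Helper5.NM
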