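import Pool.Agent.Helper5.NM.Defs
import Pool.Agent.Helper5.NM.G12
import Pool.Agent.Helper5.NM.G2
import Pool.Agent.Helper5.NM.P3

set_option autoImplicit false

open Finset Function

namespace Pool.Agent.Helper5.NM

section
variable {N : ℕ} {K : Type*} [CommRing K]

/-! Module Q3: local incidence numbers. -/

/-- the indicator function of a cell -/
noncomputable def Q3_dl (K : Type*) [CommRing K] (c : LC N) : LC N → K :=
  open Classical in fun f => if f = c then (1 : K) else 0

theorem Q3_inc (c e : LC N) : inc K c e = bd (Q3_dl K c) e := rfl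

theorem Q3_dl_sum (z : LC N → K) (u : LC N) : ∑ c, Q3_dl K c u * z c = z u := by
  classical
  unfold Q3_dl
  rw [Finset.sum_eq_single u]
  · simp
  · intro b _ hb
    rw [if_neg (fun h => hb h.symm), zero_mul]
  · intro h
    exact absurd (mem_univ u) h

theorem Q3_dInt (z : LC N → K) (e : LC N) :
    dInt z e = ∑ c, dInt (Q3_dl K c) e * z c := by
  have h : ∀ (v : Fin N) (a : Tok 1), (if e v = none ∧ a ∈ im e then
      (-1 : K) ^ bef e v * z (update e v (some a)) else 0) =
      ∑ c, (if e v = none ∧ a ∈ im e then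
        (-1 : K) ^ bef e v * Q3_dl K c (update e v (some a)) else 0) * z c := by
    intro v a
    by_cases h : e v = none ∧ a ∈ im e
    · simp only [if_pos h]
      rw [← Q3_dl_sum z (update e v (some a)), mul_sum]
      refine sum_congr rfl fun c _ => ?_
      ring
    · simp only [if_neg h, zero_mul, sum_const_zero]
  unfold dInt
  simp_rw [h, sum_mul]
  exact (sum_congr rfl fun v _ => sum_comm).trans sum_comm

theorem Q3_dExt (z : LC N → K) (e : LC N) :
    dExt z e = ∑ c, dExt (Q3_dl K c) e * z c := by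
  have h : ∀ (v : Fin N) (x : Fin 1), (if e v = none ∧ Sgl e x then
      (-1 : K) ^ bef e v * (z (splitL e x v) - z (splitR e x v)) else 0) =
      ∑ c, (if e v = none ∧ Sgl e x then
        (-1 : K) ^ bef e v * (Q3_dl K c (splitL e x v) - Q3_dl K c (splitR e x v)) else 0) *
          z c := by
    intro v x
    by_cases h : e v = none ∧ Sgl e x
    · simp only [if_pos h]
      rw [← Q3_dl_sum z (splitL e x v), ← Q3_dl_sum z (splitR e x v), ← sum_sub_distrib,
        mul_sum]
      refine sum_congr rfl fun c _ => ?_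
      ring
    · simp only [if_neg h, zero_mul, sum_const_zero]
  unfold dExt
  simp_rw [h, sum_mul]
  exact (sum_congr rfl fun v _ => sum_comm).trans sum_comm

theorem bd_eq_sum_inc (z : LC N → K) (e : LC N) : bd z e = ∑ c, inc K c e * z c := by
  simp only [Q3_inc, bd, add_mul, sum_add_distrib]
  rw [← Q3_dInt, ← Q3_dExt]

theorem inc_inc (c s : LC N) : ∑ e, inc K e s * inc K c e = 0 := by
  rw [← bd_eq_sum_inc (fun e => inc K c e) s]
  exact bd_bd (Q3_dl K c) s

/-- explicit form -/
theorem inc_eq (c e : LC N) : inc K c e = ∑ v, (if e v = none then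
    (-1 : K) ^ bef e v * (
      (∑ p : Fin 3, if ((0 : Fin 1), p) ∈ im e ∧ c = update e v (some (0, p)) then (1 : K) else 0)
      + (if Sgl e 0 ∧ c = splitL e 0 v then (1 : K) else 0)
      - (if Sgl e 0 ∧ c = splitR e 0 v then (1 : K) else 0)) else 0) := by
  rw [Q3_inc, bd, dInt, dExt, ← sum_add_distrib]
  refine sum_congr rfl fun v _ => ?_
  rw [Fintype.sum_prod_type, Fin.sum_univ_one, Fin.sum_univ_one]
  by_cases hv : e v = none
  · rw [if_pos hv, add_sub_assoc, mul_add, mul_sum]
    congr 1
    · refine sum_congr rfl fun p _ => ?_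
      unfold Q3_dl
      by_cases h1 : ((0 : Fin 1), p) ∈ im e
      · by_cases h2 : c = update e v (some (0, p))
        · rw [if_pos ⟨hv, h1⟩, if_pos h2.symm, if_pos ⟨h1, h2⟩]
        · rw [if_pos ⟨hv, h1⟩, if_neg (fun h => h2 h.symm), if_neg (fun h => h2 h.2)]
      · rw [if_neg (fun h => h1 h.2), if_neg (fun h => h1 h.1), mul_zero]
    · unfold Q3_dl
      by_cases h1 : Sgl e 0
      · rw [if_pos ⟨hv, h1⟩]
        congr 2
        · by_cases h2 : c = splitL e 0 v
          · rw [if_pos h2.symm, if_pos ⟨h1, h2⟩]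
          · rw [if_neg (fun h => h2 h.symm), if_neg (fun h => h2 h.2)]
        · by_cases h2 : c = splitR e 0 v
          · rw [if_pos h2.symm, if_pos ⟨h1, h2⟩]
          · rw [if_neg (fun h => h2 h.symm), if_neg (fun h => h2 h.2)]
      · rw [if_neg (fun h => h1 h.2), if_neg (fun h => h1 h.1), if_neg (fun h => h1 h.1),
          sub_zero, mul_zero]
  · rw [if_neg hv]
    rw [if_neg (fun h => hv h.1), add_zero]
    exact sum_eq_zero fun p _ => by rw [if_neg (fun h => hv h.1)]

theorem inc_sz (c e : LC N) (h : inc K c e ≠ 0) : sz c = sz e + 1 := by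
  by_contra hne
  apply h
  rw [inc_eq]
  refine sum_eq_zero fun v _ => ?_
  by_cases hv : e v = none
  · rw [if_pos hv]
    have h1 : (∑ p : Fin 3, if ((0 : Fin 1), p) ∈ im e ∧ c = update e v (some (0, p))
        then (1 : K) else 0) = 0 := by
      refine sum_eq_zero fun p _ => ?_
      rw [if_neg]
      rintro ⟨_, rfl⟩
      exact hne (sz_update e v _ hv)
    rw [h1, if_neg, if_neg]
    · ring
    · rintro ⟨_, rfl⟩
      exact hne (sz_splitR e 0 v hv)
    · rintro ⟨_, rfl⟩
      exact hne (sz_splitL e 0 v hv)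
  · rw [if_neg hv]

end

end Pool.Agent.Helper5.NM
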