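import Pool.Agent.Helper5.NM.Defs
import Pool.Agent.Helper5.NM.Q1
import Pool.Agent.Helper5.NM.Q3

set_option autoImplicit false

open Finset Function

namespace Pool.Agent.Helper5.NM

section
variable {n N : ℕ} {K : Type*} [CommRing K]

/-! Module Q9: the faces of a good label cell with three vertices. -/

theorem Q9_mem_im (t : LC N) (a : Tok 1) : a ∈ im t ↔ ∃ i, t i = some a := by
  simp [im]

theorem Q9_ec_fst (a b : Fin N) : ec (a, b) a = some (0, 0) := by
  simp [ec]

theorem Q9_ec_snd (a b : Fin N) (h : a ≠ b) : ec (a, b) b = some (0, 2) := by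
  simp [ec, h.symm]

theorem Q9_ec_none (a b v : Fin N) : ec (a, b) v = none ↔ v ≠ a ∧ v ≠ b := by
  unfold ec
  by_cases h1 : v = a
  · simp [h1]
  · by_cases h2 : v = b
    · subst h2
      simp [h1]
    · simp [h1, h2]

theorem Q9_im_ec (a b : Fin N) (h : a ≠ b) (p : Fin 3) :
    ((0 : Fin 1), p) ∈ im (ec (a, b)) ↔ p = 0 ∨ p = 2 := by
  rw [Q9_mem_im]
  constructor
  · rintro ⟨i, hi⟩
    unfold ec at hi
    by_cases h1 : i = a
    · rw [if_pos h1] at hi
      have h' : (0 : Fin 3) = p := congrArg Prod.snd (Option.some_injective _ hi)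
      exact Or.inl h'.symm
    · rw [if_neg h1] at hi
      by_cases h2 : i = b
      · rw [if_pos h2] at hi
        have h' : (2 : Fin 3) = p := congrArg Prod.snd (Option.some_injective _ hi)
        exact Or.inr h'.symm
      · rw [if_neg h2] at hi
        exact absurd hi (by simp)
  · rintro (rfl | rfl)
    · exact ⟨a, Q9_ec_fst a b⟩
    · exact ⟨b, Q9_ec_snd a b h⟩

theorem Q9_sgl_ec (a b : Fin N) (h : a ≠ b) : Sgl (ec (a, b)) 0 := by
  refine ⟨(Q9_im_ec a b h 0).2 (Or.inl rfl), ?_, (Q9_im_ec a b h 2).2 (Or.inr rfl)⟩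
  rw [Q9_im_ec a b h 1]
  decide

theorem Q9_bef_ec (a b v : Fin N) (h : a ≠ b) :
    bef (ec (a, b)) v = (if a < v then 1 else 0) + (if b < v then 1 else 0) := by
  have h1 : (univ.filter fun j => j < v ∧ ec (a, b) j ≠ none) =
      ({a, b} : Finset (Fin N)).filter (· < v) := by
    ext j
    simp only [mem_filter, mem_univ, true_and, mem_insert, mem_singleton, ne_eq, Q9_ec_none]
    tauto
  rw [bef, h1, Finset.card_filter, Finset.sum_pair h]

/-- the three kinds of cofaces of an edge cell -/
theorem Q9_update_iff (c : LC N) (a b v : Fin N) (hab : a ≠ b) (hva : v ≠ a) (hvb : v ≠ b)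
    (hc : ∀ w, c w ≠ none → w = a ∨ w = b ∨ w = v) (p : Fin 3) :
    c = update (ec (a, b)) v (some (0, p)) ↔
      c a = some (0, 0) ∧ c b = some (0, 2) ∧ c v = some (0, p) := by
  constructor
  · intro h
    rw [h]
    refine ⟨?_, ?_, ?_⟩
    · rw [update_of_ne hva.symm, Q9_ec_fst]
    · rw [update_of_ne hvb.symm, Q9_ec_snd a b hab]
    · rw [update_self]
  · rintro ⟨h1, h2, h3⟩
    funext w
    by_cases hwv : w = v
    · subst hwv
      rw [update_self, h3]
    · rw [update_of_ne hwv]
      by_cases hwa : w = a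
      · subst hwa
        rw [h1, Q9_ec_fst]
      · by_cases hwb : w = b
        · subst hwb
          rw [h2, Q9_ec_snd a w hab]
        · rw [(Q9_ec_none a b w).2 ⟨hwa, hwb⟩]
          by_contra hne
          rcases hc w hne with h | h | h
          · exact hwa h
          · exact hwb h
          · exact hwv h

theorem Q9_splitL_iff (c : LC N) (a b v : Fin N) (hab : a ≠ b) (hva : v ≠ a) (hvb : v ≠ b)
    (hc : ∀ w, c w ≠ none → w = a ∨ w = b ∨ w = v) :
    c = splitL (ec (a, b)) 0 v ↔
      c a = some (0, 1) ∧ c b = some (0, 2) ∧ c v = some (0, 0) := by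
  have e1 : splitL (ec (a, b)) 0 v a = some (0, 1) := by
    unfold splitL
    rw [if_neg hva.symm, if_pos (Q9_ec_fst a b)]
  have e2 : splitL (ec (a, b)) 0 v b = some (0, 2) := by
    unfold splitL
    rw [if_neg hvb.symm, if_neg, Q9_ec_snd a b hab]
    rw [Q9_ec_snd a b hab]
    decide
  have e3 : splitL (ec (a, b)) 0 v v = some (0, 0) := by
    unfold splitL
    rw [if_pos rfl]
  constructor
  · intro h
    rw [h]
    exact ⟨e1, e2, e3⟩
  · rintro ⟨h1, h2, h3⟩
    funext w
    by_cases hwv : w = v
    · rw [hwv, h3, e3]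
    · by_cases hwa : w = a
      · rw [hwa, h1, e1]
      · by_cases hwb : w = b
        · rw [hwb, h2, e2]
        · have hn := (Q9_ec_none a b w).2 ⟨hwa, hwb⟩
          have e4 : splitL (ec (a, b)) 0 v w = none := by
            unfold splitL
            rw [if_neg hwv, if_neg, hn]
            rw [hn]
            simp
          rw [e4]
          by_contra hne
          rcases hc w hne with h | h | h
          · exact hwa h
          · exact hwb h
          · exact hwv h

theorem Q9_splitR_iff (c : LC N) (a b v : Fin N) (hab : a ≠ b) (hva : v ≠ a) (hvb : v ≠ b)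
    (hc : ∀ w, c w ≠ none → w = a ∨ w = b ∨ w = v) :
    c = splitR (ec (a, b)) 0 v ↔
      c a = some (0, 0) ∧ c b = some (0, 1) ∧ c v = some (0, 2) := by
  have e1 : splitR (ec (a, b)) 0 v a = some (0, 0) := by
    unfold splitR
    rw [if_neg hva.symm, if_neg, Q9_ec_fst]
    rw [Q9_ec_fst]
    decide
  have e2 : splitR (ec (a, b)) 0 v b = some (0, 1) := by
    unfold splitR
    rw [if_neg hvb.symm, if_pos (Q9_ec_snd a b hab)]
  have e3 : splitR (ec (a, b)) 0 v v = some (0, 2) := by
    unfold splitR
    rw [if_pos rfl]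
  constructor
  · intro h
    rw [h]
    exact ⟨e1, e2, e3⟩
  · rintro ⟨h1, h2, h3⟩
    funext w
    by_cases hwv : w = v
    · rw [hwv, h3, e3]
    · by_cases hwa : w = a
      · rw [hwa, h1, e1]
      · by_cases hwb : w = b
        · rw [hwb, h2, e2]
        · have hn := (Q9_ec_none a b w).2 ⟨hwa, hwb⟩
          have e4 : splitR (ec (a, b)) 0 v w = none := by
            unfold splitR
            rw [if_neg hwv, if_neg, hn]
            rw [hn]
            simp
          rw [e4]
          by_contra hne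
          rcases hc w hne with h | h | h
          · exact hwa h
          · exact hwb h
          · exact hwv h

/-- a nonzero incidence: one of the four kinds of cofaces -/
theorem Q9_cases (c : LC N) (a b : Fin N) (hab : a ≠ b) (h : inc K c (ec (a, b)) ≠ 0) :
    ∃ v, v ≠ a ∧ v ≠ b ∧ (c = update (ec (a, b)) v (some (0, 0)) ∨
      c = update (ec (a, b)) v (some (0, 2)) ∨ c = splitL (ec (a, b)) 0 v ∨
      c = splitR (ec (a, b)) 0 v) := by
  rw [inc_eq] at h
  obtain ⟨v, -, hv⟩ := Finset.exists_ne_zero_of_sum_ne_zero h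
  by_cases hn : ec (a, b) v = none
  · obtain ⟨h1, h2⟩ := (Q9_ec_none a b v).1 hn
    refine ⟨v, h1, h2, ?_⟩
    by_contra hcon
    apply hv
    rw [if_pos hn]
    have hA : ∀ p : Fin 3, (if ((0 : Fin 1), p) ∈ im (ec (a, b)) ∧
        c = update (ec (a, b)) v (some (0, p)) then (1 : K) else 0) = 0 := by
      intro p
      rw [if_neg]
      rintro ⟨h3, h4⟩
      rcases (Q9_im_ec a b hab p).1 h3 with h5 | h5
      · subst h5
        exact hcon (Or.inl h4)
      · subst h5
        exact hcon (Or.inr (Or.inl h4))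
    rw [Finset.sum_congr rfl (fun p _ => hA p), if_neg, if_neg]
    · simp
    · rintro ⟨-, h4⟩
      exact hcon (Or.inr (Or.inr (Or.inr h4)))
    · rintro ⟨-, h4⟩
      exact hcon (Or.inr (Or.inr (Or.inl h4)))
  · rw [if_neg hn] at hv
    exact absurd rfl hv

/-- the value of the incidence number -/
theorem Q9_inc_ec (c : LC N) (a b v : Fin N) (hab : a ≠ b) (hva : v ≠ a) (hvb : v ≠ b)
    (hv : c v ≠ none) (hc : ∀ w, c w ≠ none → w = a ∨ w = b ∨ w = v) :
    inc K c (ec (a, b)) = (-1 : K) ^ ((if a < v then 1 else 0) + (if b < v then 1 else 0)) *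
      ((if c a = some (0, 0) ∧ c b = some (0, 2) ∧ c v = some (0, 0) then (1 : K) else 0) +
       (if c a = some (0, 0) ∧ c b = some (0, 2) ∧ c v = some (0, 2) then (1 : K) else 0) +
       (if c a = some (0, 1) ∧ c b = some (0, 2) ∧ c v = some (0, 0) then (1 : K) else 0) -
       (if c a = some (0, 0) ∧ c b = some (0, 1) ∧ c v = some (0, 2) then (1 : K) else 0)) := by
  rw [inc_eq, Finset.sum_eq_single v]
  · rw [if_pos ((Q9_ec_none a b v).2 ⟨hva, hvb⟩), Q9_bef_ec a b v hab, Fin.sum_univ_three]
    have i0 : ((0 : Fin 1), (0 : Fin 3)) ∈ im (ec (a, b)) := (Q9_im_ec a b hab 0).2 (Or.inl rfl)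
    have i2 : ((0 : Fin 1), (2 : Fin 3)) ∈ im (ec (a, b)) := (Q9_im_ec a b hab 2).2 (Or.inr rfl)
    have i1 : ((0 : Fin 1), (1 : Fin 3)) ∉ im (ec (a, b)) := by
      rw [Q9_im_ec a b hab 1]
      decide
    have hs := Q9_sgl_ec a b hab
    simp only [i0, i1, i2, hs, true_and, false_and, if_false,
      Q9_update_iff c a b v hab hva hvb hc, Q9_splitL_iff c a b v hab hva hvb hc,
      Q9_splitR_iff c a b v hab hva hvb hc, add_zero]
  · intro w _ hwv
    by_cases hn : ec (a, b) w = none
    · obtain ⟨h1, h2⟩ := (Q9_ec_none a b w).1 hn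
      have hcv : ∀ t : LC N, t v = none → c ≠ t := by
        intro t ht hct
        apply hv
        rw [hct, ht]
      have hvn : ec (a, b) v = none := (Q9_ec_none a b v).2 ⟨hva, hvb⟩
      rw [if_pos hn]
      have hA : ∀ p : Fin 3, (if ((0 : Fin 1), p) ∈ im (ec (a, b)) ∧
          c = update (ec (a, b)) w (some (0, p)) then (1 : K) else 0) = 0 := by
        intro p
        rw [if_neg]
        rintro ⟨-, h4⟩
        exact hcv _ (by rw [update_of_ne (Ne.symm hwv), hvn]) h4
      rw [Finset.sum_congr rfl (fun p _ => hA p), if_neg, if_neg]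
      · simp
      · rintro ⟨-, h4⟩
        refine hcv _ ?_ h4
        unfold splitR
        rw [if_neg (Ne.symm hwv), if_neg, hvn]
        rw [hvn]
        simp
      · rintro ⟨-, h4⟩
        refine hcv _ ?_ h4
        unfold splitL
        rw [if_neg (Ne.symm hwv), if_neg, hvn]
        rw [hvn]
        simp
    · rw [if_neg hn]
  · intro h
    exact absurd (Finset.mem_univ v) h

/-- a good label cell with a nonzero incidence with an edge: the edge lies in a block -/
theorem inc_ec_block (c : LC N) (hg : Good c) (e : Fin N × Fin N) (he : e.1 < e.2)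
    (h : inc K c (ec e) ≠ 0) :
    ∃ p q, Blk c 0 p q ∧ c e.1 = some (0, p) ∧ c e.2 = some (0, q) := by
  obtain ⟨a, b⟩ := e
  have hab : a ≠ b := ne_of_lt he
  obtain ⟨v, hva, hvb, hcase⟩ := Q9_cases c a b hab h
  have hup : ∀ p : Fin 3, p ≠ 1 → c = update (ec (a, b)) v (some (0, p)) →
      ∃ p q, Blk c 0 p q ∧ c a = some (0, p) ∧ c b = some (0, q) := by
    intro p hp hc
    have ha : c a = some (0, 0) := by rw [hc, update_of_ne hva.symm, Q9_ec_fst]
    have hb : c b = some (0, 2) := by rw [hc, update_of_ne hvb.symm, Q9_ec_snd a b hab]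
    refine ⟨0, 2, Or.inr ⟨?_, rfl, rfl⟩, ha, hb⟩
    rw [Q9_mem_im]
    rintro ⟨w, hw⟩
    by_cases hwv : w = v
    · rw [hc, hwv, update_self] at hw
      exact hp (congrArg Prod.snd (Option.some_injective _ hw))
    · rw [hc, update_of_ne hwv] at hw
      have : ((0 : Fin 1), (1 : Fin 3)) ∈ im (ec (a, b)) := (Q9_mem_im _ _).2 ⟨w, hw⟩
      rw [Q9_im_ec a b hab 1] at this
      exact absurd this (by decide)
  rcases hcase with hc | hc | hc | hc
  · exact hup 0 (by decide) hc
  · exact hup 2 (by decide) hc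
  · have ha : c a = some (0, 1) := by
      rw [hc]
      unfold splitL
      rw [if_neg hva.symm, if_pos (Q9_ec_fst a b)]
    have hb : c b = some (0, 2) := by
      rw [hc]
      unfold splitL
      rw [if_neg hvb.symm, if_neg, Q9_ec_snd a b hab]
      rw [Q9_ec_snd a b hab]
      decide
    exact ⟨1, 2, Or.inl ⟨(Q9_mem_im _ _).2 ⟨a, ha⟩, Or.inr ⟨rfl, rfl⟩⟩, ha, hb⟩
  · have ha : c a = some (0, 0) := by
      rw [hc]
      unfold splitR
      rw [if_neg hva.symm, if_neg, Q9_ec_fst]
      rw [Q9_ec_fst]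
      decide
    have hb : c b = some (0, 1) := by
      rw [hc]
      unfold splitR
      rw [if_neg hvb.symm, if_pos (Q9_ec_snd a b hab)]
    exact ⟨0, 1, Or.inl ⟨(Q9_mem_im _ _).2 ⟨b, hb⟩, Or.inl ⟨rfl, rfl⟩⟩, ha, hb⟩

/-- the two faces of a good label cell with three vertices have opposite signs (all terms vanish
if `sz c` is not 3) -/
theorem sum_inc (c : LC N) (hg : Good c) :
    ∑ e ∈ univ.filter (fun e : Fin N × Fin N => e.1 < e.2), inc K c (ec e) = 0 := by
  by_cases hsz : sz c = 3
  · have hcard : (univ.filter fun i => c i ≠ none).card = 3 := hsz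
    let f := (univ.filter fun i => c i ≠ none).orderEmbOfFin hcard
    have hfr : ∀ w, c w ≠ none ↔ ∃ i, f i = w := by
      intro w
      have h1 : Set.range f = ((univ.filter fun i => c i ≠ none : Finset (Fin N)) : Set (Fin N)) :=
        Finset.range_orderEmbOfFin _ hcard
      have h2 : w ∈ Set.range f ↔ c w ≠ none := by
        rw [h1]
        simp
      rw [← h2]
      rfl
    have hxy : f 0 < f 1 := f.strictMono (by decide)
    have hyz : f 1 < f 2 := f.strictMono (by decide)
    have hxz : f 0 < f 2 := f.strictMono (by decide)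
    generalize hx : f 0 = x at *
    generalize hy : f 1 = y at *
    generalize hz : f 2 = z at *
    have hc : ∀ w, c w ≠ none ↔ w = x ∨ w = y ∨ w = z := by
      intro w
      rw [hfr w]
      constructor
      · rintro ⟨i, rfl⟩
        fin_cases i
        · exact Or.inl hx
        · exact Or.inr (Or.inl hy)
        · exact Or.inr (Or.inr hz)
      · rintro (rfl | rfl | rfl)
        · exact ⟨0, hx⟩
        · exact ⟨1, hy⟩
        · exact ⟨2, hz⟩
    have hval : ∀ w, c w ≠ none → ∃ p : Fin 3, c w = some (0, p) := by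
      intro w hw
      obtain ⟨⟨i, p⟩, hp⟩ := Option.ne_none_iff_exists'.1 hw
      refine ⟨p, ?_⟩
      rw [hp, Subsingleton.elim i 0]
    obtain ⟨h0, h2, h01, h12, h02⟩ := hg.1 0
    obtain ⟨w0, hw0⟩ := (Q9_mem_im _ _).1 h0
    obtain ⟨w2, hw2⟩ := (Q9_mem_im _ _).1 h2
    have hw0' : w0 = x ∨ w0 = y ∨ w0 = z := (hc w0).1 (by rw [hw0]; simp)
    have hw2' : w2 = x ∨ w2 = y ∨ w2 = z := (hc w2).1 (by rw [hw2]; simp)
    have hxw0 : x ≤ w0 := by
      rcases hw0' with h | h | h
      · exact h.ge
      · rw [h]; exact hxy.le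
      · rw [h]; exact hxz.le
    have hzw2 : w2 ≤ z := by
      rcases hw2' with h | h | h
      · rw [h]; exact hxz.le
      · rw [h]; exact hyz.le
      · exact h.le
    have hxv : c x = some (0, 0) := by
      obtain ⟨p, hp⟩ := hval x ((hc x).2 (Or.inl rfl))
      fin_cases p
      · exact hp
      · exact absurd (h01 w0 x hw0 hp) (not_lt.2 hxw0)
      · exact absurd (h02 w0 x hw0 hp) (not_lt.2 hxw0)
    have hzv : c z = some (0, 2) := by
      obtain ⟨p, hp⟩ := hval z ((hc z).2 (Or.inr (Or.inr rfl)))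
      fin_cases p
      · exact absurd (h02 z w2 hp hw2) (not_lt.2 hzw2)
      · exact absurd (h12 z w2 hp hw2) (not_lt.2 hzw2)
      · exact hp
    obtain ⟨p, hyv⟩ := hval y ((hc y).2 (Or.inr (Or.inl rfl)))
    have hsub : ({(x, y), (x, z), (y, z)} : Finset (Fin N × Fin N)) ⊆
        univ.filter (fun e : Fin N × Fin N => e.1 < e.2) := by
      intro e he
      simp only [mem_insert, mem_singleton] at he
      rw [mem_filter]
      refine ⟨mem_univ _, ?_⟩
      rcases he with rfl | rfl | rfl
      · exact hxy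
      · exact hxz
      · exact hyz
    rw [← Finset.sum_subset hsub]
    · have n1 : ((x, y) : Fin N × Fin N) ∉ ({(x, z), (y, z)} : Finset (Fin N × Fin N)) := by
        simp only [mem_insert, mem_singleton, Prod.mk.injEq, not_or, not_and]
        exact ⟨fun _ => hyz.ne, fun h => absurd h hxy.ne⟩
      have n2 : ((x, z) : Fin N × Fin N) ≠ (y, z) := by
        intro h
        exact hxy.ne (congrArg Prod.fst h)
      rw [Finset.sum_insert n1, Finset.sum_pair n2]
      have hxn := (hc x).2 (Or.inl rfl)
      have hyn := (hc y).2 (Or.inr (Or.inl rfl))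
      have hzn := (hc z).2 (Or.inr (Or.inr rfl))
      rw [Q9_inc_ec c x y z hxy.ne hxz.ne' hyz.ne' hzn (fun w hw => (hc w).1 hw),
        Q9_inc_ec c x z y hxz.ne hxy.ne' hyz.ne hyn (fun w hw => by
          rcases (hc w).1 hw with h | h | h
          · exact Or.inl h
          · exact Or.inr (Or.inr h)
          · exact Or.inr (Or.inl h)),
        Q9_inc_ec c y z x hyz.ne hxy.ne hxz.ne hxn (fun w hw => by
          rcases (hc w).1 hw with h | h | h
          · exact Or.inr (Or.inr h)
          · exact Or.inl h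
          · exact Or.inr (Or.inl h))]
      simp only [hxv, hzv, hyv, hxy, hyz, hxz, hxy.not_gt, hyz.not_gt, hxz.not_gt, if_true,
        if_false, Option.some.injEq, Prod.mk.injEq, true_and]
      fin_cases p <;> simp
    · intro e he hne
      rw [mem_filter] at he
      by_contra hcon
      obtain ⟨p', q', -, h3, h4⟩ := inc_ec_block c hg e he.2 hcon
      have h5 := (hc e.1).1 (by rw [h3]; simp)
      have h6 := (hc e.2).1 (by rw [h4]; simp)
      apply hne
      obtain ⟨a, b⟩ := e
      have hab : a < b := he.2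
      simp only at h5 h6
      simp only [mem_insert, mem_singleton, Prod.mk.injEq]
      rcases h5 with rfl | rfl | rfl <;> rcases h6 with rfl | rfl | rfl
      · exact absurd hab (lt_irrefl _)
      · exact Or.inl ⟨rfl, rfl⟩
      · exact Or.inr (Or.inl ⟨rfl, rfl⟩)
      · exact absurd hab hxy.not_gt
      · exact absurd hab (lt_irrefl _)
      · exact Or.inr (Or.inr ⟨rfl, rfl⟩)
      · exact absurd hab hxz.not_gt
      · exact absurd hab hyz.not_gt
      · exact absurd hab (lt_irrefl _)
  · apply Finset.sum_eq_zero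
    intro e he
    rw [mem_filter] at he
    by_contra hcon
    apply hsz
    have h1 := inc_sz c (ec e) hcon
    rw [h1]
    obtain ⟨a, b⟩ := e
    have hab : a ≠ b := ne_of_lt he.2
    have h2 : (univ.filter fun i => ec (a, b) i ≠ none) = ({a, b} : Finset (Fin N)) := by
      ext j
      simp only [mem_filter, mem_univ, true_and, mem_insert, mem_singleton, ne_eq, Q9_ec_none]
      tauto
    rw [sz, h2, Finset.card_pair hab]

end

end Pool.Agent.Helper5.NM
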