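import Pool.Agent.Helper5.NM.Defs
import Pool.Agent.Helper5.NM.Q1
import Pool.Agent.Helper5.NM.Q3
import Pool.Agent.Helper5.NM.Q9

set_option autoImplicit false

open Finset Function

namespace Pool.Agent.Helper5.NM

section
variable {n N : ℕ} {K : Type*} [CommRing K]

/-! Module Q10: edges chosen in the label cells of a good cell form a non-nested matching. -/

theorem Q10_mem_im (t : Cel n N) (a : Tok n) : a ∈ im t ↔ ∃ v, t v = some a := by
  simp [im]

theorem Q10_ec_one (e : Fin N × Fin N) : ec e e.1 = some (0, 0) := by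
  simp [ec]

theorem Q10_ec_two (e : Fin N × Fin N) (h : e.1 < e.2) : ec e e.2 = some (0, 2) := by
  simp [ec, h.ne']

theorem Q10_ec_none (e : Fin N × Fin N) (v : Fin N) (h1 : v ≠ e.1) (h2 : v ≠ e.2) :
    ec e v = none := by
  simp [ec, h1, h2]

theorem Q10_ec_mid (e : Fin N × Fin N) : ((0 : Fin 1), (1 : Fin 3)) ∉ im (ec e) := by
  rw [Q10_mem_im]
  rintro ⟨v, hv⟩
  unfold ec at hv
  split_ifs at hv with h1 h2
  · simp at hv
  · simp at hv

theorem Q10_sgl_ec (e : Fin N × Fin N) (h : e.1 < e.2) : Sgl (ec e) 0 :=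
  ⟨(Q10_mem_im _ _).2 ⟨_, Q10_ec_one e⟩, Q10_ec_mid e, (Q10_mem_im _ _).2 ⟨_, Q10_ec_two e h⟩⟩

theorem Q10_sz_ec (e : Fin N × Fin N) (h : e.1 < e.2) : sz (ec e) = 2 := by
  have : (univ.filter fun i => ec e i ≠ none) = {e.1, e.2} := by
    ext v
    simp only [mem_filter, mem_univ, true_and, mem_insert, mem_singleton]
    constructor
    · intro h1
      by_contra h2
      rw [not_or] at h2
      exact h1 (Q10_ec_none e v h2.1 h2.2)
    · rintro (rfl | rfl)
      · rw [Q10_ec_one]; simp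
      · rw [Q10_ec_two e h]; simp
  rw [sz, this, card_pair h.ne]

theorem Q10_mem_im_join (c : Fin n → LC N) (hD : Dj c) (i : Fin n) (p : Fin 3) :
    (i, p) ∈ im (join c) ↔ ((0 : Fin 1), p) ∈ im (c i) := by
  rw [← mem_im_lab, lab_join c hD]

theorem Q10_blk_join (c : Fin n → LC N) (hD : Dj c) (i : Fin n) (p q : Fin 3)
    (h : Blk (c i) 0 p q) : Blk (join c) i p q := by
  unfold Blk at *
  rw [Q10_mem_im_join c hD]
  exact h

theorem Q10_good (c : Fin n → LC N) (hD : Dj c) (hg : Good (join c)) (i : Fin n) :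
    Good (c i) := by
  have := good_lab (join c) hg i
  rwa [lab_join c hD] at this

theorem Q10_blk_ec (e : Fin N × Fin N) : Blk (ec e) 0 0 2 :=
  Or.inr ⟨Q10_ec_mid e, rfl, rfl⟩

theorem Q10_face (c : Fin n → LC N) (hD : Dj c) (hg : Good (join c)) (s : Fin N × Fin N)
    (hs : s.1 < s.2) (i : Fin n) (h : c i = ec s ∨ inc K (c i) (ec s) ≠ 0) :
    ∃ p q, Blk (join c) i p q ∧ join c s.1 = some (i, p) ∧ join c s.2 = some (i, q) := by
  rcases h with h | h
  · refine ⟨0, 2, Q10_blk_join c hD i 0 2 (by rw [h]; exact Q10_blk_ec s), ?_, ?_⟩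
    · rw [join_eq_some c hD, h]
      exact Q10_ec_one s
    · rw [join_eq_some c hD, h]
      exact Q10_ec_two s hs
  · obtain ⟨p, q, h1, h2, h3⟩ := inc_ec_block (c i) (Q10_good c hD hg i) s hs h
    exact ⟨p, q, Q10_blk_join c hD i p q h1, (join_eq_some c hD _ _ _).2 h2,
      (join_eq_some c hD _ _ _).2 h3⟩

theorem faces_nn (c : Fin n → LC N) (hD : Dj c) (hg : Good (join c))
    (s : Fin n → Fin N × Fin N) (hs : ∀ i, (s i).1 < (s i).2)
    (h : ∀ i, c i = ec (s i) ∨ inc K (c i) (ec (s i)) ≠ 0) (i j : Fin n) (hij : i ≠ j) :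
    (elt (s i) (s j) ∨ elt (s j) (s i)) ∧ (s i).1 ≠ (s j).1 ∧ (s i).1 ≠ (s j).2 := by
  obtain ⟨p, q, h1, h2, h3⟩ := Q10_face c hD hg (s i) (hs i) i (h i)
  obtain ⟨p', q', h1', h2', h3'⟩ := Q10_face c hD hg (s j) (hs j) j (h j)
  refine ⟨?_, ?_, ?_⟩
  · rcases hg.2 i j hij p q p' q' h1 h1' with h4 | h4
    · exact Or.inl ⟨h4.1 _ _ h2 h2', h4.2 _ _ h3 h3'⟩
    · exact Or.inr ⟨h4.1 _ _ h2' h2, h4.2 _ _ h3' h3⟩
  · intro h4
    rw [h4, h2'] at h2
    simp only [Option.some.injEq, Prod.mk.injEq] at h2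
    exact hij h2.1.symm
  · intro h4
    rw [h4, h3'] at h2
    simp only [Option.some.injEq, Prod.mk.injEq] at h2
    exact hij h2.1.symm

/-- the face without the last vertex -/
theorem Q10_inc (c : LC N) (a b d : Fin N) (hab : a < b) (hbd : b < d) (ha : c a = some (0, 0))
    (hb : c b = some (0, 1)) (hd : c d = some (0, 2))
    (hn : ∀ v, v ≠ a → v ≠ b → v ≠ d → c v = none) : inc K c (ec (a, b)) = -1 := by
  have had : a < d := hab.trans hbd
  have hR : splitR (ec (a, b)) 0 d = c := by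
    funext j
    unfold splitR
    by_cases hjd : j = d
    · rw [if_pos hjd, hjd, hd]
    · rw [if_neg hjd]
      by_cases hja : j = a
      · rw [hja, ha, Q10_ec_one (a, b)]
        simp
      · by_cases hjb : j = b
        · rw [hjb, hb, Q10_ec_two (a, b) hab]
          simp
        · rw [hn j hja hjb hjd, Q10_ec_none (a, b) j hja hjb]
          simp
  have hRv : ∀ v, c = splitR (ec (a, b)) 0 v → v = d := by
    intro v hv
    by_contra hvd
    have h1 : c v = some (0, 2) := by
      rw [hv]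
      simp [splitR]
    by_cases hva : v = a
    · rw [hva, ha] at h1
      simp at h1
    · by_cases hvb : v = b
      · rw [hvb, hb] at h1
        simp at h1
      · rw [hn v hva hvb hvd] at h1
        simp at h1
  have hL : ∀ v, ec (a, b) v = none → c ≠ splitL (ec (a, b)) 0 v := by
    intro v hv h
    have h1 : c a = splitL (ec (a, b)) 0 v a := by rw [← h]
    have hav : a ≠ v := by
      rintro rfl
      rw [Q10_ec_one (a, b)] at hv
      simp at hv
    rw [ha] at h1
    unfold splitL at h1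
    rw [if_neg hav, Q10_ec_one (a, b)] at h1
    simp at h1
  have hU : ∀ v, ec (a, b) v = none → ∀ p : Fin 3,
      ¬ (((0 : Fin 1), p) ∈ im (ec (a, b)) ∧ c = update (ec (a, b)) v (some (0, p))) := by
    rintro v hv p ⟨h1, h2⟩
    have h3 : c b = update (ec (a, b)) v (some (0, p)) b := by rw [← h2]
    have hbv : b ≠ v := by
      rintro rfl
      rw [Q10_ec_two (a, b) hab] at hv
      simp at hv
    rw [update_of_ne hbv, hb, Q10_ec_two (a, b) hab] at h3
    simp at h3
  rw [inc_eq, sum_eq_single d]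
  · have hdn : ec (a, b) d = none := Q10_ec_none (a, b) d had.ne' hbd.ne'
    have hbef : bef (ec (a, b)) d = 2 := by
      have : (univ.filter fun j => j < d ∧ ec (a, b) j ≠ none) = {a, b} := by
        ext v
        simp only [mem_filter, mem_univ, true_and, mem_insert, mem_singleton]
        constructor
        · rintro ⟨-, h1⟩
          by_contra h2
          rw [not_or] at h2
          exact h1 (Q10_ec_none (a, b) v h2.1 h2.2)
        · rintro (rfl | rfl)
          · exact ⟨had, by rw [Q10_ec_one (v, b)]; simp⟩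
          · exact ⟨hbd, by rw [Q10_ec_two (a, v) hab]; simp⟩
      rw [bef, this, card_pair hab.ne]
    rw [if_pos hdn, hbef, sum_eq_zero fun p _ => if_neg (hU d hdn p),
      if_neg (fun h => hL d hdn h.2), if_pos ⟨Q10_sgl_ec (a, b) hab, hR.symm⟩]
    norm_num
  · intro v _ hvd
    by_cases hv : ec (a, b) v = none
    · rw [if_pos hv, sum_eq_zero fun p _ => if_neg (hU v hv p), if_neg (fun h => hL v hv h.2),
        if_neg (fun h => hvd (hRv v h.2))]
      ring
    · rw [if_neg hv]
  · intro h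
    exact absurd (mem_univ d) h

/-- The sum of the incidences with the edges smaller than the edge `e₀` of another label. -/
theorem sum_inc_lt (c : Fin n → LC N) (hD : Dj c) (hg : Good (join c)) (i l : Fin n) (hil : i ≠ l)
    (e₀ : Fin N × Fin N) (he₀ : e₀.1 < e₀.2) (hl : c l = ec e₀) :
    open Classical in
    ∑ e ∈ univ.filter (fun e : Fin N × Fin N => e.1 < e.2 ∧ elt e e₀), inc K (c i) (ec e) =
      if sz (c i) = 3 ∧ (i, 1) ∈ im (join c) ∧ sep (join c) (i, 0) (l, 0) ∧
        sep (join c) (l, 0) (i, 1) then -1 else 0 := by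
  classical
  have hgi := Q10_good c hD hg i
  -- the label `l`
  have l0 : join c e₀.1 = some (l, 0) := by
    rw [join_eq_some c hD, hl]
    exact Q10_ec_one e₀
  have l2 : join c e₀.2 = some (l, 2) := by
    rw [join_eq_some c hD, hl]
    exact Q10_ec_two e₀ he₀
  have hbl : Blk (join c) l 0 2 := Q10_blk_join c hD l 0 2 (by rw [hl]; exact Q10_blk_ec e₀)
  -- comparison
  have hcmp : ∀ p q, Blk (join c) i p q →
      (sep (join c) (i, p) (l, 0) ∧ sep (join c) (i, q) (l, 2)) ∨
      (sep (join c) (l, 0) (i, p) ∧ sep (join c) (l, 2) (i, q)) := fun p q h =>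
    hg.2 i l hil p q 0 2 h hbl
  by_cases hsz : sz (c i) = 3
  swap
  · rw [if_neg fun h => hsz h.1]
    refine sum_eq_zero fun e he => ?_
    rw [mem_filter] at he
    by_contra h
    have h1 := inc_sz (c i) (ec e) h
    rw [Q10_sz_ec e he.2.1] at h1
    exact hsz h1
  -- reduction of the sum if everything is before `e₀`
  have hall : (∀ e : Fin N × Fin N, e.1 < e.2 → inc K (c i) (ec e) ≠ 0 → elt e e₀) →
      ∑ e ∈ univ.filter (fun e : Fin N × Fin N => e.1 < e.2 ∧ elt e e₀), inc K (c i) (ec e) = 0 := by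
    intro h
    rw [← sum_inc (K := K) (c i) hgi]
    refine sum_subset ?_ ?_
    · intro e he
      rw [mem_filter] at he ⊢
      exact ⟨he.1, he.2.1⟩
    · intro e he he'
      rw [mem_filter] at he he'
      by_contra h1
      exact he' ⟨he.1, he.2, h e he.2 h1⟩
  have hnone : (∀ e : Fin N × Fin N, e.1 < e.2 → inc K (c i) (ec e) ≠ 0 → elt e₀ e) →
      ∑ e ∈ univ.filter (fun e : Fin N × Fin N => e.1 < e.2 ∧ elt e e₀), inc K (c i) (ec e) = 0 := by
    intro h
    refine sum_eq_zero fun e he => ?_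
    rw [mem_filter] at he
    by_contra h1
    exact absurd (h e he.2.1 h1).1 (he.2.2.1).asymm
  have hface : ∀ e : Fin N × Fin N, e.1 < e.2 → inc K (c i) (ec e) ≠ 0 → ∃ p q,
      Blk (join c) i p q ∧ join c e.1 = some (i, p) ∧ join c e.2 = some (i, q) :=
    fun e he h => Q10_face c hD hg e he i (Or.inr h)
  by_cases hM : (i, (1 : Fin 3)) ∈ im (join c)
  swap
  · rw [if_neg fun h => hM h.2.1]
    have hb : Blk (join c) i 0 2 := Or.inr ⟨hM, rfl, rfl⟩
    have hpq : ∀ p q, Blk (join c) i p q → p = 0 ∧ q = 2 := by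
      rintro p q (h | h)
      · exact absurd h.1 hM
      · exact h.2
    rcases hcmp 0 2 hb with h | h
    · refine hall fun e he h1 => ?_
      obtain ⟨p, q, h2, h3, h4⟩ := hface e he h1
      obtain ⟨rfl, rfl⟩ := hpq p q h2
      exact ⟨h.1 _ _ h3 l0, h.2 _ _ h4 l2⟩
    · refine hnone fun e he h1 => ?_
      obtain ⟨p, q, h2, h3, h4⟩ := hface e he h1
      obtain ⟨rfl, rfl⟩ := hpq p q h2
      exact ⟨h.1 _ _ l0 h3, h.2 _ _ l2 h4⟩
  -- three vertices
  obtain ⟨hi0, hi2, s01, s12, s02⟩ := hg.1 i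
  obtain ⟨a, ha⟩ := (Q10_mem_im _ _).1 hi0
  obtain ⟨b, hb⟩ := (Q10_mem_im _ _).1 hM
  obtain ⟨d, hd⟩ := (Q10_mem_im _ _).1 hi2
  have hab : a < b := s01 _ _ ha hb
  have hbd : b < d := s12 _ _ hb hd
  have ha' := (join_eq_some c hD i a 0).1 ha
  have hb' := (join_eq_some c hD i b 1).1 hb
  have hd' := (join_eq_some c hD i d 2).1 hd
  have hfil : (univ.filter fun v => c i v ≠ none) = {a, b, d} := by
    symm
    apply eq_of_subset_of_card_le
    · intro v hv
      rw [mem_filter]
      refine ⟨mem_univ _, ?_⟩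
      simp only [mem_insert, mem_singleton] at hv
      rcases hv with rfl | rfl | rfl
      · rw [ha']; simp
      · rw [hb']; simp
      · rw [hd']; simp
    · have h1 : (univ.filter fun v => c i v ≠ none).card = 3 := hsz
      rw [h1]
      have h2 : ({a, b, d} : Finset (Fin N)).card = 3 := by
        rw [card_eq_three]
        exact ⟨a, b, d, hab.ne, (hab.trans hbd).ne, hbd.ne, rfl⟩
      rw [h2]
  have hn : ∀ v, v ≠ a → v ≠ b → v ≠ d → c i v = none := by
    intro v h1 h2 h3
    by_contra h4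
    have h5 : v ∈ (univ.filter fun v => c i v ≠ none) := by
      rw [mem_filter]; exact ⟨mem_univ _, h4⟩
    rw [hfil] at h5
    simp only [mem_insert, mem_singleton] at h5
    tauto
  have huniq : ∀ v p, join c v = some (i, p) → (p = 0 → v = a) ∧ (p = 1 → v = b) ∧
      (p = 2 → v = d) := by
    intro v p hv
    have hv' := (join_eq_some c hD i v p).1 hv
    by_cases h1 : v = a
    · subst h1
      rw [ha'] at hv'
      simp only [Option.some.injEq, Prod.mk.injEq, true_and] at hv'
      subst hv'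
      refine ⟨fun _ => rfl, fun h => ?_, fun h => ?_⟩
      · simp at h
      · simp at h
    · by_cases h2 : v = b
      · subst h2
        rw [hb'] at hv'
        simp only [Option.some.injEq, Prod.mk.injEq, true_and] at hv'
        subst hv'
        refine ⟨fun h => ?_, fun _ => rfl, fun h => ?_⟩
        · simp at h
        · simp at h
      · by_cases h3 : v = d
        · subst h3
          rw [hd'] at hv'
          simp only [Option.some.injEq, Prod.mk.injEq, true_and] at hv'
          subst hv'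
          refine ⟨fun h => ?_, fun h => ?_, fun _ => rfl⟩
          · simp at h
          · simp at h
        · rw [hn v h1 h2 h3] at hv'
          simp at hv'
  have hb01 : Blk (join c) i 0 1 := Or.inl ⟨hM, Or.inl ⟨rfl, rfl⟩⟩
  have hb12 : Blk (join c) i 1 2 := Or.inl ⟨hM, Or.inr ⟨rfl, rfl⟩⟩
  have hpq : ∀ p q, Blk (join c) i p q → (p = 0 ∧ q = 1) ∨ (p = 1 ∧ q = 2) := by
    rintro p q (h | h)
    · exact h.2
    · exact absurd hM h.1
  have hface' : ∀ e : Fin N × Fin N, e.1 < e.2 → inc K (c i) (ec e) ≠ 0 →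
      (e.1 = a ∧ e.2 = b) ∨ (e.1 = b ∧ e.2 = d) := by
    intro e he h1
    obtain ⟨p, q, h2, h3, h4⟩ := hface e he h1
    rcases hpq p q h2 with ⟨rfl, rfl⟩ | ⟨rfl, rfl⟩
    · exact Or.inl ⟨(huniq _ _ h3).1 rfl, (huniq _ _ h4).2.1 rfl⟩
    · exact Or.inr ⟨(huniq _ _ h3).2.1 rfl, (huniq _ _ h4).2.2 rfl⟩
  rcases hcmp 0 1 hb01 with h01 | h01
  · rcases hcmp 1 2 hb12 with h12 | h12
    · -- everything before
      have h5 : b < e₀.1 := h12.1 _ _ hb l0
      rw [if_neg fun h => absurd (h.2.2.2 _ _ l0 hb) h5.asymm]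
      refine hall fun e he h1 => ?_
      rcases hface' e he h1 with ⟨h2, h3⟩ | ⟨h2, h3⟩
      · rw [elt, h2, h3]
        exact ⟨h01.1 _ _ ha l0, h01.2 _ _ hb l2⟩
      · rw [elt, h2, h3]
        exact ⟨h12.1 _ _ hb l0, h12.2 _ _ hd l2⟩
    · -- straddling
      rw [if_pos ⟨hsz, hM, h01.1, h12.1⟩, sum_eq_single (a, b)]
      · exact Q10_inc (c i) a b d hab hbd ha' hb' hd' hn
      · intro e he hne
        rw [mem_filter] at he
        by_contra h1
        rcases hface' e he.2.1 h1 with ⟨h2, h3⟩ | ⟨h2, h3⟩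
        · exact hne (Prod.ext h2 h3)
        · have h4 := he.2.2.1
          rw [h2] at h4
          exact absurd (h12.1 _ _ l0 hb) h4.asymm
      · intro h
        exfalso
        apply h
        rw [mem_filter]
        exact ⟨mem_univ _, hab, h01.1 _ _ ha l0, h01.2 _ _ hb l2⟩
  · -- everything after
    have h5 : e₀.1 < a := h01.1 _ _ l0 ha
    have h5' : e₀.1 < b := h5.trans hab
    rw [if_neg fun h => absurd (h.2.2.1 _ _ ha l0) h5.asymm]
    refine hnone fun e he h1 => ?_
    rcases hface' e he h1 with ⟨h2, h3⟩ | ⟨h2, h3⟩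
    · rw [elt, h2, h3]
      exact ⟨h5, h01.2 _ _ l2 hb⟩
    · rw [elt, h2, h3]
      exact ⟨h5', (h01.2 _ _ l2 hb).trans hbd⟩

end

end Pool.Agent.Helper5.NM
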