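import Pool.Agent.Helper5.NM.Defs

set_option autoImplicit false

open Finset Function

namespace Pool.Agent.Helper5.NM

section
variable {n N : ℕ}

/-! Module Q2: inversions between labels under adding a vertex. -/

/-- the labels of a cell -/
def Q2_lb (t : Cel n N) : Fin N → Option (Fin n) := fun j => (t j).map Prod.fst

theorem Q2_lb_some (t : Cel n N) (j : Fin N) (i : Fin n) :
    Q2_lb t j = some i ↔ ∃ a, t j = some a ∧ a.1 = i := by
  unfold Q2_lb
  rw [Option.map_eq_some_iff]

theorem Q2_lb_none (t : Cel n N) (j : Fin N) : Q2_lb t j = none ↔ t j = none := by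
  unfold Q2_lb
  rw [Option.map_eq_none_iff]

theorem Q2_lab_ne (t : Cel n N) (i : Fin n) (j : Fin N) :
    lab t i j ≠ none ↔ Q2_lb t j = some i := by
  rw [Q2_lb_some]
  unfold lab
  cases h : t j with
  | none => simp
  | some a =>
    by_cases hi : a.1 = i
    · simp [hi]
    · simp [hi]

/-- inversions of labels -/
def Q2_linv (l : Fin N → Option (Fin n)) : ℕ :=
  ∑ i : Fin N, ∑ j : Fin N, if i < j ∧ ∃ a b, l i = some a ∧ l j = some b ∧ b < a then 1 else 0

theorem Q2_linv_eq (t : Cel n N) : linv t = Q2_linv (Q2_lb t) := by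
  unfold linv Q2_linv
  rw [card_filter, ← Finset.univ_product_univ, Finset.sum_product]
  refine Finset.sum_congr rfl fun i _ => Finset.sum_congr rfl fun j _ => ?_
  refine if_congr ?_ rfl rfl
  refine and_congr Iff.rfl ?_
  constructor
  · rintro ⟨a, b, ha, hb, h⟩
    exact ⟨a.1, b.1, (Q2_lb_some t i _).2 ⟨a, ha, rfl⟩, (Q2_lb_some t j _).2 ⟨b, hb, rfl⟩, h⟩
  · rintro ⟨a, b, ha, hb, h⟩
    obtain ⟨a', ha', rfl⟩ := (Q2_lb_some t i _).1 ha
    obtain ⟨b', hb', rfl⟩ := (Q2_lb_some t j _).1 hb
    exact ⟨a', b', ha', hb', h⟩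

theorem Q2_linv_update (l : Fin N → Option (Fin n)) (v : Fin N) (x : Fin n) (hv : l v = none) :
    Q2_linv (update l v (some x)) = Q2_linv l +
      (∑ j : Fin N, if v < j ∧ ∃ b, l j = some b ∧ b < x then 1 else 0) +
      (∑ i : Fin N, if i < v ∧ ∃ b, l i = some b ∧ x < b then 1 else 0) := by
  have key : ∀ i j : Fin N,
      (if i < j ∧ ∃ a b, update l v (some x) i = some a ∧ update l v (some x) j = some b ∧ b < a
        then 1 else 0 : ℕ) =
      (if i < j ∧ ∃ a b, l i = some a ∧ l j = some b ∧ b < a then 1 else 0) +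
      (if i = v then (if v < j ∧ ∃ b, l j = some b ∧ b < x then 1 else 0) else 0) +
      (if j = v then (if i < v ∧ ∃ b, l i = some b ∧ x < b then 1 else 0) else 0) := by
    intro i j
    by_cases hi : i = v
    · subst hi
      by_cases hj : j = i
      · subst hj
        simp
      · rw [if_pos rfl, if_neg hj, update_self, update_of_ne hj]
        have e : (if i < j ∧ ∃ a b, l i = some a ∧ l j = some b ∧ b < a then 1 else 0 : ℕ) = 0 :=
          if_neg (by rintro ⟨_, a, b, h1, _⟩; rw [hv] at h1; exact absurd h1 (by simp))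
        rw [e, zero_add, add_zero]
        refine if_congr ?_ rfl rfl
        constructor
        · rintro ⟨h, a, b, h1, h2, h3⟩
          obtain rfl := Option.some.inj h1
          exact ⟨h, b, h2, h3⟩
        · rintro ⟨h, b, h2, h3⟩
          exact ⟨h, x, b, rfl, h2, h3⟩
    · by_cases hj : j = v
      · subst hj
        rw [if_neg hi, if_pos rfl, update_self, update_of_ne hi]
        have e : (if i < j ∧ ∃ a b, l i = some a ∧ l j = some b ∧ b < a then 1 else 0 : ℕ) = 0 :=
          if_neg (by rintro ⟨_, a, b, _, h1, _⟩; rw [hv] at h1; exact absurd h1 (by simp))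
        rw [e, zero_add, zero_add]
        refine if_congr ?_ rfl rfl
        constructor
        · rintro ⟨h, a, b, h1, h2, h3⟩
          obtain rfl := Option.some.inj h2
          exact ⟨h, a, h1, h3⟩
        · rintro ⟨h, b, h2, h3⟩
          exact ⟨h, b, x, h2, rfl, h3⟩
      · rw [if_neg hi, if_neg hj, update_of_ne hi, update_of_ne hj, add_zero, add_zero]
  unfold Q2_linv
  simp only [key, Finset.sum_add_distrib]
  congr 1
  · congr 1
    rw [Finset.sum_comm]
    refine Finset.sum_congr rfl fun j _ => ?_
    rw [Finset.sum_ite_eq' univ v]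
    simp
  · refine Finset.sum_congr rfl fun i _ => ?_
    rw [Finset.sum_ite_eq' univ v]
    simp

theorem Q2_parity (l : Fin N → Option (Fin n)) (v : Fin N) (x : Fin n) (hv : l v = none) :
    Even (Q2_linv (update l v (some x)) + Q2_linv l +
      (∑ j : Fin N, if j < v ∧ l j ≠ none then 1 else 0) +
      (∑ j : Fin N, if ∃ b, l j = some b ∧ b < x then 1 else 0) +
      (∑ j : Fin N, if j < v ∧ l j = some x then 1 else 0)) := by
  rw [Q2_linv_update l v x hv]
  have h : Even ((∑ j : Fin N, if v < j ∧ ∃ b, l j = some b ∧ b < x then 1 else 0) +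
      (∑ i : Fin N, if i < v ∧ ∃ b, l i = some b ∧ x < b then 1 else 0) +
      (∑ j : Fin N, if j < v ∧ l j ≠ none then 1 else 0) +
      (∑ j : Fin N, if ∃ b, l j = some b ∧ b < x then 1 else 0) +
      (∑ j : Fin N, if j < v ∧ l j = some x then 1 else 0)) := by
    simp only [← Finset.sum_add_distrib]
    refine Finset.even_sum _ fun j _ => ?_
    rcases lt_trichotomy j v with hj | hj | hj
    · have hj' : ¬ v < j := not_lt.2 hj.le
      cases hl : l j with
      | none => simp
      | some b =>
        rcases lt_trichotomy b x with hb | hb | hb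
        · have h1 : ¬ x < b := not_lt.2 hb.le
          have h2 : b ≠ x := hb.ne
          simp [hj, hj', hb, h1, h2]
        · subst hb
          simp [hj, hj']
        · have h1 : ¬ b < x := not_lt.2 hb.le
          have h2 : b ≠ x := hb.ne'
          simp [hj, hj', hb, h1, h2]
    · subst hj
      simp [hv]
    · have hj' : ¬ j < v := not_lt.2 hj.le
      cases hl : l j with
      | none => simp
      | some b =>
        by_cases hb : b < x
        · simp [hj, hj', hb]
        · simp [hj, hj', hb]
  obtain ⟨r, hr⟩ := h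
  exact ⟨Q2_linv l + r, by omega⟩

theorem Q2_main (t t' : Cel n N) (v : Fin N) (x : Fin n) (hv : t v = none)
    (h : Q2_lb t' = update (Q2_lb t) v (some x)) :
    Even (linv t' + linv t + bef t v +
      (univ.filter fun j => ∃ b, t j = some b ∧ b.1 < x).card + bef (lab t x) v) := by
  have h0 := Q2_parity (Q2_lb t) v x ((Q2_lb_none t v).2 hv)
  rw [← h, ← Q2_linv_eq, ← Q2_linv_eq] at h0
  have h1 : (∑ j : Fin N, if j < v ∧ Q2_lb t j ≠ none then 1 else 0) = bef t v := by
    unfold bef
    rw [card_filter]
    refine Finset.sum_congr rfl fun j _ => if_congr ?_ rfl rfl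
    rw [Ne, Q2_lb_none]
  have h2 : (∑ j : Fin N, if ∃ b, Q2_lb t j = some b ∧ b < x then 1 else 0) =
      (univ.filter fun j => ∃ b, t j = some b ∧ b.1 < x).card := by
    rw [card_filter]
    refine Finset.sum_congr rfl fun j _ => if_congr ?_ rfl rfl
    constructor
    · rintro ⟨b, hb, hx⟩
      obtain ⟨b', hb', rfl⟩ := (Q2_lb_some t j _).1 hb
      exact ⟨b', hb', hx⟩
    · rintro ⟨b, hb, hx⟩
      exact ⟨b.1, (Q2_lb_some t j _).2 ⟨b, hb, rfl⟩, hx⟩
  have h3 : (∑ j : Fin N, if j < v ∧ Q2_lb t j = some x then 1 else 0) = bef (lab t x) v := by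
    unfold bef
    rw [card_filter]
    refine Finset.sum_congr rfl fun j _ => if_congr ?_ rfl rfl
    rw [Q2_lab_ne]
  rw [h1, h2, h3] at h0
  exact h0

theorem linv_update (t : Cel n N) (v : Fin N) (a : Tok n) (hv : t v = none) :
    Even (linv (update t v (some a)) + linv t + bef t v +
      (univ.filter fun j => ∃ b, t j = some b ∧ b.1 < a.1).card + bef (lab t a.1) v) := by
  refine Q2_main t _ v a.1 hv ?_
  funext j
  unfold Q2_lb
  by_cases hj : j = v
  · subst hj
    simp
  · simp [hj]

theorem linv_splitL (t : Cel n N) (v : Fin N) (x : Fin n) (hv : t v = none) :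
    Even (linv (splitL t x v) + linv t + bef t v +
      (univ.filter fun j => ∃ b, t j = some b ∧ b.1 < x).card + bef (lab t x) v) := by
  refine Q2_main t _ v x hv ?_
  funext j
  unfold Q2_lb splitL
  by_cases hj : j = v
  · subst hj
    simp
  · by_cases ht : t j = some (x, 0)
    · simp [hj, ht]
    · simp [hj, ht]

theorem linv_splitR (t : Cel n N) (v : Fin N) (x : Fin n) (hv : t v = none) :
    Even (linv (splitR t x v) + linv t + bef t v +
      (univ.filter fun j => ∃ b, t j = some b ∧ b.1 < x).card + bef (lab t x) v) := by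
  refine Q2_main t _ v x hv ?_
  funext j
  unfold Q2_lb splitR
  by_cases hj : j = v
  · subst hj
    simp
  · by_cases ht : t j = some (x, 2)
    · simp [hj, ht]
    · simp [hj, ht]

theorem szb_lab (t : Cel n N) (i : Fin n) :
    szb (lab t) i = (univ.filter fun j => ∃ b, t j = some b ∧ b.1 < i).card := by
  have h1 : ∀ j : Fin n, sz (lab t j) = ∑ v : Fin N, if Q2_lb t v = some j then 1 else 0 := by
    intro j
    unfold sz
    rw [card_filter]
    refine Finset.sum_congr rfl fun v _ => if_congr ?_ rfl rfl
    rw [Q2_lab_ne]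
  unfold szb
  simp only [h1]
  rw [Finset.sum_comm, card_filter]
  refine Finset.sum_congr rfl fun v _ => ?_
  cases ht : t v with
  | none =>
    have : Q2_lb t v = none := (Q2_lb_none t v).2 ht
    simp [this]
  | some b =>
    have : Q2_lb t v = some b.1 := (Q2_lb_some t v _).2 ⟨b, ht, rfl⟩
    simp only [this, Option.some.injEq]
    rw [Finset.sum_filter]
    have h2 : ∀ a : Fin n, (if a < i then (if b.1 = a then 1 else 0) else 0 : ℕ) =
        if b.1 = a then (if a < i then 1 else 0) else 0 := by
      intro a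
      split_ifs <;> rfl
    simp only [h2]
    rw [Finset.sum_ite_eq univ b.1]
    simp

/-- in a good cell the inversions with respect to `key` are between different labels -/
theorem linv_eq (t : Cel n N) (hg : Good t) : linv t = invs key t := by
  unfold linv invs
  congr 1
  refine Finset.filter_congr fun p _ => ?_
  refine and_congr_right fun hp => ?_
  constructor
  · rintro ⟨a, b, ha, hb, h⟩
    refine ⟨a, b, ha, hb, ?_⟩
    unfold key
    have h1 : b.1.val < a.1.val := h
    have h2 := b.2.isLt
    omega
  · rintro ⟨a, b, ha, hb, h⟩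
    refine ⟨a, b, ha, hb, ?_⟩
    by_contra hn
    unfold key at h
    have h0 : ¬ b.1.val < a.1.val := hn
    have h2 := a.2.isLt
    have h3 : a.1.val = b.1.val := by omega
    have h4 : b.2.val < a.2.val := by omega
    have h5 : a.1 = b.1 := Fin.ext h3
    obtain ⟨_, _, s1, s2, s3⟩ := hg.1 b.1
    obtain ⟨a1, a2⟩ := a
    obtain ⟨b1, b2⟩ := b
    simp only at h5 h4 h2 s1 s2 s3
    subst h5
    have hs : sep t (a1, b2) (a1, a2) := by
      have hb2 : b2 = 0 ∨ b2 = 1 := by
        rcases b2 with ⟨k, hk⟩
        simp only at h4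
        have : k = 0 ∨ k = 1 := by omega
        rcases this with rfl | rfl
        · exact Or.inl rfl
        · exact Or.inr rfl
      have ha2 : a2 = 1 ∨ a2 = 2 := by
        rcases a2 with ⟨k, hk⟩
        simp only at h4
        have : k = 1 ∨ k = 2 := by omega
        rcases this with rfl | rfl
        · exact Or.inl rfl
        · exact Or.inr rfl
      rcases hb2 with rfl | rfl <;> rcases ha2 with rfl | rfl
      · exact s1
      · exact s3
      · exact absurd h4 (lt_irrefl _)
      · exact s2
    exact absurd (hs _ _ hb ha) (not_lt.2 hp.le)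

end

end Pool.Agent.Helper5.NM
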