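import Pool.Agent.Helper5.NM.Defs
import Pool.Agent.Helper5.NM.Q1
import Pool.Agent.Helper5.NM.Q2
import Pool.Agent.Helper5.NM.Q3

set_option autoImplicit false

open Finset Function

namespace Pool.Agent.Helper5.NM

section
variable {n N : ℕ} {K : Type*} [CommRing K]

/-! Module Q4: a cycle is a cycle in product form. -/

theorem Q4_pow {a b c d : ℕ} (h : Even (a + b + c + d)) :
    (-1 : K) ^ (c + d) * (-1 : K) ^ a = (-1 : K) ^ b := by
  have h1 : (-1 : K) ^ (a + b + c + d) = 1 := h.neg_one_pow
  have h2 : (-1 : K) ^ b * (-1 : K) ^ b = 1 := by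
    rw [← pow_add]
    exact (Even.add_self b).neg_one_pow
  calc (-1 : K) ^ (c + d) * (-1 : K) ^ a = (-1 : K) ^ (c + d) * (-1 : K) ^ a *
        ((-1 : K) ^ b * (-1 : K) ^ b) := by rw [h2, mul_one]
    _ = (-1 : K) ^ (a + b + c + d) * (-1 : K) ^ b := by
      rw [show a + b + c + d = c + d + a + b by ring]
      simp only [pow_add]
      ring
    _ = (-1 : K) ^ b := by rw [h1, one_mul]

theorem Q4_lab_eq_none (t : Cel n N) (i : Fin n) (v : Fin N) (h : t v = none) :
    lab t i v = none := by
  simp [lab, h]

theorem Q4_lab_ne_none (t : Cel n N) (i : Fin n) (v : Fin N) (a : Tok n) (h : t v = some a)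
    (hi : a.1 = i) : lab t i v ≠ none := by
  simp [lab, h, hi]

/-- two labels use the vertex `v` -/
theorem Q4_not_dj (u : Fin n → LC N) (i j : Fin n) (hij : j ≠ i) (v : Fin N) (c : LC N)
    (hc : c v ≠ none) (hj : u j v ≠ none) : ¬ Dj (update u i c) := by
  intro h
  have h1 := h v i j (by rw [update_self]; exact hc) (by rw [update_of_ne hij]; exact hj)
  exact hij h1.symm

theorem Q4_update_lab (t : Cel n N) (i : Fin n) (c : LC N) (t' : Cel n N)
    (h : ∀ j, lab t' j = if j = i then c else lab t j) : update (lab t) i c = lab t' := by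
  funext j
  rw [h j]
  by_cases hj : j = i
  · subst hj
    rw [update_self, if_pos rfl]
  · rw [update_of_ne hj, if_neg hj]

theorem Q4_pf_lab (z : Cel n N → K) (t : Cel n N) : pf z (lab t) = (-1 : K) ^ linv t * z t := by
  rw [pf, if_pos (dj_lab t), join_lab]

/-- the general term: `t'` is obtained from `t` by adding the vertex `v` to the label `i`,
`c'` is the label cell -/
theorem Q4_term (z : Cel n N → K) (t : Cel n N) (i : Fin n) (v : Fin N) (c' : LC N)
    (t' : Cel n N) (hc : c' v ≠ none)
    (hl : t v = none → ∀ j, lab t' j = if j = i then c' else lab t j)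
    (hs : t v = none → Even (linv t' + linv t + bef t v + szb (lab t) i + bef (lab t i) v))
    (p q : Prop) [Decidable p] [Decidable q] (hpq : p ↔ q) :
    (-1 : K) ^ szb (lab t) i * (if lab t i v = none ∧ p then
      (-1 : K) ^ bef (lab t i) v * pf z (update (lab t) i c') else 0) =
    (-1 : K) ^ linv t * (if t v = none ∧ q then (-1 : K) ^ bef t v * z t' else 0) := by
  by_cases hv : t v = none
  · have h1 := Q4_lab_eq_none t i v hv
    by_cases hp : p
    · rw [if_pos ⟨h1, hp⟩, if_pos ⟨hv, hpq.1 hp⟩, Q4_update_lab t i c' t' (hl hv), Q4_pf_lab]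
      have h2 : Even (linv t' + (linv t + bef t v) + szb (lab t) i + bef (lab t i) v) := by
        rw [← add_assoc]
        exact hs hv
      have h3 := Q4_pow (K := K) h2
      calc (-1 : K) ^ szb (lab t) i * ((-1 : K) ^ bef (lab t i) v * ((-1 : K) ^ linv t' * z t')) =
          ((-1 : K) ^ (szb (lab t) i + bef (lab t i) v) * (-1 : K) ^ linv t') * z t' := by
            rw [pow_add]; ring
        _ = (-1 : K) ^ linv t * ((-1 : K) ^ bef t v * z t') := by rw [h3, pow_add]; ring
    · rw [if_neg (fun h => hp h.2), if_neg (fun h => hp (hpq.2 h.2)), mul_zero, mul_zero]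
  · rw [if_neg (fun h : t v = none ∧ q => hv h.1), mul_zero]
    split_ifs with h1
    · obtain ⟨a, ha⟩ := Option.ne_none_iff_exists'.1 hv
      have hai : a.1 ≠ i := fun h => Q4_lab_ne_none t i v a ha h h1.1
      rw [pf, if_neg, mul_zero, mul_zero]
      exact Q4_not_dj _ i a.1 hai v c' hc (Q4_lab_ne_none t a.1 v a ha rfl)
    · rw [mul_zero]

theorem Q4_splitL_self (e : LC N) (v : Fin N) : splitL e 0 v v ≠ none := by
  simp [splitL]

theorem Q4_splitR_self (e : LC N) (v : Fin N) : splitR e 0 v v ≠ none := by
  simp [splitR]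

theorem Q4_dInt (z : Cel n N → K) (t : Cel n N) :
    ∑ i, (-1 : K) ^ szb (lab t) i * dInt (fun c => pf z (update (lab t) i c)) (lab t i) =
      (-1 : K) ^ linv t * dInt z t := by
  unfold dInt
  simp only [mul_sum]
  rw [sum_comm]
  refine sum_congr rfl fun v _ => ?_
  rw [Fintype.sum_prod_type]
  refine sum_congr rfl fun i _ => ?_
  rw [Fintype.sum_prod_type]
  simp only [univ_unique, sum_singleton]
  refine sum_congr rfl fun p _ => ?_
  refine Q4_term z t i v _ _ (by rw [update_self]; simp) (fun hv j => lab_update t i j p v hv)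
    (fun hv => ?_) _ _ (mem_im_lab t i p)
  have := linv_update t v (i, p) hv
  rw [szb_lab]
  exact this

theorem Q4_dExt (z : Cel n N → K) (t : Cel n N) :
    ∑ i, (-1 : K) ^ szb (lab t) i * dExt (fun c => pf z (update (lab t) i c)) (lab t i) =
      (-1 : K) ^ linv t * dExt z t := by
  unfold dExt
  simp only [mul_sum]
  rw [sum_comm]
  refine sum_congr rfl fun v _ => ?_
  refine sum_congr rfl fun i _ => ?_
  simp only [univ_unique, sum_singleton]
  have hL := Q4_term z t i v (splitL (lab t i) 0 v) (splitL t i v) (Q4_splitL_self _ _)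
    (fun hv j => lab_splitL t i j v hv)
    (fun hv => by rw [szb_lab]; exact linv_splitL t v i hv) _ _ (sgl_lab t i)
  have hR := Q4_term z t i v (splitR (lab t i) 0 v) (splitR t i v) (Q4_splitR_self _ _)
    (fun hv j => lab_splitR t i j v hv)
    (fun hv => by rw [szb_lab]; exact linv_splitR t v i hv) _ _ (sgl_lab t i)
  have e1 : ∀ (P : Prop) [Decidable P] (a b c : K), (if P then a * (b - c) else 0) =
      (if P then a * b else 0) - (if P then a * c else 0) := by
    intro P _ a b c
    split_ifs
    · ring
    · ring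
  rw [e1, e1, mul_sub, mul_sub]
  exact congrArg₂ (· - ·) hL hR

theorem Q4_bd (z : Cel n N → K) (t : Cel n N) :
    ∑ i, (-1 : K) ^ szb (lab t) i * bd (fun c => pf z (update (lab t) i c)) (lab t i) =
      (-1 : K) ^ linv t * bd z t := by
  unfold bd
  simp only [mul_add, sum_add_distrib]
  rw [Q4_dInt, Q4_dExt]

/-- nothing can be disjoint above a family which is not disjoint -/
theorem Q4_not_dj' (u : Fin n → LC N) (h : ¬ Dj u) (i : Fin n) (c : LC N)
    (hc : ∀ v, u i v ≠ none → c v ≠ none) : ¬ Dj (update u i c) := by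
  intro h1
  apply h
  intro v j k hj hk
  apply h1 v j k
  · by_cases hji : j = i
    · subst hji
      rw [update_self]
      exact hc v hj
    · rw [update_of_ne hji]
      exact hj
  · by_cases hki : k = i
    · subst hki
      rw [update_self]
      exact hc v hk
    · rw [update_of_ne hki]
      exact hk

theorem Q4_bd_zero (e : LC N) (Z : LC N → K)
    (h : ∀ c : LC N, (∀ v, e v ≠ none → c v ≠ none) → Z c = 0) : bd Z e = 0 := by
  unfold bd dInt dExt
  rw [sum_eq_zero, sum_eq_zero, add_zero]
  · intro v _
    refine sum_eq_zero fun x _ => ?_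
    rw [h (splitL e x v), h (splitR e x v)]
    · simp
    · intro w hw
      unfold splitR
      split_ifs <;> simp [hw]
    · intro w hw
      unfold splitL
      split_ifs <;> simp [hw]
  · intro v _
    refine sum_eq_zero fun a _ => ?_
    rw [h (update e v (some a))]
    · simp
    · intro w hw
      by_cases hwv : w = v
      · subst hwv
        simp
      · rw [update_of_ne hwv]
        exact hw

theorem pcyc_pf (z : Cel n N → K) (h : ∀ t, bd z t = 0) : PCyc (pf z) := by
  intro u
  have e1 : ∀ i, ∑ c : LC N, (-1 : K) ^ szb u i * inc K c (u i) * pf z (update u i c) =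
      (-1 : K) ^ szb u i * bd (fun c => pf z (update u i c)) (u i) := by
    intro i
    rw [bd_eq_sum_inc, mul_sum]
    exact sum_congr rfl fun c _ => by ring
  rw [sum_congr rfl fun i _ => e1 i]
  by_cases hu : Dj u
  · have e2 : u = lab (join u) := by
      funext i
      exact (lab_join u hu i).symm
    rw [e2, Q4_bd, h, mul_zero]
  · refine sum_eq_zero fun i _ => ?_
    rw [Q4_bd_zero, mul_zero]
    intro c hc
    rw [pf, if_neg (Q4_not_dj' u hu i c hc)]

end

end Pool.Agent.Helper5.NM
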