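import Pool.Agent.Helper5.NM.Defs
import Pool.Agent.Helper5.NM.Q3

set_option autoImplicit false

open Finset Function

namespace Pool.Agent.Helper5.NM

section
variable {n N : ℕ} {K : Type*} [CommRing K]

/-! Module Q5: independence of `k`. -/

/-- the exchange `(u, c) ↦ (update u i c, u i)` -/
private theorem Q5_swap (i : Fin n) (H : (Fin n → LC N) → LC N → K) :
    ∑ u, ∑ c, H u c = ∑ u : Fin n → LC N, ∑ c, H (update u i c) (u i) := by
  rw [← Fintype.sum_prod_type', ← Fintype.sum_prod_type']
  let e : ((Fin n → LC N) × LC N) ≃ ((Fin n → LC N) × LC N) :=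
    { toFun := fun p => (update p.1 i p.2, p.1 i)
      invFun := fun p => (update p.1 i p.2, p.1 i)
      left_inv := fun p => by simp
      right_inv := fun p => by simp }
  exact (Equiv.sum_comp e (fun p : (Fin n → LC N) × LC N => H p.1 p.2)).symm

private theorem Q5_szb (u : Fin n → LC N) (i : Fin n) (c : LC N) :
    szb (update u i c) i = szb u i := by
  unfold szb
  refine Finset.sum_congr rfl fun j hj => ?_
  have h : j ≠ i := ne_of_lt (Finset.mem_filter.1 hj).2
  rw [update_of_ne h]

/-- the weight -/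
private noncomputable def Q5_W (K : Type*) [CommRing K] (s : Fin n → LC N) (j k : Fin n)
    (u : Fin n → LC N) : K :=
  open Classical in
  if u j = s j ∧ u k = s k then ∏ i ∈ (univ.erase k).erase j, inc K (u i) (s i) else 0

/-- the term of label `i` -/
private noncomputable def Q5_T (Z : (Fin n → LC N) → K) (s : Fin n → LC N) (j k i : Fin n) : K :=
  ∑ u : Fin n → LC N, ∑ c : LC N,
    Q5_W K s j k u * ((-1 : K) ^ szb u i * inc K c (u i) * Z (update u i c))

private theorem Q5_T_eq (Z : (Fin n → LC N) → K) (s : Fin n → LC N) (j k i : Fin n) :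
    Q5_T Z s j k i = ∑ u : Fin n → LC N, (-1 : K) ^ szb u i * Z u *
      ∑ c : LC N, Q5_W K s j k (update u i c) * inc K (u i) c := by
  unfold Q5_T
  rw [Q5_swap i]
  refine Finset.sum_congr rfl fun u _ => ?_
  rw [Finset.mul_sum]
  refine Finset.sum_congr rfl fun c _ => ?_
  rw [Q5_szb, update_self, update_idem, update_eq_self]
  ring

private theorem Q5_T_zero (Z : (Fin n → LC N) → K) (s : Fin n → LC N) (j k i : Fin n)
    (hij : i ≠ j) (hik : i ≠ k) : Q5_T Z s j k i = 0 := by
  classical
  rw [Q5_T_eq]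
  refine Finset.sum_eq_zero fun u _ => ?_
  have hmem : i ∈ (univ.erase k).erase j := by
    simp [hij, hik]
  have h : ∀ c : LC N, Q5_W K s j k (update u i c) * inc K (u i) c =
      (if u j = s j ∧ u k = s k then
        ∏ i' ∈ ((univ.erase k).erase j).erase i, inc K (u i') (s i') else 0) *
        (inc K c (s i) * inc K (u i) c) := by
    intro c
    unfold Q5_W
    rw [update_of_ne hij.symm, update_of_ne hik.symm]
    by_cases hc : u j = s j ∧ u k = s k
    · rw [if_pos hc, if_pos hc, ← Finset.mul_prod_erase _ _ hmem, update_self]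
      have e : ∏ i' ∈ ((univ.erase k).erase j).erase i, inc K (update u i c i') (s i') =
          ∏ i' ∈ ((univ.erase k).erase j).erase i, inc K (u i') (s i') := by
        refine Finset.prod_congr rfl fun i' hi' => ?_
        rw [update_of_ne (Finset.ne_of_mem_erase hi')]
      rw [e]
      ring
    · rw [if_neg hc, if_neg hc, zero_mul, zero_mul]
  rw [Finset.sum_congr rfl fun c _ => h c, ← Finset.mul_sum, inc_inc, mul_zero, mul_zero]

private theorem Q5_sign (j k : Fin n) :
    ∏ i ∈ univ.filter (· < j), (if i = k then (1 : K) else -1) =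
      if k < j then -(-1 : K) ^ (j : ℕ) else (-1 : K) ^ (j : ℕ) := by
  have h : ∀ i : Fin n, (if i = k then (1 : K) else -1) = (-1) * (if k = i then -1 else 1) := by
    intro i
    by_cases hi : i = k
    · subst hi; simp
    · rw [if_neg hi, if_neg (fun h => hi h.symm)]; simp
  have hc : (univ.filter (fun i : Fin n => i < j)).card = (j : ℕ) := by
    have : (univ.filter (fun i : Fin n => i < j)) = Finset.Iio j := by
      ext i; simp
    rw [this, Fin.card_Iio]
  rw [Finset.prod_congr rfl fun i _ => h i, Finset.prod_mul_distrib, Finset.prod_const, hc,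
    Finset.prod_ite_eq]
  by_cases hk : k < j
  · simp [hk]
  · simp [hk]

private theorem Q5_T_left (Z : (Fin n → LC N) → K) (s : Fin n → LC N)
    (hs : ∀ i, sz (s i) = 2) (j k : Fin n) (hjk : j ≠ k) :
    Q5_T Z s j k j = (if k < j then -(-1 : K) ^ (j : ℕ) else (-1 : K) ^ (j : ℕ)) * II Z k s := by
  classical
  rw [Q5_T_eq]
  unfold II
  rw [Finset.mul_sum]
  refine Finset.sum_congr rfl fun u _ => ?_
  have h : ∀ c : LC N, Q5_W K s j k (update u j c) * inc K (u j) c =
      if c = s j then ((if u k = s k then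
        ∏ i ∈ univ.erase k, inc K (u i) (s i) else 0)) else 0 := by
    intro c
    unfold Q5_W
    rw [update_self, update_of_ne hjk.symm]
    by_cases hc : c = s j
    · subst hc
      by_cases hk : u k = s k
      · have hmem : j ∈ univ.erase k := by simp [hjk]
        rw [if_pos ⟨rfl, hk⟩, if_pos rfl, if_pos hk, ← Finset.mul_prod_erase _ _ hmem]
        have e : ∏ i' ∈ (univ.erase k).erase j, inc K (update u j (s j) i') (s i') =
            ∏ i' ∈ (univ.erase k).erase j, inc K (u i') (s i') := by
          refine Finset.prod_congr rfl fun i' hi' => ?_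
          rw [update_of_ne (Finset.ne_of_mem_erase hi')]
        rw [e]
        ring
      · rw [if_neg (fun h => hk h.2), if_pos rfl, if_neg hk, zero_mul]
    · rw [if_neg (fun h => hc h.1), if_neg hc, zero_mul]
  rw [Finset.sum_congr rfl fun c _ => h c, Finset.sum_ite_eq' univ (s j)]
  simp only [Finset.mem_univ, if_true]
  by_cases hk : u k = s k
  · rw [if_pos hk, if_pos hk]
    by_cases hP : ∏ i ∈ univ.erase k, inc K (u i) (s i) = 0
    · rw [hP, mul_zero, mul_zero, mul_zero]
    · have hz : ∀ i, i ≠ k → sz (u i) = 3 := by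
        intro i hi
        have h1 : inc K (u i) (s i) ≠ 0 := by
          intro h0
          exact hP (Finset.prod_eq_zero (Finset.mem_erase.2 ⟨hi, Finset.mem_univ i⟩) h0)
        have h2 := inc_sz (u i) (s i) h1
        rw [hs i] at h2
        exact h2
      have hsg : (-1 : K) ^ szb u j =
          if k < j then -(-1 : K) ^ (j : ℕ) else (-1 : K) ^ (j : ℕ) := by
        rw [← Q5_sign (K := K) j k]
        unfold szb
        rw [← Finset.prod_pow_eq_pow_sum]
        refine Finset.prod_congr rfl fun i _ => ?_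
        by_cases hi : i = k
        · rw [if_pos hi, hi, hk, hs k]
          norm_num
        · rw [if_neg hi, hz i hi]
          norm_num
      rw [hsg]
      ring
  · rw [if_neg hk, if_neg hk, mul_zero, mul_zero]

private theorem Q5_W_symm (s : Fin n → LC N) (j k : Fin n) (u : Fin n → LC N) :
    Q5_W K s j k u = Q5_W K s k j u := by
  unfold Q5_W
  rw [Finset.erase_right_comm]
  by_cases h : u j = s j ∧ u k = s k
  · rw [if_pos h, if_pos ⟨h.2, h.1⟩]
  · rw [if_neg h, if_neg (fun h' => h ⟨h'.2, h'.1⟩)]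

private theorem Q5_T_symm (Z : (Fin n → LC N) → K) (s : Fin n → LC N) (j k i : Fin n) :
    Q5_T Z s j k i = Q5_T Z s k j i := by
  unfold Q5_T
  refine Finset.sum_congr rfl fun u _ => Finset.sum_congr rfl fun c _ => ?_
  rw [Q5_W_symm]

theorem kindep (Z : (Fin n → LC N) → K) (hZ : PCyc Z) (s : Fin n → LC N)
    (hs : ∀ i, sz (s i) = 2) (j k : Fin n) :
    (-1 : K) ^ (j : ℕ) * II Z j s = (-1 : K) ^ (k : ℕ) * II Z k s := by
  by_cases hjk : j = k
  · rw [hjk]
  have hsum : ∑ i, Q5_T Z s j k i = 0 := by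
    unfold Q5_T
    rw [Finset.sum_comm]
    refine Finset.sum_eq_zero fun u _ => ?_
    have h := hZ u
    have e : ∑ i, ∑ c : LC N,
        Q5_W K s j k u * ((-1 : K) ^ szb u i * inc K c (u i) * Z (update u i c)) =
        Q5_W K s j k u * ∑ i, ∑ c : LC N,
          (-1 : K) ^ szb u i * inc K c (u i) * Z (update u i c) := by
      rw [Finset.mul_sum]
      refine Finset.sum_congr rfl fun i _ => ?_
      rw [Finset.mul_sum]
    rw [e, h, mul_zero]
  have h2 : Q5_T Z s j k j + Q5_T Z s j k k = 0 := by
    rw [← Finset.add_sum_erase _ _ (Finset.mem_univ j),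
      ← Finset.add_sum_erase _ _ (Finset.mem_erase.2 ⟨fun h => hjk h.symm, Finset.mem_univ k⟩),
      Finset.sum_eq_zero, add_zero] at hsum
    · exact hsum
    · intro i hi
      rw [Finset.mem_erase, Finset.mem_erase] at hi
      exact Q5_T_zero Z s j k i hi.2.1 hi.1
  rw [Q5_T_left Z s hs j k hjk, Q5_T_symm Z s j k k,
    Q5_T_left Z s hs k j (fun h => hjk h.symm)] at h2
  have hj1 : (-1 : K) ^ (j : ℕ) * (-1 : K) ^ (j : ℕ) = 1 := by
    rw [← mul_pow]; simp
  have hk1 : (-1 : K) ^ (k : ℕ) * (-1 : K) ^ (k : ℕ) = 1 := by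
    rw [← mul_pow]; simp
  rcases lt_or_gt_of_ne hjk with h | h
  · rw [if_neg (not_lt.2 h.le), if_pos h] at h2
    linear_combination (-(-1 : K) ^ (j : ℕ) * (-1 : K) ^ (k : ℕ)) * h2 +
      ((-1 : K) ^ (k : ℕ) * II Z k s) * hj1 - ((-1 : K) ^ (j : ℕ) * II Z j s) * hk1
  · rw [if_pos h, if_neg (not_lt.2 h.le)] at h2
    linear_combination ((-1 : K) ^ (j : ℕ) * (-1 : K) ^ (k : ℕ)) * h2 +
      ((-1 : K) ^ (k : ℕ) * II Z k s) * hj1 - ((-1 : K) ^ (j : ℕ) * II Z j s) * hk1

end

end Pool.Agent.Helper5.NM
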