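import Pool.Agent.Helper5.NM.Defs
import Pool.Agent.Helper5.NM.Q1

set_option autoImplicit false

open Finset Function

namespace Pool.Agent.Helper5.NM

section
variable {n N : ℕ} {K : Type*} [CommRing K]

/-! Module Q6: antisymmetry in product form. -/

theorem Q6_swap_lt (a b : Fin n) (hab : a.val + 1 = b.val) (i j : Fin n) :
    Equiv.swap a b j < Equiv.swap a b i ↔ (j < i ∧ ¬ (i = b ∧ j = a)) ∨ (i = a ∧ j = b) := by
  simp only [Equiv.swap_apply_def]
  split_ifs <;> simp only [Fin.lt_def, Fin.ext_iff] at * <;> omega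

theorem Q6_dj_comp (c : Fin n → LC N) (a b : Fin n) (h : Dj c) : Dj (c ∘ Equiv.swap a b) := by
  intro v i j hi hj
  exact (Equiv.swap a b).injective (h v _ _ hi hj)

theorem Q6_dj_iff (c : Fin n → LC N) (a b : Fin n) : Dj (c ∘ Equiv.swap a b) ↔ Dj c := by
  constructor
  · intro h
    have h1 := Q6_dj_comp _ a b h
    have h2 : (c ∘ Equiv.swap a b) ∘ Equiv.swap a b = c := by
      funext i
      simp
    rwa [h2] at h1
  · exact Q6_dj_comp c a b

theorem Q6_join_comp (c : Fin n → LC N) (a b : Fin n) (h : Dj c) :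
    join (c ∘ Equiv.swap a b) = act (Equiv.swap a b) (join c) := by
  have h' := Q6_dj_comp c a b h
  funext v
  apply Option.ext
  rintro ⟨i, p⟩
  rw [join_eq_some _ h']
  unfold act
  rw [Option.map_eq_some_iff]
  constructor
  · intro hi
    refine ⟨(Equiv.swap a b i, p), ?_, ?_⟩
    · rw [join_eq_some c h]
      exact hi
    · simp
  · rintro ⟨⟨j, q⟩, hj, hjq⟩
    rw [join_eq_some c h] at hj
    have h1 : Equiv.swap a b j = i := congrArg Prod.fst hjq
    have h2 : q = p := congrArg Prod.snd hjq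
    subst h1
    subst h2
    simpa using hj

theorem Q6_linv (c : Fin n → LC N) (h : Dj c) : linv (join c) =
    (univ.filter fun p : Fin N × Fin N =>
      p.1 < p.2 ∧ ∃ i j, j < i ∧ c i p.1 ≠ none ∧ c j p.2 ≠ none).card := by
  unfold linv
  congr 1
  ext p
  simp only [mem_filter, mem_univ, true_and]
  refine and_congr_right fun _ => ?_
  constructor
  · rintro ⟨⟨i, p1⟩, ⟨j, p2⟩, h1, h2, h3⟩
    rw [join_eq_some c h] at h1 h2
    exact ⟨i, j, h3, by rw [h1]; simp, by rw [h2]; simp⟩
  · rintro ⟨i, j, h1, h2, h3⟩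
    obtain ⟨⟨i', p1⟩, hp1⟩ := Option.ne_none_iff_exists'.1 h2
    obtain ⟨⟨j', p2⟩, hp2⟩ := Option.ne_none_iff_exists'.1 h3
    refine ⟨(i, p1), (j, p2), ?_, ?_, h1⟩
    · rw [join_eq_some c h, hp1, Subsingleton.elim i' 0]
    · rw [join_eq_some c h, hp2, Subsingleton.elim j' 0]

theorem Q6_prod (u w : LC N) (huw : ∀ v, u v ≠ none → w v ≠ none → False) :
    (univ.filter fun p : Fin N × Fin N => p.1 < p.2 ∧ u p.1 ≠ none ∧ w p.2 ≠ none).card +
    (univ.filter fun p : Fin N × Fin N => p.1 < p.2 ∧ w p.1 ≠ none ∧ u p.2 ≠ none).card =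
    sz u * sz w := by
  have h1 : sz u * sz w = ((univ.filter fun v => u v ≠ none) ×ˢ
      (univ.filter fun v => w v ≠ none)).card := by
    rw [Finset.card_product]
    rfl
  have h2 : (univ.filter fun p : Fin N × Fin N => p.1 < p.2 ∧ w p.1 ≠ none ∧ u p.2 ≠ none).card =
      (univ.filter fun p : Fin N × Fin N => p.2 < p.1 ∧ w p.2 ≠ none ∧ u p.1 ≠ none).card := by
    refine Finset.card_bij (fun p _ => p.swap) ?_ ?_ ?_
    · intro p hp
      simpa using hp
    · intro p _ q _ hpq
      exact Prod.swap_injective hpq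
    · intro p hp
      exact ⟨p.swap, by simpa using hp, by simp⟩
  rw [h1, h2, ← Finset.card_union_of_disjoint]
  · congr 1
    ext p
    simp only [mem_union, mem_filter, mem_univ, true_and, mem_product]
    constructor
    · rintro (⟨-, h3, h4⟩ | ⟨-, h3, h4⟩)
      · exact ⟨h3, h4⟩
      · exact ⟨h4, h3⟩
    · rintro ⟨h3, h4⟩
      rcases lt_trichotomy p.1 p.2 with h5 | h5 | h5
      · exact Or.inl ⟨h5, h3, h4⟩
      · exact (huw p.1 h3 (by rw [h5]; exact h4)).elim
      · exact Or.inr ⟨h5, h4, h3⟩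
  · rw [Finset.disjoint_left]
    intro p hp hq
    simp only [mem_filter, mem_univ, true_and] at hp hq
    exact absurd hp.1 hq.1.not_gt

theorem panti_pf (z : Cel n N → K) (h : AntiS z) : PAnti (pf z) := by
  intro a b hab c
  unfold pf
  by_cases hd : Dj c
  · have hd' := Q6_dj_comp c a b hd
    rw [if_pos hd, if_pos hd', Q6_join_comp c a b hd, h (Equiv.swap a b) (join c)]
    have hne : a ≠ b := by
      intro h1
      rw [h1] at hab
      omega
    have hlt : a < b := by
      rw [Fin.lt_def]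
      omega
    rw [Equiv.Perm.sign_swap hne, ← Q6_join_comp c a b hd, Q6_linv c hd, Q6_linv _ hd']
    let A := univ.filter fun p : Fin N × Fin N => p.1 < p.2 ∧ c a p.1 ≠ none ∧ c b p.2 ≠ none
    let B := univ.filter fun p : Fin N × Fin N => p.1 < p.2 ∧ c b p.1 ≠ none ∧ c a p.2 ≠ none
    let C := univ.filter fun p : Fin N × Fin N => p.1 < p.2 ∧ ∃ i j, (j < i ∧
      ¬ (i = b ∧ j = a)) ∧ c i p.1 ≠ none ∧ c j p.2 ≠ none
    have hAB : A.card + B.card = sz (c a) * sz (c b) :=
      Q6_prod (c a) (c b) (fun v h1 h2 => hne (hd v a b h1 h2))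
    have hCB : (univ.filter fun p : Fin N × Fin N =>
        p.1 < p.2 ∧ ∃ i j, j < i ∧ c i p.1 ≠ none ∧ c j p.2 ≠ none).card = C.card + B.card := by
      rw [← Finset.card_union_of_disjoint]
      · congr 1
        ext p
        simp only [C, B, mem_union, mem_filter, mem_univ, true_and]
        constructor
        · rintro ⟨h1, i, j, h2, h3, h4⟩
          by_cases h5 : i = b ∧ j = a
          · rw [h5.1] at h3
            rw [h5.2] at h4
            exact Or.inr ⟨h1, h3, h4⟩
          · exact Or.inl ⟨h1, i, j, ⟨h2, h5⟩, h3, h4⟩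
        · rintro (⟨h1, i, j, ⟨h2, h5⟩, h3, h4⟩ | ⟨h1, h3, h4⟩)
          · exact ⟨h1, i, j, h2, h3, h4⟩
          · exact ⟨h1, b, a, hlt, h3, h4⟩
      · rw [Finset.disjoint_left]
        intro p hp hq
        simp only [C, B, mem_filter, mem_univ, true_and] at hp hq
        obtain ⟨h1, i, j, ⟨h2, h5⟩, h3, h4⟩ := hp
        exact h5 ⟨hd p.1 i b h3 hq.2.1, hd p.2 j a h4 hq.2.2⟩
    have hCA : (univ.filter fun p : Fin N × Fin N => p.1 < p.2 ∧ ∃ i j, j < i ∧
        (c ∘ Equiv.swap a b) i p.1 ≠ none ∧ (c ∘ Equiv.swap a b) j p.2 ≠ none).card =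
        C.card + A.card := by
      rw [← Finset.card_union_of_disjoint]
      · congr 1
        ext p
        simp only [C, A, mem_union, mem_filter, mem_univ, true_and]
        constructor
        · rintro ⟨h1, i, j, h2, h3, h4⟩
          have h5 := (Q6_swap_lt a b hab (Equiv.swap a b i) (Equiv.swap a b j)).1 (by simpa using h2)
          rcases h5 with h5 | ⟨h5, h6⟩
          · exact Or.inl ⟨h1, Equiv.swap a b i, Equiv.swap a b j, h5, h3, h4⟩
          · right
            refine ⟨h1, ?_, ?_⟩
            · rw [← h5]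
              exact h3
            · rw [← h6]
              exact h4
        · rintro (⟨h1, i, j, h2, h3, h4⟩ | ⟨h1, h3, h4⟩)
          · refine ⟨h1, Equiv.swap a b i, Equiv.swap a b j,
              (Q6_swap_lt a b hab i j).2 (Or.inl h2), ?_, ?_⟩
            · simpa using h3
            · simpa using h4
          · refine ⟨h1, Equiv.swap a b a, Equiv.swap a b b,
              (Q6_swap_lt a b hab a b).2 (Or.inr ⟨rfl, rfl⟩), ?_, ?_⟩
            · simpa using h3
            · simpa using h4
      · rw [Finset.disjoint_left]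
        intro p hp hq
        simp only [C, A, mem_filter, mem_univ, true_and] at hp hq
        obtain ⟨h1, i, j, ⟨h2, h5⟩, h3, h4⟩ := hp
        have h6 := hd p.1 i a h3 hq.2.1
        have h7 := hd p.2 j b h4 hq.2.2
        rw [h6, h7] at h2
        exact absurd h2 hlt.not_gt
    rw [hCB, hCA, ← hAB]
    have e1 : (-1 : K) ^ (A.card + B.card) * (-1 : K) ^ (C.card + B.card) =
        (-1 : K) ^ (C.card + A.card) := by
      rw [← pow_add, show A.card + B.card + (C.card + B.card) = C.card + A.card + 2 * B.card by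
        ring, pow_add, pow_mul]
      simp
    rw [← e1]
    push_cast
    ring
  · have hd' : ¬ Dj (c ∘ Equiv.swap a b) := by
      rw [Q6_dj_iff]
      exact hd
    rw [if_neg hd, if_neg hd']
    simp

end

end Pool.Agent.Helper5.NM
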