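import Pool.Agent.Helper5.NM.Defs

set_option autoImplicit false

open Finset Function

namespace Pool.Agent.Helper5.NM

section
variable {n N : ℕ} {K : Type*} [CommRing K]

/-- the summand of `(-1)^k I_k` -/
noncomputable def Phi (Z : (Fin n → LC N) → K) (k : Fin n) (c s : Fin n → LC N) : K :=
  (-1 : K) ^ (k : ℕ) * (open Classical in
    if c k = s k then Z c * ∏ i ∈ univ.erase k, inc K (c i) (s i) else 0)

/-! Module Q7: invariance of the summand under permutations of the labels. -/

theorem II_eq_sum_Phi (Z : (Fin n → LC N) → K) (k : Fin n) (s : Fin n → LC N) :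
    (-1 : K) ^ (k : ℕ) * II Z k s = ∑ c, Phi Z k c s := by
  unfold II Phi
  rw [Finset.mul_sum]

theorem prod_erase_perm (σ : Equiv.Perm (Fin n)) (k : Fin n) (f : Fin n → K) :
    ∏ i ∈ univ.erase (σ⁻¹ k), f (σ i) = ∏ i ∈ univ.erase k, f i := by
  refine Finset.prod_bij (fun i _ => σ i) ?_ ?_ ?_ ?_
  · intro i hi
    rw [Finset.mem_erase] at hi ⊢
    refine ⟨fun h => hi.1 ?_, Finset.mem_univ _⟩
    rw [← h]; simp
  · intro i _ j _ h
    exact σ.injective h
  · intro j hj
    rw [Finset.mem_erase] at hj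
    refine ⟨σ⁻¹ j, ?_, by simp⟩
    rw [Finset.mem_erase]
    exact ⟨fun h => hj.1 (σ⁻¹.injective h), Finset.mem_univ _⟩
  · intro i _
    rfl

theorem Phi_swap (hinc : ∀ c e : LC N, inc K c e ≠ 0 → sz c = sz e + 1)
    (Z : (Fin n → LC N) → K) (hZ : PAnti Z) (c s : Fin n → LC N) (hs : ∀ i, sz (s i) = 2)
    (a b : Fin n) (hab : a.val + 1 = b.val) (k : Fin n) :
    Phi Z ((Equiv.swap a b)⁻¹ k) (c ∘ Equiv.swap a b) (s ∘ Equiv.swap a b) = Phi Z k c s := by
  classical
  have hne : a ≠ b := by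
    intro h; rw [h] at hab; omega
  set σ := Equiv.swap a b with hσ
  have hprod : ∏ i ∈ univ.erase (σ⁻¹ k), inc K ((c ∘ σ) i) ((s ∘ σ) i) =
      ∏ i ∈ univ.erase k, inc K (c i) (s i) :=
    prod_erase_perm σ k (fun i => inc K (c i) (s i))
  have hcond : ((c ∘ σ) (σ⁻¹ k) = (s ∘ σ) (σ⁻¹ k)) ↔ (c k = s k) := by
    have e0 : σ (σ⁻¹ k) = k := by simp
    simp only [Function.comp_apply, e0]
  have hZ' := hZ a b hab c
  rw [← hσ] at hZ'
  unfold Phi
  rw [hprod]
  by_cases hck : c k = s k
  · rw [if_pos hck, if_pos (hcond.2 hck), hZ']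
    have hk2 : sz (c k) = 2 := by rw [hck]; exact hs k
    by_cases ha : k = a
    · subst ha
      have e1 : σ⁻¹ k = b := by rw [hσ, Equiv.swap_inv]; exact Equiv.swap_apply_left _ _
      have e2 : (-1 : K) ^ (sz (c k) * sz (c b)) = 1 := by
        rw [hk2, pow_mul]; norm_num
      rw [e1, e2, ← hab, pow_succ]
      ring
    · by_cases hb : k = b
      · subst hb
        have e1 : σ⁻¹ k = a := by rw [hσ, Equiv.swap_inv]; exact Equiv.swap_apply_right _ _
        have e2 : (-1 : K) ^ (sz (c a) * sz (c k)) = 1 := by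
          rw [hk2, mul_comm, pow_mul]; norm_num
        rw [e1, e2, ← hab, pow_succ]
        ring
      · have e1 : σ⁻¹ k = k := by
          rw [hσ, Equiv.swap_inv]; exact Equiv.swap_apply_of_ne_of_ne ha hb
        rw [e1]
        by_cases h1 : inc K (c a) (s a) = 0
        · have h0 : ∏ i ∈ univ.erase k, inc K (c i) (s i) = 0 :=
            Finset.prod_eq_zero (Finset.mem_erase.2 ⟨fun h => ha h.symm, Finset.mem_univ a⟩) h1
          rw [h0]; ring
        · by_cases h2 : inc K (c b) (s b) = 0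
          · have h0 : ∏ i ∈ univ.erase k, inc K (c i) (s i) = 0 :=
              Finset.prod_eq_zero (Finset.mem_erase.2 ⟨fun h => hb h.symm, Finset.mem_univ b⟩) h2
            rw [h0]; ring
          · have h3 : sz (c a) = 3 := by rw [hinc _ _ h1, hs a]
            have h4 : sz (c b) = 3 := by rw [hinc _ _ h2, hs b]
            have e2 : (-1 : K) ^ (sz (c a) * sz (c b)) = -1 := by
              rw [h3, h4]
              exact Odd.neg_one_pow ⟨4, by norm_num⟩
            rw [e2]
            ring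
  · rw [if_neg hck, if_neg (fun h => hck (hcond.1 h))]
    ring

/-- the case of an adjacent transposition; `inc K c e ≠ 0 → sz c = sz e + 1` is `inc_sz` of Q3, here
given as a hypothesis -/
theorem Phi_perm (hinc : ∀ c e : LC N, inc K c e ≠ 0 → sz c = sz e + 1)
    (Z : (Fin n → LC N) → K) (hZ : PAnti Z) (c s : Fin n → LC N) (hs : ∀ i, sz (s i) = 2)
    (σ : Equiv.Perm (Fin n)) (k : Fin n) :
    Phi Z (σ⁻¹ k) (c ∘ σ) (s ∘ σ) = Phi Z k c s := by
  match n, Z, hZ, c, s, hs, σ, k with
  | 0, _, _, _, _, _, _, k => exact k.elim0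
  | (m + 1), Z, hZ, c, s, hs, σ, k =>
    have hmem : σ ∈ Submonoid.closure
        (Set.range fun i : Fin m => Equiv.swap i.castSucc i.succ) := by
      rw [Equiv.Perm.mclosure_swap_castSucc_succ]
      exact Submonoid.mem_top _
    induction hmem using Submonoid.closure_induction generalizing c s k with
    | mem x hx =>
      obtain ⟨i, rfl⟩ := hx
      exact Phi_swap hinc Z hZ c s hs i.castSucc i.succ (by simp) k
    | one => simp [inv_one]
    | mul x y _ _ hx hy =>
      have h1 := hy (c ∘ x) (s ∘ x) (fun i => hs (x i)) (x⁻¹ k)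
      have h2 := hx c s hs k
      rw [← h2, ← h1]
      rw [mul_inv_rev]
      rfl

end

end Pool.Agent.Helper5.NM
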