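import Pool.Agent.Helper5.NM.Defs

set_option autoImplicit false

open Finset Function

namespace Pool.Agent.Helper5.NM

section
variable {n : ℕ} {K : Type*} [CommRing K]

/-! Module Q8: switching fundamental domains. -/

open Classical in
theorem Q8_count (f : Fin n → ℕ) (hf : Injective f) (a : K) :
    ∑ σ : Equiv.Perm (Fin n), (if StrictMono (f ∘ σ) then a else 0) = a := by
  have h0 : StrictMono (f ∘ Tuple.sort f) :=
    (Tuple.monotone_sort f).strictMono_of_injective (hf.comp (Equiv.injective _))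
  rw [Finset.sum_eq_single (Tuple.sort f)]
  · rw [if_pos h0]
  · intro σ _ hσ
    rw [if_neg]
    intro h1
    apply hσ
    have h2 : Set.range (f ∘ σ) = Set.range (f ∘ Tuple.sort f) := by
      rw [Set.range_comp, Set.range_comp, σ.surjective.range_eq, (Tuple.sort f).surjective.range_eq]
    have h3 := (StrictMono.range_inj h1 h0).1 h2
    ext i
    have h4 := congrFun h3 i
    simp only [comp_apply] at h4
    rw [hf h4]
  · intro h
    exact absurd (mem_univ _) h

open Classical in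
theorem Q8_half {X : Type*} [Fintype X] (A : Equiv.Perm (Fin n) → X → X)
    (hA1 : ∀ x, A 1 x = x) (hA2 : ∀ σ τ x, A (σ * τ) x = A τ (A σ x)) (φ : X → K)
    (hφ : ∀ σ x, φ (A σ x) = φ x) (κ1 κ2 : X → Fin n → ℕ)
    (h1 : ∀ σ x i, κ1 (A σ x) i = κ1 x (σ i)) (h2 : ∀ σ x i, κ2 (A σ x) i = κ2 x (σ i))
    (hi1 : ∀ x, φ x ≠ 0 → Injective (κ1 x)) (hi2 : ∀ x, φ x ≠ 0 → Injective (κ2 x)) :
    ∑ x, (if StrictMono (κ1 x) then φ x else 0) = ∑ x, (if StrictMono (κ2 x) then φ x else 0) := by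
  have hk1 : ∀ σ x, κ1 (A σ x) = κ1 x ∘ σ := fun σ x => funext fun i => h1 σ x i
  have hk2 : ∀ σ x, κ2 (A σ x) = κ2 x ∘ σ := fun σ x => funext fun i => h2 σ x i
  have e1 : ∀ x, (if StrictMono (κ1 x) then φ x else 0) =
      ∑ σ : Equiv.Perm (Fin n), (if StrictMono (κ1 x) then
        (if StrictMono (κ2 x ∘ σ) then φ x else 0) else 0) := by
    intro x
    by_cases h : φ x = 0
    · simp [h]
    · by_cases hs : StrictMono (κ1 x)
      · simp only [if_pos hs]
        rw [Q8_count _ (hi2 x h)]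
      · simp only [if_neg hs, sum_const_zero]
  have e2 : ∀ x, (if StrictMono (κ2 x) then φ x else 0) =
      ∑ σ : Equiv.Perm (Fin n), (if StrictMono (κ2 x) then
        (if StrictMono (κ1 x ∘ σ) then φ x else 0) else 0) := by
    intro x
    by_cases h : φ x = 0
    · simp [h]
    · by_cases hs : StrictMono (κ2 x)
      · simp only [if_pos hs]
        rw [Q8_count _ (hi1 x h)]
      · simp only [if_neg hs, sum_const_zero]
  rw [sum_congr rfl (fun x _ => e1 x), sum_congr rfl (fun x _ => e2 x), sum_comm]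
  rw [sum_comm (s := (univ : Finset X))]
  rw [← Equiv.sum_comp (Equiv.inv (Equiv.Perm (Fin n)))]
  apply sum_congr rfl
  intro σ _
  let E : X ≃ X :=
    { toFun := A σ
      invFun := A σ⁻¹
      left_inv := fun x => by rw [← hA2, mul_inv_cancel, hA1]
      right_inv := fun x => by rw [← hA2, inv_mul_cancel, hA1] }
  rw [← Equiv.sum_comp E]
  apply sum_congr rfl
  intro x _
  change (if StrictMono (κ1 (A σ x)) then
      (if StrictMono (κ2 (A σ x) ∘ (σ⁻¹ : Equiv.Perm (Fin n))) then φ (A σ x) else 0) else 0) = _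
  rw [hφ, hk1, hk2]
  have h3 : (κ2 x ∘ ⇑σ) ∘ ⇑σ⁻¹ = κ2 x := by
    funext i
    simp
  rw [h3]
  by_cases ha : StrictMono (κ1 x ∘ ⇑σ) <;> by_cases hb : StrictMono (κ2 x) <;> simp [ha, hb]

theorem fd_switch {X : Type*} [Fintype X] (A : Equiv.Perm (Fin n) → X → X)
    (hA1 : ∀ x, A 1 x = x) (hA2 : ∀ σ τ x, A (σ * τ) x = A τ (A σ x)) (φ : X → K)
    (hφ : ∀ σ x, φ (A σ x) = φ x) (κ1 κ2 : X → Fin n → ℕ)
    (h1 : ∀ σ x i, κ1 (A σ x) i = κ1 x (σ i)) (h2 : ∀ σ x i, κ2 (A σ x) i = κ2 x (σ i))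
    (hi1 : ∀ x, φ x ≠ 0 → Injective (κ1 x)) (hi2 : ∀ x, φ x ≠ 0 → Injective (κ2 x)) :
    open Classical in
    ∑ x, (if StrictMono (κ1 x) then φ x else 0) = ∑ x, (if StrictMono (κ2 x) then φ x else 0) :=
  Q8_half A hA1 hA2 φ hφ κ1 κ2 h1 h2 hi1 hi2

end

end Pool.Agent.Helper5.NM
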