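import Pool.Agent.Helper5.NM.Defs
import Pool.Agent.Helper5.NM.Q1
import Pool.Agent.Helper5.NM.Q3
import Pool.Agent.Helper5.NM.Q4
import Pool.Agent.Helper5.NM.Q5
import Pool.Agent.Helper5.NM.Q6
import Pool.Agent.Helper5.NM.Q7
import Pool.Agent.Helper5.NM.Q8
import Pool.Agent.Helper5.NM.Q9
import Pool.Agent.Helper5.NM.Q10

set_option autoImplicit false

open Finset Function

namespace Pool.Agent.Helper5.NM

section
variable {n N : ℕ} {K : Type*} [CommRing K]

/-- the certificate -/
noncomputable def Wt (Z : (Fin n → LC N) → K) (k : Fin n) (s : Fin n → Fin N × Fin N) : K :=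
  open Classical in if NNS s then (-1 : K) ^ (k : ℕ) * II Z k (fun i => ec (s i)) else 0

/-! Module Q11: the levels `0 < |S| < n`. -/

theorem Q11_sz_ec (e : Fin N × Fin N) (he : e.1 < e.2) : sz (ec e) = 2 := by
  classical
  have h : (univ.filter fun i => ec e i ≠ none) = {e.1, e.2} := by
    ext i
    simp only [Finset.mem_filter, Finset.mem_univ, true_and, Finset.mem_insert,
      Finset.mem_singleton, ec]
    by_cases h1 : i = e.1
    · simp [h1]
    · by_cases h2 : i = e.2
      · subst h2
        simp [h1]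
      · simp [h1, h2]
  unfold sz
  rw [h, Finset.card_pair he.ne]

theorem Q11_Phi_ne (Z : (Fin n → LC N) → K) (k : Fin n) (c s : Fin n → LC N)
    (h : Phi Z k c s ≠ 0) :
    c k = s k ∧ Z c ≠ 0 ∧ ∀ i, i ≠ k → inc K (c i) (s i) ≠ 0 := by
  classical
  unfold Phi at h
  by_cases hc : c k = s k
  · rw [if_pos hc] at h
    refine ⟨hc, ?_, ?_⟩
    · intro hz
      apply h
      rw [hz, zero_mul, mul_zero]
    · intro i hi hz
      apply h
      rw [Finset.prod_eq_zero (Finset.mem_erase.2 ⟨hi, Finset.mem_univ i⟩) hz, mul_zero, mul_zero]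
  · rw [if_neg hc, mul_zero] at h
    exact absurd rfl h

theorem Q11_pf_ne (Ξ : Cel n N → K) (h1 : ∀ t, Ξ t ≠ 0 → Good t) (c : Fin n → LC N)
    (h : pf Ξ c ≠ 0) : Dj c ∧ Good (join c) := by
  classical
  unfold pf at h
  by_cases hc : Dj c
  · rw [if_pos hc] at h
    refine ⟨hc, h1 _ fun hz => h ?_⟩
    rw [hz, mul_zero]
  · rw [if_neg hc] at h
    exact absurd rfl h

/-- smallest vertex of the `L` fibre -/
noncomputable def Q11_m (c : LC N) : ℕ := sInf {j | ∃ v : Fin N, v.val = j ∧ c v = some (0, 0)}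

theorem Q11_m_spec (c : LC N) (h : ∃ v, c v = some (0, 0)) :
    ∃ v : Fin N, v.val = Q11_m c ∧ c v = some (0, 0) := by
  obtain ⟨v, hv⟩ := h
  exact Nat.sInf_mem (s := {j | ∃ v : Fin N, v.val = j ∧ c v = some (0, 0)}) ⟨v.val, v, rfl, hv⟩

/-- the sum over the position of the edge `e0` -/
noncomputable def Q11_phi (Z : (Fin n → LC N) → K) (S : Finset (Fin N × Fin N))
    (e0 : Fin N × Fin N) (x : (Fin n → LC N) × (Fin n → Fin N × Fin N)) : K :=
  open Classical in
  if (∀ i, (x.2 i).1 < (x.2 i).2) ∧ (∀ e ∈ S, ∃ i, x.2 i = e) then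
    ∑ k, (if x.2 k = e0 then Phi Z k x.1 (fun i => ec (x.2 i)) else 0) else 0

/-- the second key -/
noncomputable def Q11_k2 (S : Finset (Fin N × Fin N)) (r : Fin N × Fin N → ℕ)
    (x : (Fin n → LC N) × (Fin n → Fin N × Fin N)) (i : Fin n) : ℕ :=
  if x.2 i ∈ S then r (x.2 i) else S.card + Q11_m (x.1 i)

theorem Q11_phi_ne (Z : (Fin n → LC N) → K) (S : Finset (Fin N × Fin N)) (e0 : Fin N × Fin N)
    (c : Fin n → LC N) (s : Fin n → Fin N × Fin N) (h : Q11_phi Z S e0 (c, s) ≠ 0) :
    (∀ i, (s i).1 < (s i).2) ∧ (∀ e ∈ S, ∃ i, s i = e) ∧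
      ∃ k, s k = e0 ∧ Phi Z k c (fun i => ec (s i)) ≠ 0 := by
  classical
  unfold Q11_phi at h
  by_cases hc : (∀ i, (s i).1 < (s i).2) ∧ (∀ e ∈ S, ∃ i, s i = e)
  · rw [if_pos hc] at h
    refine ⟨hc.1, hc.2, ?_⟩
    obtain ⟨k, _, hk⟩ := Finset.exists_ne_zero_of_sum_ne_zero h
    by_cases hk0 : s k = e0
    · refine ⟨k, hk0, ?_⟩
      simp only [if_pos hk0] at hk
      exact hk
    · simp only [if_neg hk0] at hk
      exact absurd rfl hk
  · rw [if_neg hc] at h
    exact absurd rfl h

theorem Q11_phi_eq (Z : (Fin n → LC N) → K) (S : Finset (Fin N × Fin N)) (e0 : Fin N × Fin N)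
    (c : Fin n → LC N) (s : Fin n → Fin N × Fin N) (h1 : ∀ i, (s i).1 < (s i).2)
    (h2 : ∀ e ∈ S, ∃ i, s i = e) (hi : Injective s) (k : Fin n) (hk : s k = e0) :
    Q11_phi Z S e0 (c, s) = Phi Z k c (fun i => ec (s i)) := by
  classical
  unfold Q11_phi
  rw [if_pos ⟨h1, h2⟩, Finset.sum_eq_single k]
  · simp only [if_pos hk]
  · intro j _ hj
    have : s j ≠ e0 := fun h => hj (hi (h.trans hk.symm))
    simp only [if_neg this]
  · intro h
    exact absurd (Finset.mem_univ _) h

theorem Q11_exists_r (S : Finset (Fin N × Fin N)) (e0 : Fin N × Fin N) (he : e0 ∈ S) :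
    ∃ r : Fin N × Fin N → ℕ, (∀ a ∈ S, ∀ b ∈ S, r a = r b → a = b) ∧
      (∀ a ∈ S, r a < S.card) ∧ r e0 = 0 := by
  classical
  have hpos : 0 < S.card := Finset.card_pos.2 ⟨e0, he⟩
  let f := S.equivFin
  let σ : Equiv.Perm (Fin S.card) := Equiv.swap (f ⟨e0, he⟩) ⟨0, hpos⟩
  refine ⟨fun a => if h : a ∈ S then (σ (f ⟨a, h⟩)).val else 0, ?_, ?_, ?_⟩
  · intro a ha b hb hab
    simp only [dif_pos ha, dif_pos hb] at hab
    have h1 := f.injective (σ.injective (Fin.ext hab))
    exact congrArg Subtype.val h1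
  · intro a ha
    simp only [dif_pos ha]
    exact (σ (f ⟨a, ha⟩)).isLt
  · simp only [dif_pos he, σ, Equiv.swap_apply_left]

/-- structure of the support -/
structure Q11_Str (K : Type*) [CommRing K] (c : Fin n → LC N) (s : Fin n → Fin N × Fin N) :
    Prop where
  val : ∀ i, (s i).1 < (s i).2
  dj : Dj c
  good : Good (join c)
  inc : ∀ i, c i = ec (s i) ∨ inc K (c i) (ec (s i)) ≠ 0

theorem Q11_Str.inj {c : Fin n → LC N} {s : Fin n → Fin N × Fin N} (h : Q11_Str K c s) :
    Injective s := by
  intro i j hij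
  by_contra hne
  have := (faces_nn (K := K) c h.dj h.good s h.val h.inc i j hne).2.1
  exact this (by rw [hij])

theorem Q11_str_of_Phi (Ξ : Cel n N → K) (h1 : ∀ t, Ξ t ≠ 0 → Good t) (k : Fin n)
    (c : Fin n → LC N) (s : Fin n → Fin N × Fin N) (hv : ∀ i, (s i).1 < (s i).2)
    (h : Phi (pf Ξ) k c (fun i => ec (s i)) ≠ 0) : Q11_Str K c s := by
  obtain ⟨a1, a2, a3⟩ := Q11_Phi_ne _ _ _ _ h
  obtain ⟨b1, b2⟩ := Q11_pf_ne Ξ h1 c a2
  refine ⟨hv, b1, b2, fun i => ?_⟩
  by_cases hi : i = k
  · left
    rw [hi]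
    exact a1
  · right
    exact a3 i hi

/-- change of the key in the sum -/
theorem Q11_lhs (Ξ : Cel n N → K) (h1 : ∀ t, Ξ t ≠ 0 → Good t)
    (h2 : ∀ t, bd Ξ t = 0) (k : Fin n) (S : Finset (Fin N × Fin N)) (e0 : Fin N × Fin N)
    (he : e0 ∈ S) (s : Fin n → Fin N × Fin N) :
    (if (∀ e ∈ S, ∃ i, s i = e) then Wt (pf Ξ) k s else 0) =
      ∑ c : Fin n → LC N, (open Classical in
        if StrictMono (fun i => (s i).1.val) then Q11_phi (pf Ξ) S e0 (c, s) else 0) := by
  classical
  by_cases hS : ∀ e ∈ S, ∃ i, s i = e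
  · rw [if_pos hS]
    unfold Wt
    by_cases hN : NNS s
    · rw [if_pos hN]
      obtain ⟨n1, n2, n3⟩ := hN
      have hmono : StrictMono (fun i => (s i).1.val) := fun i j hij => (n2 i j hij).1
      have hinj : Injective s := by
        intro i j hij
        have : (fun i => (s i).1.val) i = (fun i => (s i).1.val) j := by
          show (s i).1.val = (s j).1.val
          rw [hij]
        exact hmono.injective this
      obtain ⟨k', hk'⟩ := hS e0 he
      have e1 : ∀ c : Fin n → LC N,
          (if StrictMono (fun i => (s i).1.val) then Q11_phi (pf Ξ) S e0 (c, s) else 0) =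
            Phi (pf Ξ) k' c (fun i => ec (s i)) := by
        intro c
        rw [if_pos hmono, Q11_phi_eq (pf Ξ) S e0 c s n1 hS hinj k' hk']
      rw [Finset.sum_congr rfl fun c _ => e1 c, ← II_eq_sum_Phi]
      exact kindep (pf Ξ) (pcyc_pf Ξ h2) (fun i => ec (s i)) (fun i => Q11_sz_ec _ (n1 i)) k k'
    · rw [if_neg hN]
      symm
      refine Finset.sum_eq_zero fun c _ => ?_
      by_cases hmono : StrictMono (fun i => (s i).1.val)
      · rw [if_pos hmono]
        by_contra hne
        obtain ⟨v1, _, k', _, hP⟩ := Q11_phi_ne _ _ _ _ _ hne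
        have hstr := Q11_str_of_Phi Ξ h1 k' c s v1 hP
        apply hN
        refine ⟨v1, fun i j hij => ?_, fun i j => ?_⟩
        · have hfn := (faces_nn (K := K) c hstr.dj hstr.good s hstr.val hstr.inc i j hij.ne).1
          rcases hfn with h | h
          · exact h
          · have h3 : (s i).1.val < (s j).1.val := hmono hij
            have h4 : (s j).1.val < (s i).1.val := h.1
            exact absurd h3 (not_lt.2 h4.le)
        · by_cases hij : i = j
          · rw [hij]
            exact (v1 j).ne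
          · exact (faces_nn (K := K) c hstr.dj hstr.good s hstr.val hstr.inc i j hij).2.2
      · rw [if_neg hmono]
  · rw [if_neg hS]
    symm
    refine Finset.sum_eq_zero fun c _ => ?_
    by_cases hmono : StrictMono (fun i => (s i).1.val)
    · rw [if_pos hmono]
      by_contra hne
      exact hS (Q11_phi_ne _ _ _ _ _ hne).2.1
    · rw [if_neg hmono]

/-- the sum over the last edge -/
theorem Q11_last (Ξ : Cel (n + 1) N → K) (h1 : ∀ t, Ξ t ≠ 0 → Good t)
    (S : Finset (Fin N × Fin N)) (hc : S.card < n + 1) (e0 : Fin N × Fin N) (he : e0 ∈ S)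
    (r : Fin N × Fin N → ℕ) (hr2 : ∀ a ∈ S, r a < S.card) (hr3 : r e0 = 0)
    (c : Fin (n + 1) → LC N) (s : Fin (n + 1) → Fin N × Fin N) :
    ∑ e : Fin N × Fin N, (open Classical in
      if StrictMono (Q11_k2 S r (c, update s (Fin.last n) e)) then
        Q11_phi (pf Ξ) S e0 (c, update s (Fin.last n) e) else 0) = 0 := by
  classical
  by_cases hex : ∃ e1, StrictMono (Q11_k2 S r (c, update s (Fin.last n) e1)) ∧
      Q11_phi (pf Ξ) S e0 (c, update s (Fin.last n) e1) ≠ 0
  · obtain ⟨e1, hm, hphi⟩ := hex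
    -- facts on the edge e1
    obtain ⟨v1, v2, k, hk, hP⟩ := Q11_phi_ne _ _ _ _ _ hphi
    have hstr := Q11_str_of_Phi Ξ h1 k c _ v1 hP
    have hinj := hstr.inj
    obtain ⟨a1, a2, a3⟩ := Q11_Phi_ne _ _ _ _ hP
    -- the position of e0 is 0
    have hk0 : k = 0 := by
      by_contra hne
      have h3 := hm (Fin.pos_iff_ne_zero.2 hne)
      have h4 : Q11_k2 S r (c, update s (Fin.last n) e1) k = 0 := by
        unfold Q11_k2
        simp only [hk, if_pos he, hr3]
      rw [h4] at h3
      exact absurd h3 (Nat.not_lt_zero _)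
    subst hk0
    -- the last edge is not in S
    have hl : e1 ∉ S := by
      intro hl
      obtain ⟨i, hi⟩ : ∃ i, update s (Fin.last n) e1 i ∉ S := by
        by_contra hcon
        push Not at hcon
        have := Finset.card_le_card_of_injOn (s := (univ : Finset (Fin (n + 1)))) (t := S)
          (update s (Fin.last n) e1) (fun i _ => hcon i) hinj.injOn
        rw [Finset.card_univ, Fintype.card_fin] at this
        omega
      have h3 := hm.monotone (Fin.le_last i)
      have h4 : S.card ≤ Q11_k2 S r (c, update s (Fin.last n) e1) i := by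
        unfold Q11_k2
        simp only [if_neg hi]
        exact Nat.le_add_right _ _
      have h5 : Q11_k2 S r (c, update s (Fin.last n) e1) (Fin.last n) < S.card := by
        unfold Q11_k2
        simp only [update_self, if_pos hl]
        exact hr2 _ hl
      omega
    have h0l : (0 : Fin (n + 1)) ≠ Fin.last n := by
      intro h
      apply hl
      have h6 := hk
      rw [h, update_self] at h6
      rw [h6]
      exact he
    have hs0 : s 0 = e0 := by
      rw [update_of_ne h0l] at hk
      exact hk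
    have hS' : ∀ e' ∈ S, ∃ i, i ≠ Fin.last n ∧ s i = e' := by
      intro e' he'
      obtain ⟨i, hi⟩ := v2 e' he'
      by_cases hil : i = Fin.last n
      · rw [hil, update_self] at hi
        rw [hi] at hl
        exact absurd he' hl
      · rw [update_of_ne hil] at hi
        exact ⟨i, hil, hi⟩
    have hszl : sz (c (Fin.last n)) = 3 := by
      have h3 := a3 (Fin.last n) (Ne.symm h0l)
      have h4 := inc_sz _ _ h3
      rw [Q11_sz_ec _ (v1 _)] at h4
      exact h4
    have hc0 : c 0 = ec e0 := by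
      rw [a1]
      simp only [hk]
    have hgl : Good (c (Fin.last n)) := by
      have := good_lab (join c) hstr.good (Fin.last n)
      rw [lab_join c hstr.dj] at this
      exact this
    have hprod : ∀ e : Fin N × Fin N,
        ∏ i ∈ univ.erase (0 : Fin (n + 1)), inc K (c i) (ec (update s (Fin.last n) e i)) =
          (∏ i ∈ (univ.erase (0 : Fin (n + 1))).erase (Fin.last n), inc K (c i) (ec (s i))) *
            inc K (c (Fin.last n)) (ec e) := by
      intro e
      have hmem : Fin.last n ∈ univ.erase (0 : Fin (n + 1)) :=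
        Finset.mem_erase.2 ⟨Ne.symm h0l, Finset.mem_univ _⟩
      rw [← Finset.prod_erase_mul _ _ hmem, update_self]
      congr 1
      refine Finset.prod_congr rfl fun i hi => ?_
      rw [update_of_ne (Finset.mem_erase.1 hi).1]
    have key : ∀ e : Fin N × Fin N,
        (if StrictMono (Q11_k2 S r (c, update s (Fin.last n) e)) then
          Q11_phi (pf Ξ) S e0 (c, update s (Fin.last n) e) else 0) =
        (pf Ξ c * ∏ i ∈ (univ.erase (0 : Fin (n + 1))).erase (Fin.last n),
          inc K (c i) (ec (s i))) *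
          (if e.1 < e.2 then inc K (c (Fin.last n)) (ec e) else 0) := by
      intro e
      by_cases hv : e.1 < e.2
      · rw [if_pos hv]
        have v1' : ∀ i, (update s (Fin.last n) e i).1 < (update s (Fin.last n) e i).2 := by
          intro i
          by_cases hil : i = Fin.last n
          · rw [hil, update_self]
            exact hv
          · have := v1 i
            rw [update_of_ne hil] at this ⊢
            exact this
        by_cases hi : inc K (c (Fin.last n)) (ec e) = 0
        · rw [hi, mul_zero]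
          have hz : Q11_phi (pf Ξ) S e0 (c, update s (Fin.last n) e) = 0 := by
            by_contra hne
            obtain ⟨_, _, k', hk', hP'⟩ := Q11_phi_ne _ _ _ _ _ hne
            obtain ⟨b1, b2, b3⟩ := Q11_Phi_ne _ _ _ _ hP'
            by_cases hkl : k' = Fin.last n
            · have h5 := congrArg sz b1
              simp only [hkl] at h5
              rw [hszl, Q11_sz_ec _ (v1' _)] at h5
              omega
            · have := b3 (Fin.last n) (Ne.symm hkl)
              simp only [update_self] at this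
              exact this hi
          rw [hz, ite_self]
        · -- the main case
          have hstr' : Q11_Str K c (update s (Fin.last n) e) := by
            refine ⟨v1', hstr.dj, hstr.good, fun i => ?_⟩
            by_cases hil : i = Fin.last n
            · right
              rw [hil, update_self]
              exact hi
            · have := hstr.inc i
              rw [update_of_ne hil] at this ⊢
              exact this
          have hinj' := hstr'.inj
          have hl' : e ∉ S := by
            intro hl'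
            obtain ⟨i, hil, hi'⟩ := hS' e hl'
            apply hil
            apply hinj'
            rw [update_self, update_of_ne hil]
            exact hi'
          have hk2 : Q11_k2 S r (c, update s (Fin.last n) e) =
              Q11_k2 S r (c, update s (Fin.last n) e1) := by
            funext i
            unfold Q11_k2
            by_cases hil : i = Fin.last n
            · simp only [hil, update_self, if_neg hl, if_neg hl']
            · simp only [update_of_ne hil]
          have hS2 : ∀ e' ∈ S, ∃ i, update s (Fin.last n) e i = e' := by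
            intro e' he'
            obtain ⟨i, hil, hi'⟩ := hS' e' he'
            exact ⟨i, by rw [update_of_ne hil]; exact hi'⟩
          have h0 : update s (Fin.last n) e 0 = e0 := by
            rw [update_of_ne h0l]
            exact hs0
          rw [if_pos (by rw [hk2]; exact hm),
            Q11_phi_eq (pf Ξ) S e0 c _ v1' hS2 hinj' 0 h0]
          unfold Phi
          simp only [h0]
          rw [if_pos hc0, hprod e, Fin.val_zero, pow_zero, one_mul, mul_assoc]
      · rw [if_neg hv, mul_zero]
        have hz : Q11_phi (pf Ξ) S e0 (c, update s (Fin.last n) e) = 0 := by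
          by_contra hne
          have := (Q11_phi_ne _ _ _ _ _ hne).1 (Fin.last n)
          rw [update_self] at this
          exact hv this
        rw [hz, ite_self]
    rw [Finset.sum_congr rfl fun e _ => key e, ← Finset.mul_sum, ← Finset.sum_filter,
      sum_inc _ hgl, mul_zero]
  · push Not at hex
    refine Finset.sum_eq_zero fun e _ => ?_
    by_cases hm : StrictMono (Q11_k2 S r (c, update s (Fin.last n) e))
    · rw [if_pos hm]
      exact hex e hm
    · rw [if_neg hm]

theorem Q11_sum_split {E M : Type*} [Fintype E] [DecidableEq E] [AddCommMonoid M] (e0 : E)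
    (F : (Fin (n + 1) → E) → M)
    (h : ∀ s, ∑ e, F (update s (Fin.last n) e) = 0) : ∑ s, F s = 0 := by
  classical
  rw [← (Equiv.funSplitAt (Fin.last n) E).symm.sum_comp F, Fintype.sum_prod_type_right]
  refine Finset.sum_eq_zero fun g _ => ?_
  have := h ((Equiv.funSplitAt (Fin.last n) E).symm (e0, g))
  rw [← this]
  refine Finset.sum_congr rfl fun e _ => ?_
  congr 1
  funext i
  by_cases hi : i = Fin.last n
  · subst hi
    simp [Equiv.funSplitAt, Equiv.piSplitAt]
  · simp [Equiv.funSplitAt, Equiv.piSplitAt, hi]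

theorem level_Wt (Ξ : Cel n N → K) (hA : AntiS Ξ) (h1 : ∀ t, Ξ t ≠ 0 → Good t)
    (h2 : ∀ t, bd Ξ t = 0) (k : Fin n) (S : Finset (Fin N × Fin N)) (hS : S.Nonempty)
    (hc : S.card < n) :
    ∑ s : Fin n → Fin N × Fin N, (if (∀ e ∈ S, ∃ i, s i = e) then Wt (pf Ξ) k s else 0) = 0 := by
  classical
  obtain ⟨e0, he⟩ := hS
  obtain ⟨r, hr1, hr2, hr3⟩ := Q11_exists_r S e0 he
  obtain ⟨n, rfl⟩ : ∃ n', n = n' + 1 := ⟨n - 1, by omega⟩
  rw [Finset.sum_congr rfl fun s _ => Q11_lhs Ξ h1 h2 k S e0 he s]
  have e1 : ∑ s : Fin (n + 1) → Fin N × Fin N, ∑ c : Fin (n + 1) → LC N,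
      (if StrictMono (fun i => (s i).1.val) then Q11_phi (pf Ξ) S e0 (c, s) else 0) =
      ∑ x : (Fin (n + 1) → LC N) × (Fin (n + 1) → Fin N × Fin N),
        (if StrictMono ((fun (x : (Fin (n + 1) → LC N) × (Fin (n + 1) → Fin N × Fin N))
          (i : Fin (n + 1)) => (x.2 i).1.val) x) then Q11_phi (pf Ξ) S e0 x else 0) := by
    rw [Fintype.sum_prod_type_right]
  rw [e1]
  have hPA := panti_pf Ξ hA
  have e2 := fd_switch (n := n + 1) (K := K)
    (X := (Fin (n + 1) → LC N) × (Fin (n + 1) → Fin N × Fin N))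
    (fun σ x => (x.1 ∘ σ, x.2 ∘ σ)) (fun x => rfl) (fun σ τ x => rfl)
    (Q11_phi (pf Ξ) S e0) ?_ (fun x i => (x.2 i).1.val) (Q11_k2 S r)
    (fun σ x i => rfl) (fun σ x i => rfl) ?_ ?_
  · rw [e2, Fintype.sum_prod_type]
    refine Finset.sum_eq_zero fun c _ => ?_
    exact Q11_sum_split (n := n) e0 _ fun s => Q11_last Ξ h1 S hc e0 he r hr2 hr3 c s
  · -- invariance
    rintro σ ⟨c, s⟩
    unfold Q11_phi
    have hv : (∀ i, ((s ∘ σ) i).1 < ((s ∘ σ) i).2) ↔ ∀ i, (s i).1 < (s i).2 :=
      ⟨fun h i => by have := h (σ⁻¹ i); simpa using this, fun h i => h (σ i)⟩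
    have hr : (∀ e ∈ S, ∃ i, (s ∘ σ) i = e) ↔ ∀ e ∈ S, ∃ i, s i = e :=
      ⟨fun h e he => by obtain ⟨i, hi⟩ := h e he; exact ⟨σ i, hi⟩,
        fun h e he => by obtain ⟨i, hi⟩ := h e he; exact ⟨σ⁻¹ i, by simpa using hi⟩⟩
    by_cases hcond : (∀ i, (s i).1 < (s i).2) ∧ (∀ e ∈ S, ∃ i, s i = e)
    · rw [if_pos hcond, if_pos ⟨hv.2 hcond.1, hr.2 hcond.2⟩]
      rw [← Equiv.sum_comp (σ⁻¹ : Fin (n + 1) ≃ Fin (n + 1))]
      refine Finset.sum_congr rfl fun k' _ => ?_
      have hs' : (s ∘ σ) (σ⁻¹ k') = s k' := by simp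
      simp only [hs']
      by_cases hk : s k' = e0
      · simp only [if_pos hk]
        exact Phi_perm (fun c e h => inc_sz c e h) (pf Ξ) hPA c (fun i => ec (s i))
          (fun i => Q11_sz_ec _ (hcond.1 i)) σ k'
      · simp only [if_neg hk]
    · rw [if_neg hcond, if_neg fun h => hcond ⟨hv.1 h.1, hr.1 h.2⟩]
  · rintro ⟨c, s⟩ hx
    obtain ⟨v1, _, k', _, hP⟩ := Q11_phi_ne _ _ _ _ _ hx
    have hstr := Q11_str_of_Phi Ξ h1 k' c s v1 hP
    intro i j hij
    by_contra hne
    exact (faces_nn (K := K) c hstr.dj hstr.good s hstr.val hstr.inc i j hne).2.1 (Fin.ext hij)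
  · rintro ⟨c, s⟩ hx
    obtain ⟨v1, _, k', _, hP⟩ := Q11_phi_ne _ _ _ _ _ hx
    have hstr := Q11_str_of_Phi Ξ h1 k' c s v1 hP
    intro i j hij
    unfold Q11_k2 at hij
    simp only at hij
    by_cases hi : s i ∈ S
    · by_cases hj : s j ∈ S
      · rw [if_pos hi, if_pos hj] at hij
        exact hstr.inj (hr1 _ hi _ hj hij)
      · rw [if_pos hi, if_neg hj] at hij
        have := hr2 _ hi
        omega
    · by_cases hj : s j ∈ S
      · rw [if_neg hi, if_pos hj] at hij
        have := hr2 _ hj
        omega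
      · rw [if_neg hi, if_neg hj] at hij
        have hL : ∀ i, ∃ v, c i v = some (0, 0) := by
          intro i
          have h3 := (hstr.good.1 i).1
          simp only [im, Finset.mem_filter, Finset.mem_univ, true_and] at h3
          obtain ⟨v, hv⟩ := h3
          exact ⟨v, (join_eq_some c hstr.dj i v 0).1 hv⟩
        obtain ⟨v, hv, hv'⟩ := Q11_m_spec (c i) (hL i)
        obtain ⟨w, hw, hw'⟩ := Q11_m_spec (c j) (hL j)
        have hvw : v = w := Fin.ext (by omega)
        subst hvw
        exact hstr.dj v i j (by rw [hv']; simp) (by rw [hw']; simp)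

end

end Pool.Agent.Helper5.NM
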