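import Pool.Agent.Helper5.NM.Defs
import Pool.Agent.Helper5.NM.Q1
import Pool.Agent.Helper5.NM.Q3
import Pool.Agent.Helper5.NM.Q4
import Pool.Agent.Helper5.NM.Q5
import Pool.Agent.Helper5.NM.Q6
import Pool.Agent.Helper5.NM.Q7
import Pool.Agent.Helper5.NM.Q8
import Pool.Agent.Helper5.NM.Q9
import Pool.Agent.Helper5.NM.Q10
import Pool.Agent.Helper5.NM.Q11

set_option autoImplicit false

open Finset Function

namespace Pool.Agent.Helper5.NM

namespace Tot
section
variable {n N : ℕ} {K : Type*} [CommRing K]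

/-- the function on pairs -/
noncomputable def ph (Z : (Fin n → LC N) → K)
    (x : (Fin n → LC N) × (Fin n → Fin N × Fin N)) : K :=
  open Classical in
  if ∀ i, (x.2 i).1 < (x.2 i).2 then
    ∑ j, (if ∀ i, i ≠ j → elt (x.2 i) (x.2 j) then Phi Z j x.1 (fun i => ec (x.2 i)) else 0)
  else 0

/-- smallest `L` vertex -/
noncomputable def lmin (c : LC N) : ℕ := sInf {m | ∃ v : Fin N, v.val = m ∧ c v = some (0, 0)}

theorem lmin_spec (c : LC N) (h : ((0 : Fin 1), (0 : Fin 3)) ∈ im c) :
    ∃ v : Fin N, v.val = lmin c ∧ c v = some (0, 0) := by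
  have hne : {m | ∃ v : Fin N, v.val = m ∧ c v = some (0, 0)}.Nonempty := by
    unfold im at h
    rw [mem_filter] at h
    obtain ⟨_, v, hv⟩ := h
    exact ⟨v.val, v, rfl, hv⟩
  exact Nat.sInf_mem hne

theorem lmin_le (c : LC N) (v : Fin N) (h : c v = some (0, 0)) : lmin c ≤ v.val :=
  Nat.sInf_le ⟨v, rfl, h⟩

noncomputable def k2 (x : (Fin n → LC N) × (Fin n → Fin N × Fin N)) (i : Fin n) : ℕ :=
  open Classical in if ∀ j, j ≠ i → elt (x.2 j) (x.2 i) then N else lmin (x.1 i)

def k1 (x : (Fin n → LC N) × (Fin n → Fin N × Fin N)) (i : Fin n) : ℕ := (x.2 i).1.val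

theorem phi_supp (Ξ : Cel n N → K) (h1 : ∀ t, Ξ t ≠ 0 → Good t) (j : Fin n)
    (c : Fin n → LC N) (s : Fin n → Fin N × Fin N)
    (h : Phi (pf Ξ) j c (fun i => ec (s i)) ≠ 0) :
    Dj c ∧ Good (join c) ∧ Ξ (join c) ≠ 0 ∧ c j = ec (s j) ∧
      ∀ i, i ≠ j → inc K (c i) (ec (s i)) ≠ 0 := by
  classical
  unfold Phi at h
  have h' := right_ne_zero_of_mul h
  split_ifs at h' with hj
  · have hz := left_ne_zero_of_mul h'
    have hp := right_ne_zero_of_mul h'
    unfold pf at hz
    split_ifs at hz with hD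
    · have hX := right_ne_zero_of_mul hz
      refine ⟨hD, h1 _ hX, hX, hj, ?_⟩
      intro i hi h0
      exact hp (Finset.prod_eq_zero (Finset.mem_erase.mpr ⟨hi, mem_univ _⟩) h0)
    · exact absurd rfl hz
  · exact absurd rfl h'

theorem supp (Ξ : Cel n N → K) (h1 : ∀ t, Ξ t ≠ 0 → Good t)
    (x : (Fin n → LC N) × (Fin n → Fin N × Fin N)) (hx : ph (pf Ξ) x ≠ 0) :
    Dj x.1 ∧ Good (join x.1) ∧ (∀ i, (x.2 i).1 < (x.2 i).2) ∧
      (∀ i, x.1 i = ec (x.2 i) ∨ inc K (x.1 i) (ec (x.2 i)) ≠ 0) := by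
  classical
  unfold ph at hx
  split_ifs at hx with hv
  · obtain ⟨j, _, hj⟩ := Finset.exists_ne_zero_of_sum_ne_zero hx
    split_ifs at hj with hm
    · obtain ⟨hD, hG, _, hc, hi⟩ := phi_supp Ξ h1 j x.1 x.2 hj
      refine ⟨hD, hG, hv, ?_⟩
      intro i
      by_cases h : i = j
      · left; rw [h]; exact hc
      · right; exact hi i h
    · exact absurd rfl hj
  · exact absurd rfl hx

theorem sz_ec (e : Fin N × Fin N) (h : e.1 < e.2) : sz (ec e) = 2 := by
  unfold sz ec
  have : (univ.filter fun i : Fin N => (if i = e.1 then some ((0 : Fin 1), (0 : Fin 3)) else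
      if i = e.2 then some (0, 2) else none) ≠ none) = {e.1, e.2} := by
    ext i
    simp only [mem_filter, mem_univ, true_and, mem_insert, mem_singleton]
    split_ifs with h1 h2
    · simp [h1]
    · simp [h2]
    · simp [h1, h2]
  rw [this, Finset.card_pair h.ne]

theorem ec_inj (e e' : Fin N × Fin N) (h : e.1 < e.2) (h' : e'.1 < e'.2) (hh : ec e = ec e') :
    e = e' := by
  have h1 := congrFun hh e'.1
  have h2 := congrFun hh e'.2
  unfold ec at h1 h2
  rw [if_pos rfl] at h1
  rw [if_neg h'.ne', if_pos rfl] at h2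
  have e1 : e'.1 = e.1 := by
    by_contra hne
    rw [if_neg hne] at h1
    split_ifs at h1
    simp at h1
  have e2 : e'.2 = e.2 := by
    by_contra hne
    split_ifs at h2
    simp at h2
  exact Prod.ext e1.symm e2.symm

theorem inv_ph (hinc : ∀ c e : LC N, inc K c e ≠ 0 → sz c = sz e + 1)
    (Z : (Fin n → LC N) → K) (hZ : PAnti Z) (σ : Equiv.Perm (Fin n))
    (x : (Fin n → LC N) × (Fin n → Fin N × Fin N)) :
    ph Z (x.1 ∘ σ, x.2 ∘ σ) = ph Z x := by
  classical
  unfold ph
  by_cases hv : ∀ i, (x.2 i).1 < (x.2 i).2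
  · have hv' : ∀ i, ((x.2 ∘ σ) i).1 < ((x.2 ∘ σ) i).2 := fun i => hv (σ i)
    rw [if_pos hv, if_pos hv']
    refine Fintype.sum_equiv σ _ _ ?_
    intro j
    have e1 : (∀ i, i ≠ j → elt ((x.2 ∘ σ) i) ((x.2 ∘ σ) j)) ↔
        (∀ i, i ≠ σ j → elt (x.2 i) (x.2 (σ j))) := by
      constructor
      · intro h i hi
        have := h (σ⁻¹ i) (fun hh => hi (by rw [← hh]; simp))
        simpa using this
      · intro h i hi
        exact h (σ i) (fun hh => hi (σ.injective hh))
    by_cases h : ∀ i, i ≠ σ j → elt (x.2 i) (x.2 (σ j))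
    · rw [if_pos h, if_pos (e1.mpr h)]
      have := Phi_perm hinc Z hZ x.1 (fun i => ec (x.2 i)) (fun i => sz_ec _ (hv i)) σ (σ j)
      rw [← this]
      have e2 : σ⁻¹ (σ j) = j := by simp
      rw [e2]
      rfl
    · rw [if_neg h, if_neg (fun hh => h (e1.mp hh))]
  · have hv' : ¬ ∀ i, ((x.2 ∘ σ) i).1 < ((x.2 ∘ σ) i).2 := by
      intro h
      apply hv
      intro i
      have := h (σ⁻¹ i)
      simpa using this
    rw [if_neg hv, if_neg hv']

theorem k2_perm (σ : Equiv.Perm (Fin n))
    (x : (Fin n → LC N) × (Fin n → Fin N × Fin N)) (i : Fin n) :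
    k2 (x.1 ∘ σ, x.2 ∘ σ) i = k2 x (σ i) := by
  classical
  unfold k2
  have e1 : (∀ j, j ≠ i → elt ((x.2 ∘ σ) j) ((x.2 ∘ σ) i)) ↔
      (∀ j, j ≠ σ i → elt (x.2 j) (x.2 (σ i))) := by
    constructor
    · intro h j hj
      have := h (σ⁻¹ j) (fun hh => hj (by rw [← hh]; simp))
      simpa using this
    · intro h j hj
      exact h (σ j) (fun hh => hj (σ.injective hh))
  by_cases h : ∀ j, j ≠ σ i → elt (x.2 j) (x.2 (σ i))
  · rw [if_pos h, if_pos (e1.mpr h)]
  · rw [if_neg h, if_neg (fun hh => h (e1.mp hh))]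
    rfl

theorem lmin_lt (c : LC N) (h : ((0 : Fin 1), (0 : Fin 3)) ∈ im c) : lmin c < N := by
  obtain ⟨v, hv, _⟩ := lmin_spec c h
  rw [← hv]; exact v.2

theorem lmin_inj (c : Fin n → LC N) (hD : Dj c) (hG : Good (join c)) (i j : Fin n)
    (h : lmin (c i) = lmin (c j)) : i = j := by
  have hi : ∀ i, ((0 : Fin 1), (0 : Fin 3)) ∈ im (c i) := by
    intro i
    have := (hG.1 i).1
    rw [← mem_im_lab, lab_join c hD] at this
    exact this
  obtain ⟨v, hv, hv'⟩ := lmin_spec (c i) (hi i)
  obtain ⟨w, hw, hw'⟩ := lmin_spec (c j) (hi j)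
  have : v = w := Fin.ext (by omega)
  subst this
  exact hD v i j (by rw [hv']; simp) (by rw [hw']; simp)

theorem k2_inj (Ξ : Cel n N → K) (h1 : ∀ t, Ξ t ≠ 0 → Good t)
    (x : (Fin n → LC N) × (Fin n → Fin N × Fin N)) (hx : ph (pf Ξ) x ≠ 0) :
    Injective (k2 x) := by
  classical
  obtain ⟨hD, hG, hv, hc⟩ := supp Ξ h1 x hx
  have hi : ∀ i, ((0 : Fin 1), (0 : Fin 3)) ∈ im (x.1 i) := by
    intro i
    have := (hG.1 i).1
    rw [← mem_im_lab, lab_join x.1 hD] at this
    exact this
  intro i j hij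
  by_contra hne
  unfold k2 at hij
  by_cases ha : ∀ l, l ≠ i → elt (x.2 l) (x.2 i)
  · by_cases hb : ∀ l, l ≠ j → elt (x.2 l) (x.2 j)
    · have e1 := ha j (fun h => hne h.symm)
      have e2 := hb i hne
      exact absurd e1.1 (not_lt.mpr e2.1.le)
    · rw [if_pos ha, if_neg hb] at hij
      have := lmin_lt _ (hi j)
      omega
  · by_cases hb : ∀ l, l ≠ j → elt (x.2 l) (x.2 j)
    · rw [if_neg ha, if_pos hb] at hij
      have := lmin_lt _ (hi i)
      omega
    · rw [if_neg ha, if_neg hb] at hij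
      exact hne (lmin_inj x.1 hD hG i j hij)

theorem k1_inj (Ξ : Cel n N → K) (h1 : ∀ t, Ξ t ≠ 0 → Good t)
    (x : (Fin n → LC N) × (Fin n → Fin N × Fin N)) (hx : ph (pf Ξ) x ≠ 0) :
    Injective (k1 x) := by
  obtain ⟨hD, hG, hv, hc⟩ := supp Ξ h1 x hx
  intro i j hij
  by_contra hne
  have := (faces_nn x.1 hD hG x.2 hv hc i j hne).2.1
  exact this (Fin.ext hij)

end

section
variable {k N : ℕ} {K : Type*} [CommRing K]

/-- the left side -/
theorem left_eq (Ξ : Cel (k + 1) N → K) (h1 : ∀ t, Ξ t ≠ 0 → Good t)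
    (c : Fin (k + 1) → LC N) (s : Fin (k + 1) → Fin N × Fin N) :
    open Classical in
    (if NNS s then Phi (pf Ξ) (Fin.last k) c (fun i => ec (s i)) else 0) =
      if StrictMono (k1 (c, s)) then ph (pf Ξ) (c, s) else 0 := by
  classical
  by_cases hN : NNS s
  · rw [if_pos hN]
    have hm : StrictMono (k1 (c, s)) := fun i j hij => (hN.2.1 i j hij).1
    rw [if_pos hm]
    unfold ph
    rw [if_pos hN.1]
    rw [Finset.sum_eq_single (Fin.last k)]
    · rw [if_pos]
      intro i hi
      exact hN.2.1 i _ (lt_of_le_of_ne (Fin.le_last i) hi)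
    · intro j _ hj
      rw [if_neg]
      intro h
      have e1 := h (Fin.last k) (fun hh => hj hh.symm)
      have e2 := hN.2.1 j _ (lt_of_le_of_ne (Fin.le_last j) hj)
      exact absurd e1.1 (not_lt.mpr e2.1.le)
    · intro h; exact absurd (mem_univ _) h
  · rw [if_neg hN]
    by_cases hm : StrictMono (k1 (c, s))
    · rw [if_pos hm]
      by_contra h0
      have hne : ph (pf Ξ) (c, s) ≠ 0 := fun h => h0 h.symm
      obtain ⟨hD, hG, hv, hc⟩ := supp Ξ h1 _ hne
      apply hN
      refine ⟨hv, ?_, ?_⟩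
      · intro i j hij
        rcases (faces_nn c hD hG s hv hc i j hij.ne).1 with h | h
        · exact h
        · have := hm hij
          exact absurd h.1 (not_lt.mpr (le_of_lt this))
      · intro i j
        by_cases hij : i = j
        · subst hij; exact (hv i).ne
        · exact (faces_nn c hD hG s hv hc i j hij).2.2
    · rw [if_neg hm]

/-- the right side: reduction to the last index -/
theorem right_eq (Ξ : Cel (k + 1) N → K) (h1 : ∀ t, Ξ t ≠ 0 → Good t)
    (c : Fin (k + 1) → LC N) (s : Fin (k + 1) → Fin N × Fin N) :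
    open Classical in
    (if StrictMono (k2 (c, s)) then ph (pf Ξ) (c, s) else 0) =
      if (∀ i, (s i).1 < (s i).2) ∧ (∀ i, i ≠ Fin.last k → elt (s i) (s (Fin.last k))) ∧
        (∀ i j : Fin (k + 1), i < j → j ≠ Fin.last k → lmin (c i) < lmin (c j)) then
      Phi (pf Ξ) (Fin.last k) c (fun i => ec (s i)) else 0 := by
  classical
  by_cases hv : ∀ i, (s i).1 < (s i).2
  swap
  · rw [if_neg (fun h : _ ∧ _ => hv h.1)]
    have : ph (pf Ξ) (c, s) = 0 := by
      unfold ph
      rw [if_neg hv]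
    rw [this]; simp
  by_cases hl : ∀ i, i ≠ Fin.last k → elt (s i) (s (Fin.last k))
  · have hsum : ph (pf Ξ) (c, s) = Phi (pf Ξ) (Fin.last k) c (fun i => ec (s i)) := by
      unfold ph
      rw [if_pos hv, Finset.sum_eq_single (Fin.last k)]
      · rw [if_pos hl]
      · intro j _ hj
        rw [if_neg]
        intro h
        have e1 := h (Fin.last k) (fun hh => hj hh.symm)
        have e2 := hl j hj
        exact absurd e1.1 (not_lt.mpr e2.1.le)
      · intro h; exact absurd (mem_univ _) h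
    rw [hsum]
    by_cases hz : Phi (pf Ξ) (Fin.last k) c (fun i => ec (s i)) = 0
    · rw [hz]; simp
    obtain ⟨hD, hG, _, hcl, hci⟩ := phi_supp Ξ h1 _ c s hz
    have hi : ∀ i, ((0 : Fin 1), (0 : Fin 3)) ∈ im (c i) := by
      intro i
      have := (hG.1 i).1
      rw [← mem_im_lab, lab_join c hD] at this
      exact this
    have hk : ∀ i, i ≠ Fin.last k → k2 (c, s) i = lmin (c i) := by
      intro i hi
      unfold k2
      rw [if_neg]
      intro h
      have e1 := h (Fin.last k) (fun hh => hi hh.symm)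
      have e2 := hl i hi
      exact absurd e1.1 (not_lt.mpr e2.1.le)
    have hkl : k2 (c, s) (Fin.last k) = N := by
      unfold k2
      rw [if_pos hl]
    have hiff : StrictMono (k2 (c, s)) ↔
        ∀ i j : Fin (k + 1), i < j → j ≠ Fin.last k → lmin (c i) < lmin (c j) := by
      constructor
      · intro h i j hij hj
        have := h hij
        rwa [hk i (fun hh => by
          rw [hh] at hij; exact absurd hij (not_lt.mpr (Fin.le_last j))), hk j hj] at this
      · intro h i j hij
        have hi' : i ≠ Fin.last k := fun hh => by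
          rw [hh] at hij; exact absurd hij (not_lt.mpr (Fin.le_last j))
        by_cases hj : j = Fin.last k
        · rw [hj, hkl, hk i hi']
          exact lmin_lt _ (hi i)
        · rw [hk i hi', hk j hj]
          exact h i j hij hj
    by_cases hh : ∀ i j : Fin (k + 1), i < j → j ≠ Fin.last k → lmin (c i) < lmin (c j)
    · rw [if_pos (hiff.mpr hh), if_pos ⟨hv, hl, hh⟩]
    · rw [if_neg (fun h => hh (hiff.mp h)), if_neg (fun h : _ ∧ _ ∧ _ => hh h.2.2)]
  · rw [if_neg (fun h : _ ∧ _ ∧ _ => hl h.2.1)]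
    by_cases hm : StrictMono (k2 (c, s))
    swap
    · rw [if_neg hm]
    rw [if_pos hm]
    by_contra h0
    have h0' : ph (pf Ξ) (c, s) ≠ 0 := h0
    obtain ⟨hD, hG, _, _⟩ := supp Ξ h1 _ h0'
    unfold ph at h0
    rw [if_pos hv] at h0
    obtain ⟨j, _, hj⟩ := Finset.exists_ne_zero_of_sum_ne_zero h0
    split_ifs at hj with hmm
    · have hjl : j ≠ Fin.last k := fun h => hl (by rw [← h]; exact hmm)
      have h2 := hm (lt_of_le_of_ne (Fin.le_last j) hjl)
      have h3 : k2 (c, s) j = N := by unfold k2; rw [if_pos hmm]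
      have h4 : k2 (c, s) (Fin.last k) ≤ N := by
        unfold k2
        split_ifs
        · exact le_rfl
        · have := (hG.1 (Fin.last k)).1
          rw [← mem_im_lab, lab_join c hD] at this
          exact (lmin_lt _ this).le
      omega
    · exact absurd rfl hj

end

section
variable {k N : ℕ} {K : Type*} [CommRing K]

/-- the factorization -/
theorem fact (Ξ : Cel (k + 1) N → K) (h1 : ∀ t, Ξ t ≠ 0 → Good t) (c : Fin (k + 1) → LC N) :
    open Classical in
    ∑ s : Fin (k + 1) → Fin N × Fin N,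
      (if (∀ i, (s i).1 < (s i).2) ∧ (∀ i, i ≠ Fin.last k → elt (s i) (s (Fin.last k))) ∧
        (∀ i j : Fin (k + 1), i < j → j ≠ Fin.last k → lmin (c i) < lmin (c j)) then
      Phi (pf Ξ) (Fin.last k) c (fun i => ec (s i)) else 0) =
    if (∃ e0 : Fin N × Fin N, e0.1 < e0.2 ∧ c (Fin.last k) = ec e0) ∧
      (∀ i j : Fin (k + 1), i < j → j ≠ Fin.last k → lmin (c i) < lmin (c j)) ∧
      (∀ i, i ≠ Fin.last k → sz (c i) = 3 ∧ (i, 1) ∈ im (join c) ∧
        sep (join c) (i, 0) (Fin.last k, 0) ∧ sep (join c) (Fin.last k, 0) (i, 1)) then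
      pf Ξ c else 0 := by
  classical
  by_cases hm : ∀ i j : Fin (k + 1), i < j → j ≠ Fin.last k → lmin (c i) < lmin (c j)
  swap
  · rw [if_neg (fun h : _ ∧ _ ∧ _ => hm h.2.1)]
    apply Finset.sum_eq_zero
    intro s _
    rw [if_neg (fun h : _ ∧ _ ∧ _ => hm h.2.2)]
  by_cases hz : pf Ξ c = 0
  · rw [hz]
    simp only [ite_self]
    apply Finset.sum_eq_zero
    intro s _
    have : Phi (pf Ξ) (Fin.last k) c (fun i => ec (s i)) = 0 := by
      unfold Phi
      rw [hz]; simp
    rw [this]; simp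
  have hD : Dj c := by
    by_contra h
    apply hz
    unfold pf
    rw [if_neg h]
  have hG : Good (join c) := by
    apply h1
    intro h
    apply hz
    unfold pf
    rw [if_pos hD, h, mul_zero]
  -- split the last edge
  rw [← (Fin.snocEquiv (fun _ : Fin (k + 1) => Fin N × Fin N)).sum_comp, Fintype.sum_prod_type]
  have key : ∀ e0 : Fin N × Fin N, ∑ s' : Fin k → Fin N × Fin N,
      (if (∀ i, ((Fin.snocEquiv (fun _ : Fin (k + 1) => Fin N × Fin N)) (e0, s') i).1 <
            ((Fin.snocEquiv (fun _ : Fin (k + 1) => Fin N × Fin N)) (e0, s') i).2) ∧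
          (∀ i, i ≠ Fin.last k → elt ((Fin.snocEquiv (fun _ : Fin (k + 1) => Fin N × Fin N)) (e0, s') i)
            ((Fin.snocEquiv (fun _ : Fin (k + 1) => Fin N × Fin N)) (e0, s') (Fin.last k))) ∧
        (∀ i j : Fin (k + 1), i < j → j ≠ Fin.last k → lmin (c i) < lmin (c j)) then
      Phi (pf Ξ) (Fin.last k) c
        (fun i => ec ((Fin.snocEquiv (fun _ : Fin (k + 1) => Fin N × Fin N)) (e0, s') i)) else 0) =
      if e0.1 < e0.2 ∧ c (Fin.last k) = ec e0 then
        (if (∀ i, i ≠ Fin.last k → sz (c i) = 3 ∧ (i, 1) ∈ im (join c) ∧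
        sep (join c) (i, 0) (Fin.last k, 0) ∧ sep (join c) (Fin.last k, 0) (i, 1)) then
      pf Ξ c else 0) else 0 := by
    intro e0
    have hsn : ∀ s' : Fin k → Fin N × Fin N,
        (Fin.snocEquiv (fun _ : Fin (k + 1) => Fin N × Fin N)) (e0, s') =
          Fin.snoc (α := fun _ => Fin N × Fin N) s' e0 := fun s' => rfl
    simp only [hsn]
    by_cases he : e0.1 < e0.2 ∧ c (Fin.last k) = ec e0
    · rw [if_pos he]
      have e1 : ∀ s' : Fin k → Fin N × Fin N,
          (if (∀ i, ((Fin.snoc (α := fun _ => Fin N × Fin N) s' e0 : Fin (k + 1) → _) i).1 <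
              ((Fin.snoc (α := fun _ => Fin N × Fin N) s' e0 : Fin (k + 1) → _) i).2) ∧
            (∀ i, i ≠ Fin.last k → elt ((Fin.snoc (α := fun _ => Fin N × Fin N) s' e0 : Fin (k + 1) → _) i)
              ((Fin.snoc (α := fun _ => Fin N × Fin N) s' e0 : Fin (k + 1) → _) (Fin.last k))) ∧
            (∀ i j : Fin (k + 1), i < j → j ≠ Fin.last k → lmin (c i) < lmin (c j)) then
          Phi (pf Ξ) (Fin.last k) c
            (fun i => ec ((Fin.snoc (α := fun _ => Fin N × Fin N) s' e0 : Fin (k + 1) → _) i)) else 0) =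
          (-1 : K) ^ k * pf Ξ c * ∏ i : Fin k,
            (if (s' i).1 < (s' i).2 ∧ elt (s' i) e0 then inc K (c i.castSucc) (ec (s' i)) else 0) := by
        intro s'
        by_cases hv : ∀ i : Fin k, (s' i).1 < (s' i).2 ∧ elt (s' i) e0
        · rw [if_pos, Finset.prod_congr rfl (fun i _ => if_pos (hv i))]
          · unfold Phi
            have hl : (fun i => ec ((Fin.snoc (α := fun _ => Fin N × Fin N) s' e0 :
                Fin (k + 1) → Fin N × Fin N) i)) (Fin.last k) = ec e0 := by
              show ec _ = _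
              rw [Fin.snoc_last]
            rw [hl, if_pos he.2, Fin.val_last, mul_assoc]
            congr 2
            have : (univ.erase (Fin.last k)) = univ.image (Fin.castSucc : Fin k → Fin (k + 1)) := by
              ext i
              simp only [mem_erase, mem_univ, and_true, mem_image, true_and]
              constructor
              · intro h
                exact ⟨i.castPred h, Fin.castSucc_castPred i h⟩
              · rintro ⟨j, rfl⟩
                exact Fin.castSucc_ne_last j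
            rw [this, Finset.prod_image (fun a _ b _ h => Fin.castSucc_injective k h)]
            apply Finset.prod_congr rfl
            intro i _
            show inc K (c i.castSucc) (ec _) = _
            rw [Fin.snoc_castSucc]
          · refine ⟨?_, ?_, hm⟩
            · intro i
              refine Fin.lastCases ?_ (fun j => ?_) i
              · rw [Fin.snoc_last]; exact he.1
              · rw [Fin.snoc_castSucc]; exact (hv j).1
            · intro i hi
              rw [Fin.snoc_last]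
              revert hi
              refine Fin.lastCases ?_ (fun j => ?_) i
              · intro h; exact absurd rfl h
              · intro _
                rw [Fin.snoc_castSucc]; exact (hv j).2
        · rw [if_neg]
          · push Not at hv
            obtain ⟨i, hi⟩ := hv
            symm
            apply mul_eq_zero_of_right
            apply Finset.prod_eq_zero (mem_univ i)
            rw [if_neg]
            rintro ⟨h1', h2'⟩
            exact hi h1' h2'
          · rintro ⟨ha, hb, _⟩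
            apply hv
            intro i
            have h3 := ha i.castSucc
            have h4 := hb i.castSucc (Fin.castSucc_ne_last i)
            rw [Fin.snoc_castSucc] at h3 h4
            rw [Fin.snoc_last] at h4
            exact ⟨h3, h4⟩
      rw [Finset.sum_congr rfl (fun s' _ => e1 s'), ← Finset.mul_sum]
      have e2 := (Finset.prod_univ_sum (fun _ : Fin k => (univ : Finset (Fin N × Fin N)))
        (fun (i : Fin k) e => if e.1 < e.2 ∧ elt e e0 then inc K (c i.castSucc) (ec e) else 0)).symm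
      rw [Fintype.piFinset_univ] at e2
      rw [e2]
      have e3 : ∀ i : Fin k, ∑ e : Fin N × Fin N,
          (if e.1 < e.2 ∧ elt e e0 then inc K (c i.castSucc) (ec e) else 0) =
          if sz (c i.castSucc) = 3 ∧ (i.castSucc, 1) ∈ im (join c) ∧
            sep (join c) (i.castSucc, 0) (Fin.last k, 0) ∧
            sep (join c) (Fin.last k, 0) (i.castSucc, 1) then -1 else 0 := by
        intro i
        have := sum_inc_lt (K := K) c hD hG i.castSucc (Fin.last k) (Fin.castSucc_ne_last i) e0 he.1 he.2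
        rw [Finset.sum_filter] at this
        convert this using 2
      rw [Finset.prod_congr rfl (fun i _ => e3 i)]
      by_cases hall : ∀ i, i ≠ Fin.last k → sz (c i) = 3 ∧ (i, 1) ∈ im (join c) ∧
        sep (join c) (i, 0) (Fin.last k, 0) ∧ sep (join c) (Fin.last k, 0) (i, 1)
      · rw [if_pos hall, Finset.prod_congr rfl (fun i _ =>
          if_pos (hall i.castSucc (Fin.castSucc_ne_last i)))]
        rw [Finset.prod_const, Finset.card_univ, Fintype.card_fin]
        have : ((-1 : K) ^ k) * (-1 : K) ^ k = 1 := by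
          rw [← mul_pow]; simp
        calc (-1 : K) ^ k * pf Ξ c * (-1) ^ k = ((-1 : K) ^ k * (-1 : K) ^ k) * pf Ξ c := by ring
          _ = pf Ξ c := by rw [this, one_mul]
      · rw [if_neg hall]
        push Not at hall
        obtain ⟨i, hi, hi'⟩ := hall
        apply mul_eq_zero_of_right
        apply Finset.prod_eq_zero (mem_univ (i.castPred hi))
        rw [if_neg]
        rw [Fin.castSucc_castPred]
        rintro ⟨a1, a2, a3, a4⟩
        exact hi' a1 a2 a3 a4
    · rw [if_neg he]
      apply Finset.sum_eq_zero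
      intro s' _
      split_ifs with hh
      · unfold Phi
        have hl : (fun i => ec ((Fin.snoc (α := fun _ => Fin N × Fin N) s' e0 :
            Fin (k + 1) → Fin N × Fin N) i)) (Fin.last k) = ec e0 := by
          show ec _ = _
          rw [Fin.snoc_last]
        rw [hl, if_neg, mul_zero]
        intro h
        apply he
        have := hh.1 (Fin.last k)
        rw [Fin.snoc_last] at this
        exact ⟨this, h⟩
      · rfl
  rw [Finset.sum_congr rfl (fun e0 _ => key e0)]
  by_cases hex : ∃ e0 : Fin N × Fin N, e0.1 < e0.2 ∧ c (Fin.last k) = ec e0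
  · obtain ⟨e0, he0, he0'⟩ := hex
    rw [Finset.sum_eq_single e0]
    · rw [if_pos ⟨he0, he0'⟩]
      by_cases hall : ∀ i, i ≠ Fin.last k → sz (c i) = 3 ∧ (i, 1) ∈ im (join c) ∧
        sep (join c) (i, 0) (Fin.last k, 0) ∧ sep (join c) (Fin.last k, 0) (i, 1)
      · rw [if_pos hall, if_pos ⟨⟨e0, he0, he0'⟩, hm, hall⟩]
      · rw [if_neg hall, if_neg (fun h : _ ∧ _ ∧ _ => hall h.2.2)]
    · intro e _ he
      rw [if_neg]
      rintro ⟨a1, a2⟩
      exact he (ec_inj e e0 a1 he0 (a2.symm.trans he0'))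
    · intro h; exact absurd (mem_univ _) h
  · rw [if_neg (fun h : _ ∧ _ ∧ _ => hex h.1)]
    apply Finset.sum_eq_zero
    intro e _
    rw [if_neg (fun h => hex ⟨e, h⟩)]

end

section
variable {n N : ℕ}

/-- tokens of a label cell -/
theorem sz_ge (c : LC N) (S : Finset (Fin 3)) (h : ∀ p ∈ S, ((0 : Fin 1), p) ∈ im c) :
    S.card ≤ sz c := by
  classical
  rcases S.eq_empty_or_nonempty with hS | hS
  · rw [hS]; simp
  have h' : ∀ p : Fin 3, ∃ v : Fin N, p ∈ S → c v = some (0, p) := by
    intro p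
    by_cases hp : p ∈ S
    · have := h p hp
      unfold im at this
      rw [mem_filter] at this
      obtain ⟨_, v, hv⟩ := this
      exact ⟨v, fun _ => hv⟩
    · obtain ⟨q, hq⟩ := hS
      have := h q hq
      unfold im at this
      rw [mem_filter] at this
      obtain ⟨_, v, _⟩ := this
      exact ⟨v, fun h => absurd h hp⟩
  choose f hf using h'
  unfold sz
  apply Finset.card_le_card_of_injOn f
  · intro p hp
    rw [Finset.mem_coe, mem_filter]
    refine ⟨mem_univ _, ?_⟩
    rw [hf p hp]; simp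
  · intro p hp q hq hpq
    have e1 := hf p hp
    have e2 := hf q hq
    rw [hpq, e2] at e1
    simp only [Option.some.injEq, Prod.mk.injEq, true_and] at e1
    exact e1.symm

theorem eq_ec (c : LC N) (h0 : ((0 : Fin 1), (0 : Fin 3)) ∈ im c)
    (h2 : ((0 : Fin 1), (2 : Fin 3)) ∈ im c) (hs : sz c = 2)
    (hsep : sep c ((0 : Fin 1), (0 : Fin 3)) (0, 2)) :
    ∃ e0 : Fin N × Fin N, e0.1 < e0.2 ∧ c = ec e0 := by
  classical
  unfold im at h0 h2
  rw [mem_filter] at h0 h2
  obtain ⟨_, a, ha⟩ := h0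
  obtain ⟨_, b, hb⟩ := h2
  have hab := hsep a b ha hb
  refine ⟨(a, b), hab, ?_⟩
  unfold sz at hs
  have hsub : ({a, b} : Finset (Fin N)) ⊆ univ.filter fun i => c i ≠ none := by
    intro v hv
    rw [mem_filter]
    refine ⟨mem_univ _, ?_⟩
    rw [mem_insert, mem_singleton] at hv
    rcases hv with rfl | rfl
    · rw [ha]; simp
    · rw [hb]; simp
  have heq := Finset.eq_of_subset_of_card_le hsub (by rw [hs, Finset.card_pair hab.ne])
  funext v
  unfold ec
  split_ifs with h1 h2
  · rw [h1]; exact ha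
  · rw [h2]; exact hb
  · by_contra h
    have : v ∈ ({a, b} : Finset (Fin N)) := by
      rw [heq, mem_filter]; exact ⟨mem_univ _, h⟩
    rw [mem_insert, mem_singleton] at this
    rcases this with h' | h'
    · exact h1 h'
    · exact h2 h'

theorem ec_no_mid (e : Fin N × Fin N) : ((0 : Fin 1), (1 : Fin 3)) ∉ im (ec e) := by
  unfold im ec
  rw [mem_filter]
  rintro ⟨_, v, hv⟩
  split_ifs at hv <;> simp at hv

end

section
variable {k : ℕ} {K : Type*} [CommRing K]

theorem frame_iff (c : Fin (k + 1) → LC (3 * k + 2)) (hD : Dj c) (hG : Good (join c))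
    (hs : sz (join c) = 3 * k + 2) :
    Frame k (join c) ↔
      (∃ e0 : Fin (3 * k + 2) × Fin (3 * k + 2), e0.1 < e0.2 ∧ c (Fin.last k) = ec e0) ∧
      (∀ i j : Fin (k + 1), i < j → j ≠ Fin.last k → lmin (c i) < lmin (c j)) ∧
      (∀ i, i ≠ Fin.last k → sz (c i) = 3 ∧ (i, 1) ∈ im (join c) ∧
        sep (join c) (i, 0) (Fin.last k, 0) ∧ sep (join c) (Fin.last k, 0) (i, 1)) := by
  classical
  have hlab : ∀ i, lab (join c) i = c i := lab_join c hD
  have him : ∀ i p, ((0 : Fin 1), p) ∈ im (c i) ↔ (i, p) ∈ im (join c) := by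
    intro i p
    rw [← hlab i]; exact mem_im_lab _ i p
  have hse : ∀ i p q, sep (c i) ((0 : Fin 1), p) (0, q) ↔ sep (join c) (i, p) (i, q) := by
    intro i p q
    rw [← hlab i]; exact sep_lab _ i p q
  have hspec : ∀ i, ∃ v : Fin (3 * k + 2), v.val = lmin (c i) ∧ join c v = some (i, 0) := by
    intro i
    obtain ⟨v, hv, hv'⟩ := lmin_spec (c i) ((him i 0).mpr (hG.1 i).1)
    exact ⟨v, hv, (join_eq_some c hD i v 0).mpr hv'⟩
  constructor
  · rintro ⟨_, hC, _, hl, hy⟩
    have h3 : ∀ i : Fin k, 3 ≤ sz (c i.castSucc) := by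
      intro i
      have := sz_ge (c i.castSucc) univ (by
        intro p _
        rw [him]
        fin_cases p
        · exact (hG.1 _).1
        · exact (hy i.castSucc (Fin.castSucc_ne_last i)).1
        · exact (hG.1 _).2.1)
      simpa using this
    have h2 : 2 ≤ sz (c (Fin.last k)) := by
      have := sz_ge (c (Fin.last k)) {0, 2} (by
        intro p hp
        rw [him]
        rw [mem_insert, mem_singleton] at hp
        rcases hp with rfl | rfl
        · exact (hG.1 _).1
        · exact (hG.1 _).2.1)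
      simpa using this
    have hsum := sz_eq_sum_lab (join c)
    rw [hs, Fin.sum_univ_castSucc] at hsum
    simp only [hlab] at hsum
    have hsum3 : ∑ i : Fin k, 3 ≤ ∑ i : Fin k, sz (c i.castSucc) :=
      Finset.sum_le_sum fun i _ => h3 i
    have hc3 : ∑ i : Fin k, 3 = 3 * k := by
      rw [Finset.sum_const, Finset.card_univ, Fintype.card_fin, smul_eq_mul, mul_comm]
    have hl2 : sz (c (Fin.last k)) = 2 := by omega
    have he3 : ∑ i : Fin k, 3 = ∑ i : Fin k, sz (c i.castSucc) := by omega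
    rw [Finset.sum_eq_sum_iff_of_le (fun i _ => h3 i)] at he3
    refine ⟨?_, ?_, ?_⟩
    · exact eq_ec _ ((him _ _).mpr (hG.1 _).1) ((him _ _).mpr (hG.1 _).2.1) hl2
        ((hse _ _ _).mpr (hG.1 _).2.2.2.2)
    · intro i j hij _
      obtain ⟨v, hv, hv'⟩ := hspec i
      obtain ⟨w, hw, hw'⟩ := hspec j
      have := hC i j hij v w hv' hw'
      rw [← hv, ← hw]; exact this
    · intro i hi
      refine ⟨?_, (hy i hi).1, ?_, (hy i hi).2⟩
      · have := he3 (i.castPred hi) (mem_univ _)
        rw [Fin.castSucc_castPred] at this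
        exact this.symm
      · exact hC i _ (lt_of_le_of_ne (Fin.le_last i) hi)
  · rintro ⟨⟨e0, he0, he0'⟩, hm, hy⟩
    refine ⟨hG, ?_, hs, ?_, ?_⟩
    · intro x y hxy
      have hx : x ≠ Fin.last k := fun h => by
        rw [h] at hxy; exact absurd hxy (not_lt.mpr (Fin.le_last y))
      by_cases hyl : y = Fin.last k
      · rw [hyl]; exact (hy x hx).2.2.1
      · have b1 : Blk (join c) x 0 1 := Or.inl ⟨(hy x hx).2.1, Or.inl ⟨rfl, rfl⟩⟩
        have b2 : Blk (join c) y 0 1 := Or.inl ⟨(hy y hyl).2.1, Or.inl ⟨rfl, rfl⟩⟩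
        rcases hG.2 x y hxy.ne 0 1 0 1 b1 b2 with h | h
        · exact h.1
        · exfalso
          obtain ⟨v, hv, hv'⟩ := hspec x
          obtain ⟨w, hw, hw'⟩ := hspec y
          have h1 := h.1 w v hw' hv'
          have h2 := hm x y hxy hyl
          rw [← hv, ← hw] at h2
          exact absurd h2 (not_lt.mpr (le_of_lt h1))
    · rw [← him, he0']
      exact ec_no_mid e0
    · intro y hyl
      exact ⟨(hy y hyl).2.1, (hy y hyl).2.2.2⟩

end

end Tot

section
variable {K : Type*} [CommRing K]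

/-! Module Q12: the total. -/

open Tot in
theorem total_Wt (k : ℕ) (Ξ : Cel (k + 1) (3 * k + 2) → K) (hA : AntiS Ξ)
    (h1 : ∀ t, Ξ t ≠ 0 → Good t ∧ sz t = 3 * k + 2) (h2 : ∀ t, bd Ξ t = 0) :
    ∑ s : Fin (k + 1) → Fin (3 * k + 2) × Fin (3 * k + 2), Wt (pf Ξ) (Fin.last k) s =
      ∑ t, (open Classical in if Frame k t then (-1 : K) ^ linv t * Ξ t else 0) := by
  classical
  have hg : ∀ t, Ξ t ≠ 0 → Good t := fun t ht => (h1 t ht).1
  have hP : PAnti (pf Ξ) := panti_pf Ξ hA
  have hinc : ∀ c e : LC (3 * k + 2), inc K c e ≠ 0 → sz c = sz e + 1 := fun c e h => inc_sz c e h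
  -- step 1
  have s1 : ∀ s : Fin (k + 1) → Fin (3 * k + 2) × Fin (3 * k + 2),
      Wt (pf Ξ) (Fin.last k) s = ∑ c : Fin (k + 1) → LC (3 * k + 2),
        if StrictMono (k1 (c, s)) then ph (pf Ξ) (c, s) else 0 := by
    intro s
    have : ∀ c : Fin (k + 1) → LC (3 * k + 2),
        (if StrictMono (k1 (c, s)) then ph (pf Ξ) (c, s) else 0) =
          if NNS s then Phi (pf Ξ) (Fin.last k) c (fun i => ec (s i)) else 0 :=
      fun c => (left_eq Ξ hg c s).symm
    rw [Finset.sum_congr rfl (fun c _ => this c)]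
    unfold Wt
    by_cases hN : NNS s
    · simp only [if_pos hN]
      exact II_eq_sum_Phi (pf Ξ) (Fin.last k) _
    · simp only [if_neg hN]
      rw [Finset.sum_const_zero]
  rw [Finset.sum_congr rfl (fun s _ => s1 s), Finset.sum_comm]
  -- step 2
  have s2 : ∑ c : Fin (k + 1) → LC (3 * k + 2),
      ∑ s : Fin (k + 1) → Fin (3 * k + 2) × Fin (3 * k + 2),
        (if StrictMono (k1 (c, s)) then ph (pf Ξ) (c, s) else 0) =
      ∑ c : Fin (k + 1) → LC (3 * k + 2),
      ∑ s : Fin (k + 1) → Fin (3 * k + 2) × Fin (3 * k + 2),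
        (if StrictMono (k2 (c, s)) then ph (pf Ξ) (c, s) else 0) := by
    have := fd_switch (n := k + 1) (K := K)
      (X := (Fin (k + 1) → LC (3 * k + 2)) × (Fin (k + 1) → Fin (3 * k + 2) × Fin (3 * k + 2)))
      (fun σ x => (x.1 ∘ σ, x.2 ∘ σ)) (fun x => rfl) (fun σ τ x => rfl) (ph (pf Ξ))
      (fun σ x => inv_ph hinc (pf Ξ) hP σ x) k1 k2 (fun σ x i => rfl)
      (fun σ x i => k2_perm σ x i) (fun x hx => k1_inj Ξ hg x hx) (fun x hx => k2_inj Ξ hg x hx)
    rw [Fintype.sum_prod_type, Fintype.sum_prod_type] at this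
    exact this
  rw [s2]
  have s3 : ∀ c : Fin (k + 1) → LC (3 * k + 2),
      ∑ s : Fin (k + 1) → Fin (3 * k + 2) × Fin (3 * k + 2),
        (if StrictMono (k2 (c, s)) then ph (pf Ξ) (c, s) else 0) =
      if Dj c then (if Frame k (join c) then (-1 : K) ^ linv (join c) * Ξ (join c) else 0)
        else 0 := by
    intro c
    rw [Finset.sum_congr rfl (fun s _ => right_eq Ξ hg c s), fact Ξ hg c]
    by_cases hD : Dj c
    · rw [if_pos hD]
      have hpf : pf Ξ c = (-1 : K) ^ linv (join c) * Ξ (join c) := by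
        unfold pf; rw [if_pos hD]
      rw [hpf]
      by_cases hz : Ξ (join c) = 0
      · rw [hz]; simp
      · have := frame_iff c hD (h1 _ hz).1 (h1 _ hz).2
        by_cases hF : Frame k (join c)
        · rw [if_pos hF, if_pos (this.mp hF)]
        · rw [if_neg hF, if_neg (fun h => hF (this.mpr h))]
    · rw [if_neg hD]
      have hpf : pf Ξ c = 0 := by
        unfold pf; rw [if_neg hD]
      rw [hpf]; simp
  rw [Finset.sum_congr rfl (fun c _ => s3 c), ← Finset.sum_filter]
  refine Finset.sum_nbij' (fun c => join c) (fun t => lab t) ?_ ?_ ?_ ?_ ?_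
  · intro c _; exact mem_univ _
  · intro t _
    rw [mem_filter]; exact ⟨mem_univ _, dj_lab t⟩
  · intro c hc
    rw [mem_filter] at hc
    funext i
    exact lab_join c hc.2 i
  · intro t _
    exact join_lab t
  · intro c _
    rfl

end

end Pool.Agent.Helper5.NM
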