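import Pool.Agent.Helper5.NM.Defs
import Pool.Agent.Helper5.NM.Q2
import Pool.Agent.Helper5.NM.Q11
import Pool.Agent.Helper5.NM.Q12

set_option autoImplicit false

open Finset Function

namespace Pool.Agent.Helper5.NM

section
variable {K : Type*} [CommRing K]

/-! Module Q13: the certificate from an antisymmetric cycle. -/

theorem cert_of_cycle (k : ℕ) (Ξ : Cel (k + 1) (3 * k + 2) → K) (hA : AntiS Ξ)
    (h1 : ∀ t, Ξ t ≠ 0 → Good t ∧ sz t = 3 * k + 2) (h2 : ∀ t, bd Ξ t = 0)
    (h3 : ∑ t, (open Classical in if Frame k t then (-1 : K) ^ invs key t * Ξ t else 0) ≠ 0) :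
    ∃ w, Cert (k + 1) (3 * k + 2) K w := by
  refine ⟨Wt (pf Ξ) (Fin.last k), ?_, ?_, ?_⟩
  · intro s hs
    by_contra h
    exact hs (by simp [Wt, h])
  · intro S hS hc
    exact level_Wt Ξ hA (fun t ht => (h1 t ht).1) h2 (Fin.last k) S hS hc
  · rw [total_Wt k Ξ hA h1 h2]
    convert h3 using 2
    rename_i t _
    by_cases hf : Frame k t
    · simp only [hf, if_true, linv_eq t hf.1]
    · simp only [hf, if_false]

end

end Pool.Agent.Helper5.NM
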