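import Pool.Agent.Helper5.NM.Defs

set_option autoImplicit false

open Finset Function

namespace Pool.Agent.Helper5.NM

section
variable {n N : ℕ} {K : Type*} [CommRing K]

/-! Module Q14: a certificate forces a monochromatic non-nested matching. -/

theorem Q14_inj {s : Fin n → Fin N × Fin N} (h : NNS s) : Injective s := by
  intro i j hij
  by_contra hne
  rcases lt_or_gt_of_ne hne with hlt | hlt
  · have := (h.2.1 i j hlt).1
    rw [hij] at this
    exact lt_irrefl _ this
  · have := (h.2.1 j i hlt).1
    rw [hij] at this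
    exact lt_irrefl _ this

theorem Q14_nnm {s : Fin n → Fin N × Fin N} (h : NNS s) :
    IsNonNestedMatching (univ.image s) := by
  refine ⟨?_, ?_, ?_⟩
  · intro e he
    obtain ⟨i, -, rfl⟩ := mem_image.1 he
    exact h.1 i
  · intro e he f hf hne
    obtain ⟨i, -, rfl⟩ := mem_image.1 he
    obtain ⟨j, -, rfl⟩ := mem_image.1 hf
    have hij : i ≠ j := fun hh => hne (by rw [hh])
    refine ⟨?_, h.2.2 i j, fun hh => h.2.2 j i hh.symm, ?_⟩
    · rcases lt_or_gt_of_ne hij with hlt | hlt
      · exact (h.2.1 i j hlt).1.ne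
      · exact (h.2.1 j i hlt).1.ne'
    · rcases lt_or_gt_of_ne hij with hlt | hlt
      · exact (h.2.1 i j hlt).2.ne
      · exact (h.2.1 j i hlt).2.ne'
  · intro e he f hf hh
    obtain ⟨i, -, rfl⟩ := mem_image.1 he
    obtain ⟨j, -, rfl⟩ := mem_image.1 hf
    rcases lt_trichotomy i j with hlt | heq | hlt
    · exact absurd hh.2 (not_lt.2 (h.2.1 i j hlt).2.le)
    · rw [heq] at hh
      exact lt_irrefl _ hh.1
    · exact absurd hh.1 (not_lt.2 (h.2.1 j i hlt).1.le)

theorem Q14_card {s : Fin n → Fin N × Fin N} (h : NNS s) : (univ.image s).card = n := by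
  rw [card_image_of_injective _ (Q14_inj h), card_univ, Fintype.card_fin]

/-- Expansion of the certificate against a product weight. -/
theorem Q14_key (w : (Fin n → Fin N × Fin N) → K) (h : Cert n N K w) (g : Fin N × Fin N → K)
    (hg : ∀ s, w s ≠ 0 → w s * ∏ i, g (s i) = 0) :
    ∑ s, w s * ∏ i, (g (s i) + 1) = ∑ s, w s := by
  classical
  have h1 : ∀ s : Fin n → Fin N × Fin N, w s * ∏ i, (g (s i) + 1) =
      ∑ S : Finset (Fin N × Fin N), if (∀ e ∈ S, ∃ i, s i = e) then w s * ∏ e ∈ S, g e else 0 := by
    intro s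
    by_cases hw : w s = 0
    · simp [hw]
    have hs := h.supp s hw
    have h2 : ∏ i, (g (s i) + 1) = ∏ e ∈ univ.image s, (g e + 1) := by
      rw [prod_image (fun a _ b _ hab => Q14_inj hs hab)]
    rw [h2, prod_add_one, mul_sum, ← sum_filter]
    apply sum_congr
    · ext S
      simp only [mem_powerset, subset_iff, mem_image, mem_univ, true_and, mem_filter]
    · intro S _
      rfl
  rw [sum_congr rfl (fun s _ => h1 s), sum_comm,
    ← add_sum_erase univ _ (mem_univ (∅ : Finset (Fin N × Fin N)))]
  have h3 : ∑ S ∈ (univ : Finset (Finset (Fin N × Fin N))).erase ∅,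
      ∑ s : Fin n → Fin N × Fin N,
        (if (∀ e ∈ S, ∃ i, s i = e) then w s * ∏ e ∈ S, g e else 0) = 0 := by
    apply sum_eq_zero
    intro S hS
    have hne : S.Nonempty := nonempty_iff_ne_empty.2 (mem_erase.1 hS).1
    by_cases hc : S.card < n
    · have h4 := h.level S hne hc
      have h5 : ∀ s : Fin n → Fin N × Fin N,
          (if (∀ e ∈ S, ∃ i, s i = e) then w s * ∏ e ∈ S, g e else 0) =
          (if (∀ e ∈ S, ∃ i, s i = e) then w s else 0) * ∏ e ∈ S, g e := by
        intro s
        split_ifs <;> simp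
      rw [sum_congr rfl (fun s _ => h5 s), ← sum_mul, h4, zero_mul]
    · apply sum_eq_zero
      intro s _
      split_ifs with hsub
      · by_cases hw : w s = 0
        · simp [hw]
        · have hs := h.supp s hw
          have hS2 : S ⊆ univ.image s := by
            intro e he
            obtain ⟨i, hi⟩ := hsub e he
            exact mem_image.2 ⟨i, mem_univ _, hi⟩
          have hS3 : S = univ.image s := by
            apply eq_of_subset_of_card_le hS2
            rw [Q14_card hs]
            omega
          rw [hS3, prod_image (fun a _ b _ hab => Q14_inj hs hab)]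
          exact hg s hw
      · rfl
  rw [h3, add_zero]
  simp

theorem arrows_of_cert (w : (Fin n → Fin N × Fin N) → K) (h : Cert n N K w) : Arrows N n := by
  classical
  intro col
  by_contra hcon
  push Not at hcon
  have hcol : ∀ s, w s ≠ 0 → ∀ b : Bool, ∃ i, col (s i).1 (s i).2 ≠ b := by
    intro s hw b
    have hs := h.supp s hw
    obtain ⟨e, he, hb⟩ := hcon b (univ.image s) (Q14_nnm hs) (Q14_card hs)
    obtain ⟨i, -, rfl⟩ := mem_image.1 he
    exact ⟨i, hb⟩
  have hkey := Q14_key w h (fun e => if col e.1 e.2 = true then (-1 : K) else 0) (by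
    intro s hw
    obtain ⟨i, hi⟩ := hcol s hw true
    rw [prod_eq_zero (mem_univ i) (by simp [hi]), mul_zero])
  apply h.total
  rw [← hkey]
  apply sum_eq_zero
  intro s _
  by_cases hw : w s = 0
  · simp [hw]
  · obtain ⟨i, hi⟩ := hcol s hw false
    have hi' : col (s i).1 (s i).2 = true := by
      cases hh : col (s i).1 (s i).2
      · exact absurd hh hi
      · rfl
    rw [prod_eq_zero (mem_univ i) (by simp [hi']), mul_zero]

end

end Pool.Agent.Helper5.NM
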