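import Pool.Agent.Helper5.NM.Defs

set_option autoImplicit false

open Finset Function

namespace Pool.Agent.Helper5.NM

section

/-! Module Q15: the Erdos-Ginzburg-Ziv form for a prime number of edges. -/

theorem Q15_inj {n N : ℕ} {s : Fin n → Fin N × Fin N} (h : NNS s) : Injective s := by
  intro i j hij
  by_contra hne
  rcases lt_or_gt_of_ne hne with hlt | hlt
  · have := (h.2.1 i j hlt).1
    rw [hij] at this
    exact lt_irrefl _ this
  · have := (h.2.1 j i hlt).1
    rw [hij] at this
    exact lt_irrefl _ this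

theorem Q15_nnm {n N : ℕ} {s : Fin n → Fin N × Fin N} (h : NNS s) :
    IsNonNestedMatching (univ.image s) := by
  refine ⟨?_, ?_, ?_⟩
  · intro e he
    obtain ⟨i, -, rfl⟩ := mem_image.1 he
    exact h.1 i
  · intro e he f hf hne
    obtain ⟨i, -, rfl⟩ := mem_image.1 he
    obtain ⟨j, -, rfl⟩ := mem_image.1 hf
    have hij : i ≠ j := fun hh => hne (by rw [hh])
    refine ⟨?_, h.2.2 i j, fun hh => h.2.2 j i hh.symm, ?_⟩
    · rcases lt_or_gt_of_ne hij with hlt | hlt
      · exact (h.2.1 i j hlt).1.ne
      · exact (h.2.1 j i hlt).1.ne'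
    · rcases lt_or_gt_of_ne hij with hlt | hlt
      · exact (h.2.1 i j hlt).2.ne
      · exact (h.2.1 j i hlt).2.ne'
  · intro e he f hf hh
    obtain ⟨i, -, rfl⟩ := mem_image.1 he
    obtain ⟨j, -, rfl⟩ := mem_image.1 hf
    rcases lt_trichotomy i j with hlt | heq | hlt
    · exact absurd hh.2 (not_lt.2 (h.2.1 i j hlt).2.le)
    · rw [heq] at hh
      exact lt_irrefl _ hh.1
    · exact absurd hh.1 (not_lt.2 (h.2.1 j i hlt).1.le)

theorem Q15_card {n N : ℕ} {s : Fin n → Fin N × Fin N} (h : NNS s) :
    (univ.image s).card = n := by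
  rw [card_image_of_injective _ (Q15_inj h), card_univ, Fintype.card_fin]

theorem egz_of_cert (p : ℕ) [Fact p.Prime] (N : ℕ)
    (w : (Fin p → Fin N × Fin N) → ZMod p) (h : Cert p N (ZMod p) w)
    (x : Fin N → Fin N → ZMod p) :
    ∃ S : Finset (Fin N × Fin N), IsNonNestedMatching S ∧ S.card = p ∧
      ∑ e ∈ S, x e.1 e.2 = 0 := by
  classical
  have hp : p.Prime := Fact.out
  by_contra hcon
  push Not at hcon
  apply h.total
  have h1 : ∀ s, w s = w s * (∑ e ∈ univ.image s, x e.1 e.2) ^ (p - 1) := by
    intro s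
    by_cases hw : w s = 0
    · simp [hw]
    have hs := h.supp s hw
    rw [ZMod.pow_card_sub_one_eq_one (hcon _ (Q15_nnm hs) (Q15_card hs)), mul_one]
  have h2 : ∀ s : Fin p → Fin N × Fin N,
      w s * (∑ e ∈ univ.image s, x e.1 e.2) ^ (p - 1) =
      ∑ j : Fin (p - 1) → Fin N × Fin N,
        (if (∀ e ∈ univ.image j, ∃ i, s i = e) then w s else 0) * ∏ k, x (j k).1 (j k).2 := by
    intro s
    have h3 : ∑ e ∈ univ.image s, x e.1 e.2 =
        ∑ e : Fin N × Fin N, if e ∈ univ.image s then x e.1 e.2 else 0 := by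
      rw [← sum_filter]
      apply sum_congr
      · ext e
        simp
      · intro _ _
        rfl
    rw [h3, Fintype.sum_pow, mul_sum]
    apply sum_congr rfl
    intro j _
    rw [prod_ite_zero]
    have h4 : (∀ k ∈ (univ : Finset (Fin (p - 1))), j k ∈ univ.image s) ↔
        (∀ e ∈ univ.image j, ∃ i, s i = e) := by
      simp only [mem_univ, true_imp_iff, mem_image, true_and, forall_exists_index,
        forall_apply_eq_imp_iff]
    by_cases h5 : ∀ e ∈ univ.image j, ∃ i, s i = e
    · rw [if_pos (h4.2 h5), if_pos h5]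
    · rw [if_neg (fun hh => h5 (h4.1 hh)), if_neg h5]
      simp
  calc ∑ s, w s = ∑ s : Fin p → Fin N × Fin N, ∑ j : Fin (p - 1) → Fin N × Fin N,
        (if (∀ e ∈ univ.image j, ∃ i, s i = e) then w s else 0) * ∏ k, x (j k).1 (j k).2 := by
        apply sum_congr rfl
        intro s _
        rw [← h2 s]
        exact h1 s
    _ = ∑ j : Fin (p - 1) → Fin N × Fin N, (∑ s : Fin p → Fin N × Fin N,
        (if (∀ e ∈ univ.image j, ∃ i, s i = e) then w s else 0)) * ∏ k, x (j k).1 (j k).2 := by
        rw [sum_comm]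
        apply sum_congr rfl
        intro j _
        rw [sum_mul]
    _ = 0 := by
        apply sum_eq_zero
        intro j _
        have h2p := hp.two_le
        have hne : (univ.image j).Nonempty := by
          have : Nonempty (Fin (p - 1)) := ⟨⟨0, by omega⟩⟩
          exact univ_nonempty.image j
        have hc : (univ.image j).card < p := by
          have := card_image_le (s := (univ : Finset (Fin (p - 1)))) (f := j)
          rw [card_univ, Fintype.card_fin] at this
          omega
        rw [h.level _ hne hc, zero_mul]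

end

end Pool.Agent.Helper5.NM
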