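import Pool.Agent.Helper5.NM.Defs

set_option autoImplicit false

open Finset Function

namespace Pool.Agent.Helper5.NM

open Let

section
variable {n N : ℕ}

/-! Module T1: labelled words under relabelling. -/

theorem lword_act (σ : Equiv.Perm (Fin n)) (t : Cel n N) :
    lword (act σ t) = (lword t).map σ := by sorry

theorem pat_map (σ : Equiv.Perm (Fin n)) (u : List (Fin n)) : pat (u.map σ) = pat u := by sorry

theorem fw_map (σ : Equiv.Perm (Fin n)) (u : List (Fin n)) : FW (u.map σ) ↔ FW u := by sorry

end

end Pool.Agent.Helper5.NM
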