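import Pool.Agent.Helper5.NM.Defs

set_option autoImplicit false

open Finset Function

namespace Pool.Agent.Helper5.NM

open Let

section
variable {n : ℕ}

/-! Module T9: patterns of labelled words. -/

theorem pat_length (u : List (Fin n)) : (pat u).length = u.length := by sorry

theorem bal_pat (u : List (Fin n)) (hu : FW u) : Bal (pat u) := by sorry

theorem pat_getElem (v : List (Fin n)) (hv : FW v) (x : Fin n) (h : v.count x = 1) :
    (pat v)[v.idxOf x]? = some S := by sorry

/-- the positions of `S` are the positions of the single labels -/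
theorem pat_S (v : List (Fin n)) (hv : FW v) (s : ℕ) :
    (pat v)[s]? = some S ↔ ∃ x, v.count x = 1 ∧ v.idxOf x = s := by sorry

theorem pat_insert_left (v : List (Fin n)) (hv : FW v) (x : Fin n) (h : v.count x = 1) (i : ℕ)
    (hi : i ≤ v.idxOf x) :
    pat (v.insertIdx i x) = ((pat v).set (v.idxOf x) C).insertIdx i O := by sorry

theorem pat_insert_right (v : List (Fin n)) (hv : FW v) (x : Fin n) (h : v.count x = 1) (i : ℕ)
    (hi : v.idxOf x < i) (hi' : i ≤ v.length) :
    pat (v.insertIdx i x) = ((pat v).set (v.idxOf x) O).insertIdx i C := by sorry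

theorem fw_insert_left (v : List (Fin n)) (hv : FW v) (x : Fin n) (h : v.count x = 1) (i : ℕ)
    (hi : i ≤ v.idxOf x) :
    FW (v.insertIdx i x) ↔ ((pat v).take i).count O = ((pat v).take (v.idxOf x)).count C := by
  sorry

theorem fw_insert_right (v : List (Fin n)) (hv : FW v) (x : Fin n) (h : v.count x = 1) (i : ℕ)
    (hi : v.idxOf x < i) (hi' : i ≤ v.length) :
    FW (v.insertIdx i x) ↔ ((pat v).take i).count C = ((pat v).take (v.idxOf x)).count O := by
  sorry

end

end Pool.Agent.Helper5.NM
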