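import Pool.Agent.Helper5.NM.Defs
import Pool.Agent.Helper5.NM.T9

set_option autoImplicit false

open Finset Function

namespace Pool.Agent.Helper5.NM

open Let

section
variable {n : ℕ}

/-! Module T10: signs of insertions into a canonical word. -/

private theorem T10_ins {α : Type*} (A B : List α) (a : α) :
    (A ++ B).insertIdx A.length a = A ++ a :: B := by
  induction A with
  | nil => simp
  | cons b A ih => simp [ih]

/-- number of first letters -/
private def T10_fc (w : Word) : ℕ := w.count O + w.count S

private theorem T10_bs_app (A B : Word) :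
    bsN (A ++ B) = bsN A + T10_fc A * B.count O + bsN B := by
  induction A with
  | nil => simp [bsN, T10_fc]
  | cons a A ih =>
    have e1 : bsN (a :: (A ++ B)) = (if a = C then 0 else (A ++ B).count O) + bsN (A ++ B) := rfl
    have e2 : bsN (a :: A) = (if a = C then 0 else A.count O) + bsN A := rfl
    rw [List.cons_append, e1, e2, ih]
    unfold T10_fc
    cases a
    · simp; ring
    · simp
    · simp; ring

private theorem T10_bs_left (w : Word) (s i : ℕ) (hs : w[s]? = some S) (hi : i ≤ s) :
    bsN ((w.set s C).insertIdx i O) = bsN w + (w.take s).count O + (w.take i).count S := by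
  have hlt : s < w.length := by
    by_contra h
    rw [List.getElem?_eq_none (not_lt.1 h)] at hs
    cases hs
  obtain ⟨A, B, D, rfl, hA, hAB⟩ : ∃ A B D : Word, w = A ++ (B ++ S :: D) ∧ A.length = i ∧
      A.length + B.length = s := by
    refine ⟨w.take i, (w.take s).drop i, w.drop (s + 1), ?_, ?_, ?_⟩
    · have h1 : w.take s = w.take i ++ (w.take s).drop i := by
        conv_lhs => rw [← List.take_append_drop i (w.take s)]
        rw [List.take_take, min_eq_left hi]
      have h2 : w.drop s = S :: w.drop (s + 1) := by
        rw [List.drop_eq_getElem_cons hlt]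
        rw [List.getElem?_eq_getElem hlt] at hs
        rw [Option.some.inj hs]
      rw [← List.append_assoc, ← h1, ← h2, List.take_append_drop]
    · simp; omega
    · simp; omega
  have hset : (A ++ (B ++ S :: D)).set s C = A ++ (B ++ C :: D) := by
    rw [← hAB, List.set_append_right _ _ (by omega), Nat.add_sub_cancel_left,
      List.set_append_right _ _ le_rfl, Nat.sub_self, List.set_cons_zero]
  have htake : (A ++ (B ++ S :: D)).take s = A ++ B := by
    rw [← List.append_assoc, ← hAB, ← List.length_append, List.take_left]
  have htake' : (A ++ (B ++ S :: D)).take i = A := by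
    rw [← hA, List.take_left]
  rw [hset, htake, htake', ← hA, T10_ins]
  have e1 : bsN (O :: (B ++ C :: D)) = (B ++ C :: D).count O + bsN (B ++ C :: D) := by
    conv_lhs => unfold bsN
    simp
  have e2 : bsN (C :: D) = bsN D := by
    conv_lhs => unfold bsN
    simp
  have e3 : bsN (S :: D) = D.count O + bsN D := by
    conv_lhs => unfold bsN
    simp
  rw [T10_bs_app, T10_bs_app, e1, T10_bs_app, T10_bs_app, e2, e3]
  unfold T10_fc
  simp only [List.count_append, List.count_cons, beq_iff_eq, reduceCtorEq, if_false, if_true,
    beq_self_eq_true]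
  ring

private theorem T10_bs_right (w : Word) (s i : ℕ) (hs : w[s]? = some S) (hi : s < i)
    (hi' : i ≤ w.length) :
    bsN ((w.set s O).insertIdx i C) = bsN w + (w.take s).count O + (w.take s).count S := by
  have hlt : s < w.length := by omega
  obtain ⟨A, B, D, rfl, hA, hAB⟩ : ∃ A B D : Word, w = A ++ S :: (B ++ D) ∧ A.length = s ∧
      A.length + 1 + B.length = i := by
    refine ⟨w.take s, (w.drop (s + 1)).take (i - (s + 1)),
      (w.drop (s + 1)).drop (i - (s + 1)), ?_, ?_, ?_⟩
    · rw [List.take_append_drop]
      have h2 : w.drop s = S :: w.drop (s + 1) := by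
        rw [List.drop_eq_getElem_cons hlt]
        rw [List.getElem?_eq_getElem hlt] at hs
        rw [Option.some.inj hs]
      rw [← h2, List.take_append_drop]
    · simp; omega
    · simp; omega
  have hset : (A ++ S :: (B ++ D)).set s O = (A ++ O :: B) ++ D := by
    rw [← hA, List.set_append_right _ _ le_rfl, Nat.sub_self, List.set_cons_zero]
    simp
  have htake : (A ++ S :: (B ++ D)).take s = A := by
    rw [← hA, List.take_left]
  have hlen : i = (A ++ O :: B).length := by
    rw [← hAB]; simp; omega
  rw [hset, htake, hlen, T10_ins, List.append_assoc, List.cons_append]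
  have e1 : bsN (O :: (B ++ C :: D)) = (B ++ C :: D).count O + bsN (B ++ C :: D) := by
    conv_lhs => unfold bsN
    simp
  have e2 : bsN (C :: D) = bsN D := by
    conv_lhs => unfold bsN
    simp
  have e3 : bsN (S :: (B ++ D)) = (B ++ D).count O + bsN (B ++ D) := by
    conv_lhs => unfold bsN
    simp
  rw [T10_bs_app, T10_bs_app, e1, e3, T10_bs_app, T10_bs_app, e2]
  unfold T10_fc
  simp only [List.count_append, List.count_cons, beq_iff_eq, reduceCtorEq, if_false, if_true,
    beq_self_eq_true]
  ring

private theorem T10_count_take (v : List (Fin n)) (a : Let) (k : ℕ) (hk : 0 < k)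
    (H : ∀ p, (pat v)[p]? = some a ↔ ∃ y, v.count y = k ∧ v.idxOf y = p) (m : ℕ) :
    ((pat v).take m).count a = (univ.filter fun y : Fin n => v.count y = k ∧ v.idxOf y < m).card := by
  induction m with
  | zero => simp
  | succ m ih =>
    have h1 : (univ.filter fun y : Fin n => v.count y = k ∧ v.idxOf y < m + 1) =
        (univ.filter fun y : Fin n => v.count y = k ∧ v.idxOf y < m) ∪
        (univ.filter fun y : Fin n => v.count y = k ∧ v.idxOf y = m) := by
      ext y
      simp only [Finset.mem_filter, Finset.mem_univ, true_and, Finset.mem_union,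
        Nat.lt_succ_iff_lt_or_eq]
      tauto
    have h2 : Disjoint (univ.filter fun y : Fin n => v.count y = k ∧ v.idxOf y < m)
        (univ.filter fun y : Fin n => v.count y = k ∧ v.idxOf y = m) := by
      rw [Finset.disjoint_left]
      intro y hy hy'
      rw [Finset.mem_filter] at hy hy'
      omega
    rw [h1, Finset.card_union_of_disjoint h2, ← ih, List.take_add_one, List.count_append]
    congr 1
    by_cases hp : (pat v)[m]? = some a
    · rw [hp]
      obtain ⟨y, hy1, hy2⟩ := (H m).1 hp
      have h3 : (univ.filter fun y : Fin n => v.count y = k ∧ v.idxOf y = m) = {y} := by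
        ext z
        simp only [Finset.mem_filter, Finset.mem_univ, true_and, Finset.mem_singleton]
        constructor
        · rintro ⟨hz1, hz2⟩
          have hzm : z ∈ v := List.count_pos_iff.1 (by omega)
          exact (List.idxOf_inj hzm).1 (by rw [hz2, hy2])
        · rintro rfl
          exact ⟨hy1, hy2⟩
      rw [h3]
      simp
    · have h3 : (univ.filter fun y : Fin n => v.count y = k ∧ v.idxOf y = m) = ∅ := by
        rw [Finset.filter_eq_empty_iff]
        intro y _ hy
        exact hp ((H m).2 ⟨y, hy⟩)
      rw [h3]
      cases hq : (pat v)[m]? with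
      | none => simp
      | some b =>
        have hb : b ≠ a := fun h => hp (by rw [hq, h])
        simp [hb]

private theorem T10_pat_O (v : List (Fin n)) (hv : FW v) (s : ℕ) :
    (pat v)[s]? = some O ↔ ∃ x, v.count x = 2 ∧ v.idxOf x = s := by
  constructor
  · intro h
    have hlt : s < v.length := by
      by_contra h'
      rw [List.getElem?_eq_none (by rw [pat_length]; omega)] at h
      cases h
    have hs : (pat v)[s]? = some (if v[s] ∈ v.take s then C else if v[s] ∈ v.drop (s + 1) then O
        else S) := by
      unfold pat
      rw [List.getElem?_map, List.getElem?_range hlt]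
      simp [hlt]
    rw [hs] at h
    have h4 := Option.some.inj h
    split_ifs at h4 with h5 h6
    refine ⟨v[s], ?_, ?_⟩
    · have e : v = v.take s ++ v[s] :: v.drop (s + 1) := by
        rw [← List.drop_eq_getElem_cons hlt, List.take_append_drop]
      have e2 : v.count v[s] = (v.take s ++ v[s] :: v.drop (s + 1)).count v[s] :=
        congrArg (List.count v[s]) e
      rw [List.count_append, List.count_cons_self] at e2
      have h7 : 0 < (v.drop (s + 1)).count v[s] := List.count_pos_iff.2 h6
      rcases hv.1 v[s] with h8 | h8 <;> omega
    · have e : v = v.take s ++ v[s] :: v.drop (s + 1) := by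
        rw [← List.drop_eq_getElem_cons hlt, List.take_append_drop]
      have e2 : v.idxOf v[s] = (v.take s ++ v[s] :: v.drop (s + 1)).idxOf v[s] :=
        congrArg (List.idxOf v[s]) e
      rw [List.idxOf_append_of_notMem h5, List.idxOf_cons_self, List.length_take] at e2
      omega
  · rintro ⟨x, hx, hs⟩
    have hmem : x ∈ v := List.count_pos_iff.1 (by omega)
    have hlt : s < v.length := by rw [← hs]; exact List.idxOf_lt_length_iff.2 hmem
    have hvs : v[s] = x := by
      subst hs
      exact List.getElem_idxOf hlt
    have hnt : x ∉ v.take s := by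
      intro h
      have h1 : v.idxOf x < s := by
        have e : v.idxOf x = (v.take s ++ v.drop s).idxOf x := by rw [List.take_append_drop]
        rw [List.idxOf_append_of_mem h] at e
        have h2 := List.idxOf_lt_length_iff.2 h
        rw [List.length_take] at h2
        omega
      omega
    have e : v = v.take s ++ v[s] :: v.drop (s + 1) := by
      rw [← List.drop_eq_getElem_cons hlt, List.take_append_drop]
    have e2 : v.count x = (v.take s ++ v[s] :: v.drop (s + 1)).count x :=
      congrArg (List.count x) e
    rw [List.count_append, hvs, List.count_cons_self, List.count_eq_zero_of_not_mem hnt] at e2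
    have hd : x ∈ v.drop (s + 1) := List.count_pos_iff.1 (by omega)
    unfold pat
    rw [List.getElem?_map, List.getElem?_range hlt]
    simp [hlt, hvs, hnt, hd]

private theorem T10_idx_ne (v : List (Fin n)) (x y : Fin n) (i : ℕ) (hi : i ≤ v.length)
    (hxy : y ≠ x) :
    (v.insertIdx i x).idxOf y = v.idxOf y + if i ≤ v.idxOf y then 1 else 0 := by
  have e0 : v = v.take i ++ v.drop i := (List.take_append_drop i v).symm
  have hlen : (v.take i).length = i := by rw [List.length_take]; omega
  have e1 : v.insertIdx i x = v.take i ++ x :: v.drop i := by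
    have := T10_ins (v.take i) (v.drop i) x
    rw [List.take_append_drop, hlen] at this
    exact this
  rw [e1]
  by_cases h : y ∈ v.take i
  · have h2 : v.idxOf y = (v.take i).idxOf y := by
      conv_lhs => rw [e0]
      exact List.idxOf_append_of_mem h
    have h3 := List.idxOf_lt_length_iff.2 h
    rw [List.idxOf_append_of_mem h, h2, if_neg (by omega)]
    omega
  · have h2 : v.idxOf y = (v.take i).length + (v.drop i).idxOf y := by
      conv_lhs => rw [e0]
      exact List.idxOf_append_of_notMem h
    rw [List.idxOf_append_of_notMem h, h2, if_pos (by omega), List.idxOf_cons_ne _ hxy.symm]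
    omega

private theorem T10_idx_self (v : List (Fin n)) (x : Fin n) (i : ℕ) (hi : i ≤ v.length) :
    (v.insertIdx i x).idxOf x = min i (v.idxOf x) := by
  have e0 : v = v.take i ++ v.drop i := (List.take_append_drop i v).symm
  have hlen : (v.take i).length = i := by rw [List.length_take]; omega
  have e1 : v.insertIdx i x = v.take i ++ x :: v.drop i := by
    have := T10_ins (v.take i) (v.drop i) x
    rw [List.take_append_drop, hlen] at this
    exact this
  rw [e1]
  by_cases h : x ∈ v.take i
  · have h2 : v.idxOf x = (v.take i).idxOf x := by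
      conv_lhs => rw [e0]
      exact List.idxOf_append_of_mem h
    have h3 := List.idxOf_lt_length_iff.2 h
    rw [List.idxOf_append_of_mem h, h2]
    omega
  · have h2 : v.idxOf x = (v.take i).length + (v.drop i).idxOf x := by
      conv_lhs => rw [e0]
      exact List.idxOf_append_of_notMem h
    rw [List.idxOf_append_of_notMem h, h2, List.idxOf_cons_self]
    omega

private theorem T10_count (v : List (Fin n)) (x y : Fin n) (i : ℕ) (hi : i ≤ v.length) :
    (v.insertIdx i x).count y = v.count y + if x = y then 1 else 0 := by
  rw [(List.perm_insertIdx x v hi).count_eq, List.count_cons]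
  simp

private theorem T10_mono (v : List (Fin n))
    (hcan : ∀ x y : Fin n, x < y → v.idxOf x < v.idxOf y) (x y : Fin n) :
    y < x ↔ v.idxOf y < v.idxOf x := by
  constructor
  · exact hcan y x
  · intro h
    by_contra h'
    rcases eq_or_lt_of_le (not_lt.1 h') with h1 | h1
    · rw [h1] at h; exact lt_irrefl _ h
    · exact absurd (hcan x y h1) (not_lt.2 h.le)

private theorem T10_dbl (v : List (Fin n)) (hv : FW v)
    (hcan : ∀ x y : Fin n, x < y → v.idxOf x < v.idxOf y) (x : Fin n) :
    (univ.filter fun y : Fin n => y < x ∧ v.count y = 2).card =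
      ((pat v).take (v.idxOf x)).count O := by
  rw [T10_count_take v O 2 (by norm_num) (T10_pat_O v hv)]
  congr 1
  ext y
  simp only [Finset.mem_filter, Finset.mem_univ, true_and]
  rw [T10_mono v hcan x y, and_comm]

theorem sign_insert_left (v : List (Fin n)) (hv : FW v)
    (hcan : ∀ x y : Fin n, x < y → v.idxOf x < v.idxOf y) (x : Fin n) (h : v.count x = 1) (i : ℕ)
    (hi : i ≤ v.idxOf x) :
    Even (chiN (v.insertIdx i x) + bsN (pat (v.insertIdx i x)) + bsN (pat v) +
      (univ.filter fun y : Fin n => y < x ∧ v.count y = 2).card +
      ((pat v).take (v.idxOf x)).count S) := by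
  have hxm : x ∈ v := List.count_pos_iff.1 (by omega)
  have hxl : v.idxOf x < v.length := List.idxOf_lt_length_iff.2 hxm
  have hil : i ≤ v.length := by omega
  have hidx : (v.insertIdx i x).idxOf x = i := by
    rw [T10_idx_self v x i hil]; omega
  have hchi : chiN (v.insertIdx i x) =
      (univ.filter fun y : Fin n => y < x ∧ v.count y = 1 ∧ i ≤ v.idxOf y).card := by
    unfold chiN
    refine Finset.card_bij (fun p _ => p.1) ?_ ?_ ?_
    · rintro ⟨a, b⟩ hp
      simp only [Finset.mem_filter, Finset.mem_univ, true_and] at hp ⊢
      obtain ⟨hab, hidx', hdbl⟩ := hp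
      by_cases hb : b = x
      · subst hb
        have ha : a ≠ b := ne_of_lt hab
        rw [hidx, T10_idx_ne v b a i hil ha] at hidx'
        rw [T10_count v b a i hil, T10_count v b b i hil, if_neg (Ne.symm ha), if_pos rfl, h]
          at hdbl
        refine ⟨hab, ?_, ?_⟩
        · rcases hv.1 a with h1 | h1
          · exact h1
          · exact absurd ⟨by omega, by norm_num⟩ hdbl
        · split_ifs at hidx' with h2
          · exact h2
          · omega
      · exfalso
        rw [T10_idx_ne v x b i hil hb] at hidx'
        have h3 := hcan a b hab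
        by_cases ha : a = x
        · subst ha
          rw [hidx] at hidx'
          omega
        · rw [T10_idx_ne v x a i hil ha] at hidx'
          split_ifs at hidx' <;> omega
    · rintro ⟨a, b⟩ hp ⟨a', b'⟩ hp' haa
      simp only at haa
      subst haa
      simp only [Finset.mem_filter, Finset.mem_univ, true_and] at hp hp'
      have key : ∀ b : Fin n, a < b → (v.insertIdx i x).idxOf b < (v.insertIdx i x).idxOf a →
          b = x := by
        intro b hab hidx'
        by_contra hb
        rw [T10_idx_ne v x b i hil hb] at hidx'
        have h3 := hcan a b hab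
        by_cases ha : a = x
        · subst ha
          rw [hidx] at hidx'
          omega
        · rw [T10_idx_ne v x a i hil ha] at hidx'
          split_ifs at hidx' <;> omega
      rw [key b hp.1 hp.2.1, key b' hp'.1 hp'.2.1]
    · intro y hy
      simp only [Finset.mem_filter, Finset.mem_univ, true_and] at hy
      refine ⟨(y, x), ?_, rfl⟩
      simp only [Finset.mem_filter, Finset.mem_univ, true_and]
      have hyx : y ≠ x := ne_of_lt hy.1
      refine ⟨hy.1, ?_, ?_⟩
      · rw [hidx, T10_idx_ne v x y i hil hyx, if_pos hy.2.2]
        omega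
      · rintro ⟨h1, -⟩
        rw [T10_count v x y i hil, if_neg (Ne.symm hyx), hy.2.1] at h1
        omega
  have hsum : chiN (v.insertIdx i x) + ((pat v).take i).count S =
      ((pat v).take (v.idxOf x)).count S := by
    rw [hchi, T10_count_take v S 1 (by norm_num) (pat_S v hv),
      T10_count_take v S 1 (by norm_num) (pat_S v hv)]
    have h1 : (univ.filter fun y : Fin n => v.count y = 1 ∧ v.idxOf y < v.idxOf x) =
        (univ.filter fun y : Fin n => y < x ∧ v.count y = 1 ∧ i ≤ v.idxOf y) ∪
        (univ.filter fun y : Fin n => v.count y = 1 ∧ v.idxOf y < i) := by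
      ext y
      simp only [Finset.mem_filter, Finset.mem_univ, true_and, Finset.mem_union]
      rw [T10_mono v hcan x y]
      constructor
      · rintro ⟨h1, h2⟩
        by_cases h3 : i ≤ v.idxOf y
        · exact Or.inl ⟨h2, h1, h3⟩
        · exact Or.inr ⟨h1, by omega⟩
      · rintro (⟨h1, h2, h3⟩ | ⟨h1, h2⟩)
        · exact ⟨h2, h1⟩
        · exact ⟨h1, by omega⟩
    rw [h1, Finset.card_union_of_disjoint]
    rw [Finset.disjoint_left]
    intro y hy hy'
    rw [Finset.mem_filter] at hy hy'
    omega
  have hbs : bsN (pat (v.insertIdx i x)) = bsN (pat v) + ((pat v).take (v.idxOf x)).count O +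
      ((pat v).take i).count S := by
    rw [pat_insert_left v hv x h i hi]
    exact T10_bs_left (pat v) (v.idxOf x) i (pat_getElem v hv x h) hi
  rw [hbs, T10_dbl v hv hcan x, ← hsum]
  exact ⟨chiN (v.insertIdx i x) + bsN (pat v) + ((pat v).take (v.idxOf x)).count O +
    ((pat v).take i).count S, by ring⟩

theorem sign_insert_right (v : List (Fin n)) (hv : FW v)
    (hcan : ∀ x y : Fin n, x < y → v.idxOf x < v.idxOf y) (x : Fin n) (h : v.count x = 1) (i : ℕ)
    (hi : v.idxOf x < i) (hi' : i ≤ v.length) :
    Even (chiN (v.insertIdx i x) + bsN (pat (v.insertIdx i x)) + bsN (pat v) +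
      (univ.filter fun y : Fin n => y < x ∧ v.count y = 2).card +
      ((pat v).take (v.idxOf x)).count S) := by
  have hidx : (v.insertIdx i x).idxOf x = v.idxOf x := by
    rw [T10_idx_self v x i hi']; omega
  have hchi : chiN (v.insertIdx i x) = 0 := by
    unfold chiN
    rw [Finset.card_eq_zero, Finset.filter_eq_empty_iff]
    rintro ⟨a, b⟩ - ⟨hab, hidx', -⟩
    simp only at hab hidx'
    have h3 := hcan a b hab
    by_cases ha : a = x
    · subst ha
      rw [hidx, T10_idx_ne v a b i hi' (ne_of_gt hab)] at hidx'
      omega
    · rw [T10_idx_ne v x a i hi' ha] at hidx'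
      by_cases hb : b = x
      · subst hb
        rw [hidx] at hidx'
        split_ifs at hidx' <;> omega
      · rw [T10_idx_ne v x b i hi' hb] at hidx'
        split_ifs at hidx' <;> omega
  have hbs : bsN (pat (v.insertIdx i x)) = bsN (pat v) + ((pat v).take (v.idxOf x)).count O +
      ((pat v).take (v.idxOf x)).count S := by
    rw [pat_insert_right v hv x h i hi hi']
    exact T10_bs_right (pat v) (v.idxOf x) i (pat_getElem v hv x h) hi
      (by rw [pat_length]; exact hi')
  rw [hbs, T10_dbl v hv hcan x, hchi]
  exact ⟨bsN (pat v) + ((pat v).take (v.idxOf x)).count O +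
    ((pat v).take (v.idxOf x)).count S, by ring⟩

end

end Pool.Agent.Helper5.NM
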