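import Pool.Agent.Helper5.NM.Defs
import Pool.Agent.Helper5.NM.G6

set_option autoImplicit false

open Finset Function

namespace Pool.Agent.Helper5.NM

open Let

section
variable {n N : ℕ}

/-! Module T2: the labelled word of a good cell all of whose fibres have one vertex
(`sz t = (im t).card`). -/

/-- in such a cell every token is used at most once -/
theorem inj_of_sz (t : Cel n N) (hs : sz t = (im t).card) (i j : Fin N) (a : Tok n)
    (hi : t i = some a) (hj : t j = some a) : i = j := by sorry

theorem lword_count (t : Cel n N) (hg : Good t) (hs : sz t = (im t).card) (x : Fin n) :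
    (lword t).count x = if (x, 1) ∈ im t then 2 else 1 := by sorry

theorem lword_length (t : Cel n N) (hg : Good t) (hs : sz t = (im t).card) :
    (lword t).length = n + nd t := by sorry

theorem lword_fw (t : Cel n N) (hg : Good t) (hs : sz t = (im t).card) : FW (lword t) := by sorry

/-- the order of the `L` vertices is the order of the first occurrences -/
theorem lword_idxOf (t : Cel n N) (hg : Good t) (hs : sz t = (im t).card) (x y : Fin n) :
    (lword t).idxOf x < (lword t).idxOf y ↔ x ≠ y ∧ sep t (x, 0) (y, 0) := by sorry

end

end Pool.Agent.Helper5.NM
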