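import Pool.Agent.Helper5.NM.Defs
import Pool.Agent.Helper5.NM.G6
import Pool.Agent.Helper5.NM.T2

set_option autoImplicit false

open Finset Function

namespace Pool.Agent.Helper5.NM

open Let

section
variable {n N : ℕ}

/-! Module T3: among good cells with fibres of one vertex the type is determined by the labelled
word and conversely. -/

theorem type_of_lword (t t' : Cel n N) (hg : Good t) (hg' : Good t') (hs : sz t = (im t).card)
    (hs' : sz t' = (im t').card) (h : lword t = lword t') : im t = im t' ∧ Rel t = Rel t' := by
  sorry

theorem lword_of_type (t t' : Cel n N) (hg : Good t) (hg' : Good t') (hs : sz t = (im t).card)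
    (hs' : sz t' = (im t').card) (him : im t = im t') (hR : Rel t = Rel t') :
    lword t = lword t' := by sorry

end

end Pool.Agent.Helper5.NM
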