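import Pool.Agent.Helper5.NM.Defs
import Pool.Agent.Helper5.NM.G2
import Pool.Agent.Helper5.NM.G6
import Pool.Agent.Helper5.NM.G7
import Pool.Agent.Helper5.NM.T2

set_option autoImplicit false

open Finset Function

namespace Pool.Agent.Helper5.NM

open Let

section
variable {n N : ℕ}

/-! Module T4: labelled words of faces. -/

/-- the letter of a token -/
private def T4_F (o : Option (Tok n)) : Option (Fin n) :=
  match o with
  | some a => if a.2 = 2 then none else some a.1
  | none => none

private theorem T4_lword (t : Cel n N) :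
    lword t = (List.finRange N).filterMap fun j => T4_F (t j) := by
  unfold lword
  rw [List.ofFn_eq_map, List.filterMap_map]
  rfl

private theorem T4_split (v : Fin N) : ∃ l1 l2 : List (Fin N), List.finRange N = l1 ++ v :: l2 ∧
    (∀ j ∈ l1, j < v) ∧ (∀ j ∈ l2, v < j) := by
  have hmem : v ∈ List.finRange N := List.mem_finRange v
  obtain ⟨l1, l2, h⟩ := List.append_of_mem hmem
  have hp : (List.finRange N).Pairwise (· < ·) := List.pairwise_lt_finRange N
  rw [h, List.pairwise_append] at hp
  refine ⟨l1, l2, h, fun j hj => ?_, fun j hj => ?_⟩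
  · exact hp.2.2 j hj v (by simp)
  · exact (List.pairwise_cons.1 hp.2.1).1 j hj

private theorem T4_F_some {o : Option (Tok n)} {x : Fin n} (h : T4_F o = some x) :
    o = some (x, 0) ∨ o = some (x, 1) := by
  unfold T4_F at h
  match o, h with
  | some (a, b), h =>
    simp only at h
    split_ifs at h with h1
    have h2 : a = x := Option.some.inj h
    subst h2
    fin_cases b
    · left; rfl
    · right; rfl
    · exact absurd rfl h1

private theorem T4_mem_im {t : Cel n N} {a : Tok n} : a ∈ im t ↔ ∃ i, t i = some a := by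
  simp [im]

theorem lword_splitL (t : Cel n N) (x : Fin n) (v : Fin N) (hv : t v = none) (hx : Sgl t x)
    (hg : Good (splitL t x v)) (hs : sz t = (im t).card) :
    lword t = (lword (splitL t x v)).erase x := by
  obtain ⟨l1, l2, h12, hl1, hl2⟩ := T4_split v
  have hF : ∀ j, j ≠ v → T4_F (splitL t x v j) = T4_F (t j) := by
    intro j hj
    unfold splitL
    rw [if_neg hj]
    split_ifs with h
    · rw [h]; rfl
    · rfl
  have hFv : T4_F (splitL t x v v) = some x := by
    unfold splitL
    rw [if_pos rfl]
    rfl
  have hA : l1.filterMap (fun j => T4_F (splitL t x v j)) = l1.filterMap (fun j => T4_F (t j)) := by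
    refine List.filterMap_congr fun j hj => hF j (ne_of_lt (hl1 j hj))
  have hB : l2.filterMap (fun j => T4_F (splitL t x v j)) = l2.filterMap (fun j => T4_F (t j)) := by
    refine List.filterMap_congr fun j hj => hF j (ne_of_gt (hl2 j hj))
  have e1 : lword (splitL t x v) = l1.filterMap (fun j => T4_F (t j)) ++
      x :: l2.filterMap (fun j => T4_F (t j)) := by
    rw [T4_lword, h12, List.filterMap_append, hA, List.filterMap_cons, hFv, hB]
  have e2 : lword t = l1.filterMap (fun j => T4_F (t j)) ++
      l2.filterMap (fun j => T4_F (t j)) := by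
    rw [T4_lword, h12, List.filterMap_append, List.filterMap_cons, hv]
    rfl
  have hx1 : x ∉ l1.filterMap (fun j => T4_F (t j)) := by
    intro hmem
    rw [List.mem_filterMap] at hmem
    obtain ⟨j, hj, hjx⟩ := hmem
    rcases T4_F_some hjx with h | h
    · have h3 : splitL t x v j = some (x, 1) := by
        unfold splitL
        rw [if_neg (ne_of_lt (hl1 j hj)), if_pos h]
      have h4 : splitL t x v v = some (x, 0) := by
        unfold splitL
        rw [if_pos rfl]
      have h5 := (hg.1 x).2.2.1 v j h4 h3
      exact absurd h5 (not_lt.2 (hl1 j hj).le)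
    · exact hx.2.1 (T4_mem_im.2 ⟨j, h⟩)
  rw [e1, e2, List.erase_append_right _ hx1, List.erase_cons_head]

theorem lword_splitR (t : Cel n N) (x : Fin n) (v : Fin N) (hv : t v = none) (hx : Sgl t x)
    (hg : Good (splitR t x v)) (hs : sz t = (im t).card) :
    lword t = erL x (lword (splitR t x v)) := by
  obtain ⟨j0, hj0⟩ := T4_mem_im.1 hx.2.2
  have hj0v : j0 ≠ v := by
    rintro rfl
    rw [hv] at hj0
    cases hj0
  obtain ⟨l1, l2, h12, hl1, hl2⟩ := T4_split j0
  have hF : ∀ j, j ≠ j0 → T4_F (splitR t x v j) = T4_F (t j) := by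
    intro j hj
    unfold splitR
    by_cases hjv : j = v
    · rw [if_pos hjv, hjv, hv]; rfl
    · rw [if_neg hjv]
      split_ifs with h
      · exact absurd (inj_of_sz t hs j j0 _ h hj0) hj
      · rfl
  have hFv : T4_F (splitR t x v j0) = some x := by
    unfold splitR
    rw [if_neg hj0v, if_pos hj0]
    rfl
  have hA : l1.filterMap (fun j => T4_F (splitR t x v j)) = l1.filterMap (fun j => T4_F (t j)) := by
    refine List.filterMap_congr fun j hj => hF j (ne_of_lt (hl1 j hj))
  have hB : l2.filterMap (fun j => T4_F (splitR t x v j)) = l2.filterMap (fun j => T4_F (t j)) := by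
    refine List.filterMap_congr fun j hj => hF j (ne_of_gt (hl2 j hj))
  have e1 : lword (splitR t x v) = l1.filterMap (fun j => T4_F (t j)) ++
      x :: l2.filterMap (fun j => T4_F (t j)) := by
    rw [T4_lword, h12, List.filterMap_append, hA, List.filterMap_cons, hFv, hB]
  have e2 : lword t = l1.filterMap (fun j => T4_F (t j)) ++
      l2.filterMap (fun j => T4_F (t j)) := by
    rw [T4_lword, h12, List.filterMap_append, List.filterMap_cons, hj0]
    rfl
  have hx1 : x ∉ l2.filterMap (fun j => T4_F (t j)) := by
    intro hmem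
    rw [List.mem_filterMap] at hmem
    obtain ⟨j, hj, hjx⟩ := hmem
    rcases T4_F_some hjx with h | h
    · have hjv : j ≠ v := by
        rintro rfl
        rw [hv] at h
        cases h
      have h3 : splitR t x v j = some (x, 0) := by
        unfold splitR
        rw [if_neg hjv, if_neg (by rw [h]; simp), h]
      have h4 : splitR t x v j0 = some (x, 1) := by
        unfold splitR
        rw [if_neg hj0v, if_pos hj0]
      have h5 := (hg.1 x).2.2.1 j j0 h3 h4
      exact absurd h5 (not_lt.2 (hl2 j hj).le)
    · exact hx.2.1 (T4_mem_im.2 ⟨j, h⟩)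
  unfold erL
  rw [e1, e2, List.reverse_append, List.reverse_cons, List.append_assoc,
    List.erase_append_right _ (by simpa using hx1), List.singleton_append, List.erase_cons_head,
    List.reverse_append, List.reverse_reverse, List.reverse_reverse]

/-- every double label of a good cell with fibres of one vertex can be merged on the left -/
theorem exists_splitL (t' : Cel n N) (x : Fin n) (hg : Good t') (hs : sz t' = (im t').card)
    (hx : (x, 1) ∈ im t') :
    ∃ (t : Cel n N) (v : Fin N), t v = none ∧ Sgl t x ∧ splitL t x v = t' ∧ Good t ∧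
      sz t = (im t).card := by
  obtain ⟨v, hv⟩ := T4_mem_im.1 (hg.1 x).1
  obtain ⟨i1, hi1⟩ := T4_mem_im.1 hx
  obtain ⟨i2, hi2⟩ := T4_mem_im.1 (hg.1 x).2.1
  set t : Cel n N := fun j => if j = v then none else if t' j = some (x, 1) then some (x, 0)
    else t' j with ht
  have htv : t v = none := by rw [ht]; simp
  have hval : ∀ j, j ≠ v → t j = if t' j = some (x, 1) then some (x, 0) else t' j := by
    intro j hj
    rw [ht]
    simp only [hj, if_false]
  have hi1v : i1 ≠ v := by
    rintro rfl
    rw [hv] at hi1
    simp at hi1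
  have hi2v : i2 ≠ v := by
    rintro rfl
    rw [hv] at hi2
    simp at hi2
  have hsgl : Sgl t x := by
    refine ⟨T4_mem_im.2 ⟨i1, ?_⟩, ?_, T4_mem_im.2 ⟨i2, ?_⟩⟩
    · rw [hval i1 hi1v, if_pos hi1]
    · intro h
      obtain ⟨j, hj⟩ := T4_mem_im.1 h
      by_cases hjv : j = v
      · rw [hjv, htv] at hj
        cases hj
      · rw [hval j hjv] at hj
        split_ifs at hj with h1
        · simp at hj
        · exact h1 hj
    · rw [hval i2 hi2v, if_neg (by rw [hi2]; simp), hi2]
  have hsp : splitL t x v = t' := by
    funext j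
    unfold splitL
    by_cases hjv : j = v
    · rw [if_pos hjv, hjv, hv]
    · rw [if_neg hjv, hval j hjv]
      by_cases h1 : t' j = some (x, 1)
      · rw [if_pos h1, if_pos rfl, h1]
      · rw [if_neg h1, if_neg]
        intro h2
        exact hjv (inj_of_sz t' hs j v _ h2 hv)
  have hgood : Good t := good_splitL t x v htv hsgl (by rw [hsp]; exact hg)
  refine ⟨t, v, htv, hsgl, hsp, hgood, ?_⟩
  have h1 := sz_splitL t x v htv
  have h2 := im_splitL t x v htv hsgl
  rw [hsp] at h1 h2
  rw [h2, Finset.card_insert_of_notMem hsgl.2.1] at hs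
  omega

theorem exists_splitR (t' : Cel n N) (x : Fin n) (hg : Good t') (hs : sz t' = (im t').card)
    (hx : (x, 1) ∈ im t') :
    ∃ (t : Cel n N) (v : Fin N), t v = none ∧ Sgl t x ∧ splitR t x v = t' ∧ Good t ∧
      sz t = (im t).card := by
  obtain ⟨v, hv⟩ := T4_mem_im.1 (hg.1 x).2.1
  obtain ⟨i1, hi1⟩ := T4_mem_im.1 hx
  obtain ⟨i2, hi2⟩ := T4_mem_im.1 (hg.1 x).1
  set t : Cel n N := fun j => if j = v then none else if t' j = some (x, 1) then some (x, 2)
    else t' j with ht
  have htv : t v = none := by rw [ht]; simp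
  have hval : ∀ j, j ≠ v → t j = if t' j = some (x, 1) then some (x, 2) else t' j := by
    intro j hj
    rw [ht]
    simp only [hj, if_false]
  have hi1v : i1 ≠ v := by
    rintro rfl
    rw [hv] at hi1
    simp at hi1
  have hi2v : i2 ≠ v := by
    rintro rfl
    rw [hv] at hi2
    simp at hi2
  have hsgl : Sgl t x := by
    refine ⟨T4_mem_im.2 ⟨i2, ?_⟩, ?_, T4_mem_im.2 ⟨i1, ?_⟩⟩
    · rw [hval i2 hi2v, if_neg (by rw [hi2]; simp), hi2]
    · intro h
      obtain ⟨j, hj⟩ := T4_mem_im.1 h
      by_cases hjv : j = v
      · rw [hjv, htv] at hj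
        cases hj
      · rw [hval j hjv] at hj
        split_ifs at hj with h1
        · simp at hj
        · exact h1 hj
    · rw [hval i1 hi1v, if_pos hi1]
  have hsp : splitR t x v = t' := by
    funext j
    unfold splitR
    by_cases hjv : j = v
    · rw [if_pos hjv, hjv, hv]
    · rw [if_neg hjv, hval j hjv]
      by_cases h1 : t' j = some (x, 1)
      · rw [if_pos h1, if_pos rfl, h1]
      · rw [if_neg h1, if_neg]
        intro h2
        exact hjv (inj_of_sz t' hs j v _ h2 hv)
  have hgood : Good t := good_splitR t x v htv hsgl (by rw [hsp]; exact hg)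
  refine ⟨t, v, htv, hsgl, hsp, hgood, ?_⟩
  have h1 := sz_splitR t x v htv
  have h2 := im_splitR t x v htv hsgl
  rw [hsp] at h1 h2
  rw [h2, Finset.card_insert_of_notMem hsgl.2.1] at hs
  omega

theorem splitL_inj (t t' : Cel n N) (x : Fin n) (v v' : Fin N) (hv : t v = none)
    (hv' : t' v' = none) (hx : Sgl t x) (hx' : Sgl t' x) (hs : sz t = (im t).card)
    (hs' : sz t' = (im t').card) (hg : Good (splitL t x v))
    (h : splitL t x v = splitL t' x v') : t = t' ∧ v = v' := by
  have key : ∀ (s : Cel n N) (w : Fin N), splitL s x w w = some (x, 0) := by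
    intro s w
    unfold splitL
    rw [if_pos rfl]
  have key2 : ∀ (s : Cel n N) (w j : Fin N), splitL s x w j = some (x, 0) → j = w := by
    intro s w j hj
    unfold splitL at hj
    by_contra hne
    rw [if_neg hne] at hj
    split_ifs at hj with h1
    · simp at hj
    · exact h1 hj
  have hvv : v = v' := by
    have h1 := key t v
    rw [h] at h1
    exact key2 t' v' v h1
  subst hvv
  refine ⟨?_, rfl⟩
  funext j
  by_cases hj : j = v
  · rw [hj, hv, hv']
  · have h1 := congrFun h j
    unfold splitL at h1
    rw [if_neg hj, if_neg hj] at h1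
    split_ifs at h1 with h2 h3 h3
    · rw [h2, h3]
    · exact absurd (T4_mem_im.2 ⟨j, h1.symm⟩) hx'.2.1
    · exact absurd (T4_mem_im.2 ⟨j, h1⟩) hx.2.1
    · exact h1

theorem splitR_inj (t t' : Cel n N) (x : Fin n) (v v' : Fin N) (hv : t v = none)
    (hv' : t' v' = none) (hx : Sgl t x) (hx' : Sgl t' x) (hs : sz t = (im t).card)
    (hs' : sz t' = (im t').card) (hg : Good (splitR t x v))
    (h : splitR t x v = splitR t' x v') : t = t' ∧ v = v' := by
  have key : ∀ (s : Cel n N) (w : Fin N), splitR s x w w = some (x, 2) := by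
    intro s w
    unfold splitR
    rw [if_pos rfl]
  have key2 : ∀ (s : Cel n N) (w j : Fin N), splitR s x w j = some (x, 2) → j = w := by
    intro s w j hj
    unfold splitR at hj
    by_contra hne
    rw [if_neg hne] at hj
    split_ifs at hj with h1
    · simp at hj
    · exact h1 hj
  have hvv : v = v' := by
    have h1 := key t v
    rw [h] at h1
    exact key2 t' v' v h1
  subst hvv
  refine ⟨?_, rfl⟩
  funext j
  by_cases hj : j = v
  · rw [hj, hv, hv']
  · have h1 := congrFun h j
    unfold splitR at h1
    rw [if_neg hj, if_neg hj] at h1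
    split_ifs at h1 with h2 h3 h3
    · rw [h2, h3]
    · exact absurd (T4_mem_im.2 ⟨j, h1.symm⟩) hx'.2.1
    · exact absurd (T4_mem_im.2 ⟨j, h1⟩) hx.2.1
    · exact h1

end

end Pool.Agent.Helper5.NM
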