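import Pool.Agent.Helper5.NM.Defs
import Pool.Agent.Helper5.NM.T1
import Pool.Agent.Helper5.NM.T2

set_option autoImplicit false

open Finset Function

namespace Pool.Agent.Helper5.NM

open Let

section

/-- properties of the system of representatives of the top types -/
structure IsRep (n k N : ℕ) (rep : List (Fin n) → Cel n N) : Prop where
  good : ∀ u, FW u → u.length = n + k → Good (rep u)
  sz : ∀ u, FW u → u.length = n + k → sz (rep u) = N
  nd : ∀ u, FW u → u.length = n + k → nd (rep u) = k
  word : ∀ u, FW u → u.length = n + k → lword (rep u) = u
  act : ∀ u (σ : Equiv.Perm (Fin n)), FW u → u.length = n + k →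
    rep (u.map σ) = act σ (rep u)

/-! Module T5: existence of representatives (explicit linear extension). -/

theorem exists_rep (n k N : ℕ) (hN : N = 2 * n + k) : ∃ rep, IsRep n k N rep := by sorry

end

end Pool.Agent.Helper5.NM
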