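import Pool.Agent.Helper5.NM.Defs
import Pool.Agent.Helper5.NM.G5
import Pool.Agent.Helper5.NM.T1
import Pool.Agent.Helper5.NM.T2

set_option autoImplicit false

open Finset Function

namespace Pool.Agent.Helper5.NM

open Let

section
variable {n N : ℕ}

/-! Module T6: the total sign is antisymmetric. -/

theorem sign_anti (t : Cel n N) (hg : Good t) (hs : sz t = (im t).card)
    (σ : Equiv.Perm (Fin n)) :
    (-1 : ℤ) ^ (invs key (act σ t) + chiN ((lword t).map σ)) =
      (Equiv.Perm.sign σ : ℤ) * (-1 : ℤ) ^ (invs key t + chiN (lword t)) := by sorry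

end

end Pool.Agent.Helper5.NM
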