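import Pool.Agent.Helper5.NM.Defs
import Pool.Agent.Helper5.NM.G5
import Pool.Agent.Helper5.NM.G6
import Pool.Agent.Helper5.NM.T1
import Pool.Agent.Helper5.NM.T2
import Pool.Agent.Helper5.NM.T5
import Pool.Agent.Helper5.NM.T6

set_option autoImplicit false

open Finset Function

namespace Pool.Agent.Helper5.NM

open Let

section
variable {n N : ℕ} {K : Type*} [CommRing K]

/-- the top chain -/
noncomputable def Top (k : ℕ) (ζ : Word →₀ K) (rep : List (Fin n) → Cel n N) (t : Cel n N) : K :=
  open Classical in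
  if Good t ∧ nd t = k ∧ sz t = N ∧ t = rep (lword t) then
    (-1 : K) ^ invs key t * ZZ ζ (lword t) else 0

/-! Module T7: the top chain is antisymmetric. -/

theorem T7_act_inj (σ : Equiv.Perm (Fin n)) (t t' : Cel n N) (h : act σ t = act σ t') :
    t = t' := by
  have h1 := congrArg (act σ⁻¹) h
  rw [← act_mul, ← act_mul, inv_mul_cancel, act_one, act_one] at h1
  exact h1

theorem antiS_Top (k : ℕ) (hN : N = 2 * n + k) (ζ : Word →₀ K) (rep : List (Fin n) → Cel n N)
    (hrep : IsRep n k N rep) : AntiS (Top k ζ rep) := by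
  intro σ t
  unfold Top
  have hcond : (Good (act σ t) ∧ nd (act σ t) = k ∧ sz (act σ t) = N ∧
      act σ t = rep (lword (act σ t))) ↔
      (Good t ∧ nd t = k ∧ sz t = N ∧ t = rep (lword t)) := by
    rw [good_act, nd_act, sz_act, lword_act]
    refine and_congr_right fun hg => and_congr_right fun hk => and_congr_right fun hs => ?_
    have hc : sz t = (im t).card := by rw [card_im t hg, hk, hs, hN]
    have hfw : FW (lword t) := lword_fw t hg hc
    have hlen : (lword t).length = n + k := by rw [lword_length t hg hc, hk]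
    rw [hrep.act (lword t) σ hfw hlen]
    exact ⟨fun h => T7_act_inj σ _ _ h, fun h => congrArg (act σ) h⟩
  by_cases h : Good t ∧ nd t = k ∧ sz t = N ∧ t = rep (lword t)
  · rw [if_pos h, if_pos (hcond.2 h)]
    obtain ⟨hg, hk, hs, -⟩ := h
    have hc : sz t = (im t).card := by rw [card_im t hg, hk, hs, hN]
    have hsg := congrArg (Int.cast : ℤ → K) (sign_anti t hg hc σ)
    push_cast at hsg
    unfold ZZ
    rw [lword_act, pat_map, pow_add, pow_add]
    rw [pow_add, pow_add] at hsg
    calc (-1 : K) ^ invs key (act σ t) *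
          ((-1) ^ chiN (List.map (⇑σ) (lword t)) * (-1) ^ bsN (pat (lword t)) *
            ζ (pat (lword t)))
        = ((-1 : K) ^ invs key (act σ t) * (-1) ^ chiN (List.map (⇑σ) (lword t))) *
            ((-1) ^ bsN (pat (lword t)) * ζ (pat (lword t))) := by ring
      _ = _ := by rw [hsg]; ring
  · rw [if_neg h, if_neg (fun h' => h (hcond.1 h')), mul_zero]

theorem supp_Top (k : ℕ) (ζ : Word →₀ K) (rep : List (Fin n) → Cel n N) (t : Cel n N)
    (h : Top k ζ rep t ≠ 0) : Good t ∧ nd t = k ∧ sz t = N := by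
  unfold Top at h
  split_ifs at h with h1
  · exact ⟨h1.1, h1.2.1, h1.2.2.1⟩
  · exact absurd rfl h

end

end Pool.Agent.Helper5.NM
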