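import Pool.Agent.Helper5.NM.Defs
import Pool.Agent.Helper5.NM.G2
import Pool.Agent.Helper5.NM.G6
import Pool.Agent.Helper5.NM.G7
import Pool.Agent.Helper5.NM.P4
import Pool.Agent.Helper5.NM.T2
import Pool.Agent.Helper5.NM.T3
import Pool.Agent.Helper5.NM.T4
import Pool.Agent.Helper5.NM.T5
import Pool.Agent.Helper5.NM.T7

set_option autoImplicit false

open Finset Function

namespace Pool.Agent.Helper5.NM

open Let

section
variable {n N : ℕ} {K : Type*} [CommRing K]

/-- the boundary of `ZZ ζ` at the labelled word `v`, by insertions -/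
noncomputable def wsum (ζ : Word →₀ K) (v : List (Fin n)) : K :=
  open Classical in
  ∑ x : Fin n, if v.count x = 1 then
    (-1 : K) ^ (univ.filter fun y : Fin n => y < x ∧ v.count y = 2).card *
      ((∑ i ∈ range (v.idxOf x + 1),
          if FW (v.insertIdx i x) then ZZ ζ (v.insertIdx i x) else 0) -
       (∑ i ∈ Ioc (v.idxOf x) v.length,
          if FW (v.insertIdx i x) then ZZ ζ (v.insertIdx i x) else 0)) else 0

/-! Module T8: the augmentation of the external boundary of the top chain on a type. -/

theorem aug_Top (k : ℕ) (hN : N = 2 * n + (k + 1)) (ζ : Word →₀ K)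
    (rep : List (Fin n) → Cel n N) (hrep : IsRep n (k + 1) N rep) (t : Cel n N) (hg : Good t)
    (hnd : nd t = k) (hs : sz t + 1 = N) :
    aug key (restr (Rel t) (im t) (dExt (Top (k + 1) ζ rep))) = wsum ζ (lword t) := by sorry

end

end Pool.Agent.Helper5.NM
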