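import Pool.Agent.Helper5.NM.Defs
import Pool.Agent.Helper5.NM.B5
import Pool.Agent.Helper5.NM.T8
import Pool.Agent.Helper5.NM.T9
import Pool.Agent.Helper5.NM.T10

set_option autoImplicit false

open Finset Function

namespace Pool.Agent.Helper5.NM

open Let

section
variable {n : ℕ} {K : Type*} [CommRing K]

/-! Module T11: the word identity. -/

theorem wsum_eq (ζ : Word →₀ K) (hζ : ∀ w ∈ ζ.support, Bal w) (v : List (Fin n)) (hv : FW v)
    (hcan : ∀ x y : Fin n, x < y → v.idxOf x < v.idxOf y) :
    wsum ζ v = -((-1 : K) ^ bsN (pat v) * dW K ζ (pat v)) := by sorry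

end

end Pool.Agent.Helper5.NM
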