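import Pool.Agent.Helper5.NM.Defs
import Pool.Agent.Helper5.NM.G6
import Pool.Agent.Helper5.NM.T2
import Pool.Agent.Helper5.NM.T3
import Pool.Agent.Helper5.NM.T5
import Pool.Agent.Helper5.NM.T7

set_option autoImplicit false

open Finset Function

namespace Pool.Agent.Helper5.NM

open Let

section
variable {K : Type*} [CommRing K]

/-! Module T12: the frame. -/

/-- the frame word `0 1 ... k 0 1 ... (k-1)` -/
def frw (k : ℕ) : List (Fin (k + 1)) := List.finRange (k + 1) ++ (List.finRange (k + 1)).dropLast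

theorem frw_fw (k : ℕ) : FW (frw k) ∧ (frw k).length = 2 * k + 1 ∧ pat (frw k) = cw (k + 1) := by
  sorry

theorem lword_frame (k : ℕ) (t : Cel (k + 1) (3 * k + 2)) (h : Frame k t) : lword t = frw k := by
  sorry

theorem frame_sum (k : ℕ) (ζ : Word →₀ K) (rep : List (Fin (k + 1)) → Cel (k + 1) (3 * k + 2))
    (hrep : IsRep (k + 1) k (3 * k + 2) rep) :
    ∃ m : ℕ, ∑ t, (open Classical in if Frame k t then (-1 : K) ^ invs key t * Top k ζ rep t
      else 0) = (-1 : K) ^ m * ζ (cw (k + 1)) := by sorry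

end

end Pool.Agent.Helper5.NM
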