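import Pool.Agent.Helper5.NM.Defs
import Pool.Agent.Helper5.NM.G6
import Pool.Agent.Helper5.NM.G11
import Pool.Agent.Helper5.NM.Q13
import Pool.Agent.Helper5.NM.Q14
import Pool.Agent.Helper5.NM.Q15
import Pool.Agent.Helper5.NM.B6
import Pool.Agent.Helper5.NM.B15
import Pool.Agent.Helper5.NM.T2
import Pool.Agent.Helper5.NM.T5
import Pool.Agent.Helper5.NM.T7
import Pool.Agent.Helper5.NM.T8
import Pool.Agent.Helper5.NM.T9
import Pool.Agent.Helper5.NM.T11
import Pool.Agent.Helper5.NM.T12

set_option autoImplicit false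

open Finset Function

namespace Pool.Agent.Helper5.NM

open Let

section

/-! Module Z: assembly. -/

theorem cert_of_zeta {K : Type*} [CommRing K] [Nontrivial K] (k : ℕ) (ζ : Word →₀ K)
    (hζ : ∀ w ∈ ζ.support, Bal w) (hd : dW K ζ = 0) (h1 : ζ (cw (k + 1)) = 1) :
    ∃ w, Cert (k + 1) (3 * k + 2) K w := by
  obtain ⟨rep, hrep⟩ := exists_rep (k + 1) k (3 * k + 2) (by ring)
  have hA := antiS_Top (K := K) (n := k + 1) (N := 3 * k + 2) k (by ring) ζ rep hrep
  obtain ⟨Ξ, hΞA, hΞ1, hΞ2, hΞ3⟩ := descent k (Top k ζ rep) hA (fun t ht => supp_Top k ζ rep t ht)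
    (by
      intro j hj
      subst hj
      intro t hg hc hnd hs
      rw [aug_Top j (by ring) ζ rep hrep t hg hnd (by omega)]
      have hs' : sz t = (im t).card := by rw [card_im t hg]; omega
      rw [wsum_eq ζ hζ (lword t) (lword_fw t hg hs') ?_, hd]
      · simp
      · intro x y hxy
        rw [lword_idxOf t hg hs']
        exact ⟨ne_of_lt hxy, hc x y hxy⟩)
  refine cert_of_cycle k Ξ hΞA hΞ1 hΞ2 ?_
  obtain ⟨m, hm⟩ := frame_sum k ζ rep hrep
  have : ∑ t, (open Classical in if Frame k t then (-1 : K) ^ invs key t * Ξ t else 0) =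
      ∑ t, (open Classical in if Frame k t then (-1 : K) ^ invs key t * Top k ζ rep t else 0) := by
    refine Finset.sum_congr rfl fun t _ => ?_
    by_cases hf : Frame k t
    · simp only [hf, if_true]
      have hg := hf.1
      have : nd t = k := by
        have h0 : (univ.filter fun x : Fin (k + 1) => (x, (1 : Fin 3)) ∈ im t) =
            univ.erase (Fin.last k) := by
          ext x
          simp only [mem_filter, mem_univ, true_and, mem_erase, and_true]
          constructor
          · rintro h rfl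
            exact hf.2.2.2.1 h
          · intro h
            exact (hf.2.2.2.2 x h).1
        unfold nd
        rw [h0, card_erase_of_mem (mem_univ _)]
        simp
      rw [hΞ3 t this]
    · simp only [hf, if_false]
  rw [this, hm, h1, mul_one]
  intro h0
  have : ((-1 : K) ^ m) ^ 2 = 0 := by rw [h0]; ring
  rw [← pow_mul, mul_comm, pow_mul] at this
  simp at this

theorem main (p : ℕ) [hp : Fact p.Prime] : Arrows (3 * p - 1) p := by
  obtain ⟨ζ, h1, h2, h3⟩ := exists_zeta p
  obtain ⟨k, rfl⟩ : ∃ k, p = k + 1 := ⟨p - 1, by have := hp.out.pos; omega⟩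
  obtain ⟨w, hw⟩ := cert_of_zeta k ζ (fun w hw => (h1 w hw).1) h2 h3
  have := arrows_of_cert w hw
  have e : 3 * (k + 1) - 1 = 3 * k + 2 := by omega
  rw [e]
  exact this

theorem main_egz (p : ℕ) [hp : Fact p.Prime] (x : Fin (3 * p - 1) → Fin (3 * p - 1) → ZMod p) :
    ∃ S : Finset (Fin (3 * p - 1) × Fin (3 * p - 1)), IsNonNestedMatching S ∧ S.card = p ∧
      ∑ e ∈ S, x e.1 e.2 = 0 := by
  obtain ⟨ζ, h1, h2, h3⟩ := exists_zeta p
  obtain ⟨w, hw⟩ : ∃ w, Cert p (3 * p - 1) (ZMod p) w := by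
    obtain ⟨k, hk⟩ : ∃ k, p = k + 1 := ⟨p - 1, by have := hp.out.pos; omega⟩
    have e : 3 * p - 1 = 3 * k + 2 := by omega
    rw [e]
    have := cert_of_zeta (K := ZMod p) k ζ (fun w hw => (h1 w hw).1) h2 (by rw [← hk]; exact h3)
    rw [← hk] at this
    exact this
  exact egz_of_cert p _ w hw x

end

end Pool.Agent.Helper5.NM
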